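import Pool.Agent.H95.DL.Def2
import Pool.Agent.H66.SP.Eigs

/-!
# Job DL-19: the set of eigenvalues is finite

PROOF of `EE_finite`.  Let `B` be the bilinear setting: for distinct `μ_1, ..., μ_m` and nonzero
`w_i ∈ EE K G ts μ_i` the vectors `w_i` are linearly independent.  For instance: let
`P x = x - ∑_{q ∈ ts} (q·x / nz q) q` (the projection to the orthogonal space of the tests; `nz q` is
invertible as it divides `12` and `6 ≠ 0`), `T = P ∘ S` as a linear map on `V → K`.  For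
`w ∈ EE K G ts μ`: `P w = w`, `P q = 0` for the tests, so `T w = P (S w) = P (μ w + ∑ c_q q) = μ w`:
`w` is an eigenvector of `T` with eigenvalue `μ`.  The matrix of `T` has at most `|V|` eigenvalues
(`Pool.Agent.H66.SP.card_eigs` for the matrix `A = P * S`).
A shorter way to avoid the projection: with `A = S - ∑_q ((12 / nz q)/12 • q q^T) S`
(`Matrix.vecMulVec`).
`mem_DSf`: the set `{x | x.2 ∈ DD iso (K x.1) G ts}` is a finite union (over `i : ι`) of finite sets.
`card_DSf_C`: one place.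
-/

set_option autoImplicit false

namespace Pool.Agent.H95.DL

open Matrix Classical Pool.Agent.H66.SP Pool.Agent.H95.SQ

theorem Ds_dot_self (K : Type*) [Field K] {V : Type*} [Fintype V] (q : V → ℤ) (hq : IsTest q) :
    cv K q ⬝ᵥ cv K q = (nz q : K) := by
  have h : ∀ v, cv K q v * cv K q v = if q v ≠ 0 then (1 : K) else 0 := by
    intro v
    unfold cv
    rcases hq.1 v with h | h | h <;> simp [h]
  simp only [dotProduct, h]
  rw [Finset.sum_boole]
  unfold nz
  congr

theorem Ds_nz_ne (K : Type*) [Field K] (h6 : (6 : K) ≠ 0) {V : Type*} [Fintype V] (q : V → ℤ)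
    (hq : IsTest q) : (nz q : K) ≠ 0 := by
  have h2 : (2 : K) ≠ 0 := by
    intro h
    apply h6
    have : (6 : K) = 2 * 3 := by norm_num
    rw [this, h, zero_mul]
  rcases hq.2 with h | h | h
  · rw [h]; exact_mod_cast h2
  · rw [h]
    have : ((4 : ℕ) : K) = 2 * 2 := by norm_num
    rw [this]
    exact mul_ne_zero h2 h2
  · rw [h]; exact_mod_cast h6

theorem Ds_dot_ne (K : Type*) [Field K] {V : Type*} [Fintype V] (q r : V → ℤ)
    (h : ∀ v, q v = 0 ∨ r v = 0) : cv K q ⬝ᵥ cv K r = 0 := by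
  simp only [dotProduct]
  refine Finset.sum_eq_zero fun v _ => ?_
  unfold cv
  rcases h v with h | h <;> simp [h]

/-- the projection to the orthogonal space of the tests -/
noncomputable def DsP (K : Type*) [Field K] {V : Type*} [Fintype V] [DecidableEq V]
    (ts : List (V → ℤ)) : Matrix V V K :=
  1 - ∑ q ∈ ts.toFinset, (nz q : K)⁻¹ • Matrix.vecMulVec (cv K q) (cv K q)

theorem DsP_mulVec (K : Type*) [Field K] {V : Type*} [Fintype V] [DecidableEq V]
    (ts : List (V → ℤ)) (w : V → K) :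
    DsP K ts *ᵥ w = w - ∑ q ∈ ts.toFinset, ((nz q : K)⁻¹ * (cv K q ⬝ᵥ w)) • cv K q := by
  unfold DsP
  rw [Matrix.sub_mulVec, Matrix.one_mulVec, Matrix.sum_mulVec]
  congr 1
  refine Finset.sum_congr rfl fun q _ => ?_
  rw [Matrix.smul_mulVec, Matrix.vecMulVec_mulVec]
  ext v
  simp only [Pi.smul_apply, smul_eq_mul, MulOpposite.smul_eq_mul_unop, MulOpposite.unop_op]
  ring

theorem EE_finite (K : Type*) [Field K] (h6 : (6 : K) ≠ 0) {V : Type*} [Fintype V]
    [DecidableEq V] (G : SimpleGraph V) (ts : List (V → ℤ)) (hts : Fam ts) :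
    ∃ A : Finset K, A.card ≤ Fintype.card V ∧ ∀ μ : K, (∃ w ∈ EE K G ts μ, w ≠ 0) → μ ∈ A := by
  obtain ⟨A, hA1, hA2⟩ := card_eigs (DsP K ts * sei K G)
  refine ⟨A, hA1, fun μ hμ => hA2 μ ?_⟩
  obtain ⟨w, hw, hw0⟩ := hμ
  obtain ⟨hw1, hw2⟩ := (mem_EE G ts μ w).1 hw
  have hPw : DsP K ts *ᵥ w = w := by
    rw [DsP_mulVec]
    rw [Finset.sum_eq_zero, sub_zero]
    intro q hq
    rw [hw1 q (List.mem_toFinset.1 hq), mul_zero, zero_smul]
  have hPr : ∀ y ∈ Submodule.span K {y : V → K | ∃ q ∈ ts, y = cv K q}, DsP K ts *ᵥ y = 0 := by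
    intro y hy
    induction hy using Submodule.span_induction with
    | mem y hy =>
      obtain ⟨r, hr, rfl⟩ := hy
      rw [DsP_mulVec, Finset.sum_eq_single r]
      · rw [Ds_dot_self K r (hts.1 r hr), inv_mul_cancel₀ (Ds_nz_ne K h6 r (hts.1 r hr)), one_smul,
          sub_self]
      · intro q hq hqr
        have : Std.Symm (fun q r : V → ℤ => ∀ v, q v = 0 ∨ r v = 0) :=
          ⟨fun q r h v => (h v).symm⟩
        have := List.Pairwise.forall (R := fun q r : V → ℤ => ∀ v, q v = 0 ∨ r v = 0)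
          (hts.2) (List.mem_toFinset.1 hq) hr hqr
        rw [Ds_dot_ne K q r this, mul_zero, zero_smul]
      · intro h
        exact absurd (List.mem_toFinset.2 hr) h
    | zero => exact Matrix.mulVec_zero _
    | add x y _ _ hx hy => rw [Matrix.mulVec_add, hx, hy, add_zero]
    | smul c x _ hx => rw [Matrix.mulVec_smul, hx, smul_zero]
  have h3 := hPr _ hw2
  rw [Matrix.mulVec_sub, Matrix.mulVec_smul, hPw, sub_eq_zero] at h3
  intro hbot
  apply hw0
  have h4 : w ∈ eig (DsP K ts * sei K G) μ := by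
    rw [mem_eig, ← Matrix.mulVec_mulVec, h3]
  rw [hbot] at h4
  exact (Submodule.mem_bot K).1 h4

theorem Ds_DD_finite (K : Type*) [Field K] (h6 : (6 : K) ≠ 0) (iso : Prop) {V : Type*} [Fintype V]
    [DecidableEq V] (G : SimpleGraph V) (ts : List (V → ℤ)) (hts : Fam ts) :
    (DD iso K G ts).Finite := by
  obtain ⟨A, _, hA⟩ := EE_finite K h6 G ts hts
  refine A.finite_toSet.subset ?_
  rintro μ ⟨w, hw, hw0, _⟩
  exact hA μ ⟨w, hw, hw0⟩

theorem mem_DSf {ι : Type} [Fintype ι] (K : ι → Type) [∀ i, Field (K i)]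
    (h6 : ∀ i, (6 : K i) ≠ 0) (iso : Prop) {V : Type} [Fintype V] [DecidableEq V]
    (G : SimpleGraph V) (ts : List (V → ℤ)) (hts : Fam ts) (x : Σ i, K i) :
    x ∈ DSf K iso G ts ↔ x.2 ∈ DD iso (K x.1) G ts := by
  have h : {x : Σ i, K i | x.2 ∈ DD iso (K x.1) G ts}.Finite := by
    have h1 : (⋃ i, (Sigma.mk i '' (DD iso (K i) G ts) : Set (Σ i, K i))).Finite :=
      Set.finite_iUnion fun i => (Ds_DD_finite (K i) (h6 i) iso G ts hts).image _
    refine h1.subset ?_
    rintro ⟨i, μ⟩ hx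
    rw [Set.mem_iUnion]
    exact ⟨i, μ, hx, rfl⟩
  unfold DSf
  rw [dif_pos h, Set.Finite.mem_toFinset]
  rfl

theorem card_DSf_C (iso : Prop) {V : Type} [Fintype V] [DecidableEq V]
    (G : SimpleGraph V) (ts : List (V → ℤ)) (hts : Fam ts) :
    (DSf KC iso G ts).card ≤ Fintype.card V := by
  obtain ⟨A, hA1, hA2⟩ := EE_finite ℂ (by norm_num) G ts hts
  refine le_trans ?_ hA1
  refine Finset.card_le_card_of_injOn (fun x => x.2) ?_ ?_
  · intro x hx
    rw [Finset.mem_coe] at hx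
    have h1 := (mem_DSf KC (fun _ => by norm_num) iso G ts hts x).1 hx
    obtain ⟨w, hw, hw0, _⟩ := h1
    exact hA2 _ ⟨w, hw, hw0⟩
  · rintro ⟨i, μ⟩ _ ⟨j, ν⟩ _ h
    have h' : μ = ν := h
    subst h'
    rfl

end Pool.Agent.H95.DL
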