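import Pool.Agent.H95.DL.Hyp
import Pool.Agent.H95.DL.Ds

/-!
# Job DL-36: the top level

PROOF of `EE_nil`: the span of the empty set is `⊥`.
PROOF of `rec_top`.  Fix `G` with `OK G []`.  The pairs `(i, μ)` of the event are the elements `x` of
`DSf G []` (`mem_DSf`, `Fam []`).  For `x` not fine: at most `2^N` vectors `b`; their number is `NF`.
For `x` fine: `w = c w₁` or `c w₂`, `c ≠ 0`, so `w_i` is nonzero, isotropic and `sv b · w_i = 0`, i.e.
`∑ b_v (w_i)_v = (∑ (w_i)_v) / 2`; by `hLB` (`F = univ`, `su [] = ∅`, `nz w_i > s ≥ s1, s2` by `nse`) at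
most `2^N (α + a kapS(w_i)/n^6)` vectors `b` for each `i`, `kapS(w_i) ≤ kapE(x)`.  Sum over `x` and over
the good `G`.
-/

set_option autoImplicit false

namespace Pool.Agent.H95.DL

open Matrix Classical Pool.Agent.H66.SP Pool.Agent.H95.SQ

theorem EE_nil (K : Type*) [Field K] {V : Type*} [Fintype V] (G : SimpleGraph V) (μ : K)
    (w : V → K) : w ∈ EE K G [] μ ↔ sei K G *ᵥ w = μ • w := by
  rw [mem_EE]
  have h : {y : V → K | ∃ q ∈ ([] : List (V → ℤ)), y = cv K q} = ∅ := by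
    ext y
    simp
  rw [h, Submodule.span_empty, Submodule.mem_bot, sub_eq_zero]
  constructor
  · exact fun h => h.2
  · intro h
    refine ⟨fun q hq => ?_, h⟩
    exact absurd hq (List.not_mem_nil)

namespace RecTopAux

theorem fam_nil {V : Type*} [Fintype V] : Fam ([] : List (V → ℤ)) :=
  ⟨fun _ hq => absurd hq (List.not_mem_nil), List.Pairwise.nil⟩

theorem sv_dot {K : Type} [Field K] (h2 : (2 : K) ≠ 0) {V : Type} [Fintype V] (b : V → Bool)
    (w : V → K) (h : sv K b ⬝ᵥ w = 0) :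
    ∑ v ∈ (Finset.univ : Finset V), bv K b v * w v = (∑ v, w v) / 2 := by
  have h1 : sv K b ⬝ᵥ w = ∑ v, w v - 2 * ∑ v, bv K b v * w v := by
    rw [dotProduct, Finset.mul_sum, ← Finset.sum_sub_distrib]
    refine Finset.sum_congr rfl fun v _ => ?_
    rw [sv_eq]
    ring
  rw [h1, sub_eq_zero] at h
  rw [eq_div_iff h2, h]
  ring

/-- one vector -/
theorem one_vector (K : Type) [Field K] (h6 : (6 : K) ≠ 0) (iso : Prop) (m6 s1 s2 s n : ℕ)
    (α a : ℝ) (hα : 0 ≤ α) (ha : 0 ≤ a) (hLB : LB K m6 s1 s2 n α a) (hs1 : s1 ≤ s) (hs2 : s2 ≤ s)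
    {V : Type} [Fintype V] [DecidableEq V] (hV : Fintype.card V ≤ n) (G : SimpleGraph V)
    (hnse : NSE s G []) (hty : TY m6 s1 s2 G (su [])) (μ : K) (w : V → K)
    (hw : w ∈ EE K G [] μ) :
    (((Finset.univ : Finset (V → Bool)).filter
      (fun b => w ≠ 0 ∧ (iso → w ⬝ᵥ w = 0) ∧ sv K b ⬝ᵥ w = 0)).card : ℝ) ≤
      2 ^ Fintype.card V * (α + a * (kapE iso s2 K G [] μ : ℝ) / (n : ℝ) ^ 6) := by
  by_cases hgood : w ≠ 0 ∧ (iso → w ⬝ᵥ w = 0)
  · obtain ⟨hw0, hiso⟩ := hgood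
    have h2 : (2 : K) ≠ 0 := by
      intro h
      apply h6
      have : (6 : K) = 2 * 3 := by norm_num
      rw [this, h, zero_mul]
    have hnz : s < nz w := hnse K h2 μ w hw hw0
    have hsu : su ([] : List (V → ℤ)) = ∅ := by
      unfold su
      simp
    have hfil : ((Finset.univ : Finset V).filter
        (fun v => v ∉ su ([] : List (V → ℤ)) ∧ w v ≠ 0)).card = nz w := by
      unfold nz
      congr 1
      apply Finset.filter_congr
      intro v _
      rw [hsu]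
      simp
    have h := hLB V hV G [] hty w Finset.univ ((∑ v, w v) / 2) (by rw [hfil]; omega)
      (by rw [hfil]; omega)
    have hk : kapS s2 K G [] w ≤ kapE iso s2 K G [] μ := by
      unfold kapS kapE
      apply Finset.card_le_card
      intro τ hτ
      rw [Finset.mem_filter] at hτ ⊢
      exact ⟨hτ.1, hτ.2.1, hτ.2.2.1, w, hw, hw0, hiso, hτ.2.2.2.1, hτ.2.2.2.2⟩
    calc (((Finset.univ : Finset (V → Bool)).filter
          (fun b => w ≠ 0 ∧ (iso → w ⬝ᵥ w = 0) ∧ sv K b ⬝ᵥ w = 0)).card : ℝ) ≤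
          (((Finset.univ : Finset (V → Bool)).filter
            (fun b => ∑ v ∈ (Finset.univ : Finset V), bv K b v * w v =
              (∑ v, w v) / 2)).card : ℝ) := by
          refine Nat.cast_le.2 (Finset.card_le_card ?_)
          intro b hb
          rw [Finset.mem_filter] at hb ⊢
          exact ⟨hb.1, sv_dot h2 b w hb.2.2.2⟩
      _ ≤ _ := h
      _ ≤ _ := by
          apply mul_le_mul_of_nonneg_left _ (by positivity)
          have hk' : (kapS s2 K G [] w : ℝ) ≤ (kapE iso s2 K G [] μ : ℝ) := Nat.cast_le.2 hk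
          have h3 : a * (kapS s2 K G [] w : ℝ) / (n : ℝ) ^ 6 ≤
              a * (kapE iso s2 K G [] μ : ℝ) / (n : ℝ) ^ 6 :=
            div_le_div_of_nonneg_right (mul_le_mul_of_nonneg_left hk' ha) (by positivity)
          linarith
  · have h0 : ((Finset.univ : Finset (V → Bool)).filter
        (fun b => w ≠ 0 ∧ (iso → w ⬝ᵥ w = 0) ∧ sv K b ⬝ᵥ w = 0)) = ∅ := by
      rw [Finset.filter_eq_empty_iff]
      intro b _ hb
      exact hgood ⟨hb.1, hb.2.1⟩
    rw [h0, Finset.card_empty, Nat.cast_zero]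
    positivity

/-- one eigenvalue -/
theorem one_eig (K : Type) [Field K] (h6 : (6 : K) ≠ 0) (iso : Prop) (m6 s1 s2 s n : ℕ)
    (α a : ℝ) (hα : 0 ≤ α) (ha : 0 ≤ a) (hLB : LB K m6 s1 s2 n α a) (hs1 : s1 ≤ s) (hs2 : s2 ≤ s)
    {V : Type} [Fintype V] [DecidableEq V] (hV : Fintype.card V ≤ n) (G : SimpleGraph V)
    (hnse : NSE s G []) (hty : TY m6 s1 s2 G (su [])) (μ : K) (hfine : Fine iso (EE K G [] μ)) :
    (((Finset.univ : Finset (V → Bool)).filter
      (fun b => ∃ w ∈ EE K G [] μ, w ≠ 0 ∧ (iso → w ⬝ᵥ w = 0) ∧ sv K b ⬝ᵥ w = 0)).card : ℝ) ≤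
      2 ^ Fintype.card V * (2 * α + 2 * a * (kapE iso s2 K G [] μ : ℝ) / (n : ℝ) ^ 6) := by
  obtain ⟨w₁, hw₁, w₂, hw₂, hall⟩ := hfine
  have key : ∀ (w w' : V → K) (c : K) (b : V → Bool), w = c • w' → w ≠ 0 →
      (iso → w ⬝ᵥ w = 0) → sv K b ⬝ᵥ w = 0 →
      w' ≠ 0 ∧ (iso → w' ⬝ᵥ w' = 0) ∧ sv K b ⬝ᵥ w' = 0 := by
    intro w w' c b hc hw0 hiso hb
    have hc0 : c ≠ 0 := by
      intro h
      apply hw0
      rw [hc, h, zero_smul]
    refine ⟨fun h => hw0 (by rw [hc, h, smul_zero]), fun h => ?_, ?_⟩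
    · have h1 := hiso h
      rw [hc, smul_dotProduct, dotProduct_smul, smul_eq_mul, smul_eq_mul] at h1
      rcases mul_eq_zero.1 h1 with h2 | h2
      · exact absurd h2 hc0
      · rcases mul_eq_zero.1 h2 with h3 | h3
        · exact absurd h3 hc0
        · exact h3
    · rw [hc, dotProduct_smul, smul_eq_mul] at hb
      rcases mul_eq_zero.1 hb with h2 | h2
      · exact absurd h2 hc0
      · exact h2
  have h1 := one_vector K h6 iso m6 s1 s2 s n α a hα ha hLB hs1 hs2 hV G hnse hty μ w₁ hw₁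
  have h2 := one_vector K h6 iso m6 s1 s2 s n α a hα ha hLB hs1 hs2 hV G hnse hty μ w₂ hw₂
  have hsub : ((Finset.univ : Finset (V → Bool)).filter
      (fun b => ∃ w ∈ EE K G [] μ, w ≠ 0 ∧ (iso → w ⬝ᵥ w = 0) ∧ sv K b ⬝ᵥ w = 0)) ⊆
      ((Finset.univ : Finset (V → Bool)).filter
        (fun b => w₁ ≠ 0 ∧ (iso → w₁ ⬝ᵥ w₁ = 0) ∧ sv K b ⬝ᵥ w₁ = 0)) ∪
      ((Finset.univ : Finset (V → Bool)).filter
        (fun b => w₂ ≠ 0 ∧ (iso → w₂ ⬝ᵥ w₂ = 0) ∧ sv K b ⬝ᵥ w₂ = 0)) := by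
    intro b hb
    obtain ⟨_, w, hw, hw0, hiso, hb0⟩ := Finset.mem_filter.1 hb
    rcases hall w hw hiso with ⟨c, hc⟩ | ⟨c, hc⟩
    · exact Finset.mem_union_left _ (Finset.mem_filter.2 ⟨Finset.mem_univ _,
        key w w₁ c b hc hw0 hiso hb0⟩)
    · exact Finset.mem_union_right _ (Finset.mem_filter.2 ⟨Finset.mem_univ _,
        key w w₂ c b hc hw0 hiso hb0⟩)
  have h3 : (((Finset.univ : Finset (V → Bool)).filter
      (fun b => ∃ w ∈ EE K G [] μ, w ≠ 0 ∧ (iso → w ⬝ᵥ w = 0) ∧ sv K b ⬝ᵥ w = 0)).card : ℝ) ≤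
      (((Finset.univ : Finset (V → Bool)).filter
        (fun b => w₁ ≠ 0 ∧ (iso → w₁ ⬝ᵥ w₁ = 0) ∧ sv K b ⬝ᵥ w₁ = 0)).card : ℝ) +
      (((Finset.univ : Finset (V → Bool)).filter
        (fun b => w₂ ≠ 0 ∧ (iso → w₂ ⬝ᵥ w₂ = 0) ∧ sv K b ⬝ᵥ w₂ = 0)).card : ℝ) := by
    have := (Finset.card_le_card hsub).trans (Finset.card_union_le _ _)
    exact_mod_cast this
  refine h3.trans ((add_le_add h1 h2).trans (le_of_eq ?_))
  ring

/-- one graph -/
theorem one_graph {ι : Type} [Fintype ι] (K : ι → Type) [∀ i, Field (K i)]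
    (h6 : ∀ i, (6 : K i) ≠ 0) (iso : Prop) (m6 s1 s2 s cap n : ℕ) (α a : ℝ) (hα : 0 ≤ α)
    (ha : 0 ≤ a) (hLB : ∀ i, LB (K i) m6 s1 s2 n α a) (hs1 : s1 ≤ s) (hs2 : s2 ≤ s)
    {V : Type} [Fintype V] [DecidableEq V] (hV : Fintype.card V ≤ n) (G : SimpleGraph V)
    (hG : OK K iso m6 s1 s2 s cap G []) :
    (((Finset.univ : Finset (V → Bool)).filter (fun b =>
      ∃ (i : ι) (μ : K i) (w : V → K i), sei (K i) G *ᵥ w = μ • w ∧ w ≠ 0 ∧
        (iso → w ⬝ᵥ w = 0) ∧ sv (K i) b ⬝ᵥ w = 0)).card : ℝ) ≤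
      2 ^ Fintype.card V * (2 * α * cap + 2 * a * (XX K iso s2 G [] : ℝ) / (n : ℝ) ^ 6 +
        (NF K iso G [] : ℝ)) := by
  set P : (Σ i, K i) → (V → Bool) → Prop := fun x b =>
    ∃ w ∈ EE (K x.1) G [] x.2, w ≠ 0 ∧ (iso → w ⬝ᵥ w = 0) ∧ sv (K x.1) b ⬝ᵥ w = 0 with hP
  have hsub : ((Finset.univ : Finset (V → Bool)).filter (fun b =>
      ∃ (i : ι) (μ : K i) (w : V → K i), sei (K i) G *ᵥ w = μ • w ∧ w ≠ 0 ∧
        (iso → w ⬝ᵥ w = 0) ∧ sv (K i) b ⬝ᵥ w = 0)) ⊆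
      (DSf K iso G []).biUnion fun x => (Finset.univ : Finset (V → Bool)).filter (P x) := by
    intro b hb
    obtain ⟨_, i, μ, w, hw, hw0, hiso, hb0⟩ := Finset.mem_filter.1 hb
    have hwE : w ∈ EE (K i) G [] μ := (EE_nil (K i) G μ w).2 hw
    refine Finset.mem_biUnion.2 ⟨⟨i, μ⟩, ?_, ?_⟩
    · rw [mem_DSf K h6 iso G [] fam_nil]
      exact ⟨w, hwE, hw0, hiso⟩
    · exact Finset.mem_filter.2 ⟨Finset.mem_univ _, w, hwE, hw0, hiso, hb0⟩
  have h1 : (((Finset.univ : Finset (V → Bool)).filter (fun b =>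
      ∃ (i : ι) (μ : K i) (w : V → K i), sei (K i) G *ᵥ w = μ • w ∧ w ≠ 0 ∧
        (iso → w ⬝ᵥ w = 0) ∧ sv (K i) b ⬝ᵥ w = 0)).card : ℝ) ≤
      ∑ x ∈ DSf K iso G [], (((Finset.univ : Finset (V → Bool)).filter (P x)).card : ℝ) := by
    have := (Finset.card_le_card hsub).trans Finset.card_biUnion_le
    exact_mod_cast this
  refine h1.trans ?_
  rw [← Finset.sum_filter_add_sum_filter_not (DSf K iso G [])
    (fun x => Fine iso (EE (K x.1) G [] x.2))]
  have hfine : ∑ x ∈ (DSf K iso G []).filter (fun x => Fine iso (EE (K x.1) G [] x.2)),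
      (((Finset.univ : Finset (V → Bool)).filter (P x)).card : ℝ) ≤
      2 ^ Fintype.card V * (2 * α * cap + 2 * a * (XX K iso s2 G [] : ℝ) / (n : ℝ) ^ 6) := by
    have h2 : ∀ x ∈ (DSf K iso G []).filter (fun x => Fine iso (EE (K x.1) G [] x.2)),
        (((Finset.univ : Finset (V → Bool)).filter (P x)).card : ℝ) ≤
        2 ^ Fintype.card V * (2 * α + 2 * a * (kapE iso s2 (K x.1) G [] x.2 : ℝ) / (n : ℝ) ^ 6) := by
      intro x hx
      exact one_eig (K x.1) (h6 x.1) iso m6 s1 s2 s n α a hα ha (hLB x.1) hs1 hs2 hV G hG.nse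
        hG.ty x.2 (Finset.mem_filter.1 hx).2
    refine (Finset.sum_le_sum h2).trans ?_
    rw [← Finset.mul_sum]
    apply mul_le_mul_of_nonneg_left _ (by positivity)
    rw [Finset.sum_add_distrib, Finset.sum_const, nsmul_eq_mul]
    have h3 : (((DSf K iso G []).filter (fun x => Fine iso (EE (K x.1) G [] x.2))).card : ℝ) *
        (2 * α) ≤ 2 * α * cap := by
      have h4 : (((DSf K iso G []).filter
          (fun x => Fine iso (EE (K x.1) G [] x.2))).card : ℝ) ≤ cap :=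
        Nat.cast_le.2 ((Finset.card_le_card (Finset.filter_subset _ _)).trans hG.card)
      have := mul_le_mul_of_nonneg_right h4 (by positivity : 0 ≤ 2 * α)
      linarith
    have h5 : ∑ x ∈ (DSf K iso G []).filter (fun x => Fine iso (EE (K x.1) G [] x.2)),
        2 * a * (kapE iso s2 (K x.1) G [] x.2 : ℝ) / (n : ℝ) ^ 6 =
        2 * a * (XX K iso s2 G [] : ℝ) / (n : ℝ) ^ 6 := by
      rw [← Finset.sum_div, ← Finset.mul_sum]
      unfold XX DSg
      push_cast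
      rfl
    rw [h5]
    linarith
  have hnot : ∑ x ∈ (DSf K iso G []).filter (fun x => ¬ Fine iso (EE (K x.1) G [] x.2)),
      (((Finset.univ : Finset (V → Bool)).filter (P x)).card : ℝ) ≤
      2 ^ Fintype.card V * (NF K iso G [] : ℝ) := by
    have h2 : ∀ x ∈ (DSf K iso G []).filter (fun x => ¬ Fine iso (EE (K x.1) G [] x.2)),
        (((Finset.univ : Finset (V → Bool)).filter (P x)).card : ℝ) ≤ 2 ^ Fintype.card V := by
      intro x _
      have h3 : ((Finset.univ : Finset (V → Bool)).filter (P x)).card ≤ 2 ^ Fintype.card V := by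
        refine (Finset.card_le_card (Finset.filter_subset _ _)).trans (le_of_eq ?_)
        rw [Finset.card_univ, Fintype.card_fun, Fintype.card_bool]
      exact_mod_cast h3
    refine (Finset.sum_le_sum h2).trans (le_of_eq ?_)
    rw [Finset.sum_const, nsmul_eq_mul, mul_comm]
    rfl
  refine (add_le_add hfine hnot).trans (le_of_eq ?_)
  ring

end RecTopAux

open RecTopAux in
theorem rec_top {ι : Type} [Fintype ι] (K : ι → Type) [∀ i, Field (K i)]
    (h6 : ∀ i, (6 : K i) ≠ 0) (iso : Prop) (m6 s1 s2 s cap n : ℕ) (α a x f : ℝ) (hα : 0 ≤ α)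
    (ha : 0 ≤ a) (hn : 1 ≤ n) (hLB : ∀ i, LB (K i) m6 s1 s2 n α a) (hs1 : s1 ≤ s) (hs2 : s2 ≤ s)
    {V : Type} [Fintype V] [DecidableEq V] (hV : Fintype.card V ≤ n)
    (hx : XB K iso m6 s1 s2 s cap n 0 (Fintype.card V) x)
    (hf : FB K iso m6 s1 s2 s cap 0 (Fintype.card V) f) :
    (((Finset.univ : Finset (SimpleGraph V × (V → Bool))).filter (fun Gb =>
      OK K iso m6 s1 s2 s cap Gb.1 [] ∧ ∃ (i : ι) (μ : K i) (w : V → K i),
        sei (K i) Gb.1 *ᵥ w = μ • w ∧ w ≠ 0 ∧ (iso → w ⬝ᵥ w = 0) ∧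
          sv (K i) Gb.2 ⬝ᵥ w = 0)).card : ℝ) ≤
      (Fintype.card (SimpleGraph V) : ℝ) * 2 ^ Fintype.card V *
        (2 * α * cap + 2 * a * x + f) := by
  have hn0 : (0 : ℝ) < n := by exact_mod_cast hn
  have h1 := hx V rfl [] fam_nil rfl
  have h2 := hf V rfl [] fam_nil rfl
  set GG := (Finset.univ : Finset (SimpleGraph V)).filter
    (fun G => OK K iso m6 s1 s2 s cap G []) with hGG
  set Q : SimpleGraph V → (V → Bool) → Prop := fun G b => ∃ (i : ι) (μ : K i) (w : V → K i),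
    sei (K i) G *ᵥ w = μ • w ∧ w ≠ 0 ∧ (iso → w ⬝ᵥ w = 0) ∧ sv (K i) b ⬝ᵥ w = 0 with hQ
  have hcount : (((Finset.univ : Finset (SimpleGraph V × (V → Bool))).filter (fun Gb =>
      OK K iso m6 s1 s2 s cap Gb.1 [] ∧ Q Gb.1 Gb.2)).card : ℝ) ≤
      ∑ G ∈ GG, (((Finset.univ : Finset (V → Bool)).filter (Q G)).card : ℝ) := by
    have hsub : ((Finset.univ : Finset (SimpleGraph V × (V → Bool))).filter (fun Gb =>
        OK K iso m6 s1 s2 s cap Gb.1 [] ∧ Q Gb.1 Gb.2)) ⊆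
        GG.biUnion fun G => ((Finset.univ : Finset (V → Bool)).filter (Q G)).image
          fun b => (G, b) := by
      rintro ⟨G, b⟩ hGb
      obtain ⟨_, h3, h4⟩ := Finset.mem_filter.1 hGb
      exact Finset.mem_biUnion.2 ⟨G, Finset.mem_filter.2 ⟨Finset.mem_univ _, h3⟩,
        Finset.mem_image.2 ⟨b, Finset.mem_filter.2 ⟨Finset.mem_univ _, h4⟩, rfl⟩⟩
    have h3 := (Finset.card_le_card hsub).trans Finset.card_biUnion_le
    have h4 : ∑ G ∈ GG, (((Finset.univ : Finset (V → Bool)).filter (Q G)).image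
        fun b => (G, b)).card ≤
        ∑ G ∈ GG, ((Finset.univ : Finset (V → Bool)).filter (Q G)).card :=
      Finset.sum_le_sum fun G _ => Finset.card_image_le
    exact_mod_cast h3.trans h4
  refine hcount.trans ?_
  have h3 : ∀ G ∈ GG, (((Finset.univ : Finset (V → Bool)).filter (Q G)).card : ℝ) ≤
      2 ^ Fintype.card V * (2 * α * cap + 2 * a * (XX K iso s2 G [] : ℝ) / (n : ℝ) ^ 6 +
        (NF K iso G [] : ℝ)) := by
    intro G hG
    exact one_graph K h6 iso m6 s1 s2 s cap n α a hα ha hLB hs1 hs2 hV G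
      (Finset.mem_filter.1 hG).2
  refine (Finset.sum_le_sum h3).trans ?_
  have e0 : ∑ G ∈ GG, (2 : ℝ) ^ Fintype.card V *
      (2 * α * cap + 2 * a * (XX K iso s2 G [] : ℝ) / (n : ℝ) ^ 6 + (NF K iso G [] : ℝ)) =
      2 ^ Fintype.card V * ((GG.card : ℝ) * (2 * α * cap) +
        2 * a * (∑ G ∈ GG, (XX K iso s2 G [] : ℝ)) / (n : ℝ) ^ 6 +
          ∑ G ∈ GG, (NF K iso G [] : ℝ)) := by
    rw [← Finset.mul_sum, Finset.sum_add_distrib, Finset.sum_add_distrib, Finset.sum_const,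
      nsmul_eq_mul, ← Finset.sum_div, ← Finset.mul_sum]
  have e4 : (Fintype.card (SimpleGraph V) : ℝ) * 2 ^ Fintype.card V *
        (2 * α * cap + 2 * a * x + f) = 2 ^ Fintype.card V *
        ((Fintype.card (SimpleGraph V) : ℝ) * (2 * α * cap) +
          (Fintype.card (SimpleGraph V) : ℝ) * (2 * a * x) +
            f * (Fintype.card (SimpleGraph V) : ℝ)) := by ring
  rw [e0, e4]
  apply mul_le_mul_of_nonneg_left _ (by positivity)
  have hGc : (GG.card : ℝ) ≤ (Fintype.card (SimpleGraph V) : ℝ) := by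
    have := Finset.card_le_univ GG
    exact_mod_cast this
  have e1 : (GG.card : ℝ) * (2 * α * cap) ≤ (Fintype.card (SimpleGraph V) : ℝ) * (2 * α * cap) :=
    mul_le_mul_of_nonneg_right hGc (by positivity)
  have e2 : 2 * a * (∑ G ∈ GG, (XX K iso s2 G [] : ℝ)) / (n : ℝ) ^ 6 ≤
      (Fintype.card (SimpleGraph V) : ℝ) * (2 * a * x) := by
    rw [div_le_iff₀ (by positivity)]
    have h4 : ∑ G ∈ GG, (XX K iso s2 G [] : ℝ) ≤
        x * (n : ℝ) ^ 6 * (Fintype.card (SimpleGraph V) : ℝ) := by exact_mod_cast h1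
    have := mul_le_mul_of_nonneg_left h4 (by positivity : 0 ≤ 2 * a)
    linarith
  have e3 : ∑ G ∈ GG, (NF K iso G [] : ℝ) ≤ f * (Fintype.card (SimpleGraph V) : ℝ) := by
    exact_mod_cast h2
  linarith

end Pool.Agent.H95.DL
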