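import Pool.Agent.H95.DL.Pp
import Pool.Agent.H95.DL.RecTop

/-!
# Job DL-40: part L, conclusion

PROOF of `IL`.  For every pair `(G, b)` in the set choose a prime `p > n^3`; let `Pi` be the finite set
of these primes.  The pair is in the set of `rec_top` for `KF Pi`, `iso = True`, or `¬ OK G []`
(proportion `≤ n^(-2.15)`, `PB_p` with `k = 0`, `N = n`).  So the proportion is at most
`n^(-2.15) + 2 n^(-2.9) 4 n^2 + 2 n^(-0.45) n^(-0.1) + n^(-0.1) → 0` (`XF_p`, `lb_p`).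
PROOF of `ILC`.  The same with `KC`, `iso = False`, `cap = n`: `PB_C`, `XF_C` (`k = 0`, `N = n`), `lb_C`:
`n^(-10) + 2 n^(-2.4) + 3 n^(-2.3) → 0`.
-/

set_option autoImplicit false

namespace Pool.Agent.H95.DL

open Matrix Classical Pool.Agent.H66.SP Pool.Agent.H95.SQ

theorem Main_num (ε : ℝ) (hε : 0 < ε) : ∃ n₀ : ℕ, ∀ n : ℕ, n₀ ≤ n →
    12 * (n : ℝ) ^ (-(0.1 : ℝ)) ≤ ε := by
  have h1 : Filter.Tendsto (fun n : ℕ => (n : ℝ) ^ (-(0.1 : ℝ))) Filter.atTop (nhds 0) :=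
    (tendsto_rpow_neg_atTop (by norm_num)).comp tendsto_natCast_atTop_atTop
  have h2 := h1.eventually (gt_mem_nhds (show (0 : ℝ) < ε / 12 by positivity))
  obtain ⟨n₀, h3⟩ := Filter.eventually_atTop.1 h2
  refine ⟨n₀, fun n hn => ?_⟩
  have h4 := h3 n hn
  linarith

theorem Main_rpow {n : ℕ} (hn : 1 ≤ n) {a : ℝ} (ha : 0.1 ≤ a) :
    (n : ℝ) ^ (-a) ≤ (n : ℝ) ^ (-(0.1 : ℝ)) := by
  apply Real.rpow_le_rpow_of_exponent_le
  · exact_mod_cast hn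
  · linarith

theorem Main_six (p : ℕ) [Fact p.Prime] (hp : 3 < p) : (6 : KK p) ≠ 0 := by
  have h1 : CharP (KK p) p := charP_of_injective_algebraMap
    (algebraMap (ZMod p) (KK p)).injective p
  intro h
  have h2 : ((6 : ℕ) : KK p) = 0 := by exact_mod_cast h
  rw [CharP.cast_eq_zero_iff (KK p) p] at h2
  have h3 : p ∣ 2 * 3 := h2
  rcases (Fact.out : p.Prime).dvd_mul.1 h3 with h4 | h4
  · have := Nat.le_of_dvd (by norm_num) h4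
    omega
  · have := Nat.le_of_dvd (by norm_num) h4
    omega

theorem Main_split {n : ℕ} (S A : Finset (SimpleGraph (Fin n) × (Fin n → Bool)))
    (P : SimpleGraph (Fin n) → Prop) (B : Finset (SimpleGraph (Fin n)))
    (x y : ℝ) (hA : ∀ Gb ∈ S, P Gb.1 → Gb ∈ A) (hB : ∀ G, ¬ P G → G ∈ B)
    (h1 : (A.card : ℝ) ≤
        (Fintype.card (SimpleGraph (Fin n)) : ℝ) * 2 ^ Fintype.card (Fin n) * x)
    (h2 : (B.card : ℝ) ≤ y * (Fintype.card (SimpleGraph (Fin n)) : ℝ)) :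
    (S.card : ℝ) ≤ (x + y) * (Fintype.card (SimpleGraph (Fin n)) : ℝ) * 2 ^ n := by
  have h3 : S ⊆ A ∪ B ×ˢ (Finset.univ : Finset (Fin n → Bool)) := by
    intro Gb hGb
    rw [Finset.mem_union]
    by_cases hP : P Gb.1
    · exact Or.inl (hA Gb hGb hP)
    · exact Or.inr (Finset.mem_product.2 ⟨hB _ hP, Finset.mem_univ _⟩)
  have h4 := (Finset.card_le_card h3).trans (Finset.card_union_le _ _)
  rw [Finset.card_product, Finset.card_univ, Fintype.card_fun, Fintype.card_bool,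
    Fintype.card_fin] at h4
  have h5 : (S.card : ℝ) ≤ (A.card : ℝ) + (B.card : ℝ) * 2 ^ n := by
    exact_mod_cast h4
  rw [Fintype.card_fin] at h1
  have h6 := mul_le_mul_of_nonneg_right h2 (show (0 : ℝ) ≤ 2 ^ n by positivity)
  calc (S.card : ℝ) ≤ _ := h5
    _ ≤ (Fintype.card (SimpleGraph (Fin n)) : ℝ) * 2 ^ n * x +
        y * (Fintype.card (SimpleGraph (Fin n)) : ℝ) * 2 ^ n := add_le_add h1 h6
    _ = _ := by ring

theorem IL (ε : ℝ) (hε : 0 < ε) : ∃ n₀ : ℕ, ∀ n : ℕ, n₀ ≤ n →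
    (((Finset.univ : Finset (SimpleGraph (Fin n) × (Fin n → Bool))).filter (fun Gb =>
      ∃ (p : ℕ) (_ : Fact p.Prime) (μ : KK p) (w : Fin n → KK p), n ^ 3 < p ∧ w ≠ 0 ∧
        sei (KK p) Gb.1 *ᵥ w = μ • w ∧ w ⬝ᵥ w = 0 ∧ sv (KK p) Gb.2 ⬝ᵥ w = 0)).card : ℝ) ≤
      ε * (Fintype.card (SimpleGraph (Fin n)) : ℝ) * 2 ^ n := by
  obtain ⟨n1, h1⟩ := PB_p
  obtain ⟨n2, h2⟩ := XF_p
  obtain ⟨n3, h3⟩ := lb_p
  obtain ⟨n4, h4⟩ := Main_num ε hε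
  refine ⟨n1 + n2 + n3 + n4 + 2, fun n hn => ?_⟩
  have hn1 : 1 ≤ n := by omega
  obtain ⟨S, hS⟩ : ∃ S, S = (Finset.univ : Finset (SimpleGraph (Fin n) × (Fin n → Bool))).filter
      (fun Gb => ∃ (p : ℕ) (_ : Fact p.Prime) (μ : KK p) (w : Fin n → KK p), n ^ 3 < p ∧ w ≠ 0 ∧
        sei (KK p) Gb.1 *ᵥ w = μ • w ∧ w ⬝ᵥ w = 0 ∧ sv (KK p) Gb.2 ⬝ᵥ w = 0) := ⟨_, rfl⟩
  rw [← hS]
  have hS1 : ∀ Gb ∈ S, ∃ p : Nat.Primes, n ^ 3 < (p : ℕ) ∧ ∃ (μ : KK (p : ℕ))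
      (w : Fin n → KK (p : ℕ)), w ≠ 0 ∧ sei (KK (p : ℕ)) Gb.1 *ᵥ w = μ • w ∧ w ⬝ᵥ w = 0 ∧
        sv (KK (p : ℕ)) Gb.2 ⬝ᵥ w = 0 := by
    intro Gb hGb
    rw [hS] at hGb
    obtain ⟨p, hp, μ, w, hw1, hw2⟩ := (Finset.mem_filter.1 hGb).2
    exact ⟨⟨p, hp.out⟩, hw1, μ, w, hw2⟩
  choose! f hf1 hf2 using hS1
  obtain ⟨Pi, hPi⟩ : ∃ Pi, Pi = S.image f := ⟨_, rfl⟩
  have hPi1 : ∀ p ∈ Pi, n ^ 3 < (p : ℕ) := by
    intro p hp
    rw [hPi] at hp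
    obtain ⟨Gb, hGb, rfl⟩ := Finset.mem_image.1 hp
    exact hf1 Gb hGb
  obtain ⟨hx, hff⟩ := h2 n (by omega) Pi hPi1
  have hPB := h1 n (by omega) Pi hPi1 0 (by norm_num) n (Nat.sub_le _ _) le_rfl
  have h6 : ∀ i, (6 : KF Pi i) ≠ 0 := by
    intro i
    have h7 := hPi1 i.1 i.2
    have h8 : 2 ^ 3 ≤ n ^ 3 := Nat.pow_le_pow_left (by omega) 3
    exact Main_six (i.1 : ℕ) (by omega)
  have hLB : ∀ i, LB (KF Pi i) 600000 (n / 1000) (n / 10000000) n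
      ((n : ℝ) ^ (-(2.9 : ℝ))) ((n : ℝ) ^ (-(0.45 : ℝ))) := by
    intro i
    exact h3 n (by omega) (i.1 : ℕ) (hPi1 i.1 i.2)
  have hc : Fintype.card (Fin n) = n := Fintype.card_fin n
  have hrec := rec_top (KF Pi) h6 True 600000 (n / 1000) (n / 10000000) (n / 500) (4 * n ^ 2) n
    ((n : ℝ) ^ (-(2.9 : ℝ))) ((n : ℝ) ^ (-(0.45 : ℝ))) ((n : ℝ) ^ (-(0.1 : ℝ)))
    ((n : ℝ) ^ (-(0.1 : ℝ))) (by positivity) (by positivity) hn1 hLB (by omega) (by omega)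
    (V := Fin n) hc.le (by rw [hc]; exact hx) (by rw [hc]; exact hff)
  have hbad := hPB (Fin n) hc [] ⟨by simp, List.Pairwise.nil⟩ rfl
  have hfin := Main_split S _ (fun G => OK (KF Pi) True 600000 (n / 1000) (n / 10000000)
    (n / 500) (4 * n ^ 2) G []) _ _ _ (fun Gb hGb hP => by
        obtain ⟨μ, w, hw1, hw2, hw3, hw4⟩ := hf2 Gb hGb
        have hm : f Gb ∈ Pi := by
          rw [hPi]
          exact Finset.mem_image_of_mem f hGb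
        exact Finset.mem_filter.2 ⟨Finset.mem_univ _, hP, ⟨f Gb, hm⟩, μ, w, hw2, hw1,
          fun _ => hw3, hw4⟩)
      (fun G hG => Finset.mem_filter.2 ⟨Finset.mem_univ _, hG⟩) hrec hbad
  refine hfin.trans ?_
  have hpos : (0 : ℝ) ≤ (Fintype.card (SimpleGraph (Fin n)) : ℝ) * 2 ^ n := by positivity
  rw [mul_assoc _ (Fintype.card (SimpleGraph (Fin n)) : ℝ) (2 ^ n),
    mul_assoc ε (Fintype.card (SimpleGraph (Fin n)) : ℝ) (2 ^ n)]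
  refine mul_le_mul_of_nonneg_right ?_ hpos
  have hn0 : (0 : ℝ) < n := by exact_mod_cast hn1
  have e1 : 2 * (n : ℝ) ^ (-(2.9 : ℝ)) * ((4 * n ^ 2 : ℕ) : ℝ) = 8 * (n : ℝ) ^ (-(0.9 : ℝ)) := by
    have e2 : (n : ℝ) ^ (-(0.9 : ℝ)) = (n : ℝ) ^ (-(2.9 : ℝ)) * (n : ℝ) ^ (2 : ℝ) := by
      rw [← Real.rpow_add hn0]
      norm_num
    rw [e2, Real.rpow_two]
    push_cast
    ring
  have e3 : 2 * (n : ℝ) ^ (-(0.45 : ℝ)) * (n : ℝ) ^ (-(0.1 : ℝ)) =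
      2 * (n : ℝ) ^ (-(0.55 : ℝ)) := by
    rw [mul_assoc, ← Real.rpow_add hn0]
    norm_num
  rw [e1, e3]
  have r1 := Main_rpow hn1 (a := 0.9) (by norm_num)
  have r2 := Main_rpow hn1 (a := 0.55) (by norm_num)
  have r3 := Main_rpow hn1 (a := 2.15) (by norm_num)
  have r4 := h4 n (by omega)
  linarith

theorem ILC (ε : ℝ) (hε : 0 < ε) : ∃ n₀ : ℕ, ∀ n : ℕ, n₀ ≤ n →
    (((Finset.univ : Finset (SimpleGraph (Fin n) × (Fin n → Bool))).filter (fun Gb =>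
      ∃ (μ : ℂ) (w : Fin n → ℂ), w ≠ 0 ∧
        sei ℂ Gb.1 *ᵥ w = μ • w ∧ sv ℂ Gb.2 ⬝ᵥ w = 0)).card : ℝ) ≤
      ε * (Fintype.card (SimpleGraph (Fin n)) : ℝ) * 2 ^ n := by
  obtain ⟨n1, h1⟩ := PB_C
  obtain ⟨n2, h2⟩ := XF_C
  obtain ⟨n3, h3⟩ := lb_C
  obtain ⟨n4, h4⟩ := Main_num ε hε
  refine ⟨n1 + n2 + n3 + n4 + 2, fun n hn => ?_⟩
  have hn1 : 1 ≤ n := by omega
  obtain ⟨hx, hff⟩ := h2 n (by omega) 0 (by norm_num) n (Nat.sub_le _ _) le_rfl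
  have hPB := h1 n (by omega) 0 (by norm_num) n (Nat.sub_le _ _) le_rfl
  have h6 : ∀ i, (6 : KC i) ≠ 0 := by
    intro i
    show (6 : ℂ) ≠ 0
    norm_num
  have hc : Fintype.card (Fin n) = n := Fintype.card_fin n
  have hrec := rec_top KC h6 False 600000 (n / 1000) (n / 10000000) (n / 500) n n
    ((n : ℝ) ^ (-(3.4 : ℝ))) ((n : ℝ) ^ (-(0.45 : ℝ))) ((n : ℝ) ^ (-(2.3 : ℝ)))
    ((n : ℝ) ^ (-(2.3 : ℝ))) (by positivity) (by positivity) hn1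
    (fun _ => h3 n (by omega)) (by omega) (by omega)
    (V := Fin n) hc.le (by rw [hc]; exact hx) (by rw [hc]; exact hff)
  have hbad := hPB (Fin n) hc [] ⟨by simp, List.Pairwise.nil⟩ rfl
  have hfin := Main_split ((Finset.univ : Finset (SimpleGraph (Fin n) × (Fin n → Bool))).filter
    (fun Gb => ∃ (μ : ℂ) (w : Fin n → ℂ), w ≠ 0 ∧
        sei ℂ Gb.1 *ᵥ w = μ • w ∧ sv ℂ Gb.2 ⬝ᵥ w = 0))
    _ (fun G => OK KC False 600000 (n / 1000) (n / 10000000) (n / 500) n G [])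
    _ _ _ (fun Gb hGb hP => by
        obtain ⟨μ, w, hw1, hw2, hw3⟩ := (Finset.mem_filter.1 hGb).2
        exact Finset.mem_filter.2 ⟨Finset.mem_univ _, hP, (), μ, w, hw2, hw1,
          fun h => h.elim, hw3⟩)
      (fun G hG => Finset.mem_filter.2 ⟨Finset.mem_univ _, hG⟩) hrec hbad
  refine hfin.trans ?_
  have hpos : (0 : ℝ) ≤ (Fintype.card (SimpleGraph (Fin n)) : ℝ) * 2 ^ n := by positivity
  rw [mul_assoc _ (Fintype.card (SimpleGraph (Fin n)) : ℝ) (2 ^ n),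
    mul_assoc ε (Fintype.card (SimpleGraph (Fin n)) : ℝ) (2 ^ n)]
  refine mul_le_mul_of_nonneg_right ?_ hpos
  have hn0 : (0 : ℝ) < n := by exact_mod_cast hn1
  have e1 : 2 * (n : ℝ) ^ (-(3.4 : ℝ)) * (n : ℝ) = 2 * (n : ℝ) ^ (-(2.4 : ℝ)) := by
    have e2 : (n : ℝ) ^ (-(2.4 : ℝ)) = (n : ℝ) ^ (-(3.4 : ℝ)) * (n : ℝ) ^ (1 : ℝ) := by
      rw [← Real.rpow_add hn0]
      norm_num
    rw [e2, Real.rpow_one]
    ring
  have e3 : 2 * (n : ℝ) ^ (-(0.45 : ℝ)) * (n : ℝ) ^ (-(2.3 : ℝ)) =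
      2 * (n : ℝ) ^ (-(2.75 : ℝ)) := by
    rw [mul_assoc, ← Real.rpow_add hn0]
    norm_num
  rw [e1, e3]
  have r1 := Main_rpow hn1 (a := 2.4) (by norm_num)
  have r2 := Main_rpow hn1 (a := 2.75) (by norm_num)
  have r3 := Main_rpow hn1 (a := 2.3) (by norm_num)
  have r5 := Main_rpow hn1 (a := 10) (by norm_num)
  have r4 := h4 n (by omega)
  have r6 : (0 : ℝ) ≤ (n : ℝ) ^ (-(0.1 : ℝ)) := by positivity
  linarith

end Pool.Agent.H95.DL
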