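import Pool.Agent.H95.SQ.Defs

/-!
# Seidel matrix and sign vectors

`sei K G` is the Seidel matrix of `G` (`0` on the diagonal, `-1` on edges, `1` else), `sv K b` the
sign vector of `b : V → Bool` (`-1` where `b v = true`).
-/

set_option autoImplicit false

namespace Pool.Agent.H95.DL

open Matrix Pool.Agent.H66.SP

open Classical in
/-- the Seidel matrix: `0` on the diagonal, `-1` on edges, `1` on non edges -/
noncomputable def sei (K : Type*) [Ring K] {V : Type*} (G : SimpleGraph V) : Matrix V V K :=
  Matrix.of fun i j => if i = j then 0 else if G.Adj i j then -1 else 1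

/-- the sign vector of `b`: `-1` where `b v = true`, else `1` -/
def sv (K : Type*) [Ring K] {V : Type*} (b : V → Bool) : V → K :=
  fun v => if b v = true then -1 else 1

theorem sei_symm (K : Type*) [Ring K] {V : Type*} (G : SimpleGraph V) (i j : V) :
    sei K G i j = sei K G j i := by
  unfold sei
  simp only [Matrix.of_apply]
  by_cases h : i = j
  · subst h; rfl
  · have h2 : ¬ j = i := fun h' => h h'.symm
    by_cases h3 : G.Adj i j
    · simp only [h, h2, h3, h3.symm, if_false, if_true]
    · have h4 : ¬ G.Adj j i := fun h' => h3 h'.symm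
      simp only [h, h2, h3, h4, if_false]

theorem sei_isSymm (K : Type*) [Ring K] {V : Type*} (G : SimpleGraph V) :
    (sei K G).IsSymm := by
  ext i j
  rw [Matrix.transpose_apply, sei_symm]

theorem sei_self (K : Type*) [Ring K] {V : Type*} (G : SimpleGraph V) (i : V) :
    sei K G i i = 0 := by
  simp [sei]

open Classical in
/-- `S = J - I - 2 A` -/
theorem sei_eq (K : Type*) [Ring K] {V : Type*} (G : SimpleGraph V) :
    sei K G = Matrix.of (fun _ _ => (1 : K)) - 1 - (2 : K) • adj K G := by
  ext i j
  simp only [sei, adj, Matrix.of_apply, Matrix.sub_apply, Matrix.smul_apply, Matrix.one_apply]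
  by_cases h : i = j
  · subst h
    simp
  · by_cases h' : G.Adj i j
    · simp only [h, h', if_true, if_false, smul_eq_mul, mul_one]
      norm_num
    · simp [h, h']

theorem sei_cast (K : Type*) [Ring K] {V : Type*} (G : SimpleGraph V) (i j : V) :
    ((sei ℤ G i j : ℤ) : K) = sei K G i j := by
  unfold sei
  simp only [Matrix.of_apply]
  split_ifs <;> simp

theorem sv_eq (K : Type*) [Ring K] {V : Type*} (b : V → Bool) (v : V) :
    sv K b v = 1 - 2 * bv K b v := by
  unfold sv bv
  split_ifs <;> norm_num

end Pool.Agent.H95.DL
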