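import Pool.Agent.H95.DL.DelC

/-!
# Job DL-27: the integral matrix of the compression (L8), algebra

`P12 = 12 - ∑_q (12 / nz q) q q^T`, `TT = P12 S P12 + ∑_q (12 / nz q) N_q q q^T`
(`nz q ∈ {2, 4, 6}` divides `12`).

PROOFS.  The tests are pairwise orthogonal and `q·q = nz q`, so `P12 q = 12 q - (12 / nz q) nz q q = 0`
and `P12 w = 12 w` if `w` is orthogonal to the tests.  `w ∈ EE`: `S (12 w) = 12 (μ w + z)`, `z` in the
span of the tests, `P12 z = 0`, so `TT w = 144 μ w + 0`.  `TT q = (12 / nz q) N_q nz q q = 12 N_q q`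
(`P12 q = 0`).  Symmetry: `P12`, `S` symmetric.  Entries (over `ℤ`): every row of `P12` has absolute sum
at most `12 + 12 = 24` (for `i` in the support of at most one test `q`: `(12 / nz q) nz q = 12`), so the
entries of `P12 S P12` are at most `24 * 24` in absolute value; at most one test is nonzero at `i` and
the second term is at most `6 N_q`.
-/

set_option autoImplicit false

namespace Pool.Agent.H95.DL

open Matrix Classical Pool.Agent.H66.SP Pool.Agent.H95.SQ

/-- `12` times the projection to the orthogonal space of the tests -/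
noncomputable def P12 (K : Type*) [CommRing K] {V : Type*} [Fintype V] [DecidableEq V]
    (ts : List (V → ℤ)) : Matrix V V K :=
  (12 : K) • (1 : Matrix V V K) -
    (ts.map (fun q => ((12 / nz q : ℕ) : K) • Matrix.vecMulVec (cv K q) (cv K q))).sum

/-- the integral matrix of the compression -/
noncomputable def TT (K : Type*) [CommRing K] {V : Type*} [Fintype V] [DecidableEq V]
    (G : SimpleGraph V) (ts : List (V → ℤ)) (Nf : (V → ℤ) → ℕ) : Matrix V V K :=
  P12 K ts * sei K G * P12 K ts +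
    (ts.map (fun q => ((12 / nz q * Nf q : ℕ) : K) • Matrix.vecMulVec (cv K q) (cv K q))).sum

theorem CdA_ls (K : Type*) [CommRing K] {V : Type*} [Fintype V]
    (ts : List (V → ℤ)) (c : (V → ℤ) → K) (w : V → K) :
    (ts.map (fun q => c q • Matrix.vecMulVec (cv K q) (cv K q))).sum *ᵥ w =
      (ts.map (fun q => (c q * (cv K q ⬝ᵥ w)) • cv K q)).sum := by
  induction ts with
  | nil => simp
  | cons r ts ih =>
    rw [List.map_cons, List.sum_cons, List.map_cons, List.sum_cons, Matrix.add_mulVec, ih]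
    congr 1
    rw [Matrix.smul_mulVec, Matrix.vecMulVec_mulVec]
    ext v
    simp only [Pi.smul_apply, MulOpposite.smul_eq_mul_unop, MulOpposite.unop_op, smul_eq_mul]
    ring

theorem CdA_zero (K : Type*) [CommRing K] {V : Type*} [Fintype V]
    (ts : List (V → ℤ)) (c : (V → ℤ) → K) (w : V → K) (hw : ∀ q ∈ ts, cv K q ⬝ᵥ w = 0) :
    (ts.map (fun q => (c q * (cv K q ⬝ᵥ w)) • cv K q)).sum = 0 := by
  induction ts with
  | nil => simp
  | cons r ts ih =>
    rw [List.map_cons, List.sum_cons, ih (fun q hq => hw q (List.mem_cons_of_mem _ hq)),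
      hw r List.mem_cons_self, mul_zero, zero_smul, add_zero]

theorem CdA_self (K : Type*) [CommRing K] {V : Type*} [Fintype V] (q : V → ℤ) (hq : IsTest q) :
    cv K q ⬝ᵥ cv K q = (nz q : K) := by
  unfold nz cv dotProduct
  rw [Finset.card_filter]
  push_cast
  refine Finset.sum_congr rfl (fun v _ => ?_)
  rcases hq.1 v with h | h | h <;> simp [h]

theorem CdA_disj (K : Type*) [CommRing K] {V : Type*} [Fintype V] (q r : V → ℤ)
    (h : ∀ v, q v = 0 ∨ r v = 0) : cv K q ⬝ᵥ cv K r = 0 := by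
  unfold cv dotProduct
  refine Finset.sum_eq_zero (fun v _ => ?_)
  rcases h v with h | h <;> simp [h]

theorem CdA_one (K : Type*) [CommRing K] {V : Type*} [Fintype V]
    (ts : List (V → ℤ)) (hts : Fam ts) (c : (V → ℤ) → K) (q : V → ℤ) (hq : q ∈ ts) :
    (ts.map (fun r => (c r * (cv K r ⬝ᵥ cv K q)) • cv K r)).sum = (c q * (nz q : K)) • cv K q := by
  induction ts with
  | nil => exact absurd hq List.not_mem_nil
  | cons r ts ih =>
    have hp := List.pairwise_cons.1 hts.2
    have hts' : Fam ts := ⟨fun q hq => hts.1 q (List.mem_cons_of_mem _ hq), hp.2⟩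
    rw [List.map_cons, List.sum_cons]
    rcases List.mem_cons.1 hq with h | h
    · subst h
      rw [CdA_zero K ts c (cv K q) (fun r hr => CdA_disj K r q (fun v => (hp.1 r hr v).symm)),
        CdA_self K q (hts.1 q List.mem_cons_self), add_zero]
    · rw [ih hts' h, CdA_disj K r q (hp.1 q h), mul_zero, zero_smul, zero_add]

theorem CdA_12 {V : Type*} [Fintype V] (q : V → ℤ) (hq : IsTest q) : 12 / nz q * nz q = 12 := by
  rcases hq.2 with h | h | h <;> rw [h]

theorem CdA_P (K : Type*) [CommRing K] {V : Type*} [Fintype V] [DecidableEq V]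
    (ts : List (V → ℤ)) (w : V → K) : P12 K ts *ᵥ w = (12 : K) • w -
      (ts.map (fun q => (((12 / nz q : ℕ) : K) * (cv K q ⬝ᵥ w)) • cv K q)).sum := by
  unfold P12
  rw [Matrix.sub_mulVec, CdA_ls K ts (fun q => ((12 / nz q : ℕ) : K)) w, Matrix.smul_mulVec,
    Matrix.one_mulVec]

theorem P12_test (K : Type*) [Field K] {V : Type*} [Fintype V] [DecidableEq V]
    (ts : List (V → ℤ)) (hts : Fam ts) (q : V → ℤ) (hq : q ∈ ts) : P12 K ts *ᵥ cv K q = 0 := by
  rw [CdA_P, CdA_one K ts hts (fun q => ((12 / nz q : ℕ) : K)) q hq]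
  have h := CdA_12 q (hts.1 q hq)
  have h2 : ((12 / nz q : ℕ) : K) * (nz q : K) = 12 := by
    rw [← Nat.cast_mul, h]
    norm_num
  rw [h2, sub_self]

theorem P12_orth (K : Type*) [Field K] {V : Type*} [Fintype V] [DecidableEq V]
    (ts : List (V → ℤ)) (w : V → K) (hw : ∀ q ∈ ts, cv K q ⬝ᵥ w = 0) :
    P12 K ts *ᵥ w = (12 : K) • w := by
  rw [CdA_P, CdA_zero K ts (fun q => ((12 / nz q : ℕ) : K)) w hw, sub_zero]

theorem CdA_span (K : Type*) [Field K] {V : Type*} [Fintype V] [DecidableEq V]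
    (ts : List (V → ℤ)) (hts : Fam ts) (z : V → K)
    (hz : z ∈ Submodule.span K {y : V → K | ∃ q ∈ ts, y = cv K q}) : P12 K ts *ᵥ z = 0 := by
  have h : Submodule.span K {y : V → K | ∃ q ∈ ts, y = cv K q} ≤
      LinearMap.ker (Matrix.mulVecLin (P12 K ts)) := by
    rw [Submodule.span_le]
    rintro y ⟨q, hq, rfl⟩
    exact P12_test K ts hts q hq
  exact h hz

theorem TT_EE (K : Type*) [Field K] {V : Type*} [Fintype V] [DecidableEq V] (G : SimpleGraph V)
    (ts : List (V → ℤ)) (hts : Fam ts) (Nf : (V → ℤ) → ℕ) (μ : K) (w : V → K)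
    (hw : w ∈ EE K G ts μ) : TT K G ts Nf *ᵥ w = (144 * μ) • w := by
  obtain ⟨h1, h2⟩ := (mem_EE G ts μ w).1 hw
  unfold TT
  rw [Matrix.add_mulVec, CdA_ls K ts (fun q => ((12 / nz q * Nf q : ℕ) : K)) w,
    CdA_zero K ts _ w h1, add_zero, ← Matrix.mulVec_mulVec, ← Matrix.mulVec_mulVec,
    P12_orth K ts w h1, Matrix.mulVec_smul]
  have e : sei K G *ᵥ w = μ • w + (sei K G *ᵥ w - μ • w) := by abel
  rw [e, Matrix.mulVec_smul, Matrix.mulVec_add, CdA_span K ts hts _ h2, Matrix.mulVec_smul,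
    P12_orth K ts w h1, add_zero, smul_smul, smul_smul]
  congr 1
  ring

theorem TT_test (K : Type*) [Field K] {V : Type*} [Fintype V] [DecidableEq V] (G : SimpleGraph V)
    (ts : List (V → ℤ)) (hts : Fam ts) (Nf : (V → ℤ) → ℕ) (q : V → ℤ) (hq : q ∈ ts) :
    TT K G ts Nf *ᵥ cv K q = (12 * (Nf q : K)) • cv K q := by
  unfold TT
  rw [Matrix.add_mulVec, CdA_ls K ts (fun q => ((12 / nz q * Nf q : ℕ) : K)) (cv K q),
    CdA_one K ts hts (fun q => ((12 / nz q * Nf q : ℕ) : K)) q hq, ← Matrix.mulVec_mulVec,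
    P12_test K ts hts q hq, Matrix.mulVec_zero, zero_add]
  have h := CdA_12 q (hts.1 q hq)
  have h2 : ((12 / nz q * Nf q : ℕ) : K) * (nz q : K) = 12 * (Nf q : K) := by
    rw [← Nat.cast_mul]
    have h3 : 12 / nz q * Nf q * nz q = 12 * Nf q := by
      calc 12 / nz q * Nf q * nz q = 12 / nz q * nz q * Nf q := by ring
        _ = 12 * Nf q := by rw [h]
    rw [h3]
    push_cast
    ring
  rw [h2]

theorem CdA_lsymm (K : Type*) [CommRing K] {V : Type*}
    (ts : List (V → ℤ)) (c : (V → ℤ) → K) :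
    ((ts.map (fun q => c q • Matrix.vecMulVec (cv K q) (cv K q))).sum).IsSymm := by
  induction ts with
  | nil => simp [Matrix.IsSymm]
  | cons r ts ih =>
    rw [List.map_cons, List.sum_cons]
    refine Matrix.IsSymm.add ?_ ih
    ext i j
    simp only [Matrix.transpose_apply, Matrix.smul_apply, Matrix.vecMulVec_apply, smul_eq_mul]
    ring

theorem CdA_Psymm (K : Type*) [CommRing K] {V : Type*} [Fintype V] [DecidableEq V]
    (ts : List (V → ℤ)) : (P12 K ts).IsSymm := by
  unfold P12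
  refine Matrix.IsSymm.sub ?_ (CdA_lsymm K ts _)
  ext i j
  simp only [Matrix.transpose_apply, Matrix.smul_apply, Matrix.one_apply, eq_comm]

theorem TT_symm (K : Type*) [CommRing K] {V : Type*} [Fintype V] [DecidableEq V]
    (G : SimpleGraph V) (ts : List (V → ℤ)) (Nf : (V → ℤ) → ℕ) : (TT K G ts Nf).IsSymm := by
  unfold TT
  refine Matrix.IsSymm.add ?_ (CdA_lsymm K ts _)
  have h1 := CdA_Psymm K ts
  have h2 := sei_isSymm K G
  unfold Matrix.IsSymm at h1 h2 ⊢
  rw [Matrix.transpose_mul, Matrix.transpose_mul, h1, h2, Matrix.mul_assoc]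

theorem CdA_lmap (K : Type*) [Field K] {V : Type*} [Fintype V] [DecidableEq V]
    (ts : List (V → ℤ)) (c : (V → ℤ) → ℕ) :
    (Int.castRingHom K).mapMatrix
      ((ts.map (fun q => ((c q : ℕ) : ℤ) • Matrix.vecMulVec (cv ℤ q) (cv ℤ q))).sum) =
      (ts.map (fun q => ((c q : ℕ) : K) • Matrix.vecMulVec (cv K q) (cv K q))).sum := by
  induction ts with
  | nil => simp
  | cons r ts ih =>
    rw [List.map_cons, List.sum_cons, List.map_cons, List.sum_cons, map_add, ih]
    congr 1
    ext i j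
    simp only [RingHom.mapMatrix_apply, Matrix.map_apply, Matrix.smul_apply,
      Matrix.vecMulVec_apply, cv, smul_eq_mul, map_mul, eq_intCast, Int.cast_natCast, Int.cast_id]

theorem CdA_Pmap (K : Type*) [Field K] {V : Type*} [Fintype V] [DecidableEq V]
    (ts : List (V → ℤ)) : (Int.castRingHom K).mapMatrix (P12 ℤ ts) = P12 K ts := by
  unfold P12
  rw [map_sub, CdA_lmap]
  congr 1
  ext i j
  by_cases h : i = j
  · subst h
    simp only [RingHom.mapMatrix_apply, Matrix.map_apply, Matrix.smul_apply,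
      Matrix.one_apply_eq, smul_eq_mul, map_mul, map_one, eq_intCast, Int.cast_ofNat]
  · simp only [RingHom.mapMatrix_apply, Matrix.map_apply, Matrix.smul_apply,
      Matrix.one_apply_ne h, smul_eq_mul, mul_zero, map_zero]

theorem TT_map (K : Type*) [Field K] {V : Type*} [Fintype V] [DecidableEq V]
    (G : SimpleGraph V) (ts : List (V → ℤ)) (Nf : (V → ℤ) → ℕ) :
    (TT ℤ G ts Nf).map (Int.castRingHom K) = TT K G ts Nf := by
  have h : (Int.castRingHom K).mapMatrix (TT ℤ G ts Nf) = TT K G ts Nf := by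
    unfold TT
    rw [map_add, map_mul, map_mul, CdA_Pmap, CdA_lmap K ts (fun q => 12 / nz q * Nf q)]
    congr 3
    ext i j
    exact sei_cast K G i j
  exact h

theorem CdA_entry {V : Type*} [Fintype V] (ts : List (V → ℤ)) (c : (V → ℤ) → ℕ) (i j : V) :
    (ts.map (fun q => ((c q : ℕ) : ℤ) • Matrix.vecMulVec (cv ℤ q) (cv ℤ q))).sum i j =
      (ts.map (fun q => (c q : ℤ) * (q i * q j))).sum := by
  induction ts with
  | nil => simp
  | cons r ts ih =>
    rw [List.map_cons, List.sum_cons, List.map_cons, List.sum_cons, Matrix.add_apply, ih]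
    congr 1

theorem CdA_case {V : Type*} [Fintype V] (ts : List (V → ℤ)) (hts : Fam ts) (c : (V → ℤ) → ℕ)
    (i : V) : (∀ j, (ts.map (fun q => (c q : ℤ) * (q i * q j))).sum = 0) ∨
      ∃ q ∈ ts, ∀ j, (ts.map (fun q => (c q : ℤ) * (q i * q j))).sum = (c q : ℤ) * (q i * q j) := by
  induction ts with
  | nil => left; intro j; simp
  | cons r ts ih =>
    have hp := List.pairwise_cons.1 hts.2
    have hts' : Fam ts := ⟨fun q hq => hts.1 q (List.mem_cons_of_mem _ hq), hp.2⟩
    by_cases h : r i = 0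
    · rcases ih hts' with h1 | ⟨q, hq, h1⟩
      · left
        intro j
        rw [List.map_cons, List.sum_cons, h1 j, h]
        ring
      · right
        refine ⟨q, List.mem_cons_of_mem _ hq, fun j => ?_⟩
        rw [List.map_cons, List.sum_cons, h1 j, h]
        ring
    · right
      refine ⟨r, List.mem_cons_self, fun j => ?_⟩
      rw [List.map_cons, List.sum_cons]
      have h2 : (ts.map (fun q => (c q : ℤ) * (q i * q j))).sum = 0 := by
        apply List.sum_eq_zero
        intro x hx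
        obtain ⟨q, hq, rfl⟩ := List.mem_map.1 hx
        have h3 : q i = 0 := (hp.1 q hq i).resolve_left h
        rw [h3]
        ring
      rw [h2, add_zero]

theorem CdA_abs {V : Type*} [Fintype V] (q : V → ℤ) (hq : IsTest q) (v : V) :
    |q v| = if q v ≠ 0 then 1 else 0 := by
  rcases hq.1 v with h | h | h <;> simp [h]

theorem CdA_abs1 {V : Type*} [Fintype V] (q : V → ℤ) (hq : IsTest q) (v : V) :
    |q v| ≤ 1 := by
  rcases hq.1 v with h | h | h <;> simp [h]

theorem CdA_absS {V : Type*} [Fintype V] (q : V → ℤ) (hq : IsTest q) :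
    ∑ v, |q v| = (nz q : ℤ) := by
  unfold nz
  rw [Finset.card_filter]
  push_cast
  exact Finset.sum_congr rfl (fun v _ => CdA_abs q hq v)

theorem CdA_row {V : Type*} [Fintype V] [DecidableEq V] (ts : List (V → ℤ)) (hts : Fam ts) (i : V) :
    ∑ j, |P12 ℤ ts i j| ≤ 24 := by
  have h1 : ∀ j, |P12 ℤ ts i j| ≤ (if i = j then 12 else 0) +
      |(ts.map (fun q => ((12 / nz q : ℕ) : ℤ) * (q i * q j))).sum| := by
    intro j
    unfold P12
    rw [Matrix.sub_apply, CdA_entry ts (fun q => 12 / nz q)]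
    refine (abs_sub _ _).trans (add_le_add ?_ le_rfl)
    by_cases h : i = j
    · subst h
      simp
    · simp [h]
  refine (Finset.sum_le_sum (fun j _ => h1 j)).trans ?_
  rw [Finset.sum_add_distrib, Finset.sum_ite_eq]
  simp only [Finset.mem_univ, if_true]
  have h2 : ∑ j, |(ts.map (fun q => ((12 / nz q : ℕ) : ℤ) * (q i * q j))).sum| ≤ 12 := by
    rcases CdA_case ts hts (fun q => 12 / nz q) i with h | ⟨q, hq, h⟩
    · rw [Finset.sum_eq_zero (fun j _ => by rw [h j, abs_zero])]
      norm_num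
    · have hq' := hts.1 q hq
      calc ∑ j, |(ts.map (fun q => ((12 / nz q : ℕ) : ℤ) * (q i * q j))).sum|
          = ∑ j, ((12 / nz q : ℕ) : ℤ) * |q i| * |q j| := by
            refine Finset.sum_congr rfl (fun j _ => ?_)
            rw [h j, abs_mul, abs_mul, Nat.abs_cast]
            ring
        _ = ((12 / nz q : ℕ) : ℤ) * |q i| * (nz q : ℤ) := by
            rw [← Finset.mul_sum, CdA_absS q hq']
        _ ≤ ((12 / nz q : ℕ) : ℤ) * 1 * (nz q : ℤ) := by
            have := CdA_abs1 q hq' i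
            gcongr
        _ = 12 := by
            rw [mul_one, ← Nat.cast_mul, CdA_12 q hq']
            norm_num
  linarith

theorem CdA_sei {V : Type*} (G : SimpleGraph V) (a b : V) : |sei ℤ G a b| ≤ 1 := by
  unfold sei
  simp only [Matrix.of_apply]
  split_ifs <;> simp

theorem TT_bound {V : Type*} [Fintype V] [DecidableEq V] (G : SimpleGraph V)
    (ts : List (V → ℤ)) (hts : Fam ts) (Nf : (V → ℤ) → ℕ) (B : ℕ) (hB : ∀ q ∈ ts, Nf q ≤ B)
    (i j : V) : |TT ℤ G ts Nf i j| ≤ 576 + 6 * (B : ℤ) := by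
  unfold TT
  rw [Matrix.add_apply, CdA_entry ts (fun q => 12 / nz q * Nf q)]
  refine (abs_add_le _ _).trans (add_le_add ?_ ?_)
  · have hs := CdA_Psymm ℤ ts
    have h1 : |(P12 ℤ ts * sei ℤ G * P12 ℤ ts) i j| ≤ ∑ b, ∑ a, |P12 ℤ ts i a| * |P12 ℤ ts j b| := by
      rw [Matrix.mul_apply]
      refine (Finset.abs_sum_le_sum_abs _ _).trans (Finset.sum_le_sum (fun b _ => ?_))
      rw [abs_mul, Matrix.mul_apply, ← Finset.sum_mul]
      have e : P12 ℤ ts b j = P12 ℤ ts j b := hs.apply j b
      rw [e]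
      refine mul_le_mul_of_nonneg_right ?_ (abs_nonneg _)
      refine (Finset.abs_sum_le_sum_abs _ _).trans (Finset.sum_le_sum (fun a _ => ?_))
      rw [abs_mul]
      exact mul_le_of_le_one_right (abs_nonneg _) (CdA_sei G a b)
    refine h1.trans ?_
    have h2 : ∑ b, ∑ a, |P12 ℤ ts i a| * |P12 ℤ ts j b| =
        (∑ a, |P12 ℤ ts i a|) * ∑ b, |P12 ℤ ts j b| := by
      rw [Finset.mul_sum]
      refine Finset.sum_congr rfl (fun b _ => ?_)
      rw [Finset.sum_mul]
    rw [h2]
    have h3 := CdA_row ts hts i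
    have h4 := CdA_row ts hts j
    have h5 : 0 ≤ ∑ b, |P12 ℤ ts j b| := Finset.sum_nonneg (fun _ _ => abs_nonneg _)
    calc (∑ a, |P12 ℤ ts i a|) * ∑ b, |P12 ℤ ts j b| ≤ 24 * 24 :=
          mul_le_mul h3 h4 h5 (by norm_num)
      _ = 576 := by norm_num
  · rcases CdA_case ts hts (fun q => 12 / nz q * Nf q) i with h | ⟨q, hq, h⟩
    · rw [h j, abs_zero]
      positivity
    · have hq' := hts.1 q hq
      rw [h j, abs_mul, abs_mul, Nat.abs_cast]
      have h1 := CdA_abs1 q hq' i
      have h2 := CdA_abs1 q hq' j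
      have h3 : |q i| * |q j| ≤ 1 := mul_le_one₀ h1 (abs_nonneg _) h2
      have h4 : 12 / nz q * Nf q ≤ 6 * B := by
        refine Nat.mul_le_mul ?_ (hB q hq)
        rcases hq'.2 with h | h | h <;> rw [h] <;> norm_num
      calc ((12 / nz q * Nf q : ℕ) : ℤ) * (|q i| * |q j|)
          ≤ ((12 / nz q * Nf q : ℕ) : ℤ) * 1 := mul_le_mul_of_nonneg_left h3 (by positivity)
        _ ≤ 6 * (B : ℤ) := by
            rw [mul_one]
            exact_mod_cast h4

end Pool.Agent.H95.DL
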