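import Pool.Agent.H95.DL.CdA
import Pool.Agent.H95.DL.Ds

/-!
# Job DL-28: simple spectrum of the integral matrix over the complex numbers

PROOF.  Let `A` be the finite set of `EE_finite` (`K = ℂ`, `|A| ≤ |V|`).  Choose `Nf` with different
values on the tests `q ∈ ts` (a list without repetitions: different tests have disjoint nonempty
supports), `Nf q ≤ |V| + ts.length` and `12 Nf q ≠ 144 μ` for all `μ ∈ A` (at most `|V|` of the numbers
`0, ..., |V| + ts.length` are excluded; choose greedily, or: the set of allowed numbers in the range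
has at least `ts.length` elements, take an injection of `ts.toFinset` into it).
Let `T = TT ℂ G ts Nf`, `T x = θ x`.  For a test `q`: `q·(T x) = (T q)·x = 12 Nf q (q·x)` (symmetry), so
`(12 Nf q - θ) (q·x) = 0`.  Case 1: `θ ≠ 12 Nf q` for all `q ∈ ts`: all `x` in the eigenspace are
orthogonal to the tests, `P12 x = 12 x`, and `T x = 12 P12 (S x)`, so
`P12 (S x) = (θ/12) x`; writing `S x = y + z` with `z` in the span and `y` orthogonal (`12 y = P12 S x`)
gives `S x - (θ/144) x ∈ span`, `x ∈ EE ℂ G ts (θ/144)`; so the eigenspace is contained in a space of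
dimension `≤ 1` by `SIM`.  Case 2: `θ = 12 Nf q`, `q` unique.  For `x` in the eigenspace
`x' = x - (q·x / nz q) q` is in the eigenspace and orthogonal to all the tests, so
`x' ∈ EE ℂ G ts (θ/144)`, and `θ/144 ∉ A` gives `x' = 0`.  So the eigenspace is spanned by `cv ℂ q`.
-/

set_option autoImplicit false

namespace Pool.Agent.H95.DL

open Matrix Classical Pool.Agent.H66.SP Pool.Agent.H95.SQ

theorem CdB_sum_mulVec {K : Type*} [Field K] {V : Type*} [Fintype V] (ts : List (V → ℤ))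
    (c : (V → ℤ) → K) (y : V → K) :
    (ts.map (fun q => c q • Matrix.vecMulVec (cv K q) (cv K q))).sum *ᵥ y =
      (ts.map (fun q => (c q * (cv K q ⬝ᵥ y)) • cv K q)).sum := by
  induction ts with
  | nil => simp
  | cons q ts ih =>
    rw [List.map_cons, List.sum_cons, List.map_cons, List.sum_cons, Matrix.add_mulVec, ih,
      Matrix.smul_mulVec, Matrix.vecMulVec_mulVec]
    congr 1
    rw [mul_smul]
    congr 1
    ext v
    simp [mul_comm]

theorem CdB_sum_mem {K : Type*} [Field K] {V : Type*} (ts ts' : List (V → ℤ))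
    (h : ∀ q ∈ ts', q ∈ ts) (d : (V → ℤ) → K) :
    (ts'.map (fun q => d q • cv K q)).sum ∈
      Submodule.span K {y : V → K | ∃ q ∈ ts, y = cv K q} := by
  induction ts' with
  | nil => simp
  | cons q ts' ih =>
    rw [List.map_cons, List.sum_cons]
    refine Submodule.add_mem _ (Submodule.smul_mem _ _ (Submodule.subset_span
      ⟨q, h q (by simp), rfl⟩)) (ih fun r hr => h r (List.mem_cons_of_mem _ hr))

theorem CdB_sum_zero {K : Type*} [Field K] {V : Type*} (ts : List (V → ℤ))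
    (d : (V → ℤ) → K) (h : ∀ q ∈ ts, d q = 0) :
    (ts.map (fun q => d q • cv K q)).sum = 0 := by
  induction ts with
  | nil => simp
  | cons q ts ih =>
    rw [List.map_cons, List.sum_cons, h q (by simp), zero_smul, zero_add]
    exact ih fun r hr => h r (List.mem_cons_of_mem _ hr)

theorem CdB_EE {V : Type*} [Fintype V] [DecidableEq V] (G : SimpleGraph V)
    (ts : List (V → ℤ)) (Nf : (V → ℤ) → ℕ) (θ : ℂ) (x : V → ℂ)
    (hx : TT ℂ G ts Nf *ᵥ x = θ • x) (ho : ∀ q ∈ ts, cv ℂ q ⬝ᵥ x = 0) :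
    x ∈ EE ℂ G ts (θ / 144) := by
  rw [mem_EE]
  refine ⟨ho, ?_⟩
  have h1 : P12 ℂ ts *ᵥ x = (12 : ℂ) • x := P12_orth ℂ ts x ho
  have h2 : TT ℂ G ts Nf *ᵥ x = (12 : ℂ) • (P12 ℂ ts *ᵥ (sei ℂ G *ᵥ x)) := by
    unfold TT
    rw [Matrix.add_mulVec, CdB_sum_mulVec ts (fun q => ((12 / nz q * Nf q : ℕ) : ℂ)) x,
      CdB_sum_zero ts _ (fun q hq => by rw [ho q hq, mul_zero]), add_zero,
      ← Matrix.mulVec_mulVec, ← Matrix.mulVec_mulVec, h1, Matrix.mulVec_smul, Matrix.mulVec_smul]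
  have h3 : P12 ℂ ts *ᵥ (sei ℂ G *ᵥ x) = (12 : ℂ) • (sei ℂ G *ᵥ x) -
      (ts.map (fun q => (((12 / nz q : ℕ) : ℂ) * (cv ℂ q ⬝ᵥ (sei ℂ G *ᵥ x))) • cv ℂ q)).sum := by
    unfold P12
    rw [Matrix.sub_mulVec, CdB_sum_mulVec ts (fun q => ((12 / nz q : ℕ) : ℂ)),
      Matrix.smul_mulVec, Matrix.one_mulVec]
  set z := (ts.map (fun q => (((12 / nz q : ℕ) : ℂ) * (cv ℂ q ⬝ᵥ (sei ℂ G *ᵥ x))) • cv ℂ q)).sum
    with hz
  have hzm : z ∈ Submodule.span ℂ {y : V → ℂ | ∃ q ∈ ts, y = cv ℂ q} :=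
    CdB_sum_mem ts ts (fun q hq => hq) _
  have h4 : sei ℂ G *ᵥ x - (θ / 144) • x = (1 / 12 : ℂ) • z := by
    rw [h2, h3, smul_sub, smul_smul] at hx
    have h5 : x = (1 : ℂ) • x := (one_smul _ _).symm
    have h6 : (144 : ℂ) • (sei ℂ G *ᵥ x) = θ • x + (12 : ℂ) • z := by
      rw [← hx]
      norm_num
    have h7 : sei ℂ G *ᵥ x = (1 / 144 : ℂ) • ((144 : ℂ) • (sei ℂ G *ᵥ x)) := by
      rw [smul_smul]
      norm_num
    rw [h7, h6, smul_add, smul_smul, smul_smul]
    have h8 : (1 / 144 : ℂ) * θ = θ / 144 := by ring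
    have h9 : (1 / 144 : ℂ) * 12 = 1 / 12 := by norm_num
    rw [h8, h9, add_sub_cancel_left]
  rw [h4]
  exact Submodule.smul_mem _ _ hzm

theorem CdB_dot {V : Type*} [Fintype V] [DecidableEq V] (G : SimpleGraph V)
    (ts : List (V → ℤ)) (hts : Fam ts) (Nf : (V → ℤ) → ℕ) (θ : ℂ) (x : V → ℂ)
    (hx : TT ℂ G ts Nf *ᵥ x = θ • x) (q : V → ℤ) (hq : q ∈ ts) (hne : θ ≠ 12 * (Nf q : ℂ)) :
    cv ℂ q ⬝ᵥ x = 0 := by
  have h1 : cv ℂ q ⬝ᵥ (TT ℂ G ts Nf *ᵥ x) = (TT ℂ G ts Nf *ᵥ cv ℂ q) ⬝ᵥ x := by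
    rw [Matrix.dotProduct_mulVec, ← Matrix.mulVec_transpose, (TT_symm ℂ G ts Nf).eq]
  rw [hx, TT_test ℂ G ts hts Nf q hq, dotProduct_smul, smul_dotProduct, smul_eq_mul,
    smul_eq_mul] at h1
  have h2 : (θ - 12 * (Nf q : ℂ)) * (cv ℂ q ⬝ᵥ x) = 0 := by
    rw [sub_mul, h1, sub_self]
  rcases mul_eq_zero.1 h2 with h | h
  · exact absurd (sub_eq_zero.1 h) hne
  · exact h

theorem CdB_self {V : Type*} [Fintype V] (q : V → ℤ) (hq : IsTest q) :
    cv ℂ q ⬝ᵥ cv ℂ q = (nz q : ℂ) := by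
  unfold nz
  rw [Finset.card_filter, dotProduct]
  push_cast
  refine Finset.sum_congr rfl fun v _ => ?_
  unfold cv
  rcases hq.1 v with h | h | h <;> simp [h]

theorem CdB_choose {V : Type*} [Fintype V] [DecidableEq V] (ts : List (V → ℤ)) (A : Finset ℂ)
    (hA : A.card ≤ Fintype.card V) :
    ∃ Nf : (V → ℤ) → ℕ, (∀ q ∈ ts, Nf q ≤ Fintype.card V + ts.length) ∧
      (∀ q ∈ ts, ∀ r ∈ ts, Nf q = Nf r → q = r) ∧ ∀ q ∈ ts, 12 * (Nf q : ℂ) / 144 ∉ A := by
  let R := Finset.range (Fintype.card V + ts.length + 1)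
  let Al : Finset ℕ := R.filter (fun m : ℕ => 12 * (m : ℂ) / 144 ∉ A)
  have hbad : (R.filter (fun m : ℕ => ¬ 12 * (m : ℂ) / 144 ∉ A)).card ≤ A.card := by
    refine Finset.card_le_card_of_injOn (fun m : ℕ => 12 * (m : ℂ) / 144) ?_ ?_
    · intro m hm
      have h1 := (Finset.mem_filter.1 hm).2
      exact not_not.1 h1
    · intro m _ m' _ h
      have h1 : 12 * (m : ℂ) / 144 = 12 * (m' : ℂ) / 144 := h
      have h2 : (m : ℂ) = m' := by
        have h3 : (12 * (m : ℂ) / 144) * 12 = (12 * (m' : ℂ) / 144) * 12 := by rw [h1]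
        ring_nf at h3
        exact h3
      exact_mod_cast h2
  have hAl : ts.toFinset.card ≤ Al.card := by
    have h1 : Al.card + (R.filter (fun m : ℕ => ¬ 12 * (m : ℂ) / 144 ∉ A)).card = R.card :=
      Finset.card_filter_add_card_filter_not _
    have h2 : R.card = Fintype.card V + ts.length + 1 := Finset.card_range _
    have h3 := ts.toFinset_card_le
    omega
  obtain ⟨f⟩ : Nonempty (ts.toFinset ↪ Al) := by
    refine Function.Embedding.nonempty_of_card_le ?_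
    rw [Fintype.card_coe, Fintype.card_coe]
    exact hAl
  refine ⟨fun q => if h : q ∈ ts.toFinset then (f ⟨q, h⟩).1 else 0, ?_, ?_, ?_⟩
  · intro q hq
    have hq' : q ∈ ts.toFinset := List.mem_toFinset.2 hq
    simp only [dif_pos hq']
    have h1 := Finset.mem_range.1 (Finset.mem_filter.1 (f ⟨q, hq'⟩).2).1
    omega
  · intro q hq r hr h
    have hq' : q ∈ ts.toFinset := List.mem_toFinset.2 hq
    have hr' : r ∈ ts.toFinset := List.mem_toFinset.2 hr
    simp only [dif_pos hq', dif_pos hr'] at h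
    have h1 := f.injective (Subtype.ext h)
    exact congrArg Subtype.val h1
  · intro q hq
    have hq' : q ∈ ts.toFinset := List.mem_toFinset.2 hq
    simp only [dif_pos hq']
    exact (Finset.mem_filter.1 (f ⟨q, hq'⟩).2).2

theorem exists_Nf {V : Type*} [Fintype V] [DecidableEq V] (G : SimpleGraph V)
    (ts : List (V → ℤ)) (hts : Fam ts) (h : SIM G ts) :
    ∃ Nf : (V → ℤ) → ℕ, (∀ q ∈ ts, Nf q ≤ Fintype.card V + ts.length) ∧
      ∀ θ : ℂ, mult (TT ℂ G ts Nf) θ ≤ 1 := by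
  obtain ⟨A, hA, hA2⟩ := EE_finite ℂ (by norm_num) G ts hts
  obtain ⟨Nf, h1, h2, h3⟩ := CdB_choose ts A hA
  refine ⟨Nf, h1, fun θ => ?_⟩
  unfold mult
  by_cases hθ : ∃ q ∈ ts, θ = 12 * (Nf q : ℂ)
  · obtain ⟨q, hq, hθ⟩ := hθ
    have hqt := hts.1 q hq
    have hnz : (nz q : ℂ) ≠ 0 := by
      have : nz q ≠ 0 := by rcases hqt.2 with h | h | h <;> omega
      exact_mod_cast this
    have hle : eig (TT ℂ G ts Nf) θ ≤ Submodule.span ℂ {cv ℂ q} := by
      intro x hx
      rw [mem_eig] at hx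
      set x' := x - ((cv ℂ q ⬝ᵥ x) / (nz q : ℂ)) • cv ℂ q with hx'
      have hTx' : TT ℂ G ts Nf *ᵥ x' = θ • x' := by
        rw [hx', Matrix.mulVec_sub, Matrix.mulVec_smul, hx, TT_test ℂ G ts hts Nf q hq, ← hθ,
          smul_sub, smul_comm]
      have ho : ∀ r ∈ ts, cv ℂ r ⬝ᵥ x' = 0 := by
        intro r hr
        by_cases hrq : q = r
        · subst hrq
          rw [hx', dotProduct_sub, dotProduct_smul, CdB_self q hqt, smul_eq_mul,
            div_mul_cancel₀ _ hnz, sub_self]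
        · refine CdB_dot G ts hts Nf θ x' hTx' r hr ?_
          intro h4
          apply hrq
          apply h2 q hq r hr
          have h5 : (12 : ℂ) * (Nf q : ℂ) = 12 * (Nf r : ℂ) := by rw [← hθ, ← h4]
          have h6 := mul_left_cancel₀ (by norm_num : (12 : ℂ) ≠ 0) h5
          exact_mod_cast h6
      have hEE := CdB_EE G ts Nf θ x' hTx' ho
      have hx0 : x' = 0 := by
        by_contra hne
        have h4 := hA2 _ ⟨x', hEE, hne⟩
        rw [hθ] at h4
        exact h3 q hq h4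
      rw [Submodule.mem_span_singleton]
      exact ⟨(cv ℂ q ⬝ᵥ x) / (nz q : ℂ), (sub_eq_zero.1 hx0).symm⟩
    refine (Submodule.finrank_mono hle).trans ?_
    refine (finrank_span_le_card ({cv ℂ q} : Set (V → ℂ))).trans ?_
    simp
  · have hle : eig (TT ℂ G ts Nf) θ ≤ EE ℂ G ts (θ / 144) := by
      intro x hx
      rw [mem_eig] at hx
      refine CdB_EE G ts Nf θ x hx fun q hq => CdB_dot G ts hts Nf θ x hx q hq ?_
      intro h4
      exact hθ ⟨q, hq, h4⟩
    exact (Submodule.finrank_mono hle).trans (h _)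

end Pool.Agent.H95.DL
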