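import Pool.Agent.H95.DL.Def2

/-!
# Job DL-29: an isotropic eigenvector gives a multiple root

PROOF.  The root multiplicity of `ν` in the characteristic polynomial is the dimension of the
generalised eigenspace (`LinearMap.finrank_maxGenEigenspace_eq`, for `T.toLin'` or `T.mulVecLin`;
`Matrix.charpoly_toLin'`).  It is `≥ 2`: if the eigenspace has dimension `≥ 2` this is clear.
Otherwise the eigenspace is spanned by `w`; the image of `B = T - ν` is the orthogonal space of the
kernel of `B^T = B`, i.e. of `w` (dimension count: the image is contained in `{x | x·w = 0}`, and both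
have dimension `|V| - 1`), and `w·w = 0`, so `w = B u` for some `u`; `u` is in the generalised
eigenspace (`B^2 u = 0`), `w` also, and they are independent (`B u = w ≠ 0`, `B w = 0`).
A root of multiplicity `≥ 2` is a root of the derivative
(`Polynomial.one_lt_rootMultiplicity_iff_isRoot` or similar).
-/

set_option autoImplicit false

namespace Pool.Agent.H95.DL

open Matrix Classical Pool.Agent.H66.SP Pool.Agent.H95.SQ

theorem iso_root {K : Type*} [Field K] {V : Type*} [Fintype V] [DecidableEq V]
    (T : Matrix V V K) (hT : T.IsSymm) (ν : K) (w : V → K) (hw : T *ᵥ w = ν • w) (hw0 : w ≠ 0)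
    (hiso : w ⬝ᵥ w = 0) : (Polynomial.derivative T.charpoly).eval ν = 0 := by
  have hcp : (Matrix.toLin' T : Module.End K (V → K)).charpoly = T.charpoly :=
    Matrix.charpoly_toLin' T
  set φ : Module.End K (V → K) := Matrix.toLin' T with hφ
  by_contra hne
  have hp0 : T.charpoly ≠ 0 := T.charpoly_monic.ne_zero
  have hmul : T.charpoly.rootMultiplicity ν ≤ 1 := by
    by_contra h
    rw [not_le] at h
    exact hne ((Polynomial.one_lt_rootMultiplicity_iff_isRoot hp0).1 h).2
  have hfin : Module.finrank K (φ.maxGenEigenspace ν) ≤ 1 := by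
    rw [LinearMap.finrank_maxGenEigenspace_eq, hcp]
    exact hmul
  have hφa : ∀ x, φ x = T *ᵥ x := fun x => Matrix.toLin'_apply T x
  set B : Module.End K (V → K) := φ - ν • (1 : Module.End K (V → K)) with hB
  have hBa : ∀ x, B x = T *ᵥ x - ν • x := by
    intro x
    rw [hB, LinearMap.sub_apply, hφa]
    rfl
  have hBw : B w = 0 := by
    rw [hBa, hw, sub_self]
  have hwm : w ∈ φ.maxGenEigenspace ν := by
    rw [Module.End.mem_maxGenEigenspace]
    exact ⟨1, by rw [pow_one]; exact hBw⟩
  have hw1 : (⟨w, hwm⟩ : φ.maxGenEigenspace ν) ≠ 0 := by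
    intro h
    exact hw0 (congrArg Subtype.val h)
  have hfin1 : Module.finrank K (φ.maxGenEigenspace ν) = 1 := by
    apply le_antisymm hfin
    exact Module.finrank_pos_iff_exists_ne_zero.2 ⟨_, hw1⟩
  have hall : ∀ u ∈ φ.maxGenEigenspace ν, ∃ c : K, c • w = u := by
    intro u hu
    obtain ⟨c, hc⟩ := (finrank_eq_one_iff_of_nonzero' _ hw1).1 hfin1 ⟨u, hu⟩
    exact ⟨c, congrArg Subtype.val hc⟩
  -- the image of `B`
  let f : (V → K) →ₗ[K] K :=
    { toFun := fun x => x ⬝ᵥ w
      map_add' := fun x y => add_dotProduct x y w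
      map_smul' := fun c x => smul_dotProduct c x w }
  have hf : ∀ x, f x = x ⬝ᵥ w := fun _ => rfl
  have hf0 : f ≠ 0 := by
    intro h
    apply hw0
    funext i
    have h1 : f (Pi.single i 1) = 0 := by rw [h]; rfl
    rw [hf, single_dotProduct, one_mul] at h1
    exact h1
  have hr1 : LinearMap.range B ≤ LinearMap.ker f := by
    rintro _ ⟨x, rfl⟩
    rw [LinearMap.mem_ker, hf, hBa, sub_dotProduct, smul_dotProduct]
    have h1 : T *ᵥ x ⬝ᵥ w = x ⬝ᵥ (T *ᵥ w) := by
      rw [dotProduct_mulVec, ← mulVec_transpose, hT.eq]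
    rw [h1, hw, dotProduct_smul, sub_self]
  have hk : LinearMap.ker B ≤ φ.maxGenEigenspace ν := by
    intro x hx
    rw [Module.End.mem_maxGenEigenspace]
    exact ⟨1, by rw [pow_one]; exact hx⟩
  have hk1 : Module.finrank K (LinearMap.ker B) ≤ 1 := by
    rw [← hfin1]
    exact Submodule.finrank_mono hk
  have hr2 : LinearMap.range B = LinearMap.ker f := by
    apply Submodule.eq_of_le_of_finrank_le hr1
    have h1 := LinearMap.finrank_range_add_finrank_ker B
    have h2 := Module.Dual.finrank_ker_add_one_of_ne_zero hf0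
    omega
  have hwr : w ∈ LinearMap.range B := by
    rw [hr2, LinearMap.mem_ker, hf]
    exact hiso
  obtain ⟨u, hu⟩ := hwr
  have hum : u ∈ φ.maxGenEigenspace ν := by
    rw [Module.End.mem_maxGenEigenspace]
    refine ⟨2, ?_⟩
    rw [pow_two]
    show B (B u) = 0
    rw [hu, hBw]
  obtain ⟨c, hc⟩ := hall u hum
  apply hw0
  rw [← hu, ← hc, map_smul, hBw, smul_zero]

end Pool.Agent.H95.DL
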