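import Pool.Agent.H95.DL.Def2

/-!
# Job DL-30: the discriminant matrix, complex estimate

`Dl T = det (χ'(T))`, `χ` the characteristic polynomial of the integral symmetric matrix `T`.

PROOF.  Over `ℂ` (or `ℝ`) `T` is hermitian: `T = U diag(λ) U⁻¹` with real eigenvalues `λ i`
(`Matrix.IsHermitian.spectral_theorem`); all eigenspaces have dimension `≤ 1`, so the `λ i` are
different.  `χ = ∏ (X - λ j)` (`Matrix.IsHermitian.charpoly_eq` or through similarity), so
`χ'(λ i) = ∏_{j ≠ i} (λ i - λ j)` (`Polynomial.eval_derivative_prod` or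
`Polynomial.derivative_prod`), nonzero and at most `(2 N Λ)^(N - 1)` in absolute value, as
`|λ| ≤ N Λ` (take an eigenvector and its largest entry).  `χ'(T) = U χ'(diag λ) U⁻¹` has determinant
`∏ χ'(λ i)`: nonzero and at most `(2 N Λ)^(N (N-1)) ≤ (2 N Λ)^(N^2)` (`2 N Λ ≥ 1` if `N ≥ 1`; for
`N = 0` the determinant is `1`).
-/

set_option autoImplicit false

namespace Pool.Agent.H95.DL

open Matrix Classical Pool.Agent.H66.SP Pool.Agent.H95.SQ

/-- `det (χ'(T))` -/
noncomputable def Dl {V : Type*} [Fintype V] [DecidableEq V] (T : Matrix V V ℤ) : ℤ :=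
  (Polynomial.aeval T (Polynomial.derivative T.charpoly)).det

theorem CdD_det {V : Type*} [Fintype V] [DecidableEq V] (A : Matrix V V ℂ) (hA : A.IsHermitian)
    (p : Polynomial ℂ) :
    (Polynomial.aeval A p).det = ∏ i, p.eval ((hA.eigenvalues i : ℝ) : ℂ) := by
  set D : Matrix V V ℂ := diagonal (fun i => ((hA.eigenvalues i : ℝ) : ℂ)) with hD
  have h0 : A = (hA.eigenvectorUnitary : Matrix V V ℂ) * D *
      star (hA.eigenvectorUnitary : Matrix V V ℂ) := by
    have := hA.spectral_theorem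
    rw [Unitary.conjStarAlgAut_apply] at this
    exact this
  let φ := (Unitary.conjStarAlgAut ℂ (Matrix V V ℂ) hA.eigenvectorUnitary)
  have h1 : Polynomial.aeval A p = φ (Polynomial.aeval D p) := by
    have h2 : A = φ D := by
      show A = Unitary.conjStarAlgAut ℂ (Matrix V V ℂ) hA.eigenvectorUnitary D
      rw [Unitary.conjStarAlgAut_apply]
      exact h0
    rw [h2]
    exact Polynomial.aeval_algHom_apply φ D p
  have h3 : Polynomial.aeval D p = diagonal (fun i => p.eval ((hA.eigenvalues i : ℝ) : ℂ)) := by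
    have e : D = Matrix.diagonalAlgHom ℂ (fun i => ((hA.eigenvalues i : ℝ) : ℂ)) := rfl
    rw [e, Polynomial.aeval_algHom_apply, Polynomial.aeval_pi_apply]
    rfl
  rw [h1]
  show (Unitary.conjStarAlgAut ℂ (Matrix V V ℂ) hA.eigenvectorUnitary (Polynomial.aeval D p)).det = _
  rw [Unitary.conjStarAlgAut_apply, Matrix.det_mul, Matrix.det_mul, mul_comm, ← mul_assoc,
    ← Matrix.det_mul, h3, Matrix.det_diagonal]
  have h4 : (star (hA.eigenvectorUnitary : Matrix V V ℂ) *
      (hA.eigenvectorUnitary : Matrix V V ℂ)) = 1 := Unitary.coe_star_mul_self _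
  rw [h4, Matrix.det_one, one_mul]

theorem CdD_herm {V : Type*} [Fintype V] [DecidableEq V] (T : Matrix V V ℤ) (hT : T.IsSymm) :
    (T.map (Int.castRingHom ℂ)).IsHermitian := by
  ext i j
  simp only [Matrix.conjTranspose_apply, Matrix.map_apply, eq_intCast, RCLike.star_def]
  rw [map_intCast]
  have := congrFun (congrFun hT i) j
  rw [Matrix.transpose_apply] at this
  rw [this]

theorem CdD_cast {V : Type*} [Fintype V] [DecidableEq V] (T : Matrix V V ℤ) (hT : T.IsSymm) :
    ((Dl T : ℤ) : ℂ) = ∏ i, ∏ j ∈ Finset.univ.erase i,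
      ((((CdD_herm T hT).eigenvalues i : ℝ) : ℂ) - (((CdD_herm T hT).eigenvalues j : ℝ) : ℂ)) := by
  set A : Matrix V V ℂ := T.map (Int.castRingHom ℂ) with hA
  have h1 : ((Dl T : ℤ) : ℂ) = (Polynomial.aeval A (Polynomial.derivative A.charpoly)).det := by
    have e1 : ((Dl T : ℤ) : ℂ) = (Int.castRingHom ℂ) (Dl T) := rfl
    rw [e1, Dl, RingHom.map_det]
    congr 1
    have e2 := Polynomial.map_aeval_eq_aeval_map (R := ℤ) (S := Matrix V V ℤ) (T := ℂ)
      (U := Matrix V V ℂ) (φ := Int.castRingHom ℂ)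
      (ψ := (Int.castRingHom ℂ).mapMatrix) (RingHom.ext_int _ _) (Polynomial.derivative T.charpoly) T
    rw [e2]
    have e3 : (Int.castRingHom ℂ).mapMatrix T = A := rfl
    rw [e3, ← Polynomial.derivative_map, ← Matrix.charpoly_map]
  rw [h1, CdD_det A (CdD_herm T hT)]
  refine Finset.prod_congr rfl fun i _ => ?_
  rw [(CdD_herm T hT).charpoly_eq, Polynomial.derivative_prod_finset, Polynomial.eval_finsetSum,
    Finset.sum_eq_single i]
  · rw [Polynomial.eval_mul, Polynomial.eval_prod]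
    simp
  · intro j _ hj
    rw [Polynomial.eval_mul, Polynomial.eval_prod]
    rw [Finset.prod_eq_zero (i := i)]
    · simp
    · exact Finset.mem_erase.mpr ⟨fun h => hj h.symm, Finset.mem_univ _⟩
    · simp
  · intro h
    exact absurd (Finset.mem_univ _) h

theorem Dl_ne {V : Type*} [Fintype V] [DecidableEq V] (T : Matrix V V ℤ) (hT : T.IsSymm)
    (hs : ∀ θ : ℂ, mult (T.map (Int.castRingHom ℂ)) θ ≤ 1) : Dl T ≠ 0 := by
  intro h0
  have h1 := CdD_cast T hT
  rw [h0, Int.cast_zero] at h1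
  obtain ⟨i, -, hi⟩ := Finset.prod_eq_zero_iff.mp h1.symm
  obtain ⟨j, hj, hij⟩ := Finset.prod_eq_zero_iff.mp hi
  have hne : j ≠ i := (Finset.mem_erase.mp hj).1
  set A : Matrix V V ℂ := T.map (Int.castRingHom ℂ) with hA
  have hH := CdD_herm T hT
  rw [← hA] at hH
  have hev : ((hH.eigenvalues i : ℝ) : ℂ) = ((hH.eigenvalues j : ℝ) : ℂ) := sub_eq_zero.mp hij
  have mi : (⇑(hH.eigenvectorBasis i) : V → ℂ) ∈ eig A ((hH.eigenvalues i : ℝ) : ℂ) := by
    rw [mem_eig]
    have := hH.mulVec_eigenvectorBasis i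
    rw [this]
    ext v
    simp
  have mj : (⇑(hH.eigenvectorBasis j) : V → ℂ) ∈ eig A ((hH.eigenvalues i : ℝ) : ℂ) := by
    rw [mem_eig, hev]
    have := hH.mulVec_eigenvectorBasis j
    rw [this]
    ext v
    simp
  have hf := hs ((hH.eigenvalues i : ℝ) : ℂ)
  unfold mult at hf
  rw [finrank_le_one_iff] at hf
  obtain ⟨w, hw⟩ := hf
  obtain ⟨c, hc⟩ := hw ⟨_, mi⟩
  obtain ⟨d, hd⟩ := hw ⟨_, mj⟩
  have hc' : c • (w : V → ℂ) = ⇑(hH.eigenvectorBasis i) := congrArg Subtype.val hc
  have hd' : d • (w : V → ℂ) = ⇑(hH.eigenvectorBasis j) := congrArg Subtype.val hd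
  have hli := hH.eigenvectorBasis.orthonormal.linearIndependent
  have hne0 : hH.eigenvectorBasis i ≠ 0 := hli.ne_zero i
  have hc0 : c ≠ 0 := by
    rintro rfl
    apply hne0
    ext v
    have := congrFun hc' v
    simpa using this.symm
  have : hH.eigenvectorBasis j = (d / c) • hH.eigenvectorBasis i := by
    ext v
    have e1 := congrFun hc' v
    have e2 := congrFun hd' v
    simp only [Pi.smul_apply, smul_eq_mul] at e1 e2
    rw [PiLp.smul_apply, smul_eq_mul, ← e1, ← e2]
    field_simp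
  have hinj : inner ℂ (hH.eigenvectorBasis i) (hH.eigenvectorBasis j) = 0 :=
    hH.eigenvectorBasis.orthonormal.2 hne.symm
  have h5 : inner ℂ (hH.eigenvectorBasis i) (hH.eigenvectorBasis j) = d / c := by
    rw [this, inner_smul_right, inner_self_eq_norm_sq_to_K, hH.eigenvectorBasis.orthonormal.1 i]
    simp
  rw [h5] at hinj
  have h6 : hH.eigenvectorBasis j = 0 := by rw [this, hinj, zero_smul]
  exact hli.ne_zero j h6

theorem CdD_ev {V : Type*} [Fintype V] [DecidableEq V] (T : Matrix V V ℤ) (hT : T.IsSymm)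
    (Λ : ℕ) (hb : ∀ i j, |T i j| ≤ Λ) (i : V) :
    |(CdD_herm T hT).eigenvalues i| ≤ Fintype.card V * Λ := by
  set A : Matrix V V ℂ := T.map (Int.castRingHom ℂ) with hA
  set hH := CdD_herm T hT with hHdef
  set w : V → ℂ := ⇑(hH.eigenvectorBasis i) with hw
  have h1 : A *ᵥ w = (hH.eigenvalues i) • w := hH.mulVec_eigenvectorBasis i
  have hli := hH.eigenvectorBasis.orthonormal.linearIndependent
  have hne0 : hH.eigenvectorBasis i ≠ 0 := hli.ne_zero i
  obtain ⟨v, -, hv⟩ := Finset.exists_max_image (Finset.univ : Finset V) (fun v => ‖w v‖) ⟨i, Finset.mem_univ _⟩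
  have hv0 : 0 < ‖w v‖ := by
    rw [norm_pos_iff]
    intro h
    apply hne0
    ext u
    have := hv u (Finset.mem_univ _)
    simp only [h, norm_zero] at this
    have h2 : w u = 0 := by
      rw [← norm_le_zero_iff]; exact this
    simpa [hw] using h2
  have h3 := congrFun h1 v
  have h4 : ‖(A *ᵥ w) v‖ ≤ (Fintype.card V * Λ) * ‖w v‖ := by
    rw [Matrix.mulVec, dotProduct]
    refine (norm_sum_le _ _).trans ?_
    have h5 : ∀ u ∈ (Finset.univ : Finset V), ‖A v u * w u‖ ≤ Λ * ‖w v‖ := by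
      intro u _
      rw [norm_mul]
      have h6 : ‖A v u‖ ≤ (Λ : ℝ) := by
        have e : A v u = ((T v u : ℤ) : ℂ) := rfl
        rw [e, Complex.norm_intCast]
        exact_mod_cast hb v u
      have h7 := hv u (Finset.mem_univ _)
      gcongr
    refine (Finset.sum_le_sum h5).trans ?_
    rw [Finset.sum_const, Finset.card_univ, nsmul_eq_mul]
    ring_nf
    rfl
  rw [h3] at h4
  simp only [Pi.smul_apply, norm_smul, Real.norm_eq_abs] at h4
  exact le_of_mul_le_mul_right h4 hv0

theorem Dl_le {V : Type*} [Fintype V] [DecidableEq V] (T : Matrix V V ℤ) (hT : T.IsSymm)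
    (Λ : ℕ) (hΛ : 1 ≤ Λ) (hb : ∀ i j, |T i j| ≤ Λ) :
    (Dl T).natAbs ≤ (2 * Fintype.card V * Λ) ^ (Fintype.card V ^ 2) := by
  rcases Nat.eq_zero_or_pos (Fintype.card V) with h0 | h0
  · have : IsEmpty V := Fintype.card_eq_zero_iff.mp h0
    rw [Dl, Matrix.det_isEmpty, h0]
    simp
  have h1 : ((Dl T).natAbs : ℝ) ≤ ((2 * Fintype.card V * Λ : ℕ) : ℝ) ^ (Fintype.card V ^ 2) := by
    have e1 : ((Dl T).natAbs : ℝ) = ‖((Dl T : ℤ) : ℂ)‖ := by
      rw [Complex.norm_intCast, Nat.cast_natAbs]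
      simp
    have hB : (1 : ℝ) ≤ ((2 * Fintype.card V * Λ : ℕ) : ℝ) := by
      have : 1 ≤ 2 * Fintype.card V * Λ := by
        have := Nat.mul_pos (Nat.mul_pos (by norm_num : 0 < 2) h0) hΛ
        exact this
      exact_mod_cast this
    rw [e1, CdD_cast T hT, norm_prod]
    have h2 : ∀ i ∈ (Finset.univ : Finset V), ‖∏ j ∈ Finset.univ.erase i,
      ((((CdD_herm T hT).eigenvalues i : ℝ) : ℂ) - (((CdD_herm T hT).eigenvalues j : ℝ) : ℂ))‖ ≤
        ((2 * Fintype.card V * Λ : ℕ) : ℝ) ^ (Fintype.card V) := by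
      intro i _
      rw [norm_prod]
      have h3 : ∀ j ∈ (Finset.univ.erase i : Finset V),
          ‖((((CdD_herm T hT).eigenvalues i : ℝ) : ℂ) -
            (((CdD_herm T hT).eigenvalues j : ℝ) : ℂ))‖ ≤ ((2 * Fintype.card V * Λ : ℕ) : ℝ) := by
        intro j _
        refine (norm_sub_le _ _).trans ?_
        rw [Complex.norm_real, Complex.norm_real, Real.norm_eq_abs, Real.norm_eq_abs]
        have a1 := CdD_ev T hT Λ hb i
        have a2 := CdD_ev T hT Λ hb j
        push_cast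
        linarith
      refine (Finset.prod_le_prod (fun j _ => norm_nonneg _) h3).trans ?_
      rw [Finset.prod_const]
      exact pow_le_pow_right₀ hB (Finset.card_erase_le.trans (le_of_eq Finset.card_univ))
    refine (Finset.prod_le_prod (fun j _ => norm_nonneg _) h2).trans ?_
    rw [Finset.prod_const, ← pow_mul, Finset.card_univ, sq]
  exact_mod_cast h1

end Pool.Agent.H95.DL
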