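import Pool.Agent.H95.DL.CdC
import Pool.Agent.H95.DL.CdD

/-!
# Job DL-31: divisibility of the discriminant

PROOF of `pow_dvd_det`.  `E` = the kernel of `M` modulo `p` over `KK p`, of dimension `≥ k`; the rank
of `M mod p` is the same over `ZMod p` and over `KK p` (`Matrix.rank` of a mapped matrix under a field
extension; or: a vector with entries in `KK p` in the kernel gives vectors over `ZMod p` in the kernel
by applying linear functionals; the span of these over `KK p` contains the original; so the kernel
over `ZMod p` has dimension `≥ k`).  Choose a basis of `(ZMod p)^V` containing `k` independent kernel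
vectors, and lift it to an integer matrix `B` (columns), `det B` not divisible by `p`.  `M * B` has
`k` columns divisible by `p`, so `p^k ∣ det (M * B) = det M * det B`, hence `p^k ∣ det M`.
PROOF of `Dl_dvd`.  For `ν ∈ S` choose `w_ν`.  The `w_ν` are independent
(`Module.End.eigenvectors_linearIndependent`) and
`χ'(T) w_ν = χ'(ν) w_ν = 0` by `iso_root` (over `KK p`: `χ` maps to the characteristic polynomial of
`T.map`, `Matrix.charpoly_map`, `Polynomial.derivative_map`; `aeval` commutes with the ring map;
`aeval T f` applied to an eigenvector is `f(ν)` times it: `Module.End.aeval_apply_of_hasEigenvector`).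
So the kernel of `χ'(T) mod p` has dimension `≥ |S|`.
-/

set_option autoImplicit false

namespace Pool.Agent.H95.DL

open Matrix Classical Pool.Agent.H66.SP Pool.Agent.H95.SQ

theorem CdE_linInd {F K : Type*} [Field F] [Field K] [Algebra F K] {V ι : Type*}
    (x : ι → V → F) (h : LinearIndependent F x) :
    LinearIndependent K (fun i v => algebraMap F K (x i v)) := by
  rw [linearIndependent_iff'] at h ⊢
  intro s g hg i hi
  rw [← Module.forall_dual_apply_eq_zero_iff F (g i)]
  intro f
  refine h s (fun i => f (g i)) ?_ i hi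
  funext v
  have h1 := congrFun hg v
  rw [Finset.sum_apply] at h1 ⊢
  have h2 : f (∑ c ∈ s, (g c • fun v => (algebraMap F K) (x c v)) v) = f 0 := by
    rw [h1]
    rfl
  rw [map_sum, map_zero] at h2
  refine Eq.trans ?_ h2
  refine Finset.sum_congr rfl fun c _ => ?_
  rw [Pi.smul_apply, Pi.smul_apply, smul_eq_mul, smul_eq_mul, mul_comm (g c), ← Algebra.smul_def,
    map_smul, smul_eq_mul, mul_comm]

theorem CdE_map_mulVec {F K : Type*} [Field F] [Field K] [Algebra F K] {V : Type*} [Fintype V]
    (M : Matrix V V F) (x : V → F) :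
    M.map (algebraMap F K) *ᵥ (fun v => algebraMap F K (x v)) =
      fun v => algebraMap F K ((M *ᵥ x) v) := by
  funext v
  simp only [Matrix.mulVec, dotProduct, Matrix.map_apply]
  rw [map_sum]
  exact Finset.sum_congr rfl fun c _ => by rw [map_mul]

theorem CdE_ker {F K : Type*} [Field F] [Field K] [Algebra F K] {V : Type*} [Fintype V]
    [DecidableEq V] (M : Matrix V V F) :
    Module.finrank K (LinearMap.ker (M.map (algebraMap F K)).mulVecLin) ≤
      Module.finrank F (LinearMap.ker M.mulVecLin) := by
  have h1 := LinearMap.finrank_range_add_finrank_ker (M.map (algebraMap F K)).mulVecLin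
  have h2 := LinearMap.finrank_range_add_finrank_ker M.mulVecLin
  rw [Module.finrank_fintype_fun_eq_card] at h1 h2
  have h3 : Module.finrank F (LinearMap.range M.mulVecLin) ≤
      Module.finrank K (LinearMap.range (M.map (algebraMap F K)).mulVecLin) := by
    let b := Module.finBasis F (LinearMap.range M.mulVecLin)
    have hli : LinearIndependent F (fun i => (b i : V → F)) :=
      b.linearIndependent.map' (Submodule.subtype _) (Submodule.ker_subtype _)
    have hK := CdE_linInd (K := K) _ hli
    have hmem : ∀ i, (fun v => algebraMap F K ((b i : V → F) v)) ∈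
        LinearMap.range (M.map (algebraMap F K)).mulVecLin := by
      intro i
      obtain ⟨x, hx⟩ := (b i).2
      refine ⟨fun v => algebraMap F K (x v), ?_⟩
      rw [Matrix.mulVecLin_apply, CdE_map_mulVec]
      rw [Matrix.mulVecLin_apply] at hx
      rw [hx]
    have hK2 : LinearIndependent K (fun i => (⟨_, hmem i⟩ :
        LinearMap.range (M.map (algebraMap F K)).mulVecLin)) := by
      refine LinearIndependent.of_comp (Submodule.subtype _) ?_
      exact hK
    have h4 := hK2.fintype_card_le_finrank
    rwa [Fintype.card_fin] at h4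
  omega

theorem CdE_basis {F : Type*} [Field F] {V : Type*} [Fintype V] [DecidableEq V]
    (M : Matrix V V F) (k : ℕ) (hk : k ≤ Module.finrank F (LinearMap.ker M.mulVecLin)) :
    ∃ (P : Matrix V V F) (S : Finset V), k ≤ S.card ∧ P.det ≠ 0 ∧
      ∀ v ∈ S, ∀ i, (M * P) i v = 0 := by
  obtain ⟨f, hf⟩ := exists_linearIndependent_of_le_finrank hk
  let g : Fin k → V → F := fun a => (f a : V → F)
  have hg : LinearIndependent F g :=
    hf.map' (Submodule.subtype _) (Submodule.ker_subtype _)
  have hgr : LinearIndepOn F id (Set.range g) := hg.linearIndepOn_id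
  let B := Module.Basis.extend hgr
  have hcard : Nat.card V = Nat.card (hgr.extend (Set.subset_univ _)) := by
    have h1 := Module.finrank_eq_nat_card_basis B
    rw [Module.finrank_fintype_fun_eq_card] at h1
    rw [← h1, Nat.card_eq_fintype_card]
  have hfin : Finite (hgr.extend (Set.subset_univ _)) := Module.Finite.finite_basis B
  obtain ⟨e⟩ : Nonempty (V ≃ hgr.extend (Set.subset_univ _)) := by
    have h1 := Fintype.ofFinite (hgr.extend (Set.subset_univ _))
    rw [Nat.card_eq_fintype_card, Nat.card_eq_fintype_card] at hcard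
    exact ⟨Fintype.equivOfCardEq hcard⟩
  let B' : Module.Basis V F (V → F) := B.reindex e.symm
  have hB' : ∀ v, B' v = (e v : V → F) := by
    intro v
    simp only [B', Module.Basis.reindex_apply, Equiv.symm_symm, B]
    exact Module.Basis.extend_apply_self hgr _
  refine ⟨Matrix.of fun i v => B' v i, Finset.univ.filter (fun v => (e v : V → F) ∈ Set.range g),
    ?_, ?_, ?_⟩
  · have hsub := hgr.subset_extend (Set.subset_univ _)
    have h1 : (Finset.univ : Finset (Fin k)).card ≤
        (Finset.univ.filter (fun v => (e v : V → F) ∈ Set.range g)).card := by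
      refine Finset.card_le_card_of_injOn (fun a => e.symm ⟨g a, hsub ⟨a, rfl⟩⟩) ?_ ?_
      · intro a _
        rw [Finset.mem_coe, Finset.mem_filter]
        refine ⟨Finset.mem_univ _, ?_⟩
        rw [Equiv.apply_symm_apply]
        exact ⟨a, rfl⟩
      · intro a _ b _ hab
        have h2 := congrArg Subtype.val (e.symm.injective hab)
        exact hg.injective h2
    rwa [Finset.card_univ, Fintype.card_fin] at h1
  · have h1 := (Pi.basisFun F V).isUnit_det B'
    rw [Module.Basis.det_apply] at h1
    have h2 : (Pi.basisFun F V).toMatrix B' = Matrix.of fun i v => B' v i := by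
      ext i v
      simp [Module.Basis.toMatrix_apply]
    rw [h2] at h1
    exact h1.ne_zero
  · intro v hv i
    rw [Finset.mem_filter] at hv
    obtain ⟨a, ha⟩ := hv.2
    have h1 : (M * Matrix.of fun i v => B' v i) i v = (M *ᵥ (B' v)) i := by
      simp [Matrix.mul_apply, Matrix.mulVec, dotProduct]
    rw [h1, hB', ← ha]
    have h2 : M *ᵥ g a = 0 := (f a).2
    rw [h2]
    rfl

theorem CdE_det_dvd {V : Type*} [Fintype V] [DecidableEq V] (N : Matrix V V ℤ) (S : Finset V)
    (q : ℤ) (h : ∀ v ∈ S, ∀ i, q ∣ N i v) : q ^ S.card ∣ N.det := by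
  have h1 : ∀ i v, ∃ c : ℤ, N i v = c * (if v ∈ S then q else 1) := by
    intro i v
    by_cases hv : v ∈ S
    · obtain ⟨c, hc⟩ := h v hv i
      exact ⟨c, by rw [if_pos hv, hc, mul_comm]⟩
    · exact ⟨N i v, by rw [if_neg hv, mul_one]⟩
  choose c hc using h1
  have h2 : N = Matrix.of c * Matrix.diagonal (fun v => if v ∈ S then q else 1) := by
    ext i v
    rw [Matrix.mul_diagonal, Matrix.of_apply, hc]
  rw [h2, Matrix.det_mul, Matrix.det_diagonal]
  refine Dvd.dvd.mul_left ?_ _
  rw [Finset.prod_ite, Finset.prod_const, Finset.prod_const_one, mul_one]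
  have h3 : (Finset.univ.filter (fun v => v ∈ S)) = S := by
    ext v
    simp
  rw [h3]

theorem pow_dvd_det (p : ℕ) [Fact p.Prime] {V : Type*} [Fintype V] [DecidableEq V]
    (M : Matrix V V ℤ) (k : ℕ) (E : Submodule (KK p) (V → KK p)) (hk : k ≤ Module.finrank (KK p) E)
    (hE : ∀ x ∈ E, M.map (Int.castRingHom (KK p)) *ᵥ x = 0) : (p : ℤ) ^ k ∣ M.det := by
  have hMK : M.map (Int.castRingHom (KK p)) =
      (M.map (Int.castRingHom (ZMod p))).map (algebraMap (ZMod p) (KK p)) := by
    ext i j
    simp [Matrix.map_apply]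
  have h1 : k ≤ Module.finrank (ZMod p)
      (LinearMap.ker (M.map (Int.castRingHom (ZMod p))).mulVecLin) := by
    refine le_trans ?_ (CdE_ker (K := KK p) _)
    refine hk.trans (Submodule.finrank_mono ?_)
    intro x hx
    rw [LinearMap.mem_ker, Matrix.mulVecLin_apply, ← hMK]
    exact hE x hx
  obtain ⟨P, S, hS, hP, hPS⟩ := CdE_basis _ k h1
  let B : Matrix V V ℤ := P.map (fun a => (a.cast : ℤ))
  have hB : B.map (Int.castRingHom (ZMod p)) = P := by
    ext i j
    simp [B, Matrix.map_apply]
  have hcol : ∀ v ∈ S, ∀ i, (p : ℤ) ∣ (M * B) i v := by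
    intro v hv i
    rw [← ZMod.intCast_zmod_eq_zero_iff_dvd]
    have h2 : (((M * B) i v : ℤ) : ZMod p) =
        ((M * B).map (Int.castRingHom (ZMod p))) i v := rfl
    rw [h2, Matrix.map_mul, hB]
    exact hPS v hv i
  have h2 := CdE_det_dvd (M * B) S p hcol
  rw [Matrix.det_mul] at h2
  have hdet : ¬ (p : ℤ) ∣ B.det := by
    intro hd
    apply hP
    rw [← ZMod.intCast_zmod_eq_zero_iff_dvd] at hd
    rw [← hB]
    have h3 := (RingHom.map_det (Int.castRingHom (ZMod p)) B)
    rw [eq_intCast, hd] at h3
    exact h3.symm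
  have hcop : IsCoprime ((p : ℤ) ^ S.card) B.det := by
    refine IsCoprime.pow_left ?_
    exact ((Nat.prime_iff_prime_int.1 (Fact.out : p.Prime)).coprime_iff_not_dvd).2 hdet
  exact (pow_dvd_pow _ hS).trans (hcop.dvd_of_dvd_mul_right h2)

theorem CdE_pow_mulVec {K : Type*} [Field K] {V : Type*} [Fintype V] [DecidableEq V]
    (A : Matrix V V K) (ν : K) (w : V → K) (hw : A *ᵥ w = ν • w) (n : ℕ) :
    (A ^ n) *ᵥ w = ν ^ n • w := by
  induction n with
  | zero => simp
  | succ n ih =>
    rw [pow_succ, ← Matrix.mulVec_mulVec, hw, Matrix.mulVec_smul, ih, smul_smul, pow_succ,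
      mul_comm]

theorem CdE_aeval {K : Type*} [Field K] {V : Type*} [Fintype V] [DecidableEq V]
    (A : Matrix V V K) (ν : K) (w : V → K) (hw : A *ᵥ w = ν • w) (q : Polynomial K) :
    (Polynomial.aeval A q) *ᵥ w = (q.eval ν) • w := by
  rw [Polynomial.aeval_eq_sum_range, Matrix.sum_mulVec, Polynomial.eval_eq_sum_range,
    Finset.sum_smul]
  refine Finset.sum_congr rfl fun i _ => ?_
  rw [Matrix.smul_mulVec, CdE_pow_mulVec A ν w hw, smul_smul]

theorem Dl_dvd (p : ℕ) [Fact p.Prime] {V : Type*} [Fintype V] [DecidableEq V]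
    (T : Matrix V V ℤ) (hT : T.IsSymm) (S : Finset (KK p))
    (hS : ∀ ν ∈ S, ∃ w : V → KK p, w ≠ 0 ∧ w ⬝ᵥ w = 0 ∧
      T.map (Int.castRingHom (KK p)) *ᵥ w = ν • w) : (p : ℤ) ^ S.card ∣ Dl T := by
  choose w hw using fun ν : S => hS ν.1 ν.2
  have hli : LinearIndependent (KK p) w := by
    refine Module.End.eigenvectors_linearIndependent'
      (T.map (Int.castRingHom (KK p))).mulVecLin (fun ν : S => (ν : KK p))
      Subtype.coe_injective w fun ν => ?_
    rw [Module.End.hasEigenvector_iff, Module.End.mem_eigenspace_iff]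
    exact ⟨(hw ν).2.2, (hw ν).1⟩
  have hTs : (T.map (Int.castRingHom (KK p))).IsSymm := hT.map _
  have hmap : (Polynomial.aeval T (Polynomial.derivative T.charpoly)).map
      (Int.castRingHom (KK p)) = Polynomial.aeval (T.map (Int.castRingHom (KK p)))
        (Polynomial.derivative (T.map (Int.castRingHom (KK p))).charpoly) := by
    rw [Matrix.charpoly_map, Polynomial.derivative_map]
    have h := Polynomial.map_aeval_eq_aeval_map (R := ℤ) (S := Matrix V V ℤ) (T := KK p)
      (U := Matrix V V (KK p)) (φ := Int.castRingHom (KK p))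
      (ψ := (Int.castRingHom (KK p)).mapMatrix) (RingHom.ext_int _ _)
      (Polynomial.derivative T.charpoly) T
    exact h
  unfold Dl
  refine pow_dvd_det p _ S.card (Submodule.span (KK p) (Set.range w)) ?_ ?_
  · rw [finrank_span_eq_card hli, Fintype.card_coe]
  · intro x hx
    induction hx using Submodule.span_induction with
    | mem x hx =>
      obtain ⟨ν, rfl⟩ := hx
      rw [hmap, CdE_aeval _ _ _ (hw ν).2.2,
        iso_root _ hTs _ _ (hw ν).2.2 (hw ν).1 (hw ν).2.1, zero_smul]
    | zero => exact Matrix.mulVec_zero _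
    | add x y _ _ hx hy => rw [Matrix.mulVec_add, hx, hy, add_zero]
    | smul a x _ hx => rw [Matrix.mulVec_smul, hx, smul_zero]

end Pool.Agent.H95.DL
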