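import Pool.Agent.H95.DL.CdB
import Pool.Agent.H95.DL.CdE

/-!
# Job DL-32: the number of candidates

PROOF.  Let `T = TT ℤ G ts Nf` with `Nf` of `exists_Nf`; `T.map = TT ℂ ..` (`TT_map`), `Dl T ≠ 0`.
For `p ∈ Pi` (`p > n^3 > 3`) let `S_p` be the set of `144 μ`, `μ ∈ DD True (KK p) G ts`
(`μ ↦ 144 μ` is injective modulo `p`); by `TT_EE` these are eigenvalues of `T mod p` with isotropic
eigenvectors; `p^|S_p|` divides `Dl T` (`Dl_dvd`), for different primes the powers are coprime, so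
`∏_p p^|S_p| ∣ Dl T` (`Finset.prod_primes_dvd`-like induction, `Finset.prod_dvd_of_coprime`) and
`(n^3)^(∑ |S_p|) ≤ ∏ p^|S_p| ≤ |Dl T| ≤ (2 n Λ)^(n^2)` (or with `N = card V ≤ n` for `n`), where
`Λ = 576 + 6 (n + 20)`; for large `n`: `2 n Λ ≤ n^3`, so `∑ |S_p| ≤ n^2` (if `n ≥ 2`).
`(DSf (KF Pi) True G ts).card = ∑_{p ∈ Pi} |S_p|` (`mem_DSf`; sigma type).
-/

set_option autoImplicit false

namespace Pool.Agent.H95.DL

open Matrix Classical Pool.Agent.H66.SP Pool.Agent.H95.SQ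

theorem CdF_natCast {p : ℕ} [Fact p.Prime] (m : ℕ)
    (hm : ∀ q : ℕ, q.Prime → q ∣ m → q < p) : (m : KK p) ≠ 0 := by
  have : CharP (KK p) p := charP_of_injective_algebraMap (algebraMap (ZMod p) (KK p)).injective p
  intro h
  rw [CharP.cast_eq_zero_iff (KK p) p] at h
  exact lt_irrefl _ (hm p Fact.out h)

theorem CdF_six {p : ℕ} [Fact p.Prime] (hp : 3 < p) : (6 : KK p) ≠ 0 := by
  have h := CdF_natCast (p := p) 6 (by
    intro q hq h
    have h1 : q ∣ 2 * 3 := h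
    rcases (Nat.Prime.dvd_mul hq).1 h1 with h2 | h2
    · exact (Nat.le_of_dvd (by norm_num) h2).trans_lt (by omega)
    · exact (Nat.le_of_dvd (by norm_num) h2).trans_lt hp)
  exact_mod_cast h

theorem CdF_144 {p : ℕ} [Fact p.Prime] (hp : 3 < p) : (144 : KK p) ≠ 0 := by
  have h2 : (6 : KK p) ^ 4 ≠ 0 := pow_ne_zero 4 (CdF_six hp)
  intro h
  apply h2
  have h3 : (6 : KK p) ^ 4 = 144 * 9 := by norm_num
  rw [h3, h, zero_mul]

theorem CdF_num (n : ℕ) (hn : 50 ≤ n) : 2 * n * (576 + 6 * (n + 20)) ≤ n ^ 3 := by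
  have h1 : 1392 + 12 * n ≤ n * n := by nlinarith
  calc 2 * n * (576 + 6 * (n + 20)) = n * (1392 + 12 * n) := by ring
    _ ≤ n * (n * n) := Nat.mul_le_mul_left n h1
    _ = n ^ 3 := by ring

theorem cand_le : ∃ n₀ : ℕ, ∀ n : ℕ, n₀ ≤ n → ∀ (V : Type) [Fintype V] [DecidableEq V],
    Fintype.card V ≤ n → ∀ (G : SimpleGraph V) (ts : List (V → ℤ)), Fam ts → ts.length ≤ 20 →
    SIM G ts → ∀ Pi : Finset Nat.Primes, (∀ p ∈ Pi, n ^ 3 < (p : ℕ)) →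
    (DSf (KF Pi) True G ts).card ≤ n ^ 2 := by
  refine ⟨50, fun n hn V _ _ hV G ts hts hlen hsim Pi hPi => ?_⟩
  obtain ⟨Nf, hNf, hmult⟩ := exists_Nf G ts hts hsim
  have h3n : 3 < n ^ 3 := by
    calc 3 < 50 ^ 3 := by norm_num
      _ ≤ n ^ 3 := Nat.pow_le_pow_left hn 3
  have hp3 : ∀ p : {p : Nat.Primes // p ∈ Pi}, 3 < (p.1 : ℕ) := fun p =>
    h3n.trans (hPi p.1 p.2)
  have h6 : ∀ p : {p : Nat.Primes // p ∈ Pi}, (6 : KF Pi p) ≠ 0 := fun p => CdF_six (hp3 p)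
  -- the matrix
  have hDne : Dl (TT ℤ G ts Nf) ≠ 0 := by
    refine Dl_ne _ (TT_symm ℤ G ts Nf) fun θ => ?_
    rw [TT_map]
    exact hmult θ
  have hDle : (Dl (TT ℤ G ts Nf)).natAbs ≤ (n ^ 3) ^ (n ^ 2) := by
    have hb : ∀ i j, |TT ℤ G ts Nf i j| ≤ ((576 + 6 * (n + 20) : ℕ) : ℤ) := by
      intro i j
      have h1 := TT_bound G ts hts Nf (n + 20) (fun q hq => (hNf q hq).trans (by omega)) i j
      refine h1.trans (le_of_eq ?_)
      push_cast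
      ring
    have h1 := Dl_le _ (TT_symm ℤ G ts Nf) (576 + 6 * (n + 20)) (by omega) hb
    refine h1.trans ?_
    have h2 : 2 * Fintype.card V * (576 + 6 * (n + 20)) ≤ n ^ 3 :=
      (Nat.mul_le_mul_right _ (Nat.mul_le_mul_left 2 hV)).trans (CdF_num n hn)
    calc (2 * Fintype.card V * (576 + 6 * (n + 20))) ^ (Fintype.card V ^ 2)
        ≤ (n ^ 3) ^ (Fintype.card V ^ 2) := Nat.pow_le_pow_left h2 _
      _ ≤ (n ^ 3) ^ (n ^ 2) :=
          Nat.pow_le_pow_right (by omega) (Nat.pow_le_pow_left hV 2)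
  -- the sets of eigenvalues
  have hA : ∀ p : {p : Nat.Primes // p ∈ Pi}, ∃ A : Finset (KF Pi p),
      ∀ μ, μ ∈ A ↔ μ ∈ DD True (KF Pi p) G ts := by
    intro p
    obtain ⟨A, -, hA⟩ := EE_finite (KF Pi p) (h6 p) G ts hts
    refine ⟨A.filter (fun μ => μ ∈ DD True (KF Pi p) G ts), fun μ => ?_⟩
    rw [Finset.mem_filter]
    refine ⟨fun h => h.2, fun h => ⟨?_, h⟩⟩
    obtain ⟨w, hw, hw0, -⟩ := h
    exact hA μ ⟨w, hw, hw0⟩
  choose A hA using hA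
  have hsig : DSf (KF Pi) True G ts = (Finset.univ : Finset {p : Nat.Primes // p ∈ Pi}).sigma A := by
    ext x
    rw [mem_DSf (KF Pi) h6 True G ts hts x, Finset.mem_sigma, hA]
    exact ⟨fun h => ⟨Finset.mem_univ _, h⟩, fun h => h.2⟩
  rw [hsig, Finset.card_sigma]
  -- divisibility
  have hdvd : ∀ p : {p : Nat.Primes // p ∈ Pi},
      ((p.1 : ℕ) : ℤ) ^ (A p).card ∣ Dl (TT ℤ G ts Nf) := by
    intro p
    have h144 : (144 : KK (p.1 : ℕ)) ≠ 0 := CdF_144 (hp3 p)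
    have h1 := Dl_dvd (p.1 : ℕ) (TT ℤ G ts Nf) (TT_symm ℤ G ts Nf)
      ((A p).image (fun μ : KK (p.1 : ℕ) => 144 * μ)) (by
        intro ν hν
        rw [Finset.mem_image] at hν
        obtain ⟨μ, hμ, rfl⟩ := hν
        obtain ⟨w, hw, hw0, hiso⟩ := (hA p μ).1 hμ
        refine ⟨w, hw0, hiso trivial, ?_⟩
        rw [TT_map]
        exact TT_EE (KK (p.1 : ℕ)) G ts hts Nf μ w hw)
    rw [Finset.card_image_of_injective _ (mul_right_injective₀ h144)] at h1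
    exact h1
  have hprod : (∏ p : {p : Nat.Primes // p ∈ Pi}, ((p.1 : ℕ) : ℤ) ^ (A p).card) ∣
      Dl (TT ℤ G ts Nf) := by
    refine Finset.prod_dvd_of_coprime ?_ fun p _ => hdvd p
    intro p _ q _ hpq
    have h1 : (p.1 : ℕ) ≠ (q.1 : ℕ) := fun h => hpq (Subtype.ext (Subtype.ext h))
    have h2 : Nat.Coprime (p.1 : ℕ) (q.1 : ℕ) := (Nat.coprime_primes p.1.2 q.1.2).2 h1
    exact (Nat.isCoprime_iff_coprime.2 h2).pow
  have hprod2 : (∏ p : {p : Nat.Primes // p ∈ Pi}, (p.1 : ℕ) ^ (A p).card) ∣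
      (Dl (TT ℤ G ts Nf)).natAbs := by
    have h1 : ((∏ p : {p : Nat.Primes // p ∈ Pi}, (p.1 : ℕ) ^ (A p).card : ℕ) : ℤ) ∣
        Dl (TT ℤ G ts Nf) := by
      push_cast
      exact hprod
    exact Int.natCast_dvd.1 h1
  have hle : ∏ p : {p : Nat.Primes // p ∈ Pi}, (p.1 : ℕ) ^ (A p).card ≤ (n ^ 3) ^ (n ^ 2) :=
    (Nat.le_of_dvd (Int.natAbs_pos.2 hDne) hprod2).trans hDle
  have hge : (n ^ 3) ^ (∑ p : {p : Nat.Primes // p ∈ Pi}, (A p).card) ≤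
      ∏ p : {p : Nat.Primes // p ∈ Pi}, (p.1 : ℕ) ^ (A p).card := by
    rw [← Finset.prod_pow_eq_pow_sum]
    exact Finset.prod_le_prod' fun p _ => Nat.pow_le_pow_left (hPi p.1 p.2).le _
  exact (Nat.pow_le_pow_iff_right (by omega)).1 (hge.trans hle)

end Pool.Agent.H95.DL
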