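import Pool.Agent.H95.DL.NsG

/-!
# Job DL-21: almost all graphs are non sparse (Seidel matrix)

PROOF.  As `card_not_ns_le` and `card_not_ns` in `Pool/Agent/H95/SQ/NsB.lean`, `NsC.lean` (copy and
adapt).  If `¬ NSS s G` there are `p ≠ 2`, `Z, Y` of size `≤ s` and `x ≠ 0` supported on `Z` with
`(sei x) v = 0` for all `v ∉ Z ∪ Y`; with `S = Z`, `T = Y \ Z` the graph is in the set of
`card_ker_sei` (`N₁ = (k - |S| - |T| - 1) / 2`, `N₂ =` the rest).  Union over the pairs `(S, T)`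
(`card_small_sets`).  For `s = k / 400` the numerics of `card_not_ns` give `(1/2)^(k/8)` without the
`- 1`; the additional factor is at most `3/2` for each of the two terms, and
`(3/2) (1/2)^(k/8) ≤ (1/2)^(k/10)` for large `k`; so one can either redo the numerics or (easier) note
that the count is at most `(3/2) *` the bound of `card_not_ns_le` and that the proof of `card_not_ns`
shows that this bound is at most `card * (1/2)^(k/8)`.  General `V` with `card V = k`: transport with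
`NsA_transport` / `Fintype.equivFin` (state everything for general `V` if this is easier).
-/

set_option autoImplicit false

namespace Pool.Agent.H95.DL

open Matrix Classical Pool.Agent.H66.SP Pool.Agent.H95.SQ

theorem NsH_sets (V : Type) [Fintype V] [DecidableEq V] (s : ℕ) (a : ℝ) (ha : 1 ≤ a) :
    (((Finset.univ : Finset (Finset V)).filter (fun S => S.card ≤ s)).card : ℝ) ≤
      a ^ s * (1 + 1 / a) ^ Fintype.card V := by
  have ha0 : 0 < a := by linarith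
  have h1 : ∑ S : Finset V, (1 / a) ^ S.card = (1 + 1 / a) ^ Fintype.card V := by
    have h := Finset.sum_pow_mul_eq_add_pow (1 / a) (1 : ℝ) (Finset.univ : Finset V)
    rw [Finset.powerset_univ, Finset.card_univ] at h
    rw [add_comm, ← h]
    exact Finset.sum_congr rfl fun S _ => by rw [one_pow, mul_one]
  rw [← h1, Finset.mul_sum, Finset.card_eq_sum_ones, Nat.cast_sum]
  refine le_trans (Finset.sum_le_sum (g := fun S : Finset V => a ^ s * (1 / a) ^ S.card)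
    fun S hS => ?_) (Finset.sum_le_sum_of_subset_of_nonneg (Finset.subset_univ _)
      fun S _ _ => by positivity)
  have hSs : S.card ≤ s := (Finset.mem_filter.1 hS).2
  have h2 : a ^ s = a ^ (s - S.card) * a ^ S.card := by
    rw [← pow_add, Nat.sub_add_cancel hSs]
  rw [Nat.cast_one, h2, mul_assoc, ← mul_pow, mul_one_div_cancel ha0.ne', one_pow, mul_one]
  exact one_le_pow₀ ha

/-- the bad graphs for the supports `S`, `T` -/
def NsHBad {V : Type*} [Fintype V] (S T : Finset V) (G : SimpleGraph V) : Prop :=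
  ∃ (p : ℕ) (_ : Fact p.Prime) (x : V → ZMod p), p ≠ 2 ∧ x ≠ 0 ∧ (∀ v, v ∉ S → x v = 0) ∧
    ∀ v, v ∉ S → v ∉ T → (sei (ZMod p) G *ᵥ x) v = 0

theorem NsH_pair {V : Type} [Fintype V] [DecidableEq V] (s : ℕ)
    (hs : 2 * s + 1 ≤ Fintype.card V) (S T : Finset V) (hST : Disjoint S T)
    (hS : S.card ≤ s) (hT : T.card ≤ s) :
    (((Finset.univ : Finset (SimpleGraph V)).filter (fun G => NsHBad S T G)).card : ℝ) ≤
      (Fintype.card (SimpleGraph V) : ℝ) *
        (3 / 2 * ((2 / 3) ^ ((Fintype.card V - 2 * s) / 2) * 3 ^ s * (1 + (s : ℝ) ^ 2))) := by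
  obtain ⟨k, hk⟩ : ∃ k, k = Fintype.card V := ⟨_, rfl⟩
  rw [← hk] at hs
  obtain ⟨N₁, hN₁⟩ : ∃ N₁, N₁ = (k - S.card - T.card - 1) / 2 := ⟨_, rfl⟩
  obtain ⟨N₂, hN₂⟩ : ∃ N₂, N₂ = (k - S.card - T.card - 1) - N₁ := ⟨_, rfl⟩
  have h1 : (k - 2 * s) / 2 ≤ N₁ + 1 := by omega
  have h2 : (k - 2 * s) / 2 ≤ N₂ + 1 := by omega
  have hN : N₁ + N₂ + 1 + S.card + T.card = Fintype.card V := by
    rw [← hk]; omega
  refine le_trans (card_ker_sei S T hST N₁ N₂ hN) ?_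
  rw [← hk]
  refine mul_le_mul_of_nonneg_left ?_ (Nat.cast_nonneg _)
  have e1 : ((2 : ℝ) / 3) ^ N₁ ≤ 3 / 2 * (2 / 3) ^ ((k - 2 * s) / 2) := by
    have := pow_le_pow_of_le_one (a := (2 : ℝ) / 3) (by norm_num) (by norm_num) h1
    rw [pow_succ] at this
    linarith
  have e2 : ((2 : ℝ) / 3) ^ N₂ ≤ 3 / 2 * (2 / 3) ^ ((k - 2 * s) / 2) := by
    have := pow_le_pow_of_le_one (a := (2 : ℝ) / 3) (by norm_num) (by norm_num) h2
    rw [pow_succ] at this
    linarith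
  have e3 : (3 : ℝ) ^ S.card ≤ 3 ^ s := pow_le_pow_right₀ (by norm_num) hS
  have e4 : ((S.card : ℝ)) ^ 2 ≤ (s : ℝ) ^ 2 :=
    pow_le_pow_left₀ (Nat.cast_nonneg _) (by exact_mod_cast hS) 2
  have f1 : ((2 : ℝ) / 3) ^ N₁ * 3 ^ S.card ≤
      3 / 2 * (2 / 3) ^ ((k - 2 * s) / 2) * 3 ^ s :=
    mul_le_mul e1 e3 (by positivity) (by positivity)
  have f2 : ((2 : ℝ) / 3) ^ N₂ * 3 ^ S.card ≤
      3 / 2 * (2 / 3) ^ ((k - 2 * s) / 2) * 3 ^ s :=
    mul_le_mul e2 e3 (by positivity) (by positivity)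
  have f3 : ((S.card : ℝ)) ^ 2 * (((2 : ℝ) / 3) ^ N₂ * 3 ^ S.card) ≤
      (s : ℝ) ^ 2 * (3 / 2 * (2 / 3) ^ ((k - 2 * s) / 2) * 3 ^ s) :=
    mul_le_mul e4 f2 (by positivity) (by positivity)
  calc ((2 : ℝ) / 3) ^ N₁ * 3 ^ S.card + ((S.card : ℝ)) ^ 2 * ((2 / 3) ^ N₂ * 3 ^ S.card)
      ≤ 3 / 2 * (2 / 3) ^ ((k - 2 * s) / 2) * 3 ^ s +
        (s : ℝ) ^ 2 * (3 / 2 * (2 / 3) ^ ((k - 2 * s) / 2) * 3 ^ s) := add_le_add f1 f3
    _ = 3 / 2 * ((2 / 3) ^ ((k - 2 * s) / 2) * 3 ^ s * (1 + (s : ℝ) ^ 2)) := by ring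

theorem NsH_cover {V : Type} [Fintype V] [DecidableEq V] (s : ℕ) (G : SimpleGraph V)
    (h : ¬ NSS s G) :
    ∃ S T : Finset V, Disjoint S T ∧ S.card ≤ s ∧ T.card ≤ s ∧ NsHBad S T G := by
  unfold NSS at h
  push Not at h
  obtain ⟨p, hp, hp2, Z, Y, hZ, hY, x, hx0, hxs, hT⟩ := h
  refine ⟨Z, Y \ Z, Finset.disjoint_sdiff, hZ,
    (Finset.card_le_card Finset.sdiff_subset).trans hY, p, hp, x, hp2, hx0, hxs, ?_⟩
  intro v hv hv'
  refine hT v hv fun hvY => hv' ?_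
  exact Finset.mem_sdiff.2 ⟨hvY, hv⟩

theorem NsH_le (V : Type) [Fintype V] [DecidableEq V] (s : ℕ)
    (hs : 2 * s + 1 ≤ Fintype.card V) :
    (((Finset.univ : Finset (SimpleGraph V)).filter (fun G => ¬ NSS s G)).card : ℝ) ≤
      (Fintype.card (SimpleGraph V) : ℝ) *
        ((400 ^ s * (1 + 1 / 400) ^ Fintype.card V) ^ 2 *
          (3 / 2 * ((2 / 3) ^ ((Fintype.card V - 2 * s) / 2) * 3 ^ s * (1 + (s : ℝ) ^ 2)))) := by
  set A : Finset (Finset V) := Finset.univ.filter (fun S => S.card ≤ s) with hA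
  set F : Finset (Finset V × Finset V) :=
    (A ×ˢ A).filter (fun P => Disjoint P.1 P.2) with hF
  set C : ℝ := 3 / 2 * ((2 / 3) ^ ((Fintype.card V - 2 * s) / 2) * 3 ^ s * (1 + (s : ℝ) ^ 2))
    with hC
  have hC0 : 0 ≤ C := by rw [hC]; positivity
  have hsub : (Finset.univ : Finset (SimpleGraph V)).filter (fun G => ¬ NSS s G) ⊆
      F.biUnion (fun P => Finset.univ.filter (fun G => NsHBad P.1 P.2 G)) := by
    intro G hG
    obtain ⟨S, T, hd, hS, hT, hb⟩ := NsH_cover s G (Finset.mem_filter.1 hG).2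
    refine Finset.mem_biUnion.2 ⟨(S, T), ?_, Finset.mem_filter.2 ⟨Finset.mem_univ _, hb⟩⟩
    refine Finset.mem_filter.2 ⟨Finset.mem_product.2 ⟨?_, ?_⟩, hd⟩
    · exact Finset.mem_filter.2 ⟨Finset.mem_univ _, hS⟩
    · exact Finset.mem_filter.2 ⟨Finset.mem_univ _, hT⟩
  have h1 : (((Finset.univ : Finset (SimpleGraph V)).filter
      (fun G => ¬ NSS s G)).card : ℝ) ≤
      ∑ P ∈ F, (((Finset.univ : Finset (SimpleGraph V)).filter
        (fun G => NsHBad P.1 P.2 G)).card : ℝ) := by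
    have h := (Finset.card_le_card hsub).trans Finset.card_biUnion_le
    exact_mod_cast h
  have h2 : ∑ P ∈ F, (((Finset.univ : Finset (SimpleGraph V)).filter
        (fun G => NsHBad P.1 P.2 G)).card : ℝ) ≤
      ∑ _P ∈ F, (Fintype.card (SimpleGraph V) : ℝ) * C := by
    refine Finset.sum_le_sum fun P hP => ?_
    obtain ⟨hP1, hd⟩ := Finset.mem_filter.1 hP
    obtain ⟨hPS, hPT⟩ := Finset.mem_product.1 hP1
    exact NsH_pair s hs P.1 P.2 hd (Finset.mem_filter.1 hPS).2 (Finset.mem_filter.1 hPT).2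
  have h3 : (F.card : ℝ) ≤ (400 ^ s * (1 + 1 / 400) ^ Fintype.card V) ^ 2 := by
    have h4 : F.card ≤ A.card * A.card := by
      have := Finset.card_filter_le (A ×ˢ A) (fun P => Disjoint P.1 P.2)
      rwa [Finset.card_product] at this
    have h5 : (A.card : ℝ) ≤ 400 ^ s * (1 + 1 / 400) ^ Fintype.card V :=
      NsH_sets V s 400 (by norm_num)
    calc (F.card : ℝ) ≤ (A.card : ℝ) * (A.card : ℝ) := by exact_mod_cast h4
      _ ≤ (400 ^ s * (1 + 1 / 400) ^ Fintype.card V) *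
          (400 ^ s * (1 + 1 / 400) ^ Fintype.card V) :=
        mul_le_mul h5 h5 (Nat.cast_nonneg _) (by positivity)
      _ = (400 ^ s * (1 + 1 / 400) ^ Fintype.card V) ^ 2 := by ring
  refine h1.trans (h2.trans ?_)
  rw [Finset.sum_const, nsmul_eq_mul]
  calc (F.card : ℝ) * ((Fintype.card (SimpleGraph V) : ℝ) * C)
      = (Fintype.card (SimpleGraph V) : ℝ) * ((F.card : ℝ) * C) := by ring
    _ ≤ (Fintype.card (SimpleGraph V) : ℝ) *
        ((400 ^ s * (1 + 1 / 400) ^ Fintype.card V) ^ 2 * C) :=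
      mul_le_mul_of_nonneg_left (mul_le_mul_of_nonneg_right h3 hC0) (Nat.cast_nonneg _)

theorem NsH_num (k : ℕ) (hk : 800 ≤ k) :
    ((400 : ℝ) ^ (k / 400) * (1 + 1 / 400) ^ k) ^ 2 *
      (3 / 2 * ((2 / 3) ^ ((k - 2 * (k / 400)) / 2) * 3 ^ (k / 400) *
        (1 + ((k / 400 : ℕ) : ℝ) ^ 2))) ≤ (1 / 2) ^ (k / 10) := by
  have hs2 : 2 ≤ k / 400 := by omega
  have hk1 : k ≤ 400 * (k / 400) + 399 := by omega
  have hk2 : 400 * (k / 400) ≤ k := by omega
  generalize k / 400 = s at *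
  have e1 : ((400 : ℝ) ^ s * (1 + 1 / 400) ^ k) ^ 2 ≤ 160000 ^ s * (8 ^ s * 8) := by
    have a0 : ((1 : ℝ) + 1 / 400) ^ 100 ≤ 129 / 100 := by norm_num
    have a1 : ((1 : ℝ) + 1 / 400) ^ 800 ≤ 8 := by
      calc ((1 : ℝ) + 1 / 400) ^ 800 = ((1 + 1 / 400) ^ 100) ^ 8 := by rw [← pow_mul]
        _ ≤ (129 / 100) ^ 8 := pow_le_pow_left₀ (by positivity) a0 _
        _ ≤ 8 := by norm_num
    have a2 : ((1 : ℝ) + 1 / 400) ^ (k * 2) ≤ 8 ^ s * 8 := by
      calc ((1 : ℝ) + 1 / 400) ^ (k * 2) ≤ (1 + 1 / 400) ^ (800 * (s + 1)) :=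
            pow_le_pow_right₀ (by norm_num) (by omega)
        _ = ((1 + 1 / 400) ^ 800) ^ (s + 1) := by rw [pow_mul]
        _ ≤ 8 ^ (s + 1) := pow_le_pow_left₀ (by positivity) a1 _
        _ = 8 ^ s * 8 := pow_succ _ _
    have a3 : ((400 : ℝ) ^ s) ^ 2 = 160000 ^ s := by
      rw [← pow_mul, mul_comm s 2, pow_mul]
      norm_num
    rw [mul_pow, a3, ← pow_mul]
    exact mul_le_mul_of_nonneg_left a2 (by positivity)
  have e2 : ((2 : ℝ) / 3) ^ ((k - 2 * s) / 2) ≤ ((1 / 2) ^ 116) ^ s := by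
    have b1 : ((2 : ℝ) / 3) ^ 199 ≤ (1 / 2) ^ 116 := by norm_num
    calc ((2 : ℝ) / 3) ^ ((k - 2 * s) / 2) ≤ (2 / 3) ^ (199 * s) :=
          pow_le_pow_of_le_one (by norm_num) (by norm_num) (by omega)
      _ = ((2 / 3) ^ 199) ^ s := by rw [pow_mul]
      _ ≤ ((1 / 2) ^ 116) ^ s := pow_le_pow_left₀ (by positivity) b1 _
  have e3 : (1 : ℝ) + (s : ℝ) ^ 2 ≤ 4 ^ s := by
    have c1 : s + 1 ≤ 2 ^ s := Nat.lt_two_pow_self
    have c2 : (s : ℝ) + 1 ≤ 2 ^ s := by exact_mod_cast c1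
    have c3 : (4 : ℝ) ^ s = (2 ^ s) ^ 2 := by
      rw [← pow_mul, mul_comm s 2, pow_mul]
      norm_num
    have c4 : (0 : ℝ) ≤ s := Nat.cast_nonneg _
    rw [c3]
    nlinarith
  calc ((400 : ℝ) ^ s * (1 + 1 / 400) ^ k) ^ 2 *
        (3 / 2 * ((2 / 3) ^ ((k - 2 * s) / 2) * 3 ^ s * (1 + (s : ℝ) ^ 2)))
      ≤ (160000 ^ s * (8 ^ s * 8)) * (3 / 2 * (((1 / 2) ^ 116) ^ s * 3 ^ s * 4 ^ s)) := by
        refine mul_le_mul e1 ?_ (by positivity) (by positivity)
        refine mul_le_mul_of_nonneg_left ?_ (by norm_num)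
        refine mul_le_mul ?_ e3 (by positivity) (by positivity)
        exact mul_le_mul_of_nonneg_right e2 (by positivity)
    _ = 12 * (160000 * 8 * (1 / 2) ^ 116 * 3 * 4) ^ s := by
        rw [mul_pow, mul_pow, mul_pow, mul_pow]
        ring
    _ ≤ 12 * ((1 / 2) ^ 92) ^ s := by
        refine mul_le_mul_of_nonneg_left (pow_le_pow_left₀ (by positivity) ?_ _) (by norm_num)
        norm_num
    _ ≤ 16 * (1 / 2) ^ (92 * s) := by
        rw [← pow_mul]
        have : (0 : ℝ) < (1 / 2) ^ (92 * s) := by positivity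
        linarith
    _ ≤ 16 * (1 / 2) ^ (4 + (40 * s + 40)) := by
        refine mul_le_mul_of_nonneg_left (pow_le_pow_of_le_one (by norm_num) (by norm_num) ?_)
          (by norm_num)
        omega
    _ = (1 / 2) ^ (40 * s + 40) := by
        rw [pow_add]
        ring
    _ ≤ (1 / 2) ^ (k / 10) := pow_le_pow_of_le_one (by norm_num) (by norm_num) (by omega)

theorem card_not_nss : ∃ k₀ : ℕ, ∀ (V : Type) [Fintype V] [DecidableEq V],
    k₀ ≤ Fintype.card V →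
    (((Finset.univ : Finset (SimpleGraph V)).filter
      (fun G => ¬ NSS (Fintype.card V / 400) G)).card : ℝ) ≤
      (Fintype.card (SimpleGraph V) : ℝ) * (1 / 2) ^ (Fintype.card V / 10) := by
  refine ⟨800, fun V _ _ hk => ?_⟩
  refine (NsH_le V (Fintype.card V / 400) (by omega)).trans ?_
  exact mul_le_mul_of_nonneg_left (NsH_num _ hk) (Nat.cast_nonneg _)

end Pool.Agent.H95.DL
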