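import Pool.Agent.H95.DL.DelC

/-!
# Job DL-22: non sparsity over all fields

PROOF of `nss_field`.  Suppose `(sei K G x) v = 0` for all `v ∉ Z ∪ Y`, `x ≠ 0` supported on `Z`,
`|Z|, |Y| ≤ s`.  Characteristic `p > 0` (`p ≠ 2` as `2 ≠ 0`; `CharP.exists`): `K` is a vector space over
`ZMod p` (`ZMod.algebra`); choose a `ZMod p`-linear `f : K → ZMod p` with `f (x u) ≠ 0` for some `u`
(`Module.exists_dual_forall_apply_eq_zero_iff` / `Module.forall_dual_apply_eq_zero_iff`); `x' = f ∘ x`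
is nonzero, supported on `Z` and `(sei x') v = f ((sei x) v) = 0` (entries `0, ±1`), contradicting
`NSS`.  Characteristic `0`: choose a `ℚ`-linear `f : K → ℚ` with `f ∘ x ≠ 0`; multiply by a common
denominator and divide by the gcd to get an integer vector `y`, supported on `Z`, not all entries
divisible by `3`, with `(sei ℤ G y) v = 0` for `v ∉ Z ∪ Y`; reduce modulo `3`: a contradiction.
(To get `y` not divisible by `3`: take a nonzero integer vector and divide by the largest power of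
`3` dividing all the entries.)
PROOF of `nse_of_nss`.  `w ∈ EE K G ts μ`, `w ≠ 0`, `nz w ≤ s`; `Z = sup w`, `Y = su ts`
(`card_su_le`); for `v ∉ Z ∪ Y`: `S w - μ w` is in the span of the tests, which vanish at `v ∉ su ts`,
and `w v = 0`, so `(S w) v = 0`; contradiction to `nss_field`.
`NSE_mono`: trivial.
-/

set_option autoImplicit false

namespace Pool.Agent.H95.DL

open Matrix Classical Pool.Agent.H66.SP Pool.Agent.H95.SQ

/-- a linear map applied to the image of a vector under the Seidel matrix -/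
theorem nsk_push {V : Type*} [Fintype V] (G : SimpleGraph V) {F K : Type*} [Field F] [Field K]
    [Algebra F K] (f : K →ₗ[F] F) (x : V → K) (v : V) :
    (sei F G *ᵥ fun u => f (x u)) v = f ((sei K G *ᵥ x) v) := by
  have h1 : ∀ u, sei F G v u * f (x u) = f (sei K G v u * x u) := by
    intro u
    unfold sei
    simp only [Matrix.of_apply]
    split_ifs
    · rw [zero_mul, zero_mul, map_zero]
    · rw [neg_one_mul, neg_one_mul, map_neg]
    · rw [one_mul, one_mul]
  show ∑ u, sei F G v u * f (x u) = f (∑ u, sei K G v u * x u)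
  rw [map_sum]
  exact Finset.sum_congr rfl fun u _ => h1 u

/-- the integer case -/
theorem nsk_int (s : ℕ) {V : Type} [Fintype V] (G : SimpleGraph V) (h : NSS s G)
    (Z Y : Finset V) (hZ : Z.card ≤ s) (hY : Y.card ≤ s)
    (y : V → ℤ) (u₀ : V) (hy : y u₀ ≠ 0) (hyZ : ∀ v, v ∉ Z → y v = 0) :
    ∃ v, v ∉ Z ∧ v ∉ Y ∧ (sei ℤ G *ᵥ y) v ≠ 0 := by
  obtain ⟨p, hp1, hp2⟩ := Nat.exists_infinite_primes ((y u₀).natAbs + 3)
  have hF : Fact p.Prime := ⟨hp2⟩
  have hp3 : p ≠ 2 := by omega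
  obtain ⟨v, hvZ, hvY, hv⟩ := h p hp3 Z Y hZ hY (fun u => ((y u : ℤ) : ZMod p)) (by
    intro h0
    have h1 : ((y u₀ : ℤ) : ZMod p) = 0 := congrFun h0 u₀
    rw [ZMod.intCast_zmod_eq_zero_iff_dvd] at h1
    have h2 := Int.natAbs_dvd_natAbs.mpr h1
    rw [Int.natAbs_natCast] at h2
    have h3 := Nat.le_of_dvd (Int.natAbs_pos.mpr hy) h2
    omega) (by
    intro u hu
    rw [hyZ u hu, Int.cast_zero])
  refine ⟨v, hvZ, hvY, ?_⟩
  intro h0
  apply hv
  have h1 : (sei (ZMod p) G *ᵥ fun u => ((y u : ℤ) : ZMod p)) v =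
      (((sei ℤ G *ᵥ y) v : ℤ) : ZMod p) := by
    show ∑ u, sei (ZMod p) G v u * ((y u : ℤ) : ZMod p) = ((∑ u, sei ℤ G v u * y u : ℤ) : ZMod p)
    rw [Int.cast_sum]
    refine Finset.sum_congr rfl fun u _ => ?_
    rw [Int.cast_mul, sei_cast]
  rw [h1, h0, Int.cast_zero]

/-- the rational case -/
theorem nsk_rat (s : ℕ) {V : Type} [Fintype V] (G : SimpleGraph V) (h : NSS s G)
    (Z Y : Finset V) (hZ : Z.card ≤ s) (hY : Y.card ≤ s)
    (x : V → ℚ) (u₀ : V) (hx : x u₀ ≠ 0) (hxZ : ∀ v, v ∉ Z → x v = 0) :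
    ∃ v, v ∉ Z ∧ v ∉ Y ∧ (sei ℚ G *ᵥ x) v ≠ 0 := by
  obtain ⟨b, hb⟩ := IsLocalization.exist_integer_multiples_of_finite (nonZeroDivisors ℤ) x
  have hb0 : (b : ℤ) ≠ 0 := nonZeroDivisors.ne_zero b.2
  choose y hy using hb
  have hy' : ∀ u, ((y u : ℤ) : ℚ) = ((b : ℤ) : ℚ) * x u := by
    intro u
    have h1 := hy u
    rw [zsmul_eq_mul] at h1
    rw [← h1]
    rfl
  have hbQ : ((b : ℤ) : ℚ) ≠ 0 := by exact_mod_cast hb0
  obtain ⟨v, hvZ, hvY, hv⟩ := nsk_int s G h Z Y hZ hY y u₀ (by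
    intro h0
    have h1 := hy' u₀
    rw [h0, Int.cast_zero] at h1
    exact mul_ne_zero hbQ hx h1.symm) (by
    intro u hu
    have h1 := hy' u
    rw [hxZ u hu, mul_zero] at h1
    exact_mod_cast h1)
  refine ⟨v, hvZ, hvY, ?_⟩
  intro h0
  apply hv
  have h1 : (((sei ℤ G *ᵥ y) v : ℤ) : ℚ) = ((b : ℤ) : ℚ) * (sei ℚ G *ᵥ x) v := by
    show ((∑ u, sei ℤ G v u * y u : ℤ) : ℚ) = ((b : ℤ) : ℚ) * ∑ u, sei ℚ G v u * x u
    rw [Int.cast_sum, Finset.mul_sum]
    refine Finset.sum_congr rfl fun u _ => ?_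
    rw [Int.cast_mul, sei_cast, hy' u]
    ring
  rw [h0, mul_zero] at h1
  exact_mod_cast h1

/-- a functional which does not kill a nonzero vector -/
theorem nsk_dual {F K : Type*} [Field F] [Field K] [Algebra F K] (a : K) (ha : a ≠ 0) :
    ∃ f : K →ₗ[F] F, f a ≠ 0 := by
  by_contra hcon
  apply ha
  rw [← Module.forall_dual_apply_eq_zero_iff F a]
  intro φ
  by_contra h
  exact hcon ⟨φ, h⟩

theorem nss_field (s : ℕ) {V : Type} [Fintype V] (G : SimpleGraph V) (h : NSS s G)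
    (K : Type) [Field K] (h2 : (2 : K) ≠ 0) (Z Y : Finset V) (hZ : Z.card ≤ s) (hY : Y.card ≤ s)
    (x : V → K) (hx : x ≠ 0) (hxZ : ∀ v, v ∉ Z → x v = 0) :
    ∃ v, v ∉ Z ∧ v ∉ Y ∧ (sei K G *ᵥ x) v ≠ 0 := by
  obtain ⟨u₀, hu₀⟩ : ∃ u, x u ≠ 0 := by
    by_contra hcon
    apply hx
    funext u
    by_contra h0
    exact hcon ⟨u, h0⟩
  obtain ⟨p, hp⟩ := CharP.exists K
  rcases CharP.char_is_prime_or_zero K p with hpp | hp0
  · have hF : Fact p.Prime := ⟨hpp⟩
    let _ : Algebra (ZMod p) K := ZMod.algebra K p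
    obtain ⟨f, hf⟩ := nsk_dual (F := ZMod p) (x u₀) hu₀
    have hp2 : p ≠ 2 := by
      rintro rfl
      exact h2 (by exact_mod_cast CharP.cast_eq_zero K 2)
    obtain ⟨v, hvZ, hvY, hv⟩ := h p hp2 Z Y hZ hY (fun u => f (x u)) (by
      intro h0
      exact hf (congrFun h0 u₀)) (by
      intro u hu
      rw [hxZ u hu, map_zero])
    refine ⟨v, hvZ, hvY, ?_⟩
    intro h0
    apply hv
    rw [nsk_push, h0, map_zero]
  · subst hp0
    have hC : CharZero K := CharP.charP_to_charZero K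
    obtain ⟨f, hf⟩ := nsk_dual (F := ℚ) (x u₀) hu₀
    obtain ⟨v, hvZ, hvY, hv⟩ := nsk_rat s G h Z Y hZ hY (fun u => f (x u)) u₀ hf (by
      intro u hu
      rw [hxZ u hu, map_zero])
    refine ⟨v, hvZ, hvY, ?_⟩
    intro h0
    apply hv
    rw [nsk_push, h0, map_zero]

theorem nse_of_nss (s : ℕ) {V : Type} [Fintype V] (G : SimpleGraph V) (ts : List (V → ℤ))
    (hts : Fam ts) (hs : 6 * ts.length ≤ s) (h : NSS s G) : NSE s G ts := by
  intro K _ h2 μ w hw hw0
  by_contra hcon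
  rw [not_lt] at hcon
  obtain ⟨v, hv1, hv2, hv3⟩ := nss_field s G h K h2 (sup w) (su ts) hcon
    (le_trans (card_su_le ts hts) hs) w hw0 (by
      intro v hv
      by_contra h0
      apply hv
      unfold sup
      rw [Finset.mem_filter]
      exact ⟨Finset.mem_univ _, h0⟩)
  apply hv3
  have hwv : w v = 0 := by
    by_contra h0
    apply hv1
    unfold sup
    rw [Finset.mem_filter]
    exact ⟨Finset.mem_univ _, h0⟩
  have h3 : ∀ y ∈ Submodule.span K {y : V → K | ∃ q ∈ ts, y = cv K q}, y v = 0 := by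
    intro y hy
    induction hy using Submodule.span_induction with
    | mem y hy =>
      obtain ⟨q, hq, rfl⟩ := hy
      have hqv : q v = 0 := by
        by_contra h0
        apply hv2
        unfold su
        rw [Finset.mem_filter]
        exact ⟨Finset.mem_univ _, q, hq, h0⟩
      show ((q v : ℤ) : K) = 0
      rw [hqv, Int.cast_zero]
    | zero => rfl
    | add a b _ _ ha hb =>
      show a v + b v = 0
      rw [ha, hb, add_zero]
    | smul c a _ ha =>
      show c * a v = 0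
      rw [ha, mul_zero]
  have h4 := h3 _ ((mem_EE G ts μ w).mp hw).2
  have h5 : (sei K G *ᵥ w) v - μ * w v = 0 := h4
  rw [hwv, mul_zero, sub_zero] at h5
  exact h5

theorem NSE_mono (s s' : ℕ) (hs : s ≤ s') {V : Type} [Fintype V] (G : SimpleGraph V)
    (ts : List (V → ℤ)) (h : NSE s' G ts) : NSE s G ts := by
  intro K _ h2 μ w hw hw0
  exact lt_of_le_of_lt hs (h K h2 μ w hw hw0)

end Pool.Agent.H95.DL
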