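import Pool.Agent.H95.DL.Def2

/-!
# Job DL-9: from complex vectors to vectors modulo a large prime

PROOF.  Let `W` be the `ℚ`-span of the `w v` in `ℂ`, finite dimensional.  Let `X` be the finite set
of the nonzero sums `∑ c_v w_v`, `c : V → ℤ`, `|c_v| ≤ 6`.  For `u ∈ X` the subspace
`{f : Dual ℚ W | f u = 0}` is proper; a vector space over the infinite field `ℚ` is not the union of
finitely many proper subspaces (`Subspace.biUnion_ne_univ_of_top_notMem`), so there is a `ℚ`-linear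
`f : W → ℚ` with `f u ≠ 0` for all `u ∈ X`.  Let `D > 0` be a common denominator of the `f (w v)` and
`y v = D f (w v) ∈ ℤ`.  Then for `|c| ≤ 6`: `∑ c_v w_v = 0` implies `∑ c_v y_v = 0`, and
`∑ c_v w_v ≠ 0` implies `∑ c_v y_v ≠ 0`.  Take a prime `p > P0` and `p > 6 ∑ |y v|`
(`Nat.exists_infinite_primes`); then a nonzero `∑ c_v y_v` is nonzero modulo `p`; `x v = y v` mod `p`.
-/

set_option autoImplicit false

namespace Pool.Agent.H95.DL

open Matrix Classical Pool.Agent.H66.SP Pool.Agent.H95.SQ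

theorem TrC_functional {V : Type*} [Fintype V] (w : V → ℂ) :
    ∃ f : ℂ →ₗ[ℚ] ℚ, ∀ c : V → ℤ, (∀ v, |c v| ≤ 6) →
      (∑ v, (c v : ℂ) * w v = 0 ↔ f (∑ v, (c v : ℂ) * w v) = 0) := by
  let S : Set (V → ℤ) := {c | (∀ v, |c v| ≤ 6) ∧ ∑ v, (c v : ℂ) * w v ≠ 0}
  have hS : S.Finite := by
    refine Set.Finite.subset (Set.Finite.pi (t := fun _ : V => Set.Icc (-6 : ℤ) 6)
      (fun _ => Set.finite_Icc _ _)) ?_
    intro c hc v _
    exact abs_le.1 (hc.1 v)
  have : Finite S := hS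
  obtain ⟨f, hf⟩ := Module.exists_dual_forall_apply_ne_zero (K := ℚ) (M := ℂ)
    (fun c : S => ∑ v, ((c : V → ℤ) v : ℂ) * w v) (fun c => c.2.2)
  refine ⟨f, fun c hc => ⟨fun h => by rw [h, map_zero], fun h => ?_⟩⟩
  by_contra hne
  exact hf ⟨c, hc, hne⟩ h

theorem TrC_int {V : Type*} [Fintype V] (w : V → ℂ) :
    ∃ y : V → ℤ, ∀ c : V → ℤ, (∀ v, |c v| ≤ 6) →
      (∑ v, (c v : ℂ) * w v = 0 ↔ ∑ v, c v * y v = 0) := by
  obtain ⟨f, hf⟩ := TrC_functional w
  let D : ℕ := ∏ v, (f (w v)).den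
  have hD : (D : ℚ) ≠ 0 := by
    have : D ≠ 0 := Finset.prod_ne_zero_iff.2 fun v _ => (f (w v)).den_ne_zero
    exact_mod_cast this
  have hy : ∀ v, ∃ y : ℤ, (y : ℚ) = D * f (w v) := by
    intro v
    refine ⟨(∏ u ∈ (Finset.univ : Finset V).erase v, (f (w u)).den : ℕ) * (f (w v)).num, ?_⟩
    have h1 : D = (∏ u ∈ (Finset.univ : Finset V).erase v, (f (w u)).den) * (f (w v)).den :=
      (Finset.prod_erase_mul _ _ (Finset.mem_univ v)).symm
    rw [h1]
    have h2 : (f (w v)) * ((f (w v)).den : ℚ) = (f (w v)).num := Rat.mul_den_eq_num _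
    push_cast
    rw [← h2]
    ring
  choose y hy using hy
  refine ⟨y, fun c hc => ?_⟩
  rw [hf c hc]
  have h1 : f (∑ v, (c v : ℂ) * w v) = ∑ v, (c v : ℚ) * f (w v) := by
    rw [map_sum]
    refine Finset.sum_congr rfl fun v _ => ?_
    have h2 : (c v : ℂ) * w v = (c v : ℤ) • w v := by
      rw [zsmul_eq_mul]
    rw [h2, map_zsmul, zsmul_eq_mul]
  have h3 : ((∑ v, c v * y v : ℤ) : ℚ) = D * f (∑ v, (c v : ℂ) * w v) := by
    rw [h1, Finset.mul_sum]
    push_cast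
    refine Finset.sum_congr rfl fun v _ => ?_
    rw [hy v]
    ring
  constructor
  · intro h
    rw [h, mul_zero] at h3
    exact_mod_cast h3
  · intro h
    rw [h, Int.cast_zero] at h3
    rcases mul_eq_zero.1 h3.symm with h4 | h4
    · exact absurd h4 hD
    · exact h4

theorem trC {V : Type*} [Fintype V] (w : V → ℂ) (P0 : ℕ) :
    ∃ (p : ℕ) (_ : Fact p.Prime) (x : V → ZMod p), P0 < p ∧
      ∀ c : V → ℤ, (∀ v, |c v| ≤ 6) →
        (∑ v, (c v : ℂ) * w v = 0 ↔ ∑ v, (c v : ZMod p) * x v = 0) := by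
  obtain ⟨y, hy⟩ := TrC_int w
  obtain ⟨p, hp1, hp⟩ := Nat.exists_infinite_primes (P0 + 1 + 6 * ∑ v, (y v).natAbs + 1)
  refine ⟨p, ⟨hp⟩, fun v => (y v : ZMod p), by omega, fun c hc => ?_⟩
  rw [hy c hc]
  have h1 : (∑ v, (c v : ZMod p) * (y v : ZMod p)) = ((∑ v, c v * y v : ℤ) : ZMod p) := by
    push_cast
    rfl
  rw [h1, ZMod.intCast_zmod_eq_zero_iff_dvd]
  constructor
  · intro h
    rw [h]
    exact dvd_zero _
  · intro h
    refine Int.eq_zero_of_abs_lt_dvd h ?_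
    have h2 : |∑ v, c v * y v| ≤ ∑ v, 6 * ((y v).natAbs : ℤ) := by
      refine (Finset.abs_sum_le_sum_abs _ _).trans (Finset.sum_le_sum fun v _ => ?_)
      rw [abs_mul, Int.abs_eq_natAbs (y v)]
      exact mul_le_mul_of_nonneg_right (hc v) (by positivity)
    rw [← Finset.mul_sum] at h2
    have h3 : ((P0 + 1 + 6 * ∑ v, (y v).natAbs + 1 : ℕ) : ℤ) ≤ (p : ℤ) := by exact_mod_cast hp1
    push_cast at h3
    simp only [Int.natCast_natAbs] at h2
    linarith [Int.natCast_nonneg P0]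

end Pool.Agent.H95.DL
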