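import Pool.Agent.H95.DL.LopP
import Pool.Agent.H95.DL.TrC

/-!
# Job DL-10: the Halasz bound over the complex numbers

PROOF.  Let `P0 : ℕ` be arbitrary, `p, x` as in `trC`.  If there is no `b` with
`∑_{v ∈ F} b_v w_v = g` the count is `0`.  Otherwise let `b0` be one and
`g' = ∑_{v ∈ F} b0_v x_v`; for every `b` in the set `∑_v c_v w_v = 0` with `c_v = b_v - b0_v` on `F` and
`0` outside, so `∑_{v ∈ F} b_v x_v = g'`.  So the count for `w` is at most the count for `x, g'`.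
`rel (ZMod p) x = rel ℂ w`, as `|tv τ v| ≤ 6` (`cv (tv τ) ⬝ᵥ x = ∑ tv τ v * x v`); `x v ≠ 0` iff
`w v ≠ 0` (take `c = Pi.single v 1`), so `#{v ∈ F | x v ≠ 0} ≥ |C1| = c0 > 80 M0 ≥ 20 M0`
(`M0 ≥ 0` as `M ≥ 0`).  `hal3` gives the bound with `1/p < 1/P0` for `δ`; let `P0 → ∞`
(`le_of_forall_pos_le_add` or similar).
-/

set_option autoImplicit false

namespace Pool.Agent.H95.DL

open Matrix Classical Pool.Agent.H66.SP Pool.Agent.H95.SQ

theorem lopC_abs_tv {V : Type*} (τ : Tr V) (v : V) : |tv τ v| ≤ 6 := by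
  have h : ∀ a : V, (Pi.single a (1 : ℤ) : V → ℤ) v = 0 ∨ (Pi.single a (1 : ℤ) : V → ℤ) v = 1 := by
    intro a
    by_cases ha : v = a
    · subst ha; right; simp
    · left; exact Pi.single_eq_of_ne ha 1
  have h1 := h τ.1.1
  have h2 := h τ.1.2
  have h3 := h τ.2.1.1
  have h4 := h τ.2.1.2
  have h5 := h τ.2.2.1
  have h6 := h τ.2.2.2
  unfold tv
  simp only [Pi.add_apply, Pi.sub_apply]
  rw [abs_le]
  constructor <;> omega

theorem lopC_abs_tv' {V : Type*} [Fintype V] (w : V → ℂ) (p : ℕ) (x : V → ZMod p)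
    (hx : ∀ c : V → ℤ, (∀ v, |c v| ≤ 6) →
        (∑ v, (c v : ℂ) * w v = 0 ↔ ∑ v, (c v : ZMod p) * x v = 0)) (v : V) :
    w v = 0 ↔ x v = 0 := by
  have h := hx (Pi.single v 1) (by
    intro u
    by_cases hu : u = v
    · subst hu; simp
    · rw [Pi.single_eq_of_ne hu]; simp)
  rw [Finset.sum_eq_single v, Finset.sum_eq_single v] at h
  · simpa using h
  · intro b _ hb
    rw [Pi.single_eq_of_ne hb]; simp
  · intro h; exact absurd (Finset.mem_univ v) h
  · intro b _ hb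
    rw [Pi.single_eq_of_ne hb]; simp
  · intro h; exact absurd (Finset.mem_univ v) h

theorem lopC_count {V : Type*} [Fintype V] [DecidableEq V] (w : V → ℂ) (F : Finset V) (g : ℂ) (p : ℕ)
    [Fact p.Prime] (x : V → ZMod p)
    (hx : ∀ c : V → ℤ, (∀ v, |c v| ≤ 6) →
        (∑ v, (c v : ℂ) * w v = 0 ↔ ∑ v, (c v : ZMod p) * x v = 0)) :
    ∃ g' : ZMod p, ((Finset.univ : Finset (V → Bool)).filter
      (fun b => ∑ v ∈ F, bv ℂ b v * w v = g)).card ≤
      ((Finset.univ : Finset (V → Bool)).filter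
      (fun b => ∑ v ∈ F, bv (ZMod p) b v * x v = g')).card := by
  by_cases hb : ∃ b0 : V → Bool, ∑ v ∈ F, bv ℂ b0 v * w v = g
  · obtain ⟨b0, hb0⟩ := hb
    refine ⟨∑ v ∈ F, bv (ZMod p) b0 v * x v, Finset.card_le_card ?_⟩
    intro b hb
    rw [Finset.mem_filter] at hb ⊢
    refine ⟨Finset.mem_univ _, ?_⟩
    have h := hx (fun v => if v ∈ F then bv ℤ b v - bv ℤ b0 v else 0) (by
      intro v
      by_cases hv : v ∈ F
      · simp only [hv, if_true]
        unfold bv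
        split_ifs <;> norm_num
      · simp [hv])
    have e1 : ∑ v, (((if v ∈ F then bv ℤ b v - bv ℤ b0 v else 0 : ℤ)) : ℂ) * w v =
        ∑ v ∈ F, bv ℂ b v * w v - ∑ v ∈ F, bv ℂ b0 v * w v := by
      rw [← Finset.sum_sub_distrib, ← Finset.sum_subset (Finset.subset_univ F)]
      · refine Finset.sum_congr rfl fun v hv => ?_
        rw [if_pos hv]
        unfold bv
        split_ifs <;> push_cast <;> ring
      · intro v _ hv
        rw [if_neg hv]; simp
    have e2 : ∑ v, (((if v ∈ F then bv ℤ b v - bv ℤ b0 v else 0 : ℤ)) : ZMod p) * x v =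
        ∑ v ∈ F, bv (ZMod p) b v * x v - ∑ v ∈ F, bv (ZMod p) b0 v * x v := by
      rw [← Finset.sum_sub_distrib, ← Finset.sum_subset (Finset.subset_univ F)]
      · refine Finset.sum_congr rfl fun v hv => ?_
        rw [if_pos hv]
        unfold bv
        split_ifs <;> push_cast <;> ring
      · intro v _ hv
        rw [if_neg hv]; simp
    rw [e1, e2, hb.2, hb0, sub_self] at h
    exact sub_eq_zero.mp (h.mp rfl)
  · refine ⟨0, ?_⟩
    rw [Finset.filter_eq_empty_iff.mpr]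
    · simp
    · intro b _ h
      exact hb ⟨b, h⟩

theorem lopC_rel {V : Type*} [Fintype V] (w : V → ℂ) (p : ℕ) [Fact p.Prime] (x : V → ZMod p)
    (hx : ∀ c : V → ℤ, (∀ v, |c v| ≤ 6) →
        (∑ v, (c v : ℂ) * w v = 0 ↔ ∑ v, (c v : ZMod p) * x v = 0)) (C1 C2 C3 : Finset V) :
    rel (ZMod p) x C1 C2 C3 = rel ℂ w C1 C2 C3 := by
  unfold rel
  congr 1
  ext τ
  simp only [Finset.mem_filter]
  exact and_congr_right fun _ => (hx (tv τ) (lopC_abs_tv τ)).symm

theorem lop_C : LOP ℂ 0 := by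
  intro V _ _ w F g C1 C2 C3 c0 k M M0 h1 h2 h3 hw hc0 hc1 hc2 hc3 hk hM hkM hM0
  have hM00 : 0 ≤ M0 := le_trans (by positivity) hkM
  refine le_of_forall_pos_le_add fun ε hε => ?_
  obtain ⟨P0, hP0⟩ := exists_nat_gt ((2 : ℝ) ^ Fintype.card V / ε)
  have hP0' : (0 : ℝ) < P0 := lt_of_le_of_lt (by positivity) hP0
  obtain ⟨p, hp, x, hpP, hx⟩ := trC w P0
  obtain ⟨g', hg'⟩ := lopC_count w F g p x hx
  have hnz : 20 * M0 < ((F.filter (fun v => x v ≠ 0)).card : ℝ) := by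
    have hs : C1 ⊆ F.filter (fun v => x v ≠ 0) := by
      intro v hv
      rw [Finset.mem_filter]
      exact ⟨h1 hv, fun h => hw v hv ((lopC_abs_tv' w p x hx v).mpr h)⟩
    have hcc := Finset.card_le_card hs
    rw [hc1] at hcc
    have : (c0 : ℝ) ≤ ((F.filter (fun v => x v ≠ 0)).card : ℝ) := by exact_mod_cast hcc
    linarith
  have h := hal3 p F x g' C1 C2 C3 h1 h2 h3 c0 k hc0 hc1 hc2 hc3 hk M M0 hM hkM (by linarith) hnz
  rw [lopC_rel w p x hx] at h
  have hcnt : (((Finset.univ : Finset (V → Bool)).filter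
      (fun b => ∑ v ∈ F, bv ℂ b v * w v = g)).card : ℝ) ≤
      (((Finset.univ : Finset (V → Bool)).filter
      (fun b => ∑ v ∈ F, bv (ZMod p) b v * x v = g')).card : ℝ) := by exact_mod_cast hg'
  have hpP' : (P0 : ℝ) ≤ p := by exact_mod_cast hpP.le
  have hp1 : (2 : ℝ) ^ Fintype.card V * (1 / p) ≤ ε := by
    rw [mul_one_div]
    rw [div_lt_iff₀ hε] at hP0
    rw [div_le_iff₀ (by linarith)]
    nlinarith
  refine hcnt.trans (h.trans ?_)
  have : (2 : ℝ) ^ Fintype.card V * (1 / p + Real.exp (-2 * M) +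
        64 / k * ((rel ℂ w C1 C2 C3 : ℝ) / (c0 : ℝ) ^ 6)) =
      (2 : ℝ) ^ Fintype.card V * (1 / p) + 2 ^ Fintype.card V * (0 + Real.exp (-2 * M) +
        64 / k * ((rel ℂ w C1 C2 C3 : ℝ) / (c0 : ℝ) ^ 6)) := by ring
  rw [this]
  linarith

end Pool.Agent.H95.DL
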