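import Pool.Agent.H95.DL.Lb
import Pool.Agent.H95.DL.LopC

/-!
# Job DL-37: numerics of the Halasz bound

PROOF.  `lb_of_lop` with `m6 = 600000`, `s1 = n / 1000`, `s2 = n / 10000000`, `c0 = n / 100000000`
(so `3 c0 + m6 ≤ s2` for large `n`), `M = 10 log n`, `M0 = c0 / 100`, `k = ⌊sqrt (M0 / M)⌋`
(`k ≥ sqrt (n / log n) / 10^6` for large `n`).  Then `exp(-2M) = n^(-20)`, `64/(k c0^3) ≤
C sqrt(log n) n^(-3.5)`, `64 n^6 / (k c0^6) ≤ C' sqrt(log n) n^(-0.5)` and `200/p ≤ 200 n^(-3)`.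
`LB` is monotone in `α` and `a` (`LB_mono`).  Asymptotics: `Real.log n ≤ n^(0.01)` eventually
(`isLittleO_log_rpow_atTop`).
-/

set_option autoImplicit false

namespace Pool.Agent.H95.DL

open Matrix Classical Pool.Agent.H66.SP Pool.Agent.H95.SQ

theorem LB_mono (K : Type) [Field K] (m6 s1 s2 n : ℕ) (α a α' a' : ℝ) (h1 : α ≤ α') (h2 : a ≤ a')
    (h : LB K m6 s1 s2 n α a) : LB K m6 s1 s2 n α' a' := by
  intro V _ _ hV G ts hTY w F g hs1 hs2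
  refine (h V hV G ts hTY w F g hs1 hs2).trans ?_
  apply mul_le_mul_of_nonneg_left _ (by positivity)
  apply add_le_add h1
  apply div_le_div_of_nonneg_right _ (by positivity)
  exact mul_le_mul_of_nonneg_right h2 (Nat.cast_nonneg _)

/-- large `n` -/
theorem NumLB_ev : ∃ n₀ : ℕ, ∀ n : ℕ, n₀ ≤ n → 10 ^ 14 ≤ n ∧
    Real.log n ≤ (n : ℝ) ^ (0.01 : ℝ) ∧ (10 : ℝ) ^ 70 ≤ (n : ℝ) ^ (0.045 : ℝ) := by
  have h1 : ∀ᶠ x : ℝ in Filter.atTop, Real.log x ≤ x ^ (0.01 : ℝ) := by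
    have h := (isLittleO_log_rpow_atTop (r := (0.01 : ℝ)) (by norm_num)).bound
      (show (0 : ℝ) < 1 by norm_num)
    filter_upwards [h, Filter.eventually_ge_atTop (1 : ℝ)] with x hx hx1
    rw [one_mul, Real.norm_of_nonneg (Real.log_nonneg hx1),
      Real.norm_of_nonneg (Real.rpow_nonneg (by linarith) _)] at hx
    exact hx
  have h2 : ∀ᶠ x : ℝ in Filter.atTop, (10 : ℝ) ^ 70 ≤ x ^ (0.045 : ℝ) :=
    (tendsto_rpow_atTop (by norm_num : (0 : ℝ) < 0.045)).eventually_ge_atTop _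
  have h3 := tendsto_natCast_atTop_atTop (R := ℝ)
  have h4 := ((h3.eventually h1).and (h3.eventually h2)).and
    (Filter.eventually_ge_atTop (10 ^ 14 : ℕ))
  obtain ⟨n₀, hn₀⟩ := Filter.eventually_atTop.1 h4
  exact ⟨n₀, fun n hn => ⟨(hn₀ n hn).2, (hn₀ n hn).1.1, (hn₀ n hn).1.2⟩⟩

theorem NumLB_core : ∃ n₀ : ℕ, ∀ n : ℕ, n₀ ≤ n → 10 ^ 14 ≤ n ∧ (10 : ℝ) ^ 70 ≤ (n : ℝ) ^ (0.045 : ℝ) ∧
    ∀ (K : Type) [Field K] (δ : ℝ), LOP K δ → LB K 600000 (n / 1000) (n / 10000000) n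
      (δ + (n : ℝ) ^ (-(3.45 : ℝ))) ((n : ℝ) ^ (-(0.45 : ℝ))) := by
  obtain ⟨n₀, hn₀⟩ := NumLB_ev
  refine ⟨n₀, fun n hn => ?_⟩
  obtain ⟨hn1, hlog, hb⟩ := hn₀ n hn
  refine ⟨hn1, hb, fun K _ δ hL => ?_⟩
  have hN1 : (10 : ℝ) ^ 14 ≤ (n : ℝ) := by exact_mod_cast hn1
  have hN0 : (0 : ℝ) < n := by
    have : (0 : ℝ) < 10 ^ 14 := by positivity
    linarith
  have hNone : (1 : ℝ) ≤ n := by
    have : (1 : ℝ) ≤ 10 ^ 14 := by norm_num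
    linarith
  obtain ⟨N, hN⟩ : ∃ N : ℝ, N = n := ⟨_, rfl⟩
  obtain ⟨a, ha⟩ : ∃ a : ℝ, a = (n : ℝ) ^ (0.45 : ℝ) := ⟨_, rfl⟩
  obtain ⟨b, hb'⟩ : ∃ b : ℝ, b = (n : ℝ) ^ (0.045 : ℝ) := ⟨_, rfl⟩
  obtain ⟨c0, hc0⟩ : ∃ c0 : ℕ, c0 = n / 100000000 := ⟨_, rfl⟩
  obtain ⟨k, hk⟩ : ∃ k : ℕ, k = ⌊a * b / 10 ^ 6⌋₊ := ⟨_, rfl⟩
  rw [← hb'] at hb
  rw [← hN] at hN1 hN0 hNone
  have ha1 : 1 ≤ a := by
    rw [ha, ← hN]
    exact Real.one_le_rpow hNone (by norm_num)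
  have haN : a ≤ N := by
    rw [ha, ← hN]
    calc N ^ (0.45 : ℝ) ≤ N ^ (1 : ℝ) := Real.rpow_le_rpow_of_exponent_le hNone (by norm_num)
      _ = N := Real.rpow_one N
  have hc0lo : N / (2 * 10 ^ 8) ≤ c0 := by
    have h1 : n ≤ 100000000 * c0 + 100000000 := by omega
    have h2 : (n : ℝ) ≤ 100000000 * c0 + 100000000 := by exact_mod_cast h1
    rw [← hN] at h2
    rw [div_le_iff₀ (by positivity)]
    norm_num at hN1 ⊢
    linarith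
  have hab : (10 : ℝ) ^ 70 ≤ a * b := by
    calc (10 : ℝ) ^ 70 = 1 * 10 ^ 70 := (one_mul _).symm
      _ ≤ a * b := mul_le_mul ha1 hb (by positivity) (by linarith)
  have hklo : a * b / (2 * 10 ^ 6) ≤ k := by
    have h1 : a * b / 10 ^ 6 < k + 1 := by
      rw [hk]
      exact Nat.lt_floor_add_one _
    have h2 : (1 : ℝ) ≤ a * b / (2 * 10 ^ 6) := by
      rw [le_div_iff₀ (by positivity)]
      refine le_trans ?_ hab
      norm_num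
    have h3 : a * b / 10 ^ 6 = a * b / (2 * 10 ^ 6) + a * b / (2 * 10 ^ 6) := by ring
    linarith
  have hkhi : (k : ℝ) ≤ a * b / 10 ^ 6 := by
    rw [hk]
    exact Nat.floor_le (by positivity)
  have hk1 : 1 ≤ k := by
    have h2 : (1 : ℝ) ≤ a * b / (2 * 10 ^ 6) := by
      rw [le_div_iff₀ (by positivity)]
      refine le_trans ?_ hab
      norm_num
    have : (1 : ℝ) ≤ k := by linarith
    exact_mod_cast this
  have hc01 : 1 ≤ c0 := by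
    rw [hc0, Nat.le_div_iff_mul_le (by norm_num)]
    refine le_trans ?_ hn1
    norm_num
  have hlog0 : 0 ≤ Real.log n := Real.log_nonneg (by rw [← hN]; exact hNone)
  have hsq : (a * b) ^ 2 * (n : ℝ) ^ (0.01 : ℝ) = N := by
    rw [ha, hb', ← hN, ← Real.rpow_add hN0, ← Real.rpow_natCast, ← Real.rpow_mul hN0.le,
      ← Real.rpow_add hN0]
    norm_num
  have hkM : (k : ℝ) ^ 2 * (10 * Real.log n) ≤ (c0 : ℝ) / 100 := by
    have h1 : (k : ℝ) ^ 2 ≤ (a * b / 10 ^ 6) ^ 2 := pow_le_pow_left₀ (Nat.cast_nonneg _) hkhi 2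
    have h2 : (k : ℝ) ^ 2 * (10 * Real.log n) ≤ (a * b / 10 ^ 6) ^ 2 *
        (10 * (n : ℝ) ^ (0.01 : ℝ)) :=
      mul_le_mul h1 (by linarith) (by positivity) (by positivity)
    have h3 : (a * b / 10 ^ 6) ^ 2 * (10 * (n : ℝ) ^ (0.01 : ℝ)) =
        10 / 10 ^ 12 * ((a * b) ^ 2 * (n : ℝ) ^ (0.01 : ℝ)) := by ring
    rw [h3, hsq] at h2
    refine h2.trans ?_
    have h4 : N / (2 * 10 ^ 8) / 100 ≤ (c0 : ℝ) / 100 := div_le_div_of_nonneg_right hc0lo (by norm_num)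
    refine le_trans ?_ h4
    have h5 : N / (2 * 10 ^ 8) / 100 = 5 * (10 / 10 ^ 12 * N) := by ring
    rw [h5]
    have : 0 ≤ 10 / 10 ^ 12 * N := by positivity
    linarith
  have hmain := lb_of_lop K δ hL 600000 (n / 1000) (n / 10000000) n c0 k (10 * Real.log n)
    ((c0 : ℝ) / 100) (by omega) hc01 hk1 (by omega) (by positivity) hkM (by
      have : (0 : ℝ) < c0 := by exact_mod_cast hc01
      linarith)
  have hc00 : (0 : ℝ) < c0 := by exact_mod_cast hc01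
  have hk0 : (0 : ℝ) < k := by exact_mod_cast hk1
  have hb0 : 0 < b := lt_of_lt_of_le (by positivity) hb
  have ha0 : 0 < a := by linarith
  refine LB_mono K _ _ _ _ _ _ _ _ ?_ ?_ hmain
  · have e1 : (n : ℝ) ^ (-(3.45 : ℝ)) = 1 / (N ^ 3 * a) := by
      rw [ha, ← hN, one_div, Real.rpow_neg hN0.le, ← Real.rpow_natCast, ← Real.rpow_add hN0]
      norm_num
    have e2 : Real.exp (-2 * (10 * Real.log n)) = 1 / N ^ 20 := by
      rw [← hN, show -2 * (10 * Real.log N) = -(Real.log N * 20) by ring, Real.exp_neg,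
        Real.exp_mul, Real.exp_log hN0, one_div]
      norm_num
    have e3 : Real.exp (-2 * (10 * Real.log n)) ≤ 1 / (2 * (N ^ 3 * a)) := by
      rw [e2]
      apply one_div_le_one_div_of_le (by positivity)
      have h1 : N ^ 3 * a ≤ N ^ 3 * N := mul_le_mul_of_nonneg_left haN (by positivity)
      have h2 : N ^ 4 * 2 ≤ N ^ 4 * N ^ 16 := by
        apply mul_le_mul_of_nonneg_left _ (by positivity)
        have : (2 : ℝ) ≤ N := by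
          have : (2 : ℝ) ≤ 10 ^ 14 := by norm_num
          linarith
        calc (2 : ℝ) ≤ N := this
          _ = N ^ 1 := (pow_one N).symm
          _ ≤ N ^ 16 := pow_le_pow_right₀ hNone (by norm_num)
      calc 2 * (N ^ 3 * a) ≤ 2 * (N ^ 3 * N) := by linarith
        _ = N ^ 4 * 2 := by ring
        _ ≤ N ^ 4 * N ^ 16 := h2
        _ = N ^ 20 := by ring
    have e4 : 64 / ((k : ℝ) * (c0 : ℝ) ^ 3) ≤ 1 / (2 * (N ^ 3 * a)) := by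
      rw [div_le_div_iff₀ (by positivity) (by positivity)]
      have h1 : (a * b / (2 * 10 ^ 6)) * (N / (2 * 10 ^ 8)) ^ 3 ≤ (k : ℝ) * (c0 : ℝ) ^ 3 :=
        mul_le_mul hklo (pow_le_pow_left₀ (by positivity) hc0lo 3) (by positivity)
          (Nat.cast_nonneg _)
      have h2 : (a * b / (2 * 10 ^ 6)) * (N / (2 * 10 ^ 8)) ^ 3 =
          (N ^ 3 * a) * (b / (2 * 10 ^ 6 * (2 * 10 ^ 8) ^ 3)) := by ring
      have h3 : (128 : ℝ) ≤ b / (2 * 10 ^ 6 * (2 * 10 ^ 8) ^ 3) := by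
        rw [le_div_iff₀ (by positivity)]
        refine le_trans ?_ hb
        norm_num
      have h4 : (N ^ 3 * a) * 128 ≤ (N ^ 3 * a) * (b / (2 * 10 ^ 6 * (2 * 10 ^ 8) ^ 3)) :=
        mul_le_mul_of_nonneg_left h3 (by positivity)
      linarith
    rw [e1]
    have e5 : 1 / (N ^ 3 * a) = 1 / (2 * (N ^ 3 * a)) + 1 / (2 * (N ^ 3 * a)) := by
      field_simp
      norm_num
    rw [e5]
    linarith
  · have e1 : (n : ℝ) ^ (-(0.45 : ℝ)) = 1 / a := by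
      rw [ha, one_div, Real.rpow_neg (by rw [← hN]; exact hN0.le)]
    rw [e1, div_le_div_iff₀ (by positivity) ha0, ← hN]
    have h1 : (a * b / (2 * 10 ^ 6)) * (N / (2 * 10 ^ 8)) ^ 6 ≤ (k : ℝ) * (c0 : ℝ) ^ 6 :=
      mul_le_mul hklo (pow_le_pow_left₀ (by positivity) hc0lo 6) (by positivity)
        (Nat.cast_nonneg _)
    have h2 : (a * b / (2 * 10 ^ 6)) * (N / (2 * 10 ^ 8)) ^ 6 =
        (N ^ 6 * a) * (b / (2 * 10 ^ 6 * (2 * 10 ^ 8) ^ 6)) := by ring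
    have h3 : (64 : ℝ) ≤ b / (2 * 10 ^ 6 * (2 * 10 ^ 8) ^ 6) := by
      rw [le_div_iff₀ (by positivity)]
      refine le_trans ?_ hb
      norm_num
    have h4 : (N ^ 6 * a) * 64 ≤ (N ^ 6 * a) * (b / (2 * 10 ^ 6 * (2 * 10 ^ 8) ^ 6)) :=
      mul_le_mul_of_nonneg_left h3 (by positivity)
    linarith

theorem lb_num (K : ℕ → Type) [∀ n, Field (K n)] (δ : ℕ → ℝ) (hK : ∀ n, LOP (K n) (δ n)) :
    ∃ n₀ : ℕ, ∀ n : ℕ, n₀ ≤ n → LB (K n) 600000 (n / 1000) (n / 10000000) n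
      (δ n + (n : ℝ) ^ (-(3.45 : ℝ))) ((n : ℝ) ^ (-(0.45 : ℝ))) := by
  obtain ⟨n₀, hn₀⟩ := NumLB_core
  exact ⟨n₀, fun n hn => (hn₀ n hn).2.2 (K n) (δ n) (hK n)⟩

theorem lb_C : ∃ n₀ : ℕ, ∀ n : ℕ, n₀ ≤ n → LB ℂ 600000 (n / 1000) (n / 10000000) n
      ((n : ℝ) ^ (-(3.4 : ℝ))) ((n : ℝ) ^ (-(0.45 : ℝ))) := by
  obtain ⟨n₀, hn₀⟩ := NumLB_core
  refine ⟨n₀, fun n hn => ?_⟩
  obtain ⟨h1, -, h2⟩ := hn₀ n hn
  refine LB_mono ℂ _ _ _ _ _ _ _ _ ?_ le_rfl (h2 ℂ 0 lop_C)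
  rw [zero_add]
  apply Real.rpow_le_rpow_of_exponent_le
  · have : 1 ≤ n := le_trans (by norm_num) h1
    exact_mod_cast this
  · norm_num

theorem lb_p : ∃ n₀ : ℕ, ∀ n : ℕ, n₀ ≤ n → ∀ (p : ℕ) [Fact p.Prime], n ^ 3 < p →
    LB (KK p) 600000 (n / 1000) (n / 10000000) n
      ((n : ℝ) ^ (-(2.9 : ℝ))) ((n : ℝ) ^ (-(0.45 : ℝ))) := by
  obtain ⟨n₀, hn₀⟩ := NumLB_core
  refine ⟨n₀, fun n hn p _ hp => ?_⟩
  obtain ⟨h1, hb, h2⟩ := hn₀ n hn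
  have hn1 : 1 ≤ n := le_trans (by norm_num) h1
  have hN1 : (1 : ℝ) ≤ n := by exact_mod_cast hn1
  have hN0 : (0 : ℝ) < n := by linarith
  have hp5 : 5 ≤ p := by
    have h3 : n ≤ n ^ 3 := Nat.le_self_pow (by norm_num) n
    have h4 : 5 ≤ n := le_trans (by norm_num) h1
    omega
  refine LB_mono (KK p) _ _ _ _ _ _ _ _ ?_ le_rfl (h2 (KK p) (200 / p) (lop_p p hp5))
  have e1 : (200 : ℝ) / p ≤ 200 / (n : ℝ) ^ 3 := by
    apply div_le_div_of_nonneg_left (by norm_num) (by positivity)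
    exact_mod_cast hp.le
  have e2 : (n : ℝ) ^ (-(3.45 : ℝ)) ≤ 1 / (n : ℝ) ^ 3 := by
    have e3 : 1 / (n : ℝ) ^ 3 = (n : ℝ) ^ (-(3 : ℝ)) := by
      rw [Real.rpow_neg hN0.le, one_div]
      norm_cast
    rw [e3]
    exact Real.rpow_le_rpow_of_exponent_le hN1 (by norm_num)
  have e4 : (n : ℝ) ^ (-(2.9 : ℝ)) = (n : ℝ) ^ (0.1 : ℝ) / (n : ℝ) ^ 3 := by
    rw [div_eq_mul_inv, ← Real.rpow_natCast, ← Real.rpow_neg hN0.le, ← Real.rpow_add hN0]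
    norm_num
  have e5 : (n : ℝ) ^ (0.045 : ℝ) ≤ (n : ℝ) ^ (0.1 : ℝ) :=
    Real.rpow_le_rpow_of_exponent_le hN1 (by norm_num)
  have e6 : (201 : ℝ) ≤ (n : ℝ) ^ (0.1 : ℝ) := by
    refine le_trans ?_ (hb.trans e5)
    norm_num
  rw [e4]
  have e7 : (201 : ℝ) / (n : ℝ) ^ 3 ≤ (n : ℝ) ^ (0.1 : ℝ) / (n : ℝ) ^ 3 :=
    div_le_div_of_nonneg_right e6 (by positivity)
  have e8 : (201 : ℝ) / (n : ℝ) ^ 3 = 200 / (n : ℝ) ^ 3 + 1 / (n : ℝ) ^ 3 := by ring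
  linarith

end Pool.Agent.H95.DL
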