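import Pool.Agent.H95.DL.TyC

/-!
# Job DL-26: almost all graphs are typical, numerics

PROOF.  `card_not_ty_le` with `m = 100000`, `m6 = 600000`, `s1 = n / 1000`, `s2 = n / 10000000`:
`m s2 ≤ n / 100`, `m (s1 - 6 m) ≥ 100 n - 10^5 - 6 * 10^10 - ...`, `(63/64)^90 ≤ 1/4`, so
`(63/64)^(100 n) ≤ (1/4)^n`; the bound is at most
`2^n (2n+1)^600000 2^(n/100) C (1/4)^n ≤ (1/2)^(n/10)` for large `n` (`C = (64/63)^(10^11)`, keep it
symbolic; polynomial against exponential).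
-/

set_option autoImplicit false

namespace Pool.Agent.H95.DL

open Matrix Classical Pool.Agent.H66.SP Pool.Agent.H95.SQ

theorem TyN_poly (K : ℕ) (C : ℝ) (hC : 0 ≤ C) : ∃ n₀ : ℕ, ∀ n : ℕ, n₀ ≤ n →
    C * (2 * (n : ℝ) + 1) ^ K ≤ 2 ^ (n / 2) := by
  have hpos : (0 : ℝ) < 2 * (C + 1) * 7 ^ K := by positivity
  have ht := tendsto_pow_const_mul_const_pow_of_abs_lt_one K
    (r := (1 / 2 : ℝ)) (by rw [abs_of_pos (by norm_num)]; norm_num)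
  have h1 : ∀ᶠ k : ℕ in Filter.atTop, (k : ℝ) ^ K * (1 / 2) ^ k < 1 / (2 * (C + 1) * 7 ^ K) :=
    ht.eventually_lt_const (by positivity)
  obtain ⟨k₀, hk₀⟩ := Filter.eventually_atTop.1 h1
  refine ⟨2 * k₀ + 2, fun n hn => ?_⟩
  obtain ⟨k, hk⟩ : ∃ k, k = n / 2 + 1 := ⟨_, rfl⟩
  have h2 := hk₀ k (by omega)
  have h3 : (2 * (n : ℝ) + 1) ≤ 7 * k := by
    have : 2 * n + 1 ≤ 7 * k := by omega
    exact_mod_cast this
  have h4 : (2 * (n : ℝ) + 1) ^ K ≤ 7 ^ K * (k : ℝ) ^ K := by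
    rw [← mul_pow]
    exact pow_le_pow_left₀ (by positivity) h3 K
  have h5 : (2 : ℝ) ^ (n / 2) = 2 ^ k / 2 := by
    rw [hk, pow_succ]
    ring
  have h6 : (k : ℝ) ^ K * (2 * (C + 1) * 7 ^ K) ≤ 2 ^ k := by
    rw [lt_div_iff₀ hpos] at h2
    have h7 : (0 : ℝ) < 2 ^ k := by positivity
    calc (k : ℝ) ^ K * (2 * (C + 1) * 7 ^ K) =
        ((k : ℝ) ^ K * (1 / 2) ^ k * (2 * (C + 1) * 7 ^ K)) * 2 ^ k := by
          rw [div_pow, one_pow]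
          field_simp
      _ ≤ 1 * 2 ^ k := mul_le_mul_of_nonneg_right h2.le h7.le
      _ = 2 ^ k := one_mul _
  rw [h5]
  have h8 : (0 : ℝ) ≤ 7 ^ K * (k : ℝ) ^ K := by positivity
  calc C * (2 * (n : ℝ) + 1) ^ K ≤ C * (7 ^ K * (k : ℝ) ^ K) :=
        mul_le_mul_of_nonneg_left h4 hC
    _ ≤ (C + 1) * (7 ^ K * (k : ℝ) ^ K) := by nlinarith
    _ = ((k : ℝ) ^ K * (2 * (C + 1) * 7 ^ K)) / 2 := by ring
    _ ≤ 2 ^ k / 2 := by linarith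

theorem TyN_exp (n : ℕ) : (2 : ℝ) ^ n * 2 ^ (n / 100) * (63 / 64) ^ (100 * n) * 2 ^ (n / 2) ≤
    (1 / 2) ^ (n / 10) := by
  have h1 : ((63 : ℝ) / 64) ^ 100 ≤ 1 / 4 := by norm_num
  have h2 : ((63 : ℝ) / 64) ^ (100 * n) ≤ (1 / 4) ^ n := by
    rw [pow_mul]
    exact pow_le_pow_left₀ (by positivity) h1 n
  have h3 : (2 : ℝ) ^ (n / 100) * 2 ^ (n / 2) * 2 ^ (n / 10) ≤ 2 ^ n := by
    rw [← pow_add, ← pow_add]
    exact pow_le_pow_right₀ (by norm_num) (by omega)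
  have h4 : (2 : ℝ) ^ n * (1 / 4) ^ n * 2 ^ n = 1 := by
    rw [← mul_pow, ← mul_pow]
    norm_num
  have h5 : (0 : ℝ) < 2 ^ (n / 10) := by positivity
  have h6 : ((1 : ℝ) / 2) ^ (n / 10) = 1 / 2 ^ (n / 10) := by rw [div_pow, one_pow]
  rw [h6, le_div_iff₀ h5]
  calc (2 : ℝ) ^ n * 2 ^ (n / 100) * (63 / 64) ^ (100 * n) * 2 ^ (n / 2) * 2 ^ (n / 10) =
      (2 ^ n * (63 / 64) ^ (100 * n)) * (2 ^ (n / 100) * 2 ^ (n / 2) * 2 ^ (n / 10)) := by ring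
    _ ≤ (2 ^ n * (1 / 4) ^ n) * 2 ^ n :=
      mul_le_mul (mul_le_mul_of_nonneg_left h2 (by positivity)) h3 (by positivity) (by positivity)
    _ = 1 := h4

theorem TyN_aux (m s1 s2 n N D : ℕ) (hN : N ≤ n) (h2 : m * s2 ≤ n / 100)
    (h1 : 100 * n ≤ m * (s1 - 6 * m) + D) :
    (2 : ℝ) ^ N * ((2 * (N : ℝ) + 1) ^ 6) ^ m *
      (2 ^ (m * s2) * (63 / 64) ^ (m * (s1 - 6 * m))) ≤
    (2 ^ n * 2 ^ (n / 100) * (63 / 64) ^ (100 * n)) *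
      ((64 / 63) ^ D * (2 * (n : ℝ) + 1) ^ (6 * m)) := by
  have e1 : (2 : ℝ) ^ N ≤ 2 ^ n := pow_le_pow_right₀ (by norm_num) hN
  have e2 : ((2 * (N : ℝ) + 1) ^ 6) ^ m ≤ (2 * (n : ℝ) + 1) ^ (6 * m) := by
    rw [← pow_mul]
    have : (N : ℝ) ≤ n := by exact_mod_cast hN
    exact pow_le_pow_left₀ (by positivity) (by linarith) _
  have e3 : (2 : ℝ) ^ (m * s2) ≤ 2 ^ (n / 100) := pow_le_pow_right₀ (by norm_num) h2
  have e4 : ((63 : ℝ) / 64) ^ (m * (s1 - 6 * m)) ≤ (63 / 64) ^ (100 * n) * (64 / 63) ^ D := by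
    have f1 : ((63 : ℝ) / 64) ^ (m * (s1 - 6 * m)) =
        (63 / 64) ^ (m * (s1 - 6 * m) + D) * (64 / 63) ^ D := by
      rw [pow_add, mul_assoc, ← mul_pow]
      norm_num
    rw [f1]
    exact mul_le_mul_of_nonneg_right
      (pow_le_pow_of_le_one (by norm_num) (by norm_num) h1) (by positivity)
  calc (2 : ℝ) ^ N * ((2 * (N : ℝ) + 1) ^ 6) ^ m *
      (2 ^ (m * s2) * (63 / 64) ^ (m * (s1 - 6 * m))) ≤
      2 ^ n * (2 * (n : ℝ) + 1) ^ (6 * m) *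
        (2 ^ (n / 100) * ((63 / 64) ^ (100 * n) * (64 / 63) ^ D)) := by
        refine mul_le_mul (mul_le_mul e1 e2 (by positivity) (by positivity))
          (mul_le_mul e3 e4 (by positivity) (by positivity)) (by positivity) (by positivity)
    _ = _ := by ring

theorem card_not_ty : ∃ n₀ : ℕ, ∀ n : ℕ, n₀ ≤ n → ∀ (V : Type) [Fintype V] [DecidableEq V],
    Fintype.card V ≤ n → ∀ U : Finset V,
    (((Finset.univ : Finset (SimpleGraph V)).filter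
      (fun G => ¬ TY 600000 (n / 1000) (n / 10000000) G U)).card : ℝ) ≤
      (Fintype.card (SimpleGraph V) : ℝ) * (1 / 2) ^ (n / 10) := by
  obtain ⟨m, hm⟩ : ∃ m : ℕ, m = 100000 := ⟨_, rfl⟩
  obtain ⟨D, hD⟩ : ∃ D : ℕ, D = 100000 * 600001 := ⟨_, rfl⟩
  obtain ⟨n₀, hn₀⟩ := TyN_poly (6 * m) ((64 / 63) ^ D) (by positivity)
  refine ⟨n₀, fun n hn V _ _ hV U => ?_⟩
  refine (card_not_ty_le U m 600000 (n / 1000) (n / 10000000) (by omega)).trans ?_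
  refine mul_le_mul_of_nonneg_left ?_ (Nat.cast_nonneg _)
  refine (TyN_aux m (n / 1000) (n / 10000000) n (Fintype.card V) D hV
    (by rw [hm]; omega) (by rw [hm, hD]; omega)).trans ?_
  refine le_trans (mul_le_mul_of_nonneg_left (hn₀ n hn) (by positivity)) ?_
  exact TyN_exp n

end Pool.Agent.H95.DL
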