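import Pool.Agent.H95.DL.RecT
import Pool.Agent.H95.DL.NumLB
import Pool.Agent.H95.DL.NsH
import Pool.Agent.H95.DL.NsK
import Pool.Agent.H95.DL.TyN

/-!
# Job DL-38: simple spectrum over the complex numbers

`PB_C`: the good graphs for `K = ℂ`, `iso = False`, `cap = n`: `NSE` (`card_not_nss` for `N = card V`,
`N / 400 ≥ n / 500`, `nse_of_nss`, `NSE_mono`), `TY` (`card_not_ty` with `U = su ts`), and
`card_DSf_C` (`|DSf| ≤ N ≤ n`); the proportion of bad graphs is at most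
`(1/2)^(N/10) + (1/2)^(n/10) ≤ n^(-10)` for large `n`.
`XF_C`: `rec_T` with `K0 = 16`, `j = 8`, `n0 = n - 200`, `α = n^(-3.4)`, `a = n^(-0.45)`, `cap = n`,
`π = n^(-10)`, `s = n / 500`: for `k ≤ 8` and `n - 192 ≤ N ≤ n` the bound
`4 (800 (2 n^(-2.4) + n^(-9))) + (1600 (3 n^(-0.45) + n^(-3.4)))^8 n ≤ n^(-2.3)` for large `n`
(`8 * 0.45 = 3.6`).
`card_not_sim`: if `OK G ts` and `NF G ts = 0` then every `EE ℂ G ts μ` is fine (if it is `⊥` trivially,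
otherwise `μ ∈ DSf`), so has dimension `≤ 1` (`finrank_of_fine`), i.e. `SIM G ts`.  So
`#{¬ SIM} ≤ #{¬ OK} + ∑_{OK} NF ≤ (n^(-10) + n^(-2.3)) card ≤ n^(-2.2) card`.
-/

set_option autoImplicit false

namespace Pool.Agent.H95.DL

open Matrix Classical Pool.Agent.H66.SP Pool.Agent.H95.SQ Filter Topology

theorem Csim_small (δ : ℝ) (hδ : 0 < δ) : ∃ n₀ : ℕ, ∀ n : ℕ, n₀ ≤ n →
    (n : ℝ) ^ (-(0.1 : ℝ)) ≤ δ := by
  have h1 : Tendsto (fun n : ℕ => (n : ℝ) ^ (-(0.1 : ℝ))) atTop (𝓝 0) :=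
    (tendsto_rpow_neg_atTop (by norm_num : (0 : ℝ) < 0.1)).comp tendsto_natCast_atTop_atTop
  have h2 := h1.eventually (ge_mem_nhds hδ)
  exact eventually_atTop.1 h2

theorem Csim_exp : ∃ n₀ : ℕ, ∀ n : ℕ, n₀ ≤ n →
    2 * ((1 : ℝ) / 2) ^ ((n - 200) / 10) ≤ (n : ℝ) ^ (-(10 : ℝ)) := by
  set c : ℝ := ((1 : ℝ) / 2) ^ ((1 : ℝ) / 10) with hc
  have hc0 : 0 < c := Real.rpow_pos_of_pos (by norm_num) _
  have hc1 : c < 1 := Real.rpow_lt_one (by norm_num) (by norm_num) (by norm_num)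
  have hc10 : c ^ 10 = 1 / 2 := by
    rw [hc, ← Real.rpow_natCast, ← Real.rpow_mul (by norm_num)]
    norm_num
  have h1 := tendsto_pow_const_mul_const_pow_of_abs_lt_one 10 (r := c) (by
    rw [abs_of_pos hc0]; exact hc1)
  have h2 := h1.eventually (ge_mem_nhds (show (0 : ℝ) < (1 / 2) ^ 22 by positivity))
  obtain ⟨n₀, hn₀⟩ := eventually_atTop.1 h2
  refine ⟨max n₀ 200, fun n hn => ?_⟩
  have hn1 : n₀ ≤ n := le_trans (le_max_left _ _) hn
  have hn2 : 200 ≤ n := le_trans (le_max_right _ _) hn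
  have h3 := hn₀ n hn1
  have hnpos : (0 : ℝ) < n := by
    have : 0 < n := by omega
    exact_mod_cast this
  have h4 : ((1 : ℝ) / 2) ^ ((n - 200) / 10) * (1 / 2) ^ 21 ≤ c ^ n := by
    rw [← pow_add, ← hc10, ← pow_mul]
    exact pow_le_pow_of_le_one hc0.le hc1.le (by omega)
  have h5 : (n : ℝ) ^ (-(10 : ℝ)) = ((n : ℝ) ^ 10)⁻¹ := by
    rw [Real.rpow_neg hnpos.le, ← Real.rpow_natCast (n : ℝ) 10]
    norm_num
  rw [h5, ← one_div, le_div_iff₀ (by positivity)]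
  have h6 : ((1 : ℝ) / 2) ^ ((n - 200) / 10) ≤ c ^ n * 2 ^ 21 := by
    have : ((1 : ℝ) / 2) ^ ((n - 200) / 10) =
        ((1 : ℝ) / 2) ^ ((n - 200) / 10) * (1 / 2) ^ 21 * 2 ^ 21 := by
      rw [mul_assoc, ← mul_pow]
      norm_num
    rw [this]
    exact mul_le_mul_of_nonneg_right h4 (by positivity)
  calc 2 * ((1 : ℝ) / 2) ^ ((n - 200) / 10) * (n : ℝ) ^ 10
      ≤ 2 * (c ^ n * 2 ^ 21) * (n : ℝ) ^ 10 := by
        gcongr
    _ = (n : ℝ) ^ 10 * c ^ n * 2 ^ 22 := by ring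
    _ ≤ (1 / 2) ^ 22 * 2 ^ 22 := by
        exact mul_le_mul_of_nonneg_right h3 (by positivity)
    _ = 1 := by rw [← mul_pow]; norm_num

theorem PB_C : ∃ n₀ : ℕ, ∀ n : ℕ, n₀ ≤ n → ∀ k ≤ 20, ∀ N, n - 200 ≤ N → N ≤ n →
    PB KC False 600000 (n / 1000) (n / 10000000) (n / 500) n k N ((n : ℝ) ^ (-(10 : ℝ))) := by
  obtain ⟨n₁, h₁⟩ := card_not_nss
  obtain ⟨n₂, h₂⟩ := card_not_ty
  obtain ⟨n₃, h₃⟩ := Csim_exp
  refine ⟨n₁ + n₂ + n₃ + 100000, fun n hn k hk N hN1 hN2 V _ _ hV ts hts htk => ?_⟩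
  have e1 := h₁ V (by rw [hV]; omega)
  have e2 := h₂ n (by omega) V (by rw [hV]; exact hN2) (su ts)
  have e3 := h₃ n (by omega)
  have hsub : (Finset.univ : Finset (SimpleGraph V)).filter
      (fun G => ¬ OK KC False 600000 (n / 1000) (n / 10000000) (n / 500) n G ts) ⊆
      (Finset.univ : Finset (SimpleGraph V)).filter (fun G => ¬ NSS (Fintype.card V / 400) G) ∪
      (Finset.univ : Finset (SimpleGraph V)).filter
        (fun G => ¬ TY 600000 (n / 1000) (n / 10000000) G (su ts)) := by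
    intro G hG
    rw [Finset.mem_filter] at hG
    rw [Finset.mem_union, Finset.mem_filter, Finset.mem_filter]
    by_contra hcon
    push Not at hcon
    have g1 := hcon.1 (Finset.mem_univ _)
    have g2 := hcon.2 (Finset.mem_univ _)
    apply hG.2
    refine ⟨?_, g2, ?_⟩
    · exact NSE_mono (n / 500) (Fintype.card V / 400) (by rw [hV]; omega) G ts
        (nse_of_nss _ G ts hts (by rw [htk, hV]; omega) g1)
    · exact (card_DSf_C False G ts hts).trans (by rw [hV]; exact hN2)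
  have hc0 : (0 : ℝ) ≤ (Fintype.card (SimpleGraph V) : ℝ) := Nat.cast_nonneg _
  have e4 : ((1 : ℝ) / 2) ^ (Fintype.card V / 10) ≤ (1 / 2) ^ ((n - 200) / 10) :=
    pow_le_pow_of_le_one (by norm_num) (by norm_num) (by rw [hV]; omega)
  have e5 : ((1 : ℝ) / 2) ^ (n / 10) ≤ (1 / 2) ^ ((n - 200) / 10) :=
    pow_le_pow_of_le_one (by norm_num) (by norm_num) (by omega)
  calc (((Finset.univ : Finset (SimpleGraph V)).filter
        (fun G => ¬ OK KC False 600000 (n / 1000) (n / 10000000) (n / 500) n G ts)).card : ℝ)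
      ≤ (((Finset.univ : Finset (SimpleGraph V)).filter
          (fun G => ¬ NSS (Fintype.card V / 400) G)).card : ℝ) +
        (((Finset.univ : Finset (SimpleGraph V)).filter
          (fun G => ¬ TY 600000 (n / 1000) (n / 10000000) G (su ts))).card : ℝ) := by
        exact_mod_cast (Finset.card_le_card hsub).trans (Finset.card_union_le _ _)
    _ ≤ (Fintype.card (SimpleGraph V) : ℝ) * (1 / 2) ^ ((n - 200) / 10) +
        (Fintype.card (SimpleGraph V) : ℝ) * (1 / 2) ^ ((n - 200) / 10) := by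
        refine add_le_add (e1.trans ?_) (e2.trans ?_)
        · exact mul_le_mul_of_nonneg_left e4 hc0
        · exact mul_le_mul_of_nonneg_left e5 hc0
    _ = 2 * (1 / 2) ^ ((n - 200) / 10) * (Fintype.card (SimpleGraph V) : ℝ) := by ring
    _ ≤ (n : ℝ) ^ (-(10 : ℝ)) * (Fintype.card (SimpleGraph V) : ℝ) :=
        mul_le_mul_of_nonneg_right e3 hc0

theorem Csim_num (n : ℕ) (hn : 2 ≤ n) (ht : (n : ℝ) ^ (-(0.1 : ℝ)) ≤ 1 / (6400 ^ 8 + 9600)) :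
    4 * (800 * (2 * (n : ℝ) ^ (-(3.4 : ℝ)) * (n : ℕ) + (n : ℕ) * (n : ℝ) ^ (-(10 : ℝ)))) +
      (2 * (800 * (3 * (n : ℝ) ^ (-(0.45 : ℝ)) + (n : ℝ) ^ (-(3.4 : ℝ))))) ^ 8 * (n : ℕ) ≤
      (n : ℝ) ^ (-(2.3 : ℝ)) ∧
    2 * (800 * (3 * (n : ℝ) ^ (-(0.45 : ℝ)) + (n : ℝ) ^ (-(3.4 : ℝ)))) ≤ 1 / 2 := by
  have hpos : (0 : ℝ) < n := by
    have : 0 < n := by omega
    exact_mod_cast this
  have h1n : (1 : ℝ) ≤ n := by
    have : 1 ≤ n := by omega
    exact_mod_cast this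
  set t : ℝ := (n : ℝ) ^ (-(0.1 : ℝ)) with htd
  have ht0 : 0 < t := Real.rpow_pos_of_pos hpos _
  have hmono : ∀ a b : ℝ, a ≤ b → (n : ℝ) ^ a ≤ (n : ℝ) ^ b := fun a b hab =>
    Real.rpow_le_rpow_of_exponent_le h1n hab
  have e1 : (n : ℝ) ^ (-(3.4 : ℝ)) * n = (n : ℝ) ^ (-(2.3 : ℝ)) * t := by
    rw [htd, ← Real.rpow_add hpos]
    nth_rewrite 2 [← Real.rpow_one (n : ℝ)]
    rw [← Real.rpow_add hpos]
    norm_num
  have e2 : (n : ℝ) * (n : ℝ) ^ (-(10 : ℝ)) ≤ (n : ℝ) ^ (-(2.3 : ℝ)) * t := by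
    rw [htd, ← Real.rpow_add hpos]
    nth_rewrite 1 [← Real.rpow_one (n : ℝ)]
    rw [← Real.rpow_add hpos]
    exact hmono _ _ (by norm_num)
  have e3 : 3 * (n : ℝ) ^ (-(0.45 : ℝ)) + (n : ℝ) ^ (-(3.4 : ℝ)) ≤
      4 * (n : ℝ) ^ (-(0.45 : ℝ)) := by
    have := hmono (-(3.4 : ℝ)) (-(0.45 : ℝ)) (by norm_num)
    linarith
  have e4 : ((n : ℝ) ^ (-(0.45 : ℝ))) ^ 8 * n ≤ (n : ℝ) ^ (-(2.3 : ℝ)) * t := by
    rw [htd, ← Real.rpow_natCast ((n : ℝ) ^ (-(0.45 : ℝ))) 8, ← Real.rpow_mul hpos.le,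
      ← Real.rpow_add hpos]
    nth_rewrite 2 [← Real.rpow_one (n : ℝ)]
    rw [← Real.rpow_add hpos]
    exact hmono _ _ (by norm_num)
  have e5 : (n : ℝ) ^ (-(0.45 : ℝ)) ≤ t := hmono _ _ (by norm_num)
  have h34 : 0 < (n : ℝ) ^ (-(3.4 : ℝ)) := Real.rpow_pos_of_pos hpos _
  have h45 : 0 < (n : ℝ) ^ (-(0.45 : ℝ)) := Real.rpow_pos_of_pos hpos _
  have h23 : 0 < (n : ℝ) ^ (-(2.3 : ℝ)) := Real.rpow_pos_of_pos hpos _
  have hbig : (0 : ℝ) < 6400 ^ 8 + 9600 := by positivity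
  have ht1 : (6400 ^ 8 + 9600) * t ≤ 1 := by
    rw [le_div_iff₀ hbig] at ht
    linarith
  constructor
  · have e6 : (2 * (800 * (3 * (n : ℝ) ^ (-(0.45 : ℝ)) + (n : ℝ) ^ (-(3.4 : ℝ))))) ^ 8 ≤
        6400 ^ 8 * ((n : ℝ) ^ (-(0.45 : ℝ))) ^ 8 := by
      rw [← mul_pow]
      refine pow_le_pow_left₀ (by positivity) ?_ 8
      linarith
    have e7 : (2 * (800 * (3 * (n : ℝ) ^ (-(0.45 : ℝ)) + (n : ℝ) ^ (-(3.4 : ℝ))))) ^ 8 * n ≤
        6400 ^ 8 * ((n : ℝ) ^ (-(2.3 : ℝ)) * t) := by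
      calc _ ≤ 6400 ^ 8 * ((n : ℝ) ^ (-(0.45 : ℝ))) ^ 8 * n :=
            mul_le_mul_of_nonneg_right e6 hpos.le
        _ = 6400 ^ 8 * (((n : ℝ) ^ (-(0.45 : ℝ))) ^ 8 * n) := by ring
        _ ≤ _ := mul_le_mul_of_nonneg_left e4 (by positivity)
    calc _ ≤ 4 * (800 * (2 * ((n : ℝ) ^ (-(2.3 : ℝ)) * t) + (n : ℝ) ^ (-(2.3 : ℝ)) * t)) +
          6400 ^ 8 * ((n : ℝ) ^ (-(2.3 : ℝ)) * t) := by
          refine add_le_add ?_ e7
          have : 2 * (n : ℝ) ^ (-(3.4 : ℝ)) * n = 2 * ((n : ℝ) ^ (-(3.4 : ℝ)) * n) := by ring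
          rw [this, e1]
          linarith
      _ = (n : ℝ) ^ (-(2.3 : ℝ)) * ((6400 ^ 8 + 9600) * t) := by ring
      _ ≤ (n : ℝ) ^ (-(2.3 : ℝ)) * 1 := mul_le_mul_of_nonneg_left ht1 h23.le
      _ = (n : ℝ) ^ (-(2.3 : ℝ)) := mul_one _
  · have : 6400 * t ≤ 1 / 2 := by
      have h8 : (6400 : ℝ) * 2 ≤ 6400 ^ 8 + 9600 := by norm_num
      nlinarith
    linarith

theorem XF_C : ∃ n₀ : ℕ, ∀ n : ℕ, n₀ ≤ n → ∀ k ≤ 8, ∀ N, n - 192 ≤ N → N ≤ n →
    XB KC False 600000 (n / 1000) (n / 10000000) (n / 500) n n k N ((n : ℝ) ^ (-(2.3 : ℝ))) ∧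
    FB KC False 600000 (n / 1000) (n / 10000000) (n / 500) n k N ((n : ℝ) ^ (-(2.3 : ℝ))) := by
  obtain ⟨n₁, h₁⟩ := PB_C
  obtain ⟨n₂, h₂⟩ := lb_C
  obtain ⟨n₃, h₃⟩ := Csim_small (1 / (6400 ^ 8 + 9600)) (by positivity)
  refine ⟨n₁ + n₂ + n₃ + 10000000, fun n hn k hk N hN1 hN2 => ?_⟩
  have hpos : (0 : ℝ) < n := by
    have : 0 < n := by omega
    exact_mod_cast this
  obtain ⟨num1, num2⟩ := Csim_num n (by omega) (h₃ n (by omega))
  have key := rec_T KC (fun _ => by norm_num) False 600000 (n / 1000) (n / 10000000) (n / 500) n n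
    16 (n - 200) ((n : ℝ) ^ (-(3.4 : ℝ))) ((n : ℝ) ^ (-(0.45 : ℝ))) ((n : ℝ) ^ (-(10 : ℝ)))
    (Real.rpow_nonneg hpos.le _) (Real.rpow_nonneg hpos.le _) (Real.rpow_nonneg hpos.le _)
    (by omega) (fun _ => h₂ n (by omega)) (by omega) (by omega) (by omega)
    (fun k hk N h1 h2 => h₁ n (by omega) k (by omega) N h1 h2) num2 8 k (by omega) N (by omega) hN2
  exact ⟨XB_mono _ _ _ _ _ _ _ _ _ _ _ _ num1 key.1, FB_mono _ _ _ _ _ _ _ _ _ _ _ num1 key.2⟩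

theorem card_not_sim : ∃ n₀ : ℕ, ∀ n : ℕ, n₀ ≤ n → ∀ (V : Type) [Fintype V] [DecidableEq V],
    n - 192 ≤ Fintype.card V → Fintype.card V ≤ n → ∀ ts : List (V → ℤ), Fam ts →
    ts.length ≤ 8 →
    (((Finset.univ : Finset (SimpleGraph V)).filter (fun G => ¬ SIM G ts)).card : ℝ) ≤
      (n : ℝ) ^ (-(2.2 : ℝ)) * (Fintype.card (SimpleGraph V) : ℝ) := by
  obtain ⟨n₁, h₁⟩ := PB_C
  obtain ⟨n₂, h₂⟩ := XF_C
  obtain ⟨n₃, h₃⟩ := Csim_small (1 / 2) (by norm_num)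
  refine ⟨n₁ + n₂ + n₃ + 10000, fun n hn V _ _ hV1 hV2 ts hts hlen => ?_⟩
  have hpos : (0 : ℝ) < n := by
    have : 0 < n := by omega
    exact_mod_cast this
  have h1n : (1 : ℝ) ≤ n := by
    have : 1 ≤ n := by omega
    exact_mod_cast this
  have p1 := h₁ n (by omega) ts.length (by omega) (Fintype.card V) (by omega) hV2 V rfl ts hts rfl
  have p2 := (h₂ n (by omega) ts.length hlen (Fintype.card V) hV1 hV2).2 V rfl ts hts rfl
  have hsub : (Finset.univ : Finset (SimpleGraph V)).filter (fun G => ¬ SIM G ts) ⊆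
      (Finset.univ : Finset (SimpleGraph V)).filter
        (fun G => ¬ OK KC False 600000 (n / 1000) (n / 10000000) (n / 500) n G ts) ∪
      ((Finset.univ : Finset (SimpleGraph V)).filter
        (fun G => OK KC False 600000 (n / 1000) (n / 10000000) (n / 500) n G ts)).filter
          (fun G => 1 ≤ NF KC False G ts) := by
    intro G hG
    rw [Finset.mem_filter] at hG
    rw [Finset.mem_union, Finset.mem_filter, Finset.mem_filter, Finset.mem_filter]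
    by_contra hcon
    push Not at hcon
    obtain ⟨g1, g2⟩ := hcon
    have g1' := g1 (Finset.mem_univ _)
    have g2' : NF KC False G ts = 0 := by
      have := g2 ⟨Finset.mem_univ _, g1'⟩
      omega
    apply hG.2
    intro μ
    by_cases hb : ∃ w ∈ EE ℂ G ts μ, w ≠ 0
    · obtain ⟨w, hw, hw0⟩ := hb
      have hx : (⟨(), μ⟩ : Σ i : Unit, KC i) ∈ DSf KC False G ts := by
        rw [mem_DSf KC (fun _ => by norm_num) False G ts hts]
        exact ⟨w, hw, hw0, fun h => h.elim⟩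
      unfold NF at g2'
      rw [Finset.card_eq_zero, Finset.filter_eq_empty_iff] at g2'
      have hfine := g2' hx
      rw [not_not] at hfine
      exact finrank_of_fine _ hfine
    · push Not at hb
      have : EE ℂ G ts μ = ⊥ := by
        rw [Submodule.eq_bot_iff]
        exact hb
      rw [this]
      simp
  have hc0 : (0 : ℝ) ≤ (Fintype.card (SimpleGraph V) : ℝ) := Nat.cast_nonneg _
  have hNF : (((Finset.univ : Finset (SimpleGraph V)).filter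
        (fun G => OK KC False 600000 (n / 1000) (n / 10000000) (n / 500) n G ts)).filter
          (fun G => 1 ≤ NF KC False G ts)).card ≤
      ∑ G ∈ (Finset.univ : Finset (SimpleGraph V)).filter
        (fun G => OK KC False 600000 (n / 1000) (n / 10000000) (n / 500) n G ts),
          NF KC False G ts := by
    rw [Finset.card_filter]
    refine Finset.sum_le_sum fun G _ => ?_
    split_ifs with h
    · exact h
    · exact Nat.zero_le _
  have hNF' : ((((Finset.univ : Finset (SimpleGraph V)).filter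
        (fun G => OK KC False 600000 (n / 1000) (n / 10000000) (n / 500) n G ts)).filter
          (fun G => 1 ≤ NF KC False G ts)).card : ℝ) ≤
      (n : ℝ) ^ (-(2.3 : ℝ)) * (Fintype.card (SimpleGraph V) : ℝ) :=
    le_trans (by exact_mod_cast hNF) p2
  have hnum : (n : ℝ) ^ (-(10 : ℝ)) + (n : ℝ) ^ (-(2.3 : ℝ)) ≤ (n : ℝ) ^ (-(2.2 : ℝ)) := by
    have ht := h₃ n (by omega)
    have e1 : (n : ℝ) ^ (-(10 : ℝ)) ≤ (n : ℝ) ^ (-(2.3 : ℝ)) :=
      Real.rpow_le_rpow_of_exponent_le h1n (by norm_num)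
    have e2 : (n : ℝ) ^ (-(2.3 : ℝ)) = (n : ℝ) ^ (-(2.2 : ℝ)) * (n : ℝ) ^ (-(0.1 : ℝ)) := by
      rw [← Real.rpow_add hpos]
      norm_num
    have e3 : 0 < (n : ℝ) ^ (-(2.2 : ℝ)) := Real.rpow_pos_of_pos hpos _
    have e4 : (n : ℝ) ^ (-(2.2 : ℝ)) * (n : ℝ) ^ (-(0.1 : ℝ)) ≤ (n : ℝ) ^ (-(2.2 : ℝ)) * (1 / 2) :=
      mul_le_mul_of_nonneg_left ht e3.le
    generalize (n : ℝ) ^ (-(10 : ℝ)) = x1 at *
    generalize (n : ℝ) ^ (-(2.3 : ℝ)) = x2 at *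
    generalize (n : ℝ) ^ (-(2.2 : ℝ)) = x3 at *
    generalize (n : ℝ) ^ (-(0.1 : ℝ)) = x4 at *
    linarith
  calc (((Finset.univ : Finset (SimpleGraph V)).filter (fun G => ¬ SIM G ts)).card : ℝ)
      ≤ (n : ℝ) ^ (-(10 : ℝ)) * (Fintype.card (SimpleGraph V) : ℝ) +
        (n : ℝ) ^ (-(2.3 : ℝ)) * (Fintype.card (SimpleGraph V) : ℝ) := by
        refine le_trans ?_ (add_le_add p1 hNF')
        exact_mod_cast (Finset.card_le_card hsub).trans (Finset.card_union_le _ _)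
    _ = ((n : ℝ) ^ (-(10 : ℝ)) + (n : ℝ) ^ (-(2.3 : ℝ))) *
          (Fintype.card (SimpleGraph V) : ℝ) := by ring
    _ ≤ _ := mul_le_mul_of_nonneg_right hnum hc0

end Pool.Agent.H95.DL
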