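import Pool.Agent.H95.DL.Defs

/-!
# Large primes: definitions

Tests `q : V → ℤ` (2, 4 or 6 nonzero entries, all `±1`), families of tests `ts` with disjoint
supports, the spaces `EE K G ts μ` (eigenvectors of the compression of the Seidel matrix to the
orthogonal space of the tests), the sets `DD`, `DSf` of eigenvalues with a nonzero (isotropic if
`iso`) vector, `Fine` spaces (all isotropic vectors on two lines), flip sets `FF`, flips `flp`, the
conditions `TY`, `NSS`, `NSE`, `SIM`, `OK` and the counting functions `kapS`, `kapE`, `XX`, `NF`.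
-/

set_option autoImplicit false

namespace Pool.Agent.H95.DL

open Matrix Classical Pool.Agent.H66.SP Pool.Agent.H95.SQ

/-- the integer vector `q` over `K` -/
def cv (K : Type*) [Ring K] {V : Type*} (q : V → ℤ) : V → K := fun v => (q v : K)

/-- a test: entries `0, 1, -1`, exactly 2, 4 or 6 nonzero ones -/
def IsTest {V : Type*} [Fintype V] (q : V → ℤ) : Prop :=
  (∀ v, q v = 0 ∨ q v = 1 ∨ q v = -1) ∧ (nz q = 2 ∨ nz q = 4 ∨ nz q = 6)

/-- a family of tests with pairwise disjoint supports -/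
def Fam {V : Type*} [Fintype V] (ts : List (V → ℤ)) : Prop :=
  (∀ q ∈ ts, IsTest q) ∧ ts.Pairwise (fun q r => ∀ v, q v = 0 ∨ r v = 0)

/-- the union of the supports of the tests -/
noncomputable def su {V : Type*} [Fintype V] (ts : List (V → ℤ)) : Finset V :=
  (Finset.univ : Finset V).filter (fun v => ∃ q ∈ ts, q v ≠ 0)

/-- `q` vanishes on `U` -/
def Off {V : Type*} (q : V → ℤ) (U : Finset V) : Prop := ∀ v ∈ U, q v = 0

/-- the vectors `w` orthogonal to the tests with `S w - μ w` in the span of the tests -/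
noncomputable def EE (K : Type*) [Field K] {V : Type*} [Fintype V] (G : SimpleGraph V)
    (ts : List (V → ℤ)) (μ : K) : Submodule K (V → K) where
  carrier := {w | (∀ q ∈ ts, cv K q ⬝ᵥ w = 0) ∧
    sei K G *ᵥ w - μ • w ∈ Submodule.span K {y : V → K | ∃ q ∈ ts, y = cv K q}}
  add_mem' := by
    rintro w w' ⟨h1, h2⟩ ⟨h1', h2'⟩
    refine ⟨fun q hq => by rw [dotProduct_add, h1 q hq, h1' q hq, add_zero], ?_⟩
    have e : sei K G *ᵥ (w + w') - μ • (w + w') =
        (sei K G *ᵥ w - μ • w) + (sei K G *ᵥ w' - μ • w') := by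
      rw [Matrix.mulVec_add, smul_add]
      abel
    rw [e]
    exact Submodule.add_mem _ h2 h2'
  zero_mem' := ⟨fun q _ => dotProduct_zero _, by simp⟩
  smul_mem' := by
    rintro c w ⟨h1, h2⟩
    refine ⟨fun q hq => by rw [dotProduct_smul, h1 q hq, smul_zero], ?_⟩
    have e : sei K G *ᵥ (c • w) - μ • (c • w) = c • (sei K G *ᵥ w - μ • w) := by
      rw [Matrix.mulVec_smul, smul_sub, smul_comm]
    rw [e]
    exact Submodule.smul_mem _ c h2

theorem mem_EE {K : Type*} [Field K] {V : Type*} [Fintype V] (G : SimpleGraph V)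
    (ts : List (V → ℤ)) (μ : K) (w : V → K) :
    w ∈ EE K G ts μ ↔ (∀ q ∈ ts, cv K q ⬝ᵥ w = 0) ∧
      sei K G *ᵥ w - μ • w ∈ Submodule.span K {y : V → K | ∃ q ∈ ts, y = cv K q} := Iff.rfl

/-- the `μ` such that `EE K G ts μ` contains a nonzero vector (isotropic if `iso`) -/
def DD (iso : Prop) (K : Type*) [Field K] {V : Type*} [Fintype V] (G : SimpleGraph V)
    (ts : List (V → ℤ)) : Set K :=
  {μ | ∃ w ∈ EE K G ts μ, w ≠ 0 ∧ (iso → w ⬝ᵥ w = 0)}

/-- all vectors of `E` (isotropic ones if `iso`) are multiples of one of two vectors of `E` -/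
def Fine (iso : Prop) {K : Type*} [Field K] {V : Type*} [Fintype V]
    (E : Submodule K (V → K)) : Prop :=
  ∃ w₁ ∈ E, ∃ w₂ ∈ E, ∀ w ∈ E, (iso → w ⬝ᵥ w = 0) →
    (∃ c : K, w = c • w₁) ∨ (∃ c : K, w = c • w₂)

/-- the vertices `v ∉ U` outside of the support of `q` with `(S v u)_u = ± q` on the support -/
noncomputable def FF {V : Type*} [Fintype V] (G : SimpleGraph V) (U : Finset V) (q : V → ℤ) :
    Finset V :=
  (Finset.univ : Finset V).filter (fun v => v ∉ U ∧ q v = 0 ∧
    ((∀ u, q u ≠ 0 → sei ℤ G v u = q u) ∨ (∀ u, q u ≠ 0 → sei ℤ G v u = - q u)))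

/-- the sign with which `q` appears in row `v` -/
noncomputable def tsg {V : Type*} (G : SimpleGraph V) (q : V → ℤ) (v : V) : ℤ :=
  if (∀ u, q u ≠ 0 → sei ℤ G v u = q u) then 1 else -1

/-- the pairs to be complemented -/
def tog {V : Type*} (F : Finset V) (q : V → ℤ) (σ : V → Bool) (x y : V) : Prop :=
  (x ∈ F ∧ σ x = true ∧ q x = 0 ∧ q y ≠ 0) ∨ (y ∈ F ∧ σ y = true ∧ q y = 0 ∧ q x ≠ 0)

/-- complement the pairs `{v, u}` with `v ∈ F`, `σ v = true`, `q v = 0`, `q u ≠ 0` -/
def flp {V : Type*} (G : SimpleGraph V) (F : Finset V) (q : V → ℤ) (σ : V → Bool) :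
    SimpleGraph V where
  Adj x y := (G.Adj x y ∧ ¬ tog F q σ x y) ∨ (¬ G.Adj x y ∧ tog F q σ x y)
  symm := ⟨by
    intro x y h
    have e : tog F q σ y x ↔ tog F q σ x y := by
      unfold tog
      tauto
    rw [e, G.adj_comm y x]
    exact h⟩
  loopless := ⟨by
    intro x h
    rcases h with h | h
    · exact G.loopless.irrefl x h.1
    · rcases h.2 with h2 | h2
      · exact h2.2.2.2 h2.2.2.1
      · exact h2.2.2.2 h2.2.2.1⟩

/-- typical: for every large `Z` outside of `U` all tests off a small set `Y` have a large flip set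
in `Z` -/
def TY (m6 s1 s2 : ℕ) {V : Type*} [Fintype V] (G : SimpleGraph V) (U : Finset V) : Prop :=
  ∀ Z : Finset V, (∀ v ∈ Z, v ∉ U) → s1 ≤ Z.card → ∃ Y : Finset V, Y.card ≤ m6 ∧
    ∀ q : V → ℤ, IsTest q → Off q U → Off q Y → s2 ≤ (FF G U q ∩ Z).card

/-- non sparsity for the Seidel matrix, all odd primes at once -/
def NSS (s : ℕ) {V : Type*} [Fintype V] (G : SimpleGraph V) : Prop :=
  ∀ (p : ℕ) [Fact p.Prime], p ≠ 2 → ∀ Z Y : Finset V, Z.card ≤ s → Y.card ≤ s →
    ∀ x : V → ZMod p, x ≠ 0 → (∀ v, v ∉ Z → x v = 0) →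
      ∃ v, v ∉ Z ∧ v ∉ Y ∧ (sei (ZMod p) G *ᵥ x) v ≠ 0

/-- all nonzero vectors of all spaces `EE K G ts μ` have more than `s` nonzero entries -/
def NSE (s : ℕ) {V : Type*} [Fintype V] (G : SimpleGraph V) (ts : List (V → ℤ)) : Prop :=
  ∀ (K : Type) [Field K], (2 : K) ≠ 0 → ∀ (μ : K) (w : V → K), w ∈ EE K G ts μ → w ≠ 0 → s < nz w

/-- the compression has simple spectrum over the complex numbers -/
def SIM {V : Type*} [Fintype V] (G : SimpleGraph V) (ts : List (V → ℤ)) : Prop :=
  ∀ μ : ℂ, Module.finrank ℂ (EE ℂ G ts μ) ≤ 1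

/-- six vertices -/
abbrev Tr (V : Type*) : Type _ := (V × V) × (V × V) × (V × V)

/-- `e_a - e_b + e_c - e_d + e_e - e_f` -/
noncomputable def tv {V : Type*} (τ : Tr V) : V → ℤ :=
  (Pi.single τ.1.1 1 - Pi.single τ.1.2 1) + (Pi.single τ.2.1.1 1 - Pi.single τ.2.1.2 1) +
    (Pi.single τ.2.2.1 1 - Pi.single τ.2.2.2 1)

/-- the support of a vector -/
noncomputable def sup {K : Type*} [Zero K] {V : Type*} [Fintype V] (w : V → K) : Finset V :=
  (Finset.univ : Finset V).filter (fun v => w v ≠ 0)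

/-- number of `τ` such that `tv τ` is a test off `su ts`, orthogonal to `w`, with at least `s2`
flip vertices in the support of `w` -/
noncomputable def kapS (s2 : ℕ) (K : Type*) [Field K] {V : Type*} [Fintype V] (G : SimpleGraph V)
    (ts : List (V → ℤ)) (w : V → K) : ℕ :=
  ((Finset.univ : Finset (Tr V)).filter (fun τ => IsTest (tv τ) ∧ Off (tv τ) (su ts) ∧
    cv K (tv τ) ⬝ᵥ w = 0 ∧ s2 ≤ (FF G (su ts) (tv τ) ∩ sup w).card)).card

/-- the same with some nonzero (isotropic if `iso`) `w ∈ EE K G ts μ` -/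
def KP (iso : Prop) (s2 : ℕ) (K : Type*) [Field K] {V : Type*} [Fintype V] (G : SimpleGraph V)
    (ts : List (V → ℤ)) (μ : K) (q : V → ℤ) : Prop :=
  ∃ w ∈ EE K G ts μ, w ≠ 0 ∧ (iso → w ⬝ᵥ w = 0) ∧ cv K q ⬝ᵥ w = 0 ∧
    s2 ≤ (FF G (su ts) q ∩ sup w).card

noncomputable def kapE (iso : Prop) (s2 : ℕ) (K : Type*) [Field K] {V : Type*} [Fintype V]
    (G : SimpleGraph V) (ts : List (V → ℤ)) (μ : K) : ℕ :=
  ((Finset.univ : Finset (Tr V)).filter (fun τ => IsTest (tv τ) ∧ Off (tv τ) (su ts) ∧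
    KP iso s2 K G ts μ (tv τ))).card

section Family

variable {ι : Type} [Fintype ι] (K : ι → Type) [∀ i, Field (K i)]

/-- the eigenvalues of all the places, a finite set (`∅` if it is not finite) -/
noncomputable def DSf (iso : Prop) {V : Type} [Fintype V] (G : SimpleGraph V)
    (ts : List (V → ℤ)) : Finset (Σ i, K i) :=
  if h : {x : Σ i, K i | x.2 ∈ DD iso (K x.1) G ts}.Finite then h.toFinset else ∅

/-- the fine ones -/
noncomputable def DSg (iso : Prop) {V : Type} [Fintype V] (G : SimpleGraph V)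
    (ts : List (V → ℤ)) : Finset (Σ i, K i) :=
  (DSf K iso G ts).filter (fun x => Fine iso (EE (K x.1) G ts x.2))

/-- the number of the others -/
noncomputable def NF (iso : Prop) {V : Type} [Fintype V] (G : SimpleGraph V)
    (ts : List (V → ℤ)) : ℕ :=
  ((DSf K iso G ts).filter (fun x => ¬ Fine iso (EE (K x.1) G ts x.2))).card

/-- the sum of `kapE` over the fine ones -/
noncomputable def XX (iso : Prop) (s2 : ℕ) {V : Type} [Fintype V] (G : SimpleGraph V)
    (ts : List (V → ℤ)) : ℕ :=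
  ∑ x ∈ DSg K iso G ts, kapE iso s2 (K x.1) G ts x.2

/-- good graphs -/
structure OK (iso : Prop) (m6 s1 s2 s cap : ℕ) {V : Type} [Fintype V] (G : SimpleGraph V)
    (ts : List (V → ℤ)) : Prop where
  nse : NSE s G ts
  ty : TY m6 s1 s2 G (su ts)
  card : (DSf K iso G ts).card ≤ cap

/-- bound for the average of `XX` over the good graphs, `k` tests, `N` vertices; normalised with
`n^6` -/
def XB (iso : Prop) (m6 s1 s2 s cap n k N : ℕ) (x : ℝ) : Prop :=
  ∀ (V : Type) [Fintype V] [DecidableEq V], Fintype.card V = N → ∀ ts : List (V → ℤ), Fam ts →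
    ts.length = k →
    ((∑ G ∈ (Finset.univ : Finset (SimpleGraph V)).filter
        (fun G => OK K iso m6 s1 s2 s cap G ts), XX K iso s2 G ts : ℕ) : ℝ) ≤
      x * (n : ℝ) ^ 6 * (Fintype.card (SimpleGraph V) : ℝ)

/-- bound for the average of `NF` over the good graphs -/
def FB (iso : Prop) (m6 s1 s2 s cap k N : ℕ) (f : ℝ) : Prop :=
  ∀ (V : Type) [Fintype V] [DecidableEq V], Fintype.card V = N → ∀ ts : List (V → ℤ), Fam ts →
    ts.length = k →
    ((∑ G ∈ (Finset.univ : Finset (SimpleGraph V)).filter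
        (fun G => OK K iso m6 s1 s2 s cap G ts), NF K iso G ts : ℕ) : ℝ) ≤
      f * (Fintype.card (SimpleGraph V) : ℝ)

/-- bound for the proportion of the graphs which are not good -/
def PB (iso : Prop) (m6 s1 s2 s cap k N : ℕ) (π : ℝ) : Prop :=
  ∀ (V : Type) [Fintype V] [DecidableEq V], Fintype.card V = N → ∀ ts : List (V → ℤ), Fam ts →
    ts.length = k →
    (((Finset.univ : Finset (SimpleGraph V)).filter
        (fun G => ¬ OK K iso m6 s1 s2 s cap G ts)).card : ℝ) ≤
      π * (Fintype.card (SimpleGraph V) : ℝ)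

end Family

/-- the Halasz type bound for one vector (L7) for graphs with at most `n` vertices and at most `20`
tests -/
def LB (K : Type) [Field K] (m6 s1 s2 n : ℕ) (α a : ℝ) : Prop :=
  ∀ (V : Type) [Fintype V] [DecidableEq V], Fintype.card V ≤ n → ∀ (G : SimpleGraph V)
    (ts : List (V → ℤ)), TY m6 s1 s2 G (su ts) → ∀ (w : V → K) (F : Finset V) (g : K),
    s1 ≤ ((Finset.univ : Finset V).filter (fun v => v ∉ su ts ∧ w v ≠ 0)).card →
    s2 ≤ (F.filter (fun v => v ∉ su ts ∧ w v ≠ 0)).card →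
    (((Finset.univ : Finset (V → Bool)).filter
      (fun b => ∑ v ∈ F, bv K b v * w v = g)).card : ℝ) ≤
      2 ^ Fintype.card V * (α + a * (kapS s2 K G ts w : ℝ) / (n : ℝ) ^ 6)

/-- a prime number is a prime number -/
instance factPrimes (p : Nat.Primes) : Fact (p : ℕ).Prime := ⟨p.2⟩

/-- the fields `KK p`, `p ∈ Pi` -/
abbrev KF (Pi : Finset Nat.Primes) : {p : Nat.Primes // p ∈ Pi} → Type := fun p => KK (p.1 : ℕ)

/-- the only place is the field of complex numbers -/
abbrev KC : Unit → Type := fun _ => ℂ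

/-- graph with the vertex `u` deleted -/
def dl {V : Type*} (u : V) (G : SimpleGraph V) : SimpleGraph {v : V // v ≠ u} :=
  G.comap Subtype.val

/-- neighbourhood of the vertex `u` -/
noncomputable def nb {V : Type*} (u : V) (G : SimpleGraph V) : {v : V // v ≠ u} → Bool :=
  fun v => decide (G.Adj u v)

/-- restriction of a function to the vertices different from `u` -/
def rs {V : Type*} {α : Type*} (u : V) (q : V → α) : {v : V // v ≠ u} → α := fun v => q v

end Pool.Agent.H95.DL
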