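import Pool.Agent.H95.DL.Def2

/-!
# Job DL-14: deletion of a vertex (L2)

`S' = sei K (dl u G)` is `S = sei K G` restricted to the vertices `≠ u`, `sv K (nb u G)` is the row
of `u`.
PROOF of `dl_mem`.  For `v ≠ u`: `(S' (rs u w)) v = (S w) v - S v u * w u = (S w) v`.  The restrictions
to `{v ≠ u}` of the span of the `cv K q` lie in the span of the `cv K (rs u q) = rs u (cv K q)`
(`rs u` is linear).  `cv K (rs u q) ⬝ᵥ rs u w = cv K q ⬝ᵥ w` since `q u = 0` (as `u ∉ su ts`) (or as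
`w u = 0`).
PROOF of `dl_orth`.  Let `ŷ` be the extension of `y` by `0` at `u`.  `S' y - μ y = ∑ c_q (rs u q)`
(an element of the span; lift it to `z` in the span of the `cv K q`, with `z u = 0`), so
`S ŷ - μ ŷ = z + (b·y) e_u`, `b = sv K (nb u G)`.  Pair with `w`: `w · (S ŷ) = (S w) · ŷ` (symmetry
`sei_isSymm`) `= μ w·ŷ + (element of the span) · ŷ = μ w·ŷ` as `cv K q ⬝ᵥ ŷ = cv K (rs u q) ⬝ᵥ y = 0`.
And `w · z = 0` as `w` is orthogonal to the tests.  So `(b·y) w u = 0`.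
-/

set_option autoImplicit false

namespace Pool.Agent.H95.DL

open Matrix Classical Pool.Agent.H66.SP Pool.Agent.H95.SQ

theorem sei_dl (K : Type*) [Ring K] {V : Type*} (u : V) (G : SimpleGraph V)
    (x y : {v : V // v ≠ u}) : sei K (dl u G) x y = sei K G x y := by
  unfold sei
  simp only [Matrix.of_apply]
  by_cases h : x = y
  · rw [if_pos h, if_pos (congrArg Subtype.val h)]
  · have h' : ¬ (x : V) = (y : V) := fun h1 => h (Subtype.ext h1)
    rw [if_neg h, if_neg h']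
    by_cases h2 : G.Adj x y
    · have h3 : (dl u G).Adj x y := h2
      rw [if_pos h2, if_pos h3]
    · have h3 : ¬ (dl u G).Adj x y := h2
      rw [if_neg h2, if_neg h3]

theorem sv_nb (K : Type*) [Ring K] {V : Type*} (u : V) (G : SimpleGraph V)
    (y : {v : V // v ≠ u}) : sv K (nb u G) y = sei K G u y := by
  unfold sei sv nb
  simp only [Matrix.of_apply]
  have h1 : ¬ u = (y : V) := fun h => y.2 h.symm
  rw [if_neg h1]
  by_cases h2 : G.Adj u y
  · rw [if_pos h2, if_pos (decide_eq_true h2)]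
  · rw [if_neg h2, if_neg]
    rw [decide_eq_true_eq]
    exact h2

theorem Del_sum {K : Type*} [AddCommMonoid K] {V : Type*} [Fintype V] [DecidableEq V] (u : V)
    [Fintype {v : V // v ≠ u}] (f : V → K) :
    ∑ v : V, f v = f u + ∑ v : {v : V // v ≠ u}, f v := by
  rw [← Finset.add_sum_erase Finset.univ f (Finset.mem_univ u)]
  refine congrArg (fun z => f u + z) ?_
  exact Finset.sum_subtype _ (fun x => by simp) f

/-- restriction as a linear map -/
def Del_L (K : Type*) [Field K] {V : Type*} (u : V) : (V → K) →ₗ[K] ({v : V // v ≠ u} → K) where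
  toFun w := rs u w
  map_add' _ _ := rfl
  map_smul' _ _ := rfl

theorem Del_span (K : Type*) [Field K] {V : Type*} (ts : List (V → ℤ)) (u : V) :
    Submodule.map (Del_L K u) (Submodule.span K {y : V → K | ∃ q ∈ ts, y = cv K q}) =
      Submodule.span K {y : {v : V // v ≠ u} → K | ∃ q ∈ ts.map (rs u), y = cv K q} := by
  rw [Submodule.map_span]
  congr 1
  ext y
  constructor
  · rintro ⟨_, ⟨q, hq, rfl⟩, rfl⟩
    exact ⟨rs u q, List.mem_map.mpr ⟨q, hq, rfl⟩, rfl⟩
  · rintro ⟨_, hq', rfl⟩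
    obtain ⟨q, hq, rfl⟩ := List.mem_map.mp hq'
    exact ⟨cv K q, ⟨q, hq, rfl⟩, rfl⟩

theorem Del_su {V : Type*} [Fintype V] {ts : List (V → ℤ)} {u : V} (hu : u ∉ su ts)
    {q : V → ℤ} (hq : q ∈ ts) : q u = 0 := by
  by_contra h
  apply hu
  unfold su
  rw [Finset.mem_filter]
  exact ⟨Finset.mem_univ u, q, hq, h⟩

theorem Del_dot (K : Type*) [Field K] {V : Type*} [Fintype V] [DecidableEq V]
    {u : V} [Fintype {v : V // v ≠ u}] {q : V → ℤ} (hq : q u = 0) (w : V → K) :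
    cv K (rs u q) ⬝ᵥ rs u w = cv K q ⬝ᵥ w := by
  rw [dotProduct, dotProduct, Del_sum u (fun v => cv K q v * w v)]
  have h : cv K q u = 0 := by
    show ((q u : ℤ) : K) = 0
    rw [hq, Int.cast_zero]
  rw [h, zero_mul, zero_add]
  rfl

theorem Del_span0 {K : Type*} [Field K] {V : Type*} [Fintype V] {ts : List (V → ℤ)} {x : V → K}
    (h : ∀ q ∈ ts, cv K q ⬝ᵥ x = 0) {z : V → K}
    (hz : z ∈ Submodule.span K {y : V → K | ∃ q ∈ ts, y = cv K q}) : z ⬝ᵥ x = 0 := by
  induction hz using Submodule.span_induction with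
  | mem y hy =>
    obtain ⟨q, hq, rfl⟩ := hy
    exact h q hq
  | zero => exact zero_dotProduct x
  | add a b _ _ ha hb => rw [add_dotProduct, ha, hb, add_zero]
  | smul c a _ ha => rw [smul_dotProduct, ha, smul_zero]

theorem Del_spanu {K : Type*} [Field K] {V : Type*} [Fintype V] {ts : List (V → ℤ)} {u : V}
    (hu : u ∉ su ts) {z : V → K}
    (hz : z ∈ Submodule.span K {y : V → K | ∃ q ∈ ts, y = cv K q}) : z u = 0 := by
  induction hz using Submodule.span_induction with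
  | mem y hy =>
    obtain ⟨q, hq, rfl⟩ := hy
    show ((q u : ℤ) : K) = 0
    rw [Del_su hu hq, Int.cast_zero]
  | zero => rfl
  | add a b _ _ ha hb => rw [Pi.add_apply, ha, hb, add_zero]
  | smul c a _ ha => rw [Pi.smul_apply, ha, smul_zero]

theorem Del_mulVec (K : Type*) [Field K] {V : Type*} [Fintype V] [DecidableEq V] (u : V)
    [Fintype {v : V // v ≠ u}] (G : SimpleGraph V) (w : V → K) (h0 : w u = 0)
    (v : {v : V // v ≠ u}) : (sei K (dl u G) *ᵥ rs u w) v = (sei K G *ᵥ w) v := by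
  rw [Matrix.mulVec, Matrix.mulVec, dotProduct, dotProduct,
    Del_sum u (fun x => sei K G v x * w x), h0, mul_zero, zero_add]
  apply Finset.sum_congr rfl
  intro x _
  rw [sei_dl]
  rfl

theorem dl_mem (K : Type*) [Field K] {V : Type*} [Fintype V] [DecidableEq V] (G : SimpleGraph V)
    (ts : List (V → ℤ)) (u : V) (hu : u ∉ su ts) (μ : K) (w : V → K) (hw : w ∈ EE K G ts μ)
    (h0 : w u = 0) : rs u w ∈ EE K (dl u G) (ts.map (rs u)) μ := by
  rw [mem_EE] at hw ⊢
  obtain ⟨h1, h2⟩ := hw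
  refine ⟨?_, ?_⟩
  · intro q' hq'
    obtain ⟨q, hq, rfl⟩ := List.mem_map.mp hq'
    rw [Del_dot K (Del_su hu hq), h1 q hq]
  · rw [← Del_span]
    refine ⟨_, h2, ?_⟩
    funext v
    show (sei K G *ᵥ w) v - μ * w v = (sei K (dl u G) *ᵥ rs u w) v - μ * w v
    rw [Del_mulVec K u G w h0]

theorem dl_orth (K : Type*) [Field K] {V : Type*} [Fintype V] [DecidableEq V] (G : SimpleGraph V)
    (ts : List (V → ℤ)) (u : V) (hu : u ∉ su ts) (μ : K) (w : V → K) (hw : w ∈ EE K G ts μ)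
    (h0 : w u ≠ 0) (y : {v : V // v ≠ u} → K) (hy : y ∈ EE K (dl u G) (ts.map (rs u)) μ) :
    sv K (nb u G) ⬝ᵥ y = 0 := by
  rw [mem_EE] at hw hy
  obtain ⟨h1, h2⟩ := hw
  obtain ⟨h3, h4⟩ := hy
  rw [← Del_span] at h4
  obtain ⟨z, hz, hzy⟩ := h4
  let x : V → K := fun v => if h : v ≠ u then y ⟨v, h⟩ else 0
  have hxu : x u = 0 := by
    show (if h : u ≠ u then y ⟨u, h⟩ else 0) = 0
    rw [dif_neg (fun h => h rfl)]
  have hxy : rs u x = y := by
    funext v
    show (if h : (v : V) ≠ u then y ⟨v, h⟩ else 0) = y v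
    rw [dif_pos v.2]
  have hx1 : ∀ q ∈ ts, cv K q ⬝ᵥ x = 0 := by
    intro q hq
    rw [← Del_dot K (Del_su hu hq), hxy]
    exact h3 _ (List.mem_map.mpr ⟨q, hq, rfl⟩)
  have hw1 : ∀ q ∈ ts, cv K q ⬝ᵥ w = 0 := h1
  have e1 : sei K G *ᵥ x - μ • x = z + (sv K (nb u G) ⬝ᵥ y) • (Pi.single u 1 : V → K) := by
    funext v
    by_cases hv : v = u
    · rw [hv, Pi.sub_apply, Pi.smul_apply, hxu, smul_zero, sub_zero, Pi.add_apply,
        Del_spanu hu hz, zero_add, Pi.smul_apply, Pi.single_eq_same, smul_eq_mul, mul_one,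
        Matrix.mulVec, dotProduct, Del_sum u (fun v => sei K G u v * x v), hxu, mul_zero,
        zero_add, dotProduct]
      apply Finset.sum_congr rfl
      intro a _
      rw [sv_nb]
      have h5 := congrFun hxy a
      rw [← h5]
      rfl
    · have h5 : (sei K G *ᵥ x) v - μ * x v = z v := by
        have h6 := congrFun hzy ⟨v, hv⟩
        have h7 : z v = (sei K (dl u G) *ᵥ y) ⟨v, hv⟩ - μ * y ⟨v, hv⟩ := h6
        rw [h7, ← hxy, Del_mulVec K u G x hxu]
        rfl
      rw [Pi.sub_apply, Pi.smul_apply, smul_eq_mul, h5, Pi.add_apply, Pi.smul_apply,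
        Pi.single_eq_of_ne hv, smul_zero, add_zero]
  have e2 : w ⬝ᵥ (sei K G *ᵥ x) = (sei K G *ᵥ w) ⬝ᵥ x := by
    rw [Matrix.dotProduct_mulVec, ← Matrix.mulVec_transpose, (sei_isSymm K G).eq]
  have e3 : w ⬝ᵥ (sei K G *ᵥ x - μ • x) = (sei K G *ᵥ w - μ • w) ⬝ᵥ x := by
    rw [dotProduct_sub, sub_dotProduct, e2, dotProduct_smul, smul_dotProduct]
  rw [Del_span0 hx1 h2, e1, dotProduct_add, dotProduct_comm w z, Del_span0 hw1 hz, zero_add,
    dotProduct_smul, dotProduct_single_one, smul_eq_mul] at e3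
  exact (mul_eq_zero.mp e3).resolve_right h0

end Pool.Agent.H95.DL
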