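import Pool.Agent.H95.DL.Def2

/-!
# Job DL-15: deletion of a vertex, counting

`G ↦ (dl u G, nb u G)` is a bijection from the graphs on `V` to the pairs (graph on `{v // v ≠ u}`,
set of neighbours).  PROOF: the inverse joins `x, y` iff (`x, y ≠ u` and they are adjacent in `G'`) or
(`x = u`, `y ≠ u`, `b y = true`) or (`y = u`, `x ≠ u`, `b x = true`).  `sum_dl` is
`Equiv.sum_comp` / `Function.Bijective.sum_comp` and `Fintype.sum_prod_type`.
`card_dl`: `f = 1`.
`fam_rs`: `nz (rs u q) = nz q` as `q u = 0`.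
-/

set_option autoImplicit false

namespace Pool.Agent.H95.DL

open Matrix Classical Pool.Agent.H66.SP Pool.Agent.H95.SQ

/-- the inverse of `G ↦ (dl u G, nb u G)` -/
def jn {V : Type*} (u : V) (G : SimpleGraph {v : V // v ≠ u}) (b : {v : V // v ≠ u} → Bool) :
    SimpleGraph V where
  Adj x y := (∃ (hx : x ≠ u) (hy : y ≠ u), G.Adj ⟨x, hx⟩ ⟨y, hy⟩) ∨
    (x = u ∧ ∃ hy : y ≠ u, b ⟨y, hy⟩ = true) ∨ (y = u ∧ ∃ hx : x ≠ u, b ⟨x, hx⟩ = true)
  symm := ⟨by
    rintro x y (⟨hx, hy, h⟩ | ⟨h1, h2⟩ | ⟨h1, h2⟩)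
    · exact Or.inl ⟨hy, hx, h.symm⟩
    · exact Or.inr (Or.inr ⟨h1, h2⟩)
    · exact Or.inr (Or.inl ⟨h1, h2⟩)⟩
  loopless := ⟨by
    rintro x (⟨hx, hy, h⟩ | ⟨h1, hy, h2⟩ | ⟨h1, hy, h2⟩)
    · exact G.loopless.irrefl _ h
    · exact hy h1
    · exact hy h1⟩

theorem dl_jn {V : Type*} (u : V) (G : SimpleGraph {v : V // v ≠ u})
    (b : {v : V // v ≠ u} → Bool) : dl u (jn u G b) = G := by
  ext x y
  constructor
  · rintro (⟨hx, hy, h⟩ | ⟨h1, h2⟩ | ⟨h1, h2⟩)
    · exact h
    · exact absurd h1 x.2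
    · exact absurd h1 y.2
  · intro h
    exact Or.inl ⟨x.2, y.2, h⟩

theorem nb_jn {V : Type*} (u : V) (G : SimpleGraph {v : V // v ≠ u})
    (b : {v : V // v ≠ u} → Bool) : nb u (jn u G b) = b := by
  funext v
  have h : (jn u G b).Adj u v ↔ b v = true := by
    constructor
    · rintro (⟨hx, hy, h⟩ | ⟨h1, hy, h2⟩ | ⟨h1, h2, h3⟩)
      · exact absurd rfl hx
      · exact h2
      · exact absurd rfl h2
    · intro h
      exact Or.inr (Or.inl ⟨rfl, v.2, h⟩)
  unfold nb
  rw [Bool.eq_iff_iff, decide_eq_true_iff]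
  exact h

theorem inj_dl {V : Type*} (u : V) (G H : SimpleGraph V) (h1 : dl u G = dl u H)
    (h2 : nb u G = nb u H) : G = H := by
  have h3 : ∀ v, v ≠ u → (G.Adj u v ↔ H.Adj u v) := by
    intro v hv
    have h4 := congrFun h2 ⟨v, hv⟩
    unfold nb at h4
    rw [decide_eq_decide] at h4
    exact h4
  ext x y
  by_cases hx : x = u
  · subst hx
    by_cases hy : y = x
    · subst hy
      constructor
      · intro h
        exact absurd h (G.loopless.irrefl _)
      · intro h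
        exact absurd h (H.loopless.irrefl _)
    · exact h3 y hy
  · by_cases hy : y = u
    · subst hy
      rw [G.adj_comm, H.adj_comm]
      exact h3 x hx
    · have h4 : (dl u G).Adj ⟨x, hx⟩ ⟨y, hy⟩ ↔ (dl u H).Adj ⟨x, hx⟩ ⟨y, hy⟩ := by rw [h1]
      exact h4

theorem sum_dl {V : Type*} [Fintype V] [DecidableEq V] (u : V) {M : Type*} [AddCommMonoid M]
    (f : SimpleGraph {v : V // v ≠ u} → ({v : V // v ≠ u} → Bool) → M) :
    ∑ G : SimpleGraph V, f (dl u G) (nb u G) =
      ∑ G' : SimpleGraph {v : V // v ≠ u}, ∑ b : {v : V // v ≠ u} → Bool, f G' b := by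
  have hb : Function.Bijective (fun G : SimpleGraph V => (dl u G, nb u G)) := by
    constructor
    · intro G H h
      have h' := Prod.mk.inj h
      exact inj_dl u G H h'.1 h'.2
    · rintro ⟨G, b⟩
      exact ⟨jn u G b, Prod.ext (dl_jn u G b) (nb_jn u G b)⟩
  have h := hb.sum_comp (fun x : SimpleGraph {v : V // v ≠ u} × ({v : V // v ≠ u} → Bool) =>
    f x.1 x.2)
  rw [Fintype.sum_prod_type] at h
  exact h

theorem card_dl {V : Type*} [Fintype V] [DecidableEq V] (u : V) :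
    Fintype.card (SimpleGraph V) = Fintype.card (SimpleGraph {v : V // v ≠ u}) *
      2 ^ Fintype.card {v : V // v ≠ u} := by
  have h := sum_dl u (fun (_ : SimpleGraph {v : V // v ≠ u}) (_ : {v : V // v ≠ u} → Bool) =>
    (1 : ℕ))
  simp only [Finset.sum_const, Finset.card_univ, smul_eq_mul, mul_one, Fintype.card_fun,
    Fintype.card_bool] at h
  exact h

theorem mem_su_rs {V : Type*} [Fintype V] [DecidableEq V] (ts : List (V → ℤ)) (u : V)
    (v : {v : V // v ≠ u}) : v ∈ su (ts.map (rs u)) ↔ (v : V) ∈ su ts := by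
  unfold su
  rw [Finset.mem_filter, Finset.mem_filter]
  constructor
  · rintro ⟨_, q, hq, hv⟩
    rw [List.mem_map] at hq
    obtain ⟨r, hr, rfl⟩ := hq
    exact ⟨Finset.mem_univ _, r, hr, hv⟩
  · rintro ⟨_, q, hq, hv⟩
    exact ⟨Finset.mem_univ _, rs u q, List.mem_map.mpr ⟨q, hq, rfl⟩, hv⟩

theorem mem_flt {V : Type*} [Fintype V] (p : V → Prop) (h : DecidablePred p) (v : V) :
    v ∈ @Finset.filter V p h (Finset.univ : Finset V) ↔ p v := by
  simp only [Finset.mem_filter, Finset.mem_univ, true_and]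

theorem nz_rs {V : Type*} [Fintype V] (q : V → ℤ) (u : V) [Fintype {v : V // v ≠ u}]
    (hu : q u = 0) : nz (rs u q) = nz q := by
  unfold nz
  refine Finset.card_bij (fun v _ => (v : V)) ?_ ?_ ?_
  · intro v hv
    have h1 := (mem_flt (fun v => rs u q v ≠ 0) _ v).mp hv
    exact (mem_flt (fun v => q v ≠ 0) _ _).mpr h1
  · intro a _ b _ h
    exact Subtype.ext h
  · intro v hv
    have hv2 := (mem_flt (fun v => q v ≠ 0) _ v).mp hv
    have hvu : v ≠ u := by
      rintro rfl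
      exact hv2 hu
    exact ⟨⟨v, hvu⟩, (mem_flt (fun v => rs u q v ≠ 0) _ _).mpr hv2, rfl⟩

theorem fam_rs {V : Type*} [Fintype V] [DecidableEq V] (ts : List (V → ℤ)) (hts : Fam ts) (u : V)
    (hu : u ∉ su ts) : Fam (ts.map (rs u)) := by
  obtain ⟨h1, h2⟩ := hts
  have hz : ∀ q ∈ ts, q u = 0 := by
    intro q hq
    by_contra hne
    exact hu (Finset.mem_filter.mpr ⟨Finset.mem_univ _, q, hq, hne⟩)
  constructor
  · intro q hq
    rw [List.mem_map] at hq
    obtain ⟨r, hr, rfl⟩ := hq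
    obtain ⟨h3, h4⟩ := h1 r hr
    refine ⟨fun v => h3 v, ?_⟩
    rw [nz_rs r u (hz r hr)]
    exact h4
  · rw [List.pairwise_map]
    refine h2.imp ?_
    intro a b hab v
    exact hab v.1

theorem fam_cons {V : Type*} [Fintype V] (q : V → ℤ) (ts : List (V → ℤ)) :
    Fam (q :: ts) ↔ IsTest q ∧ Off q (su ts) ∧ Fam ts := by
  unfold Fam
  rw [List.pairwise_cons, List.forall_mem_cons]
  constructor
  · rintro ⟨⟨h1, h2⟩, h3, h4⟩
    refine ⟨h1, ?_, h2, h4⟩
    intro v hv
    obtain ⟨_, r, hr, hrv⟩ := Finset.mem_filter.mp hv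
    rcases h3 r hr v with h | h
    · exact h
    · exact absurd h hrv
  · rintro ⟨h1, h3, h2, h4⟩
    refine ⟨⟨h1, h2⟩, ?_, h4⟩
    intro r hr v
    by_cases hrv : r v = 0
    · exact Or.inr hrv
    · exact Or.inl (h3 v (Finset.mem_filter.mpr ⟨Finset.mem_univ _, r, hr, hrv⟩))

theorem mem_su_cons {V : Type*} [Fintype V] (q : V → ℤ) (ts : List (V → ℤ)) (v : V) :
    v ∈ su (q :: ts) ↔ q v ≠ 0 ∨ v ∈ su ts := by
  unfold su
  rw [Finset.mem_filter, Finset.mem_filter]
  constructor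
  · rintro ⟨_, r, hr, hv⟩
    rcases List.mem_cons.mp hr with h | h
    · subst h
      exact Or.inl hv
    · exact Or.inr ⟨Finset.mem_univ _, r, h, hv⟩
  · rintro (h | ⟨_, r, hr, hv⟩)
    · exact ⟨Finset.mem_univ _, q, List.mem_cons_self, h⟩
    · exact ⟨Finset.mem_univ _, r, List.mem_cons_of_mem _ hr, hv⟩

theorem card_su_le {V : Type*} [Fintype V] (ts : List (V → ℤ)) (hts : Fam ts) :
    (su ts).card ≤ 6 * ts.length := by
  induction ts with
  | nil =>
    have h : su ([] : List (V → ℤ)) = ∅ := by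
      rw [Finset.eq_empty_iff_forall_notMem]
      intro v hv
      obtain ⟨_, r, hr, _⟩ := Finset.mem_filter.mp hv
      exact absurd hr List.not_mem_nil
    rw [h]
    simp
  | cons q ts ih =>
    obtain ⟨h1, _, h3⟩ := (fam_cons q ts).mp hts
    have h4 : su (q :: ts) ⊆ (Finset.univ : Finset V).filter (fun v => q v ≠ 0) ∪ su ts := by
      intro v hv
      rw [Finset.mem_union, Finset.mem_filter]
      rcases (mem_su_cons q ts v).mp hv with h | h
      · exact Or.inl ⟨Finset.mem_univ _, h⟩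
      · exact Or.inr h
    have h5 := Finset.card_le_card h4
    have h6 := Finset.card_union_le ((Finset.univ : Finset V).filter (fun v => q v ≠ 0)) (su ts)
    have h8 : nz q ≤ 6 := by
      rcases h1.2 with h | h | h <;> omega
    have h7 : ((Finset.univ : Finset V).filter (fun v => q v ≠ 0)).card = nz q := by
      unfold nz
      exact Finset.card_bij (fun v _ => v)
        (fun v hv => (mem_flt (fun v => q v ≠ 0) _ v).mpr ((mem_flt (fun v => q v ≠ 0) _ v).mp hv))
        (fun _ _ _ _ h => h)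
        (fun v hv => ⟨v, (mem_flt (fun v => q v ≠ 0) _ v).mpr
          ((mem_flt (fun v => q v ≠ 0) _ v).mp hv), rfl⟩)
    have h9 := ih h3
    rw [List.length_cons]
    omega

end Pool.Agent.H95.DL
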