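import Pool.Agent.H95.DL.Flp

/-!
# Job DL-17: flips (L3), linear algebra

PROOFS.  `F = FF G U q`, `t_v = tsg G q v`.  By `sei_flp`
`(S' w) x = (S w) x - 2 [x ∈ F, σ x] t_x (q·w) - 2 (∑_{y ∈ F, σ y} t_y w y) q x`, and `q·w = 0`.
`EE_flp`: for `w` orthogonal to all the tests the difference `S' w - S w` is a multiple of `cv K q`,
which is in the span; both inclusions at once, since orthogonality does not involve the graph.
`flp_test`: multiply `flp_mulVec` with `cv K q`; `cv K q ⬝ᵥ cv K q = nz q` (entries `0, ±1`);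
`if σ v = true then z else 0 = bv K σ v * z`.
-/

set_option autoImplicit false

namespace Pool.Agent.H95.DL

open Matrix Classical Pool.Agent.H66.SP Pool.Agent.H95.SQ

theorem flp_mulVec (K : Type*) [Field K] {V : Type*} [Fintype V] [DecidableEq V]
    (G : SimpleGraph V) (U : Finset V) (q : V → ℤ) (σ : V → Bool) (w : V → K)
    (hw : cv K q ⬝ᵥ w = 0) :
    sei K (flp G (FF G U q) q σ) *ᵥ w = sei K G *ᵥ w -
      (2 * ∑ v ∈ FF G U q, bv K σ v * ((tsg G q v : K) * w v)) • cv K q := by
  have hw' : ∑ y, (q y : K) * w y = 0 := hw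
  ext x
  rw [Pi.sub_apply, Pi.smul_apply, smul_eq_mul]
  show ∑ y, sei K (flp G (FF G U q) q σ) x y * w y = ∑ y, sei K G x y * w y -
    (2 * ∑ v ∈ FF G U q, bv K σ v * ((tsg G q v : K) * w v)) * (q x : K)
  have h1 : ∀ y, sei K (flp G (FF G U q) q σ) x y * w y = sei K G x y * w y -
      (2 * (if x ∈ FF G U q ∧ σ x = true then (tsg G q x : K) else 0)) * ((q y : K) * w y) -
      (2 * (q x : K)) * (if y ∈ FF G U q then bv K σ y * ((tsg G q y : K) * w y) else 0) := by
    intro y
    rw [sei_flp]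
    by_cases hx : x ∈ FF G U q ∧ σ x = true
    · by_cases hy : y ∈ FF G U q
      · by_cases hs : σ y = true
        · simp only [bv, hx, hy, hs, and_self, if_true]
          ring
        · simp only [bv, hx, hy, hs, and_self, and_false, if_true, if_false, Bool.false_eq_true]
          ring
      · simp only [bv, hx, hy, and_self, false_and, if_true, if_false]
        ring
    · by_cases hy : y ∈ FF G U q
      · by_cases hs : σ y = true
        · simp only [bv, hx, hy, hs, and_self, if_true, if_false]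
          ring
        · simp only [bv, hx, hy, hs, and_false, if_true, if_false, Bool.false_eq_true]
          ring
      · simp only [bv, hx, hy, false_and, if_false]
        ring
  rw [Finset.sum_congr rfl fun y _ => h1 y, Finset.sum_sub_distrib, Finset.sum_sub_distrib,
    ← Finset.mul_sum, ← Finset.mul_sum, hw', mul_zero, sub_zero, Finset.sum_ite_mem,
    Finset.univ_inter]
  ring

theorem cv_self (K : Type*) [Field K] {V : Type*} [Fintype V] (q : V → ℤ) (hq : IsTest q) :
    cv K q ⬝ᵥ cv K q = (nz q : K) := by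
  have h1 : ∀ v, cv K q v * cv K q v = if q v ≠ 0 then (1 : K) else 0 := by
    intro v
    unfold cv
    rcases hq.1 v with h | h | h
    · simp [h]
    · simp [h]
    · simp [h]
  show ∑ v, cv K q v * cv K q v = _
  rw [Finset.sum_congr rfl fun v _ => h1 v, nz, Finset.sum_boole]
  congr

theorem flp_test (K : Type*) [Field K] {V : Type*} [Fintype V] [DecidableEq V]
    (G : SimpleGraph V) (U : Finset V) (q : V → ℤ) (hq : IsTest q) (σ : V → Bool) (w : V → K)
    (hw : cv K q ⬝ᵥ w = 0) :
    cv K q ⬝ᵥ (sei K (flp G (FF G U q) q σ) *ᵥ w) = cv K q ⬝ᵥ (sei K G *ᵥ w) -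
      (2 * ∑ v ∈ FF G U q, bv K σ v * ((tsg G q v : K) * w v)) * (nz q : K) := by
  rw [flp_mulVec K G U q σ w hw, dotProduct_sub, dotProduct_smul, cv_self K q hq, smul_eq_mul]

theorem EE_flp (K : Type*) [Field K] {V : Type*} [Fintype V] [DecidableEq V]
    (G : SimpleGraph V) (U : Finset V) (q : V → ℤ) (σ : V → Bool) (ts : List (V → ℤ))
    (hq : q ∈ ts) (μ : K) : EE K (flp G (FF G U q) q σ) ts μ = EE K G ts μ := by
  ext w
  rw [mem_EE, mem_EE]
  refine and_congr_right fun h => ?_
  have hc : cv K q ∈ Submodule.span K {y : V → K | ∃ q ∈ ts, y = cv K q} :=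
    Submodule.subset_span ⟨q, hq, rfl⟩
  rw [flp_mulVec K G U q σ w (h q hq)]
  obtain ⟨c, hc'⟩ : ∃ c, c = (2 * ∑ v ∈ FF G U q, bv K σ v * ((tsg G q v : K) * w v)) := ⟨_, rfl⟩
  rw [← hc']
  have e : sei K G *ᵥ w - c • cv K q - μ • w = (sei K G *ᵥ w - μ • w) - c • cv K q := by abel
  rw [e]
  exact Submodule.sub_mem_iff_left _ (Submodule.smul_mem _ c hc)

theorem OK_flp {ι : Type} [Fintype ι] (K : ι → Type) [∀ i, Field (K i)] (iso : Prop)
    (m6 s1 s2 s cap : ℕ) {V : Type} [Fintype V] [DecidableEq V] (G : SimpleGraph V)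
    (U : Finset V) (q : V → ℤ) (σ : V → Bool) (ts : List (V → ℤ)) (hq : q ∈ ts)
    (h : OK K iso m6 s1 s2 s cap G ts) :
    OK K iso m6 s1 s2 s cap (flp G (FF G U q) q σ) ts := by
  obtain ⟨h1, h2, h3⟩ := h
  refine ⟨?_, ?_, ?_⟩
  · intro L _ h2L μ w hw hw0
    rw [EE_flp L G U q σ ts hq μ] at hw
    exact h1 L h2L μ w hw hw0
  · refine TY_flp m6 s1 s2 G (FF G U q) q σ (su ts) (fun v hv => ?_) h2
    exact Finset.mem_filter.2 ⟨Finset.mem_univ v, q, hq, hv⟩
  · have hS : {x : Σ i, K i | x.2 ∈ DD iso (K x.1) (flp G (FF G U q) q σ) ts} =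
        {x : Σ i, K i | x.2 ∈ DD iso (K x.1) G ts} := by
      ext x
      simp only [Set.mem_ofPred_eq, DD, EE_flp (K x.1) G U q σ ts hq]
    have hD : DSf K iso (flp G (FF G U q) q σ) ts = DSf K iso G ts := by
      unfold DSf
      simp only [hS]
    rw [hD]
    exact h3

end Pool.Agent.H95.DL
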