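import Pool.Agent.H95.DL.DelC
import Pool.Agent.H95.DL.FlpE

/-!
# Job DL-18: a new test (L4) and the flip bound

PROOF of `ext_mem`.  `cv K q` is orthogonal to all `cv K r`, `r ∈ ts` (supports are disjoint:
`Off q (su ts)`), so it is orthogonal to `S w - μ w`, and `q·w = 0`, hence `q·(S w) = 0`.
`S w - μ w` is in the span of `ts`, so in the span of `q :: ts` (`Submodule.span_mono`).
PROOF of `flip_bound`.  By `flp_test` (`w ∈ EE K G (q :: ts) μ` is orthogonal to `q`) the event is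
`∑_{v ∈ F} σ_v t_v w_v = g` with a fixed `g` (divide by `2 nz q ≠ 0`, `nz q ∈ {2, 4, 6}`),
`F = FF G (su ts) q`, `t_v = ± 1`.  Replace `σ` by `σ'`, `σ'_v = ¬ σ_v` where `t_v = -1` (a bijection
of `V → Bool`): `σ_v t_v = σ'_v - 1` there (as numbers: `-σ_v = σ'_v - 1`), so the event is
`∑_{v ∈ F} σ'_v w_v = g'`.  Apply `hLB` with the family `q :: ts`:
`F ∩ sup w = {v ∈ F | v ∉ su (q :: ts), w v ≠ 0}` (elements of `F` are off `su ts` and have `q v = 0`),
and `nz w > s ≥ s1 + card (su (q :: ts))` by `nse` (`card_su_le`).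
-/

set_option autoImplicit false

namespace Pool.Agent.H95.DL

open Matrix Classical Pool.Agent.H66.SP Pool.Agent.H95.SQ

theorem Ext_orth (K : Type*) [Field K] {V : Type*} [Fintype V] (ts : List (V → ℤ)) (q : V → ℤ)
    (hq : Off q (su ts)) (r : V → ℤ) (hr : r ∈ ts) : cv K q ⬝ᵥ cv K r = 0 := by
  unfold dotProduct
  refine Finset.sum_eq_zero fun v _ => ?_
  by_cases h : r v = 0
  · simp [cv, h]
  · have h1 : q v = 0 := by
      apply hq v
      unfold su
      rw [Finset.mem_filter]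
      exact ⟨Finset.mem_univ _, r, hr, h⟩
    simp [cv, h1]

theorem Ext_span (K : Type*) [Field K] {V : Type*} [Fintype V] (ts : List (V → ℤ)) (q : V → ℤ)
    (hq : Off q (su ts)) (x : V → K)
    (hx : x ∈ Submodule.span K {y : V → K | ∃ q ∈ ts, y = cv K q}) : cv K q ⬝ᵥ x = 0 := by
  induction hx using Submodule.span_induction with
  | mem x h =>
    obtain ⟨r, hr, rfl⟩ := h
    exact Ext_orth K ts q hq r hr
  | zero => exact dotProduct_zero _
  | add x y _ _ h1 h2 => rw [dotProduct_add, h1, h2, add_zero]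
  | smul a x _ h => rw [dotProduct_smul, h, smul_zero]

theorem ext_mem (K : Type*) [Field K] {V : Type*} [Fintype V] [DecidableEq V]
    (G : SimpleGraph V) (ts : List (V → ℤ)) (q : V → ℤ) (hq : Off q (su ts)) (μ : K) (w : V → K)
    (hw : w ∈ EE K G ts μ) (h0 : cv K q ⬝ᵥ w = 0) :
    w ∈ EE K G (q :: ts) μ ∧ cv K q ⬝ᵥ (sei K G *ᵥ w) = 0 := by
  rw [mem_EE] at hw
  obtain ⟨h1, h2⟩ := hw
  constructor
  · rw [mem_EE]
    refine ⟨?_, ?_⟩
    · intro r hr
      rcases List.mem_cons.1 hr with rfl | hr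
      · exact h0
      · exact h1 r hr
    · refine Submodule.span_mono ?_ h2
      rintro y ⟨r, hr, rfl⟩
      exact ⟨r, List.mem_cons_of_mem _ hr, rfl⟩
  · have h3 := Ext_span K ts q hq _ h2
    rw [dotProduct_sub, dotProduct_smul, h0, smul_zero, sub_zero] at h3
    exact h3

/-- change the signs at the vertices with sign `-1` -/
noncomputable def ExtTh {V : Type*} (G : SimpleGraph V) (q : V → ℤ) (σ : V → Bool) : V → Bool :=
  fun v => if tsg G q v = 1 then σ v else !(σ v)

theorem Ext_th_inj {V : Type*} (G : SimpleGraph V) (q : V → ℤ) :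
    Function.Injective (ExtTh G q) := by
  intro σ τ h
  funext v
  have h1 := congrFun h v
  unfold ExtTh at h1
  by_cases hv : tsg G q v = 1
  · simpa [hv] using h1
  · simpa [hv] using h1

theorem Ext_tsg {V : Type*} (G : SimpleGraph V) (q : V → ℤ) (v : V) (hv : tsg G q v ≠ 1) :
    tsg G q v = -1 := by
  unfold tsg at hv ⊢
  split_ifs at hv ⊢ with h
  · exact absurd rfl hv
  · rfl

theorem Ext_th_sum (K : Type*) [Field K] {V : Type*} (G : SimpleGraph V) (q : V → ℤ)
    (σ : V → Bool) (F : Finset V) (w : V → K) :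
    ∑ v ∈ F, bv K σ v * ((tsg G q v : K) * w v) =
      ∑ v ∈ F, bv K (ExtTh G q σ) v * w v - ∑ v ∈ F, (if tsg G q v = 1 then 0 else w v) := by
  rw [← Finset.sum_sub_distrib]
  refine Finset.sum_congr rfl fun v _ => ?_
  by_cases hv : tsg G q v = 1
  · simp [ExtTh, bv, hv]
  · have h1 := Ext_tsg G q v hv
    cases hs : σ v <;> simp [ExtTh, bv, h1, hs]

theorem Ext_nz (K : Type*) [Field K] (h6 : (6 : K) ≠ 0) {V : Type*} [Fintype V] (q : V → ℤ)
    (hq : IsTest q) : (2 : K) * (nz q : K) ≠ 0 := by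
  have h2 : (2 : K) ≠ 0 := by
    intro h
    apply h6
    rw [show (6 : K) = 2 * 3 by norm_num, h, zero_mul]
  refine mul_ne_zero h2 ?_
  rcases hq.2 with h | h | h
  · rw [h]
    exact_mod_cast h2
  · rw [h, show ((4 : ℕ) : K) = 2 * 2 by norm_num]
    exact mul_ne_zero h2 h2
  · rw [h]
    exact_mod_cast h6

theorem Ext_FF {V : Type*} [Fintype V] (G : SimpleGraph V) (U : Finset V) (q : V → ℤ) (v : V)
    (hv : v ∈ FF G U q) : v ∉ U ∧ q v = 0 := by
  unfold FF at hv
  rw [Finset.mem_filter] at hv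
  exact ⟨hv.2.1, hv.2.2.1⟩

theorem flip_bound (K : Type) [Field K] (h6 : (6 : K) ≠ 0) (m6 s1 s2 s n : ℕ) (α a : ℝ)
    (hLB : LB K m6 s1 s2 n α a) {V : Type} [Fintype V] [DecidableEq V] (hV : Fintype.card V ≤ n)
    (G : SimpleGraph V) (ts : List (V → ℤ)) (q : V → ℤ) (hts : Fam (q :: ts))
    (hs : s1 + 6 * (ts.length + 1) ≤ s) (hnse : NSE s G (q :: ts))
    (hty : TY m6 s1 s2 G (su (q :: ts))) (μ : K) (w : V → K) (hw : w ∈ EE K G (q :: ts) μ)
    (hw0 : w ≠ 0) (hs2 : s2 ≤ (FF G (su ts) q ∩ sup w).card) :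
    (((Finset.univ : Finset (V → Bool)).filter (fun σ =>
      cv K q ⬝ᵥ (sei K (flp G (FF G (su ts) q) q σ) *ᵥ w) = 0)).card : ℝ) ≤
      2 ^ Fintype.card V * (α + a * (kapS s2 K G (q :: ts) w : ℝ) / (n : ℝ) ^ 6) := by
  have h2 : (2 : K) ≠ 0 := by
    intro h
    apply h6
    rw [show (6 : K) = 2 * 3 by norm_num, h, zero_mul]
  have hqt : IsTest q := hts.1 q List.mem_cons_self
  have hqw : cv K q ⬝ᵥ w = 0 := ((mem_EE G (q :: ts) μ w).1 hw).1 q List.mem_cons_self
  have hnz := Ext_nz K h6 q hqt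
  set F := FF G (su ts) q with hF
  set g' : K := cv K q ⬝ᵥ (sei K G *ᵥ w) / (2 * (nz q : K)) +
    ∑ v ∈ F, (if tsg G q v = 1 then 0 else w v) with hg
  have hc1 : s1 ≤ ((Finset.univ : Finset V).filter
      (fun v => v ∉ su (q :: ts) ∧ w v ≠ 0)).card := by
    have e1 : s < nz w := hnse K h2 μ w hw hw0
    have e2 := card_su_le (q :: ts) hts
    rw [List.length_cons] at e2
    have e3 : nz w ≤ ((Finset.univ : Finset V).filter
        (fun v => v ∉ su (q :: ts) ∧ w v ≠ 0)).card + (su (q :: ts)).card := by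
      refine le_trans (Finset.card_le_card ?_) (Finset.card_union_le _ _)
      intro v hv
      rw [Finset.mem_filter] at hv
      rw [Finset.mem_union, Finset.mem_filter]
      by_cases h : v ∈ su (q :: ts)
      · exact Or.inr h
      · exact Or.inl ⟨Finset.mem_univ _, h, hv.2⟩
    omega
  have hc2 : s2 ≤ (F.filter (fun v => v ∉ su (q :: ts) ∧ w v ≠ 0)).card := by
    refine le_trans hs2 (Finset.card_le_card ?_)
    intro v hv
    rw [Finset.mem_inter] at hv
    obtain ⟨hv1, hv2⟩ := hv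
    rw [Finset.mem_filter]
    refine ⟨hv1, ?_, ?_⟩
    · rw [mem_su_cons]
      have hv3 := Ext_FF G (su ts) q v hv1
      rintro (h | h)
      · exact h hv3.2
      · exact hv3.1 h
    · unfold sup at hv2
      rw [Finset.mem_filter] at hv2
      exact hv2.2
  refine le_trans ?_ (hLB V hV G (q :: ts) hty w F g' hc1 hc2)
  have hcard : ((Finset.univ : Finset (V → Bool)).filter (fun σ =>
      cv K q ⬝ᵥ (sei K (flp G F q σ) *ᵥ w) = 0)).card ≤
      ((Finset.univ : Finset (V → Bool)).filter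
        (fun b => ∑ v ∈ F, bv K b v * w v = g')).card := by
    refine Finset.card_le_card_of_injOn (ExtTh G q) ?_ ((Ext_th_inj G q).injOn)
    intro σ hσ
    rw [Finset.mem_coe, Finset.mem_filter] at hσ ⊢
    refine ⟨Finset.mem_univ _, ?_⟩
    have e1 := hσ.2
    rw [hF, flp_test K G (su ts) q hqt σ w hqw, ← hF, Ext_th_sum] at e1
    rw [hg]
    have e2 : cv K q ⬝ᵥ (sei K G *ᵥ w) / (2 * (nz q : K)) =
        ∑ v ∈ F, bv K (ExtTh G q σ) v * w v -
          ∑ v ∈ F, (if tsg G q v = 1 then 0 else w v) := by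
      rw [div_eq_iff hnz]
      linear_combination e1
    rw [e2]
    ring
  exact_mod_cast hcard

end Pool.Agent.H95.DL
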