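import Pool.Agent.H95.DL.Def2

/-!
# Job DL-16: flips (L3), combinatorics

`F = FF G U q`; for `v ∈ F` the row `v` of the Seidel matrix agrees with `t_v q` on the support of
`q`, `t_v = tsg G q v = ± 1`, and `q v = 0`.  The flip complements the pairs `{v, u}`, `v ∈ F`,
`σ v = true`, `q u ≠ 0`.
PROOFS.  `sei_flp`: cases.  For `x ∈ F`, `σ x = true`, `q y ≠ 0`: `x ≠ y` (as `q x = 0`), the pair is
complemented, `sei K G x y = t_x q y` and the new entry is `- t_x q y`; both corrections cannot occur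
simultaneously with nonzero value (`x ∈ F` gives `q x = 0`).
`FF_flp`: for `v ∉ U`, `q v = 0` the pattern of `v` on the support of `q` is kept or replaced by its
negative (and a pattern which is not `± q` is kept).  `flp_flp`: the toggled pairs are the same.
`avg_flp`: `G ↦ flp G (FF G U q) q σ` is an involution (`Finset.sum_bijective`,
`Function.Involutive.bijective`, `FF_flp`, `flp_flp`).
`FF_flp_off`: for `v ∉ U'` and `q' u ≠ 0` (so `u ∉ U'`) one has `q v = 0` and `q u = 0`, so the pair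
`{v, u}` is not toggled.
-/

set_option autoImplicit false

namespace Pool.Agent.H95.DL

open Matrix Classical Pool.Agent.H66.SP Pool.Agent.H95.SQ

theorem mem_FF {V : Type*} [Fintype V] (G : SimpleGraph V) (U : Finset V) (q : V → ℤ) (v : V)
    (hv : v ∈ FF G U q) (u : V) (hu : q u ≠ 0) : sei ℤ G v u = tsg G q v * q u := by
  unfold FF at hv
  rw [Finset.mem_filter] at hv
  obtain ⟨-, -, -, h⟩ := hv
  unfold tsg
  by_cases h1 : ∀ u, q u ≠ 0 → sei ℤ G v u = q u
  · rw [if_pos h1, h1 u hu, one_mul]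
  · rw [if_neg h1]
    rcases h with h | h
    · exact absurd h h1
    · rw [h u hu]
      ring

theorem Flp_mem_FF {V : Type*} [Fintype V] (G : SimpleGraph V) (U : Finset V) (q : V → ℤ)
    (v : V) : v ∈ FF G U q ↔ v ∉ U ∧ q v = 0 ∧
    ((∀ u, q u ≠ 0 → sei ℤ G v u = q u) ∨ (∀ u, q u ≠ 0 → sei ℤ G v u = - q u)) := by
  unfold FF
  rw [Finset.mem_filter]
  exact ⟨fun h => h.2, fun h => ⟨Finset.mem_univ _, h⟩⟩

theorem Flp_adj {V : Type*} (G : SimpleGraph V) (F : Finset V) (q : V → ℤ) (σ : V → Bool)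
    (x y : V) : (flp G F q σ).Adj x y ↔
      ((G.Adj x y ∧ ¬ tog F q σ x y) ∨ (¬ G.Adj x y ∧ tog F q σ x y)) := Iff.rfl

theorem Flp_sei_tog (K : Type*) [Ring K] {V : Type*} (G : SimpleGraph V)
    (F : Finset V) (q : V → ℤ) (σ : V → Bool) (x y : V) (h : tog F q σ x y) :
    sei K (flp G F q σ) x y = - sei K G x y := by
  unfold sei
  simp only [Matrix.of_apply]
  by_cases hxy : x = y
  · rw [if_pos hxy, if_pos hxy, neg_zero]
  · rw [if_neg hxy, if_neg hxy]
    by_cases hG : G.Adj x y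
    · have h1 : ¬ (flp G F q σ).Adj x y := by
        rw [Flp_adj]
        tauto
      rw [if_neg h1, if_pos hG, neg_neg]
    · have h1 : (flp G F q σ).Adj x y := by
        rw [Flp_adj]
        tauto
      rw [if_pos h1, if_neg hG]

theorem Flp_sei_not (K : Type*) [Ring K] {V : Type*} (G : SimpleGraph V)
    (F : Finset V) (q : V → ℤ) (σ : V → Bool) (x y : V) (h : ¬ tog F q σ x y) :
    sei K (flp G F q σ) x y = sei K G x y := by
  unfold sei
  simp only [Matrix.of_apply]
  by_cases hxy : x = y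
  · rw [if_pos hxy, if_pos hxy]
  · rw [if_neg hxy, if_neg hxy]
    by_cases hG : G.Adj x y
    · have h1 : (flp G F q σ).Adj x y := by
        rw [Flp_adj]
        tauto
      rw [if_pos h1, if_pos hG]
    · have h1 : ¬ (flp G F q σ).Adj x y := by
        rw [Flp_adj]
        tauto
      rw [if_neg h1, if_neg hG]

theorem Flp_sei_FF (K : Type*) [Field K] {V : Type*} [Fintype V] (G : SimpleGraph V)
    (U : Finset V) (q : V → ℤ) (x y : V) (hx : x ∈ FF G U q) (hy : q y ≠ 0) :
    sei K G x y = (tsg G q x : K) * (q y : K) := by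
  rw [← sei_cast K G x y, mem_FF G U q x hx y hy]
  push_cast
  ring

theorem sei_flp (K : Type*) [Field K] {V : Type*} [Fintype V] [DecidableEq V] (G : SimpleGraph V)
    (U : Finset V) (q : V → ℤ) (σ : V → Bool) (x y : V) :
    sei K (flp G (FF G U q) q σ) x y = sei K G x y -
      2 * (if x ∈ FF G U q ∧ σ x = true then (tsg G q x : K) * (q y : K) else 0) -
      2 * (if y ∈ FF G U q ∧ σ y = true then (tsg G q y : K) * (q x : K) else 0) := by
  have hq0 : ∀ v, v ∈ FF G U q → q v = 0 := fun v hv => ((Flp_mem_FF G U q v).mp hv).2.1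
  by_cases h1 : (x ∈ FF G U q ∧ σ x = true) ∧ q y ≠ 0
  · have ht : tog (FF G U q) q σ x y := Or.inl ⟨h1.1.1, h1.1.2, hq0 x h1.1.1, h1.2⟩
    have hy : ¬ (y ∈ FF G U q ∧ σ y = true) := fun h => h1.2 (hq0 y h.1)
    rw [Flp_sei_tog K G _ q σ x y ht, if_pos h1.1, if_neg hy,
      Flp_sei_FF K G U q x y h1.1.1 h1.2]
    ring
  · by_cases h2 : (y ∈ FF G U q ∧ σ y = true) ∧ q x ≠ 0
    · have ht : tog (FF G U q) q σ x y := Or.inr ⟨h2.1.1, h2.1.2, hq0 y h2.1.1, h2.2⟩
      have hx : ¬ (x ∈ FF G U q ∧ σ x = true) := fun h => h2.2 (hq0 x h.1)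
      rw [Flp_sei_tog K G _ q σ x y ht, if_pos h2.1, if_neg hx, sei_symm K G x y,
        Flp_sei_FF K G U q y x h2.1.1 h2.2]
      ring
    · have ht : ¬ tog (FF G U q) q σ x y := by
        rintro (h | h)
        · exact h1 ⟨⟨h.1, h.2.1⟩, h.2.2.2⟩
        · exact h2 ⟨⟨h.1, h.2.1⟩, h.2.2.2⟩
      have e1 : (if x ∈ FF G U q ∧ σ x = true then (tsg G q x : K) * (q y : K) else 0) = 0 := by
        split_ifs with h
        · have h3 : q y = 0 := by
            by_contra h4
            exact h1 ⟨h, h4⟩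
          rw [h3, Int.cast_zero, mul_zero]
        · rfl
      have e2 : (if y ∈ FF G U q ∧ σ y = true then (tsg G q y : K) * (q x : K) else 0) = 0 := by
        split_ifs with h
        · have h3 : q x = 0 := by
            by_contra h4
            exact h2 ⟨h, h4⟩
          rw [h3, Int.cast_zero, mul_zero]
        · rfl
      rw [Flp_sei_not K G _ q σ x y ht, e1, e2]
      ring

theorem FF_flp {V : Type*} [Fintype V] [DecidableEq V] (G : SimpleGraph V) (U : Finset V)
    (q : V → ℤ) (σ : V → Bool) : FF (flp G (FF G U q) q σ) U q = FF G U q := by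
  have hq0 : ∀ v, v ∈ FF G U q → q v = 0 := fun v hv => ((Flp_mem_FF G U q v).mp hv).2.1
  ext v
  by_cases hF : v ∈ FF G U q ∧ σ v = true
  · have hs : ∀ u, q u ≠ 0 → sei ℤ (flp G (FF G U q) q σ) v u = - sei ℤ G v u := fun u hu =>
      Flp_sei_tog ℤ G _ q σ v u (Or.inl ⟨hF.1, hF.2, hq0 v hF.1, hu⟩)
    refine ⟨fun _ => hF.1, fun h => ?_⟩
    rw [Flp_mem_FF] at h ⊢
    refine ⟨h.1, h.2.1, ?_⟩
    rcases h.2.2 with h3 | h3
    · exact Or.inr fun u hu => by rw [hs u hu, h3 u hu]
    · exact Or.inl fun u hu => by rw [hs u hu, h3 u hu, neg_neg]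
  · by_cases hv : q v = 0
    · have hs : ∀ u, q u ≠ 0 → sei ℤ (flp G (FF G U q) q σ) v u = sei ℤ G v u := by
        intro u hu
        refine Flp_sei_not ℤ G _ q σ v u ?_
        rintro (h | h)
        · exact hF ⟨h.1, h.2.1⟩
        · exact hu (hq0 u h.1)
      rw [Flp_mem_FF, Flp_mem_FF]
      constructor
      · rintro ⟨h1, h2, h3⟩
        refine ⟨h1, h2, ?_⟩
        rcases h3 with h3 | h3
        · exact Or.inl fun u hu => by rw [← hs u hu, h3 u hu]
        · exact Or.inr fun u hu => by rw [← hs u hu, h3 u hu]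
      · rintro ⟨h1, h2, h3⟩
        refine ⟨h1, h2, ?_⟩
        rcases h3 with h3 | h3
        · exact Or.inl fun u hu => by rw [hs u hu, h3 u hu]
        · exact Or.inr fun u hu => by rw [hs u hu, h3 u hu]
    · rw [Flp_mem_FF, Flp_mem_FF]
      exact ⟨fun h => absurd h.2.1 hv, fun h => absurd h.2.1 hv⟩

theorem flp_flp {V : Type*} [Fintype V] [DecidableEq V] (G : SimpleGraph V) (F : Finset V)
    (q : V → ℤ) (σ : V → Bool) : flp (flp G F q σ) F q σ = G := by
  ext x y
  rw [Flp_adj, Flp_adj]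
  by_cases h1 : G.Adj x y
  · by_cases h2 : tog F q σ x y <;> simp [h1, h2]
  · by_cases h2 : tog F q σ x y <;> simp [h1, h2]

theorem avg_flp {V : Type*} [Fintype V] [DecidableEq V] (U : Finset V) (q : V → ℤ)
    (σ : V → Bool) {M : Type*} [AddCommMonoid M] (f : SimpleGraph V → M) :
    ∑ G : SimpleGraph V, f (flp G (FF G U q) q σ) = ∑ G : SimpleGraph V, f G := by
  have h : Function.Involutive (fun G : SimpleGraph V => flp G (FF G U q) q σ) := by
    intro G
    show flp (flp G (FF G U q) q σ) (FF (flp G (FF G U q) q σ) U q) q σ = G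
    rw [FF_flp, flp_flp]
  exact Function.Bijective.sum_comp h.bijective f

theorem FF_flp_off {V : Type*} [Fintype V] [DecidableEq V] (G : SimpleGraph V) (F : Finset V)
    (q : V → ℤ) (σ : V → Bool) (U' : Finset V) (hq : ∀ v, q v ≠ 0 → v ∈ U') (q' : V → ℤ)
    (hq' : Off q' U') : FF (flp G F q σ) U' q' = FF G U' q' := by
  ext v
  rw [Flp_mem_FF, Flp_mem_FF]
  by_cases hv : v ∈ U'
  · exact ⟨fun h => absurd hv h.1, fun h => absurd hv h.1⟩
  · have hs : ∀ u, q' u ≠ 0 → sei ℤ (flp G F q σ) v u = sei ℤ G v u := by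
      intro u hu
      have hu' : u ∉ U' := fun h => hu (hq' u h)
      refine Flp_sei_not ℤ G _ q σ v u ?_
      rintro (h | h)
      · exact hu' (hq u h.2.2.2)
      · exact hv (hq v h.2.2.2)
    constructor
    · rintro ⟨h1, h2, h3⟩
      refine ⟨h1, h2, ?_⟩
      rcases h3 with h3 | h3
      · exact Or.inl fun u hu => by rw [← hs u hu, h3 u hu]
      · exact Or.inr fun u hu => by rw [← hs u hu, h3 u hu]
    · rintro ⟨h1, h2, h3⟩
      refine ⟨h1, h2, ?_⟩
      rcases h3 with h3 | h3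
      · exact Or.inl fun u hu => by rw [hs u hu, h3 u hu]
      · exact Or.inr fun u hu => by rw [hs u hu, h3 u hu]

theorem TY_flp {V : Type*} [Fintype V] [DecidableEq V] (m6 s1 s2 : ℕ) (G : SimpleGraph V)
    (F : Finset V) (q : V → ℤ) (σ : V → Bool) (U' : Finset V) (hq : ∀ v, q v ≠ 0 → v ∈ U')
    (h : TY m6 s1 s2 G U') : TY m6 s1 s2 (flp G F q σ) U' := by
  intro Z hZ hc
  obtain ⟨Y, hY, h2⟩ := h Z hZ hc
  refine ⟨Y, hY, fun q' ht hU hY' => ?_⟩
  rw [FF_flp_off G F q σ U' hq q' hU]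
  exact h2 q' ht hU hY'

end Pool.Agent.H95.DL
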