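import Pool.Agent.H95.DL.Def2

/-!
# Job DL-7: a good linear functional `KK p → ZMod p`

Given finite families `z : I → K` of nonzero elements and `y : J → K` there is a `ZMod p`-linear
`l : K → ZMod p` such that at most half of the `z i` are killed and at most `3 |J| / p` of the nonzero
`y j` are killed.

PROOF.  Let `W` be the `ZMod p`-span of all `z i`, `y j` (finite dimensional, so finite) and
`D = Module.Dual (ZMod p) W`, a finite set.  For `0 ≠ u ∈ W` exactly `|D| / p` of the `l ∈ D`
satisfy `l u = 0` (the map `l ↦ l u`, `D → ZMod p`, is linear and surjective: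
`Module.exists_dual_forall_apply_eq_zero_iff`/`Module.forall_dual_apply_eq_zero_iff`; fibres have
equal size).  So `∑_{l} #{i | l (z i) = 0} = |I| |D| / p` and
`∑_l #{j | y j ≠ 0, l (y j) = 0} ≤ |J| |D| / p`.  Markov: fewer than `2 |D| / p ≤ 2 |D| / 5` of the `l`
have `2 #{i ..} > |I|`, at most `|D| / 3` have `p #{j ..} > 3 |J|` (for instance compare
`∑_l` of the function `2 #{i..} / |I| * ... `); as `2/5 + 1/3 < 1` some `l ∈ D` has neither.  Extend
`l` from `W` to `K` (`LinearMap.exists_extend`).  (If `I` is empty the first condition is trivial.)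
-/

set_option autoImplicit false

namespace Pool.Agent.H95.DL

open Matrix Classical Pool.Agent.H66.SP Pool.Agent.H95.SQ

/-- the number of functionals which kill a nonzero vector -/
theorem fun_card (p : ℕ) [Fact p.Prime] {W : Type*} [AddCommGroup W] [Module (ZMod p) W]
    [Fintype (Module.Dual (ZMod p) W)] (u : W) (hu : u ≠ 0) :
    p * ((Finset.univ : Finset (Module.Dual (ZMod p) W)).filter (fun l => l u = 0)).card =
      Fintype.card (Module.Dual (ZMod p) W) := by
  let ev : Module.Dual (ZMod p) W →ₗ[ZMod p] ZMod p := Module.Dual.eval (ZMod p) W u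
  have hsurj : Function.Surjective ev := by
    have h1 : ev ≠ 0 := by
      intro h
      apply hu
      rw [← Module.forall_dual_apply_eq_zero_iff (ZMod p) u]
      intro φ
      have := LinearMap.congr_fun h φ
      simpa [ev] using this
    exact LinearMap.surjective h1
  have h2 := Submodule.card_eq_card_quotient_mul_card (LinearMap.ker ev)
  have h3 : Nat.card (Module.Dual (ZMod p) W ⧸ LinearMap.ker ev) = p := by
    rw [Nat.card_congr (LinearMap.quotKerEquivOfSurjective ev hsurj).toEquiv, Nat.card_zmod]
  have h4 : Nat.card (LinearMap.ker ev) =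
      ((Finset.univ : Finset (Module.Dual (ZMod p) W)).filter (fun l => l u = 0)).card := by
    rw [Nat.card_eq_fintype_card, Fintype.card_subtype]
    congr 1
    ext l
    simp only [Finset.mem_filter, Finset.mem_univ, true_and]
    exact Iff.rfl
  rw [Nat.card_eq_fintype_card] at h2
  rw [h2, h3, h4, mul_comm]

/-- averaging over the functionals -/
theorem fun_sum (p : ℕ) [Fact p.Prime] {W : Type*} [AddCommGroup W] [Module (ZMod p) W]
    [Fintype (Module.Dual (ZMod p) W)] {J : Type*} [Fintype J] (y : J → W) :
    p * ∑ l : Module.Dual (ZMod p) W,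
        ((Finset.univ : Finset J).filter (fun j => y j ≠ 0 ∧ l (y j) = 0)).card ≤
      Fintype.card J * Fintype.card (Module.Dual (ZMod p) W) := by
  have h1 : ∑ l : Module.Dual (ZMod p) W,
      ((Finset.univ : Finset J).filter (fun j => y j ≠ 0 ∧ l (y j) = 0)).card =
      ∑ j : J, ((Finset.univ : Finset (Module.Dual (ZMod p) W)).filter
        (fun l => y j ≠ 0 ∧ l (y j) = 0)).card := by
    simp only [Finset.card_filter]
    exact Finset.sum_comm
  rw [h1, Finset.mul_sum]
  calc ∑ j : J, p * ((Finset.univ : Finset (Module.Dual (ZMod p) W)).filter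
        (fun l => y j ≠ 0 ∧ l (y j) = 0)).card
      ≤ ∑ _j : J, Fintype.card (Module.Dual (ZMod p) W) := by
        apply Finset.sum_le_sum
        intro j _
        by_cases hj : y j = 0
        · simp [hj]
        · rw [← fun_card p (y j) hj]
          apply Nat.mul_le_mul le_rfl
          apply Finset.card_le_card
          intro l hl
          simp only [Finset.mem_filter, Finset.mem_univ, true_and] at hl ⊢
          exact hl.2
    _ = Fintype.card J * Fintype.card (Module.Dual (ZMod p) W) := by
        rw [Finset.sum_const, Finset.card_univ, smul_eq_mul]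

/-- Markov's inequality -/
theorem fun_markov {D : Type*} [Fintype D] (cc : D → ℕ) (p c m J : ℕ) (hcc : ∀ l, cc l ≤ J)
    (h0 : p * ∑ l : D, cc l ≤ J * Fintype.card D) :
    c * ((Finset.univ : Finset D).filter (fun l => c * J < m * cc l)).card * p ≤
      m * Fintype.card D := by
  obtain ⟨A, hA⟩ : ∃ A : Finset D, A =
    (Finset.univ : Finset D).filter (fun l => c * J < m * cc l) := ⟨_, rfl⟩
  rw [← hA]
  rcases Nat.eq_zero_or_pos J with hJ | hJ
  · have hA0 : A = ∅ := by
      rw [hA]
      apply Finset.filter_eq_empty_iff.mpr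
      intro l _
      have h1 : cc l = 0 := by
        have := hcc l
        omega
      rw [h1]
      simp
    rw [hA0]
    simp
  · have h1 : A.card * (c * J) ≤ m * ∑ l : D, cc l := by
      calc A.card * (c * J) = ∑ _l ∈ A, c * J := by
            rw [Finset.sum_const, smul_eq_mul]
        _ ≤ ∑ l ∈ A, m * cc l := by
            apply Finset.sum_le_sum
            intro l hl
            rw [hA, Finset.mem_filter] at hl
            exact hl.2.le
        _ ≤ ∑ l : D, m * cc l :=
            Finset.sum_le_sum_of_subset_of_nonneg (Finset.subset_univ _)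
              (fun _ _ _ => Nat.zero_le _)
        _ = m * ∑ l : D, cc l := by rw [Finset.mul_sum]
    have h3 : J * (c * A.card * p) ≤ J * (m * Fintype.card D) := by
      calc J * (c * A.card * p) = A.card * (c * J) * p := by ring
        _ ≤ m * (∑ l : D, cc l) * p := Nat.mul_le_mul h1 le_rfl
        _ = m * (p * ∑ l : D, cc l) := by ring
        _ ≤ m * (J * Fintype.card D) := Nat.mul_le_mul le_rfl h0
        _ = J * (m * Fintype.card D) := by ring
    exact Nat.le_of_mul_le_mul_left h3 hJ

theorem exists_functional (p : ℕ) [Fact p.Prime] (hp : 5 ≤ p) {I J : Type*} [Fintype I] [Fintype J]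
    (z : I → KK p) (hz : ∀ i, z i ≠ 0) (y : J → KK p) :
    ∃ l : KK p →ₗ[ZMod p] ZMod p,
      2 * ((Finset.univ : Finset I).filter (fun i => l (z i) = 0)).card ≤ Fintype.card I ∧
      p * ((Finset.univ : Finset J).filter (fun j => y j ≠ 0 ∧ l (y j) = 0)).card ≤
        3 * Fintype.card J := by
  obtain ⟨W, hW⟩ : ∃ W : Submodule (ZMod p) (KK p),
    W = Submodule.span (ZMod p) (Set.range z ∪ Set.range y) := ⟨_, rfl⟩
  have hfin : Module.Finite (ZMod p) W := by
    rw [hW]
    exact Module.Finite.iff_fg.mpr
      (Submodule.fg_span ((Set.finite_range z).union (Set.finite_range y)))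
  have hfD : Finite (Module.Dual (ZMod p) W) := Module.finite_of_finite (ZMod p)
  let instD : Fintype (Module.Dual (ZMod p) W) := Fintype.ofFinite _
  have hzW : ∀ i, z i ∈ W := fun i => hW ▸ Submodule.subset_span (Or.inl ⟨i, rfl⟩)
  have hyW : ∀ j, y j ∈ W := fun j => hW ▸ Submodule.subset_span (Or.inr ⟨j, rfl⟩)
  obtain ⟨z', hz'⟩ : ∃ z' : I → W, ∀ i, (z' i : KK p) = z i := ⟨fun i => ⟨z i, hzW i⟩, fun i => rfl⟩
  obtain ⟨y', hy'⟩ : ∃ y' : J → W, ∀ j, (y' j : KK p) = y j := ⟨fun j => ⟨y j, hyW j⟩, fun j => rfl⟩
  have hA := fun_markov _ p 1 2 (Fintype.card I) (fun l => Finset.card_le_univ _) (fun_sum p z')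
  have hB := fun_markov _ p 3 p (Fintype.card J) (fun l => Finset.card_le_univ _) (fun_sum p y')
  have hpp : 0 < p := by omega
  have hD : 0 < Fintype.card (Module.Dual (ZMod p) W) := Fintype.card_pos
  have key : ∀ A B : Finset (Module.Dual (ZMod p) W),
      1 * A.card * p ≤ 2 * Fintype.card (Module.Dual (ZMod p) W) →
      3 * B.card * p ≤ p * Fintype.card (Module.Dual (ZMod p) W) → ∃ l, l ∉ A ∧ l ∉ B := by
    intro A B h1 h2
    have h3 : 5 * A.card ≤ 2 * Fintype.card (Module.Dual (ZMod p) W) := by
      have h4 : A.card * 5 ≤ A.card * p := Nat.mul_le_mul le_rfl hp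
      rw [one_mul] at h1
      omega
    have h4 : 3 * B.card ≤ Fintype.card (Module.Dual (ZMod p) W) := by
      have h5 : p * (3 * B.card) ≤ p * Fintype.card (Module.Dual (ZMod p) W) := by
        rw [mul_comm p (3 * B.card)]
        exact h2
      exact Nat.le_of_mul_le_mul_left h5 hpp
    by_contra hcon
    have h5 : (Finset.univ : Finset (Module.Dual (ZMod p) W)) ⊆ A ∪ B := by
      intro l _
      by_contra hl
      rw [Finset.mem_union, not_or] at hl
      exact hcon ⟨l, hl⟩
    have h6 := Finset.card_le_card h5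
    have h7 := Finset.card_union_le A B
    rw [Finset.card_univ] at h6
    omega
  obtain ⟨l, hl1, hl2⟩ := key _ _ hA hB
  simp only [Finset.mem_filter, Finset.mem_univ, true_and, not_lt] at hl1 hl2
  obtain ⟨g, hg⟩ := LinearMap.exists_extend (l : W →ₗ[ZMod p] ZMod p)
  have hgz : ∀ w : W, g (w : KK p) = l w := by
    intro w
    have := LinearMap.congr_fun hg w
    simpa using this
  refine ⟨g, ?_, ?_⟩
  · rw [one_mul] at hl1
    refine le_trans (Nat.mul_le_mul le_rfl (Finset.card_le_card ?_)) hl1
    intro i
    simp only [Finset.mem_filter, Finset.mem_univ, true_and]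
    have h1 : g (z i) = l (z' i) := by rw [← hz' i, hgz]
    have h2 : z' i ≠ 0 := by
      intro h
      apply hz i
      rw [← hz' i, h]
      rfl
    rw [h1]
    exact fun h => ⟨h2, h⟩
  · refine le_trans (Nat.mul_le_mul le_rfl (Finset.card_le_card ?_)) hl2
    intro j
    simp only [Finset.mem_filter, Finset.mem_univ, true_and]
    have h1 : g (y j) = l (y' j) := by rw [← hy' j, hgz]
    have h2 : y j ≠ 0 → y' j ≠ 0 := by
      rw [← hy' j]
      intro h h'
      exact h (congrArg Subtype.val h')
    rw [h1]
    exact fun h => ⟨h2 h.1, h.2⟩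

end Pool.Agent.H95.DL
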