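import Pool.Agent.H95.DL.NN

/-!
# Job DL-3: growth of sumsets modulo a prime

PROOF.  Let `S j := {∑ i : Fin j, f i | f i ∈ T}` (define `S 0 = {0}`, `S (j+1) = S j + T`, a
`Finset` with pointwise addition).  By `ZMod.cauchy_davenport`
`card (S j) ≥ min p (j * (card T - 1) + 1)`, by induction (`T` is nonempty as `0 ∈ T`).
Every element of `S k` is a sum of `k` elements of `T`, so `S k ⊆ T'`, `card (S k) ≤ card T' < p`
(as `T' ≠ univ`).  So `k * (card T - 1) + 1 ≤ card T'` and `card T ≤ 1 + card T' / k`.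
-/

set_option autoImplicit false

namespace Pool.Agent.H95.DL

open Matrix Classical Pool.Agent.H66.SP Pool.Agent.H95.SQ

open scoped Pointwise in
/-- iterated sumset -/
noncomputable def Gro_S (p : ℕ) (T : Finset (ZMod p)) : ℕ → Finset (ZMod p)
  | 0 => {0}
  | (j + 1) => Gro_S p T j + T

theorem Gro_mem (p : ℕ) (T : Finset (ZMod p)) (j : ℕ) :
    ∀ x ∈ Gro_S p T j, ∃ f : Fin j → ZMod p, (∀ i, f i ∈ T) ∧ ∑ i, f i = x := by
  induction j with
  | zero =>
    intro x hx
    refine ⟨fun i => i.elim0, fun i => i.elim0, ?_⟩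
    rw [Gro_S, Finset.mem_singleton] at hx
    simp [hx]
  | succ j ih =>
    intro x hx
    rw [Gro_S, Finset.mem_add] at hx
    obtain ⟨y, hy, z, hz, rfl⟩ := hx
    obtain ⟨f, hf, rfl⟩ := ih y hy
    refine ⟨Fin.cons z f, ?_, ?_⟩
    · intro i
      refine Fin.cases ?_ ?_ i
      · exact hz
      · intro i
        exact hf i
    · rw [Fin.sum_univ_succ, Fin.cons_zero, add_comm]
      rfl

theorem Gro_nonempty (p : ℕ) (T : Finset (ZMod p)) (h0 : 0 ∈ T) (j : ℕ) :
    (Gro_S p T j).Nonempty := by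
  induction j with
  | zero => exact ⟨0, Finset.mem_singleton_self 0⟩
  | succ j ih => exact Finset.Nonempty.add ih ⟨0, h0⟩

open scoped Pointwise in
theorem Gro_card (p : ℕ) [Fact p.Prime] (T : Finset (ZMod p)) (h0 : 0 ∈ T) (j : ℕ) :
    min p (j * (T.card - 1) + 1) ≤ (Gro_S p T j).card := by
  induction j with
  | zero =>
    rw [Gro_S, Finset.card_singleton, zero_mul, zero_add]
    exact min_le_right _ _
  | succ j ih =>
    have h1 := ZMod.cauchy_davenport (Fact.out : p.Prime) (Gro_nonempty p T h0 j)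
      (⟨0, h0⟩ : T.Nonempty)
    have h2 : Gro_S p T (j + 1) = Gro_S p T j + T := rfl
    rw [h2]
    refine le_trans ?_ h1
    have h3 : 1 ≤ T.card := Finset.card_pos.mpr ⟨0, h0⟩
    have h4 : (j + 1) * (T.card - 1) = j * (T.card - 1) + (T.card - 1) := by ring
    rw [h4]
    omega

theorem growth (p : ℕ) [Fact p.Prime] (k : ℕ) (hk : 1 ≤ k) (T T' : Finset (ZMod p)) (h0 : 0 ∈ T)
    (hsub : ∀ f : Fin k → ZMod p, (∀ i, f i ∈ T) → ∑ i, f i ∈ T') (hT' : T' ≠ Finset.univ) :
    (T.card : ℝ) ≤ 1 + (T'.card : ℝ) / k := by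
  have h1 := Gro_card p T h0 k
  have h2 : Gro_S p T k ⊆ T' := by
    intro x hx
    obtain ⟨f, hf, rfl⟩ := Gro_mem p T k x hx
    exact hsub f hf
  have h3 := Finset.card_le_card h2
  have h4 : T'.card < p := by
    have h5 := Finset.card_lt_card (Finset.ssubset_univ_iff.mpr hT')
    rwa [Finset.card_univ, ZMod.card] at h5
  have h6 : k * (T.card - 1) + 1 ≤ T'.card := by
    rcases le_total p (k * (T.card - 1) + 1) with h | h
    · rw [min_eq_left h] at h1
      omega
    · rw [min_eq_right h] at h1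
      omega
  have h7 : 1 ≤ T.card := Finset.card_pos.mpr ⟨0, h0⟩
  have h8 : ((k * (T.card - 1) + 1 : ℕ) : ℝ) ≤ (T'.card : ℝ) := by exact_mod_cast h6
  rw [Nat.cast_add, Nat.cast_mul, Nat.cast_sub h7, Nat.cast_one] at h8
  have hk' : (0 : ℝ) < k := by exact_mod_cast hk
  have h9 : (T.card : ℝ) - 1 ≤ (T'.card : ℝ) / k := by
    rw [le_div_iff₀ hk']
    linarith
  linarith

end Pool.Agent.H95.DL
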