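import Pool.Agent.H95.DL.NN2
import Pool.Agent.H95.SQ.HalB

/-!
# Job DL-4: Fourier bound

PROOF.  As in `Pool/Agent/H95/SQ/HalB.lean` (see `halB_char_sum`, `halB_bool_sum`, `halB_map_sum`):
`p * #{b | ∑_{v ∈ F} b_v x_v = g} = ∑_t e(-t g) ∑_b e(t ∑_{v ∈ F} b_v x_v)` and
`∑_b e(∑_{v ∈ F} b_v t x_v) = 2^(|V| - |F|) ∏_{v ∈ F} (1 + e(t x_v))` (put `y v = t x_v` for `v ∈ F`
and `0` otherwise in `halB_bool_sum`; the factors outside of `F` are `1 + 1 = 2`).  The norm of the
product over all `v` is at most `∏_v 2 exp(-2 nn(y v)) = 2^|V| exp(-2 ∑_{v ∈ F} nn (t x_v))`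
(`norm_one_add_char`).  The `t` with `∑_{v ∈ F} nn (t x_v) ≤ M` contribute at most `2^|V|` each, the
others at most `2^|V| exp(-2 M)` each, and there are `p` of them.
-/

set_option autoImplicit false

namespace Pool.Agent.H95.DL

open Matrix Classical Pool.Agent.H66.SP Pool.Agent.H95.SQ

/-- the level set -/
noncomputable def TM {p : ℕ} [NeZero p] {V : Type*} (F : Finset V) (x : V → ZMod p) (M : ℝ) :
    Finset (ZMod p) :=
  (Finset.univ : Finset (ZMod p)).filter (fun t => ∑ v ∈ F, nn (t * x v) ≤ M)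

theorem Hal1_id (p : ℕ) [Fact p.Prime] {V : Type*} [Fintype V] [DecidableEq V] (F : Finset V)
    (x : V → ZMod p) (g : ZMod p) :
    (p : ℂ) * ((((Finset.univ : Finset (V → Bool)).filter
      (fun b => ∑ v ∈ F, bv (ZMod p) b v * x v = g)).card : ℕ) : ℂ) =
      ∑ t : ZMod p, (ZMod.stdAddChar (N := p)) (-(t * g)) *
        ∏ v, (1 + (ZMod.stdAddChar (N := p)) (if v ∈ F then t * x v else 0)) := by
  have h1 : ∀ t : ZMod p, (ZMod.stdAddChar (N := p)) (-(t * g)) *
      ∏ v, (1 + (ZMod.stdAddChar (N := p)) (if v ∈ F then t * x v else 0)) =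
      ∑ b : V → Bool, (ZMod.stdAddChar (N := p)) (t * ((∑ v ∈ F, bv (ZMod p) b v * x v) - g)) := by
    intro t
    rw [← halB_bool_sum p (fun v => if v ∈ F then t * x v else 0), Finset.mul_sum]
    refine Finset.sum_congr rfl fun b _ => ?_
    rw [← AddChar.map_add_eq_mul]
    congr 1
    have h2 : ∑ v, bv (ZMod p) b v * (if v ∈ F then t * x v else 0) =
        t * ∑ v ∈ F, bv (ZMod p) b v * x v := by
      rw [Finset.mul_sum]
      have h3 : ∀ v, bv (ZMod p) b v * (if v ∈ F then t * x v else 0) =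
          if v ∈ F then t * (bv (ZMod p) b v * x v) else 0 := by
        intro v
        split_ifs
        · ring
        · ring
      rw [Finset.sum_congr rfl fun v _ => h3 v, Finset.sum_ite_mem, Finset.univ_inter]
    rw [h2]
    ring
  rw [Finset.sum_congr rfl fun t _ => h1 t, Finset.sum_comm]
  have h4 : ∀ b : V → Bool, ∑ t : ZMod p, (ZMod.stdAddChar (N := p))
      (t * ((∑ v ∈ F, bv (ZMod p) b v * x v) - g)) =
      if (∑ v ∈ F, bv (ZMod p) b v * x v) = g then (p : ℂ) else 0 := by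
    intro b
    rw [AddChar.sum_mulShift _ (ZMod.isPrimitive_stdAddChar p), ZMod.card]
    by_cases hb : (∑ v ∈ F, bv (ZMod p) b v * x v) = g
    · rw [if_pos (sub_eq_zero.2 hb), if_pos hb]
    · rw [if_neg (fun h => hb (sub_eq_zero.1 h)), if_neg hb, Nat.cast_zero]
  rw [Finset.sum_congr rfl fun b _ => h4 b, ← Finset.sum_filter, Finset.sum_const, nsmul_eq_mul,
    mul_comm]

theorem hal1 (p : ℕ) [Fact p.Prime] {V : Type*} [Fintype V] [DecidableEq V] (F : Finset V)
    (x : V → ZMod p) (g : ZMod p) (M : ℝ) (hM : 0 ≤ M) :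
    (((Finset.univ : Finset (V → Bool)).filter
      (fun b => ∑ v ∈ F, bv (ZMod p) b v * x v = g)).card : ℝ) ≤
      2 ^ Fintype.card V * (((TM F x M).card : ℝ) / p + Real.exp (-2 * M)) := by
  have hp : (0 : ℝ) < p := by exact_mod_cast (Fact.out : p.Prime).pos
  set N : ℕ := ((Finset.univ : Finset (V → Bool)).filter
      (fun b => ∑ v ∈ F, bv (ZMod p) b v * x v = g)).card with hN
  have hid := Hal1_id p F x g
  rw [← hN] at hid
  have hnorm : (p : ℝ) * N = ‖(p : ℂ) * (N : ℂ)‖ := by
    rw [norm_mul, Complex.norm_natCast, Complex.norm_natCast]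
  have hterm : ∀ t : ZMod p, ‖(ZMod.stdAddChar (N := p)) (-(t * g)) *
        ∏ v, (1 + (ZMod.stdAddChar (N := p)) (if v ∈ F then t * x v else 0))‖ ≤
      2 ^ Fintype.card V * ((if t ∈ TM F x M then 1 else 0) + Real.exp (-2 * M)) := by
    intro t
    rw [norm_mul, AddChar.norm_apply, one_mul, norm_prod]
    have h1 : ∏ v, ‖(1 + (ZMod.stdAddChar (N := p)) (if v ∈ F then t * x v else 0) : ℂ)‖ ≤
        ∏ v : V, (2 * Real.exp (-2 * nn (if v ∈ F then t * x v else 0))) :=
      Finset.prod_le_prod (fun v _ => norm_nonneg _) (fun v _ => norm_one_add_char _)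
    refine h1.trans ?_
    rw [Finset.prod_mul_distrib, Finset.prod_const, Finset.card_univ]
    refine mul_le_mul_of_nonneg_left ?_ (by positivity)
    rw [← Real.exp_sum, ← Finset.mul_sum]
    have h2 : ∑ v, nn (if v ∈ F then t * x v else 0) = ∑ v ∈ F, nn (t * x v) := by
      have h3 : ∀ v, nn (if v ∈ F then t * x v else 0) = if v ∈ F then nn (t * x v) else 0 := by
        intro v
        split_ifs
        · rfl
        · exact nn_zero
      rw [Finset.sum_congr rfl fun v _ => h3 v, Finset.sum_ite_mem, Finset.univ_inter]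
    rw [h2]
    by_cases ht : t ∈ TM F x M
    · rw [if_pos ht]
      have h4 : Real.exp (-2 * ∑ v ∈ F, nn (t * x v)) ≤ 1 := by
        rw [Real.exp_le_one_iff]
        have : 0 ≤ ∑ v ∈ F, nn (t * x v) := Finset.sum_nonneg fun v _ => nn_nonneg _
        linarith
      have h5 := Real.exp_pos (-2 * M)
      linarith
    · rw [if_neg ht, zero_add]
      apply Real.exp_le_exp.2
      have h4 : M < ∑ v ∈ F, nn (t * x v) := by
        by_contra h5
        apply ht
        unfold TM
        rw [Finset.mem_filter]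
        exact ⟨Finset.mem_univ _, not_lt.1 h5⟩
      linarith
  have hsum : (p : ℝ) * N ≤ 2 ^ Fintype.card V * (((TM F x M).card : ℝ) +
      p * Real.exp (-2 * M)) := by
    rw [hnorm, hid]
    refine (norm_sum_le _ _).trans ((Finset.sum_le_sum fun t _ => hterm t).trans (le_of_eq ?_))
    rw [← Finset.mul_sum, Finset.sum_add_distrib, Finset.sum_const, Finset.card_univ, ZMod.card,
      nsmul_eq_mul, Finset.sum_ite_mem, Finset.univ_inter, Finset.sum_const, nsmul_eq_mul, mul_one]
  have h6 : (p : ℝ) * (2 ^ Fintype.card V * (((TM F x M).card : ℝ) / p + Real.exp (-2 * M))) =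
      2 ^ Fintype.card V * (((TM F x M).card : ℝ) + p * Real.exp (-2 * M)) := by
    field_simp
  rw [← h6] at hsum
  exact le_of_mul_le_mul_left hsum hp

end Pool.Agent.H95.DL
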