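import Pool.Agent.H95.DL.Hal1

/-!
# Job DL-5: the size of the level set and the number of relations

`rel K w C1 C2 C3` is the number of `τ` with pairs in `C1 × C1`, `C2 × C2`, `C3 × C3` and
`w τ11 - w τ12 + w τ21 - w τ22 + w τ31 - w τ32 = 0`.

PROOF of `hal2`.  For `t` put `B_j(t) = ∑_{v ∈ Cj} e(t x_v)`.  Then
`∏_j |B_j(t)|^2 = ∑_τ e(t (x τ11 - x τ12 + ...))`, so `∑_t ∏_j |B_j(t)|^2 = p * rel` (orthogonality:
`halB_char_sum` with `T = 1`, or `AddChar.sum_mulShift`).  If `t ∈ TM F x M0` then the real part of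
`B_j(t)` is at least `∑_{v ∈ Cj} (1 - 20 nn (t x_v)) ≥ c0 - 20 M0 ≥ c0 / 2` (`re_char_ge`, `Cj ⊆ F`,
`nn ≥ 0`), so `|B_j(t)|^2 ≥ c0^2 / 4` and `∏_j |B_j(t)|^2 ≥ c0^6 / 64`.  Sum over the level set.
-/

set_option autoImplicit false

namespace Pool.Agent.H95.DL

open Matrix Classical Pool.Agent.H66.SP Pool.Agent.H95.SQ

theorem cv_tv (K : Type*) [Field K] {V : Type*} [Fintype V] [DecidableEq V] (τ : Tr V)
    (w : V → K) : cv K (tv τ) ⬝ᵥ w =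
      (w τ.1.1 - w τ.1.2) + (w τ.2.1.1 - w τ.2.1.2) + (w τ.2.2.1 - w τ.2.2.2) := by
  have hadd : ∀ q r : V → ℤ, cv K (q + r) = cv K q + cv K r := by
    intro q r
    funext v
    simp [cv]
  have hsub : ∀ q r : V → ℤ, cv K (q - r) = cv K q - cv K r := by
    intro q r
    funext v
    simp [cv]
  have hd : ∀ (D : DecidableEq V) (a : V),
      cv K (@Pi.single V (fun _ => ℤ) _ D a 1) ⬝ᵥ w = w a := by
    intro D a
    unfold dotProduct cv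
    rw [Finset.sum_eq_single a]
    · rw [Pi.single_eq_same, Int.cast_one, one_mul]
    · intro v _ hv
      rw [Pi.single_eq_of_ne hv, Int.cast_zero, zero_mul]
    · intro h
      exact absurd (Finset.mem_univ a) h
  unfold tv
  simp only [hadd, hsub, add_dotProduct, sub_dotProduct, hd]

/-- number of relations between the entries of `w` with pairs in three blocks -/
noncomputable def rel (K : Type*) [Field K] {V : Type*} [Fintype V] (w : V → K)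
    (C1 C2 C3 : Finset V) : ℕ :=
  (((C1 ×ˢ C1) ×ˢ (C2 ×ˢ C2) ×ˢ (C3 ×ˢ C3)).filter
    (fun τ : Tr V => cv K (tv τ) ⬝ᵥ w = 0)).card

theorem Hal2_sq (p : ℕ) [Fact p.Prime] {V : Type*} (x : V → ZMod p) (C : Finset V) (t : ZMod p) :
    ((‖∑ v ∈ C, (ZMod.stdAddChar (N := p)) (t * x v)‖ ^ 2 : ℝ) : ℂ) =
      ∑ a ∈ C ×ˢ C, (ZMod.stdAddChar (N := p)) (t * (x a.1 - x a.2)) := by
  rw [← Complex.normSq_eq_norm_sq, ← Complex.mul_conj, map_sum, Finset.sum_mul_sum,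
    Finset.sum_product]
  refine Finset.sum_congr rfl fun a _ => Finset.sum_congr rfl fun b _ => ?_
  rw [← AddChar.map_neg_eq_conj, ← AddChar.map_add_eq_mul]
  congr 1
  ring

theorem Hal2_sum (p : ℕ) [Fact p.Prime] {V : Type*} [Fintype V] [DecidableEq V]
    (x : V → ZMod p) (C1 C2 C3 : Finset V) :
    ∑ t : ZMod p, (‖∑ v ∈ C1, (ZMod.stdAddChar (N := p)) (t * x v)‖ ^ 2 *
      (‖∑ v ∈ C2, (ZMod.stdAddChar (N := p)) (t * x v)‖ ^ 2 *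
      ‖∑ v ∈ C3, (ZMod.stdAddChar (N := p)) (t * x v)‖ ^ 2)) =
      p * (rel (ZMod p) x C1 C2 C3 : ℝ) := by
  have h1 : ∀ t : ZMod p, (((‖∑ v ∈ C1, (ZMod.stdAddChar (N := p)) (t * x v)‖ ^ 2 *
      (‖∑ v ∈ C2, (ZMod.stdAddChar (N := p)) (t * x v)‖ ^ 2 *
      ‖∑ v ∈ C3, (ZMod.stdAddChar (N := p)) (t * x v)‖ ^ 2) : ℝ)) : ℂ) =
      ∑ τ ∈ (C1 ×ˢ C1) ×ˢ (C2 ×ˢ C2) ×ˢ (C3 ×ˢ C3),
        (ZMod.stdAddChar (N := p)) (t * (cv (ZMod p) (tv (τ : Tr V)) ⬝ᵥ x)) := by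
    intro t
    rw [Complex.ofReal_mul, Complex.ofReal_mul, Hal2_sq, Hal2_sq, Hal2_sq, Finset.sum_mul_sum,
      ← Finset.sum_product', Finset.sum_mul_sum, ← Finset.sum_product']
    refine Finset.sum_congr rfl fun τ _ => ?_
    rw [cv_tv, ← AddChar.map_add_eq_mul, ← AddChar.map_add_eq_mul]
    congr 1
    ring
  have h2 : ((∑ t : ZMod p, (‖∑ v ∈ C1, (ZMod.stdAddChar (N := p)) (t * x v)‖ ^ 2 *
      (‖∑ v ∈ C2, (ZMod.stdAddChar (N := p)) (t * x v)‖ ^ 2 *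
      ‖∑ v ∈ C3, (ZMod.stdAddChar (N := p)) (t * x v)‖ ^ 2)) : ℝ) : ℂ) =
      ((p * (rel (ZMod p) x C1 C2 C3 : ℝ) : ℝ) : ℂ) := by
    rw [Complex.ofReal_sum, Finset.sum_congr rfl fun t _ => h1 t, Finset.sum_comm]
    have h3 : ∀ τ : Tr V, ∑ t : ZMod p, (ZMod.stdAddChar (N := p))
        (t * (cv (ZMod p) (tv τ) ⬝ᵥ x)) =
        if cv (ZMod p) (tv τ) ⬝ᵥ x = 0 then (p : ℂ) else 0 := by
      intro τ
      rw [AddChar.sum_mulShift _ (ZMod.isPrimitive_stdAddChar p), ZMod.card]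
      split_ifs <;> simp
    have h5 : rel (ZMod p) x C1 C2 C3 = (((C1 ×ˢ C1) ×ˢ (C2 ×ˢ C2) ×ˢ (C3 ×ˢ C3)).filter
        (fun τ : Tr V => cv (ZMod p) (tv τ) ⬝ᵥ x = 0)).card := by
      unfold rel
      congr
    rw [Finset.sum_congr rfl fun τ _ => h3 τ, ← Finset.sum_filter, Finset.sum_const,
      nsmul_eq_mul, ← h5]
    push_cast
    rw [mul_comm]
  exact Complex.ofReal_injective h2

theorem Hal2_low (p : ℕ) [Fact p.Prime] {V : Type*} (F : Finset V)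
    (x : V → ZMod p) (C : Finset V) (h : C ⊆ F) (c0 : ℕ) (hc : C.card = c0) (M0 : ℝ)
    (hM0 : 40 * M0 ≤ c0) (t : ZMod p) (ht : t ∈ TM F x M0) :
    (c0 : ℝ) ^ 2 / 4 ≤ ‖∑ v ∈ C, (ZMod.stdAddChar (N := p)) (t * x v)‖ ^ 2 := by
  unfold TM at ht
  rw [Finset.mem_filter] at ht
  have h1 : (c0 : ℝ) / 2 ≤ (∑ v ∈ C, (ZMod.stdAddChar (N := p)) (t * x v)).re := by
    rw [Complex.re_sum]
    have h2 : ∑ v ∈ C, (1 - 20 * nn (t * x v)) ≤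
        ∑ v ∈ C, ((ZMod.stdAddChar (N := p)) (t * x v) : ℂ).re :=
      Finset.sum_le_sum fun v _ => re_char_ge _
    refine le_trans ?_ h2
    rw [Finset.sum_sub_distrib, Finset.sum_const, hc, nsmul_eq_mul, mul_one, ← Finset.mul_sum]
    have h3 : ∑ v ∈ C, nn (t * x v) ≤ ∑ v ∈ F, nn (t * x v) :=
      Finset.sum_le_sum_of_subset_of_nonneg h fun v _ _ => nn_nonneg _
    linarith [ht.2]
  have h4 := h1.trans (Complex.re_le_norm _)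
  have h5 : (0 : ℝ) ≤ (c0 : ℝ) / 2 := by positivity
  have h6 := pow_le_pow_left₀ h5 h4 2
  calc (c0 : ℝ) ^ 2 / 4 = ((c0 : ℝ) / 2) ^ 2 := by ring
    _ ≤ _ := h6

theorem hal2 (p : ℕ) [Fact p.Prime] {V : Type*} [Fintype V] [DecidableEq V] (F : Finset V)
    (x : V → ZMod p) (C1 C2 C3 : Finset V) (h1 : C1 ⊆ F) (h2 : C2 ⊆ F) (h3 : C3 ⊆ F) (c0 : ℕ)
    (hc1 : C1.card = c0) (hc2 : C2.card = c0) (hc3 : C3.card = c0) (M0 : ℝ)
    (hM0 : 40 * M0 ≤ c0) :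
    ((TM F x M0).card : ℝ) * (c0 : ℝ) ^ 6 ≤ 64 * p * (rel (ZMod p) x C1 C2 C3 : ℝ) := by
  have h0 : (0 : ℝ) ≤ (c0 : ℝ) ^ 2 / 4 := by positivity
  have hlow : ∀ t ∈ TM F x M0, (c0 : ℝ) ^ 6 / 64 ≤
      ‖∑ v ∈ C1, (ZMod.stdAddChar (N := p)) (t * x v)‖ ^ 2 *
      (‖∑ v ∈ C2, (ZMod.stdAddChar (N := p)) (t * x v)‖ ^ 2 *
      ‖∑ v ∈ C3, (ZMod.stdAddChar (N := p)) (t * x v)‖ ^ 2) := by
    intro t ht
    have e1 := Hal2_low p F x C1 h1 c0 hc1 M0 hM0 t ht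
    have e2 := Hal2_low p F x C2 h2 c0 hc2 M0 hM0 t ht
    have e3 := Hal2_low p F x C3 h3 c0 hc3 M0 hM0 t ht
    calc (c0 : ℝ) ^ 6 / 64 = (c0 : ℝ) ^ 2 / 4 * ((c0 : ℝ) ^ 2 / 4 * ((c0 : ℝ) ^ 2 / 4)) := by ring
      _ ≤ _ := mul_le_mul e1 (mul_le_mul e2 e3 h0 (by positivity)) (by positivity) (by positivity)
  have hsum : ((TM F x M0).card : ℝ) * ((c0 : ℝ) ^ 6 / 64) ≤
      p * (rel (ZMod p) x C1 C2 C3 : ℝ) := by
    rw [← Hal2_sum p x C1 C2 C3]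
    calc ((TM F x M0).card : ℝ) * ((c0 : ℝ) ^ 6 / 64) =
        ∑ _t ∈ TM F x M0, ((c0 : ℝ) ^ 6 / 64) := by rw [Finset.sum_const, nsmul_eq_mul]
      _ ≤ ∑ t ∈ TM F x M0, (‖∑ v ∈ C1, (ZMod.stdAddChar (N := p)) (t * x v)‖ ^ 2 *
          (‖∑ v ∈ C2, (ZMod.stdAddChar (N := p)) (t * x v)‖ ^ 2 *
          ‖∑ v ∈ C3, (ZMod.stdAddChar (N := p)) (t * x v)‖ ^ 2)) := Finset.sum_le_sum hlow
      _ ≤ _ := Finset.sum_le_sum_of_subset_of_nonneg (Finset.subset_univ _)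
          (fun t _ _ => by positivity)
  linarith

end Pool.Agent.H95.DL
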