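import Pool.Agent.H95.DL.Hal2
import Pool.Agent.H95.DL.Gro

/-!
# Job DL-6: the Halasz bound modulo a prime

PROOF.  `hal1`: the count is at most `2^|V| (|T_M| / p + exp(-2M))` with `T_M = TM F x M`.
`T := T_M` contains `0`; if `t_1, ..., t_k ∈ T_M` then
`∑_{v ∈ F} nn ((∑ t_i) x_v) ≤ k ∑_i ∑_v nn (t_i x_v) ≤ k^2 M ≤ M0` (`nn_sum_le`), so the sum is in
`T' := TM F x M0`.  `T' ≠ univ`: otherwise `∑_t ∑_{v ∈ F} nn (t x_v) ≤ p M0`, but for every `v ∈ F`
with `x_v ≠ 0` one has `∑_t nn (t x_v) ≥ p / 20` (`sum_nn_ge` for `H = ZMod p`, `f = t ↦ t x_v`), so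
`#{v ∈ F | x_v ≠ 0} p / 20 ≤ p M0`, contradicting `20 M0 < #{..}`.  By `growth`
`|T_M| ≤ 1 + |T'| / k` and by `hal2` `|T'| / p ≤ 64 rel / c0^6`.
(If `c0 = 0` then `M0 ≤ 0`... note `hnz` gives `20 M0 < #`; if `c0 = 0` division by zero makes
`rel / c0^6 = 0` in Lean; to avoid this case `hc0 : 1 ≤ c0` is assumed.)
-/

set_option autoImplicit false

namespace Pool.Agent.H95.DL

open Matrix Classical Pool.Agent.H66.SP Pool.Agent.H95.SQ

theorem hal3 (p : ℕ) [Fact p.Prime] {V : Type*} [Fintype V] [DecidableEq V] (F : Finset V)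
    (x : V → ZMod p) (g : ZMod p) (C1 C2 C3 : Finset V) (h1 : C1 ⊆ F) (h2 : C2 ⊆ F) (h3 : C3 ⊆ F)
    (c0 k : ℕ) (hc0 : 1 ≤ c0) (hc1 : C1.card = c0) (hc2 : C2.card = c0) (hc3 : C3.card = c0)
    (hk : 1 ≤ k) (M M0 : ℝ) (hM : 0 ≤ M) (hkM : (k : ℝ) ^ 2 * M ≤ M0) (hM0 : 40 * M0 ≤ c0)
    (hnz : 20 * M0 < ((F.filter (fun v => x v ≠ 0)).card : ℝ)) :
    (((Finset.univ : Finset (V → Bool)).filter
      (fun b => ∑ v ∈ F, bv (ZMod p) b v * x v = g)).card : ℝ) ≤
      2 ^ Fintype.card V * (1 / p + Real.exp (-2 * M) +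
        64 / k * ((rel (ZMod p) x C1 C2 C3 : ℝ) / (c0 : ℝ) ^ 6)) := by
  have hp : (0 : ℝ) < p := by exact_mod_cast (Fact.out : p.Prime).pos
  have hk' : (0 : ℝ) < k := by exact_mod_cast hk
  have hc0' : (0 : ℝ) < (c0 : ℝ) ^ 6 := by
    have : (0 : ℝ) < c0 := by exact_mod_cast hc0
    positivity
  have hmem : ∀ (t : ZMod p) (L : ℝ), t ∈ TM F x L ↔ ∑ v ∈ F, nn (t * x v) ≤ L := by
    intro t L
    unfold TM
    rw [Finset.mem_filter]
    exact ⟨fun h => h.2, fun h => ⟨Finset.mem_univ _, h⟩⟩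
  have h0 : (0 : ZMod p) ∈ TM F x M := by
    rw [hmem]
    have : ∑ v ∈ F, nn (0 * x v) = 0 := by
      refine Finset.sum_eq_zero fun v _ => ?_
      rw [zero_mul]
      exact nn_zero
    rw [this]
    exact hM
  have hsub : ∀ f : Fin k → ZMod p, (∀ i, f i ∈ TM F x M) → ∑ i, f i ∈ TM F x M0 := by
    intro f hf
    rw [hmem]
    have e1 : ∀ v ∈ F, nn ((∑ i, f i) * x v) ≤ k * ∑ i, nn (f i * x v) := by
      intro v _
      rw [Finset.sum_mul]
      have := nn_sum_le (Finset.univ : Finset (Fin k)) (fun i => f i * x v)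
      rwa [Finset.card_univ, Fintype.card_fin] at this
    refine (Finset.sum_le_sum e1).trans ?_
    rw [← Finset.mul_sum, Finset.sum_comm]
    have e2 : ∑ i : Fin k, ∑ v ∈ F, nn (f i * x v) ≤ ∑ _i : Fin k, M :=
      Finset.sum_le_sum fun i _ => (hmem _ _).1 (hf i)
    rw [Finset.sum_const, Finset.card_univ, Fintype.card_fin, nsmul_eq_mul] at e2
    calc (k : ℝ) * ∑ i : Fin k, ∑ v ∈ F, nn (f i * x v) ≤ k * (k * M) :=
          mul_le_mul_of_nonneg_left e2 hk'.le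
      _ = (k : ℝ) ^ 2 * M := by ring
      _ ≤ M0 := hkM
  have hT' : TM F x M0 ≠ Finset.univ := by
    intro hu
    have e1 : ∑ t : ZMod p, ∑ v ∈ F, nn (t * x v) ≤ p * M0 := by
      have : ∑ t : ZMod p, ∑ v ∈ F, nn (t * x v) ≤ ∑ _t : ZMod p, M0 := by
        refine Finset.sum_le_sum fun t _ => ?_
        rw [← hmem, hu]
        exact Finset.mem_univ _
      rwa [Finset.sum_const, Finset.card_univ, ZMod.card, nsmul_eq_mul] at this
    have e2 : ∑ t : ZMod p, ∑ v ∈ F, nn (t * x v) ≥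
        ((F.filter (fun v => x v ≠ 0)).card : ℝ) * (p / 20) := by
      rw [Finset.sum_comm]
      calc ((F.filter (fun v => x v ≠ 0)).card : ℝ) * (p / 20) =
          ∑ _v ∈ F.filter (fun v => x v ≠ 0), ((p : ℝ) / 20) := by
            rw [Finset.sum_const, nsmul_eq_mul]
        _ ≤ ∑ v ∈ F.filter (fun v => x v ≠ 0), ∑ t : ZMod p, nn (t * x v) := by
            refine Finset.sum_le_sum fun v hv => ?_
            have hv' := (Finset.mem_filter.1 hv).2
            have := sum_nn_ge (AddMonoidHom.mulRight (x v)) (by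
              intro h5
              apply hv'
              have h6 := DFunLike.congr_fun h5 (1 : ZMod p)
              simpa using h6)
            rw [ZMod.card] at this
            simpa using this
        _ ≤ ∑ v ∈ F, ∑ t : ZMod p, nn (t * x v) :=
            Finset.sum_le_sum_of_subset_of_nonneg (Finset.filter_subset _ _)
              (fun v _ _ => Finset.sum_nonneg fun t _ => nn_nonneg _)
    have e3 : (p : ℝ) * (20 * M0) < p * ((F.filter (fun v => x v ≠ 0)).card : ℝ) :=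
      mul_lt_mul_of_pos_left hnz hp
    linarith
  have hg := growth p k hk (TM F x M) (TM F x M0) h0 hsub hT'
  have h5 := hal2 p F x C1 C2 C3 h1 h2 h3 c0 hc1 hc2 hc3 M0 hM0
  have h6 := hal1 p F x g M hM
  refine h6.trans (mul_le_mul_of_nonneg_left ?_ (by positivity))
  have h7 : ((TM F x M0).card : ℝ) / p ≤ 64 * ((rel (ZMod p) x C1 C2 C3 : ℝ) / (c0 : ℝ) ^ 6) := by
    rw [div_le_iff₀ hp, mul_div_assoc', div_mul_eq_mul_div, le_div_iff₀ hc0']
    linarith
  have h8 : ((TM F x M).card : ℝ) / p ≤ 1 / p + ((TM F x M0).card : ℝ) / p / k := by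
    calc ((TM F x M).card : ℝ) / p ≤ (1 + ((TM F x M0).card : ℝ) / k) / p :=
          div_le_div_of_nonneg_right hg hp.le
      _ = _ := by field_simp
  have h9 : ((TM F x M0).card : ℝ) / p / k ≤
      64 / k * ((rel (ZMod p) x C1 C2 C3 : ℝ) / (c0 : ℝ) ^ 6) := by
    calc ((TM F x M0).card : ℝ) / p / k ≤
        (64 * ((rel (ZMod p) x C1 C2 C3 : ℝ) / (c0 : ℝ) ^ 6)) / k :=
          div_le_div_of_nonneg_right h7 hk'.le
      _ = _ := by ring
  linarith

end Pool.Agent.H95.DL
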