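import Pool.Agent.H95.DL.Def2

/-!
# Job DL-13: spaces which are not fine (L1)

PROOF of `finrank_of_fine`: every `w ∈ E` is a multiple of `w₁` or of `w₂`.  If `w₁, w₂` are linearly
independent then `w₁ + w₂ ∈ E` is a multiple of neither.  So `E` is contained in the span of one
vector (if `w₂ = c w₁` everything is a multiple of `w₁`; if `w₁ = c w₂`, of `w₂`).
`fine_of_finrank`: `E` is spanned by one vector (`finrank_le_one_iff`).
PROOF of `exists_hyper`.  `¬ iso`: if `finrank E ≤ 1` then `E` is fine; so `finrank E ≥ 2` and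
`f` restricted to `E` has a nontrivial kernel.  `iso`: `finrank E ≥ 2` by `fine_of_finrank`.
If `finrank E ≥ 3` the kernel `E'` of `f` on `E` has dimension `≥ 2`; for independent `u, v ∈ E'`
the polynomial `(x u + v)·(x u + v) = x^2 u·u + 2 x u·v + v·v` has a root if `u·u ≠ 0`
(`IsAlgClosed.exists_root`/`exists_pow_nat_eq` after completing the square; or
`IsAlgClosed.exists_root` of a polynomial of degree `2`), and `u` itself is isotropic if `u·u = 0`.
If `finrank E = 2` with basis `u, v`: if `w·w = 0` for all `w ∈ E` take any nonzero `w ∈ E` with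
`f w = 0` (dimension 2 > 1).  Otherwise the form `x^2 a + 2 x y b + y^2 c` (`a = u·u`, `b = u·v`,
`c = v·v`) is not identically `0` and all its zeros are on two lines: if `a ≠ 0`, let `r₁, r₂` be the
roots of `a X^2 + 2 b X + c = a (X - r₁)(X - r₂)`; a zero `x u + y v` has `y ≠ 0` or is `0`, and
`x / y ∈ {r₁, r₂}`, so `w₁ = r₁ u + v`, `w₂ = r₂ u + v`.  Same if `c ≠ 0`.  If `a = c = 0` then
`2 b ≠ 0` and the zeros have `x y = 0`: `w₁ = u`, `w₂ = v`.  So `E` is fine, a contradiction.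
-/

set_option autoImplicit false

namespace Pool.Agent.H95.DL

open Matrix Classical Pool.Agent.H66.SP Pool.Agent.H95.SQ

theorem finrank_of_fine {K : Type*} [Field K] {V : Type*} [Fintype V]
    (E : Submodule K (V → K)) (h : Fine False E) : Module.finrank K E ≤ 1 := by
  obtain ⟨w₁, h₁, w₂, h₂, h⟩ := h
  have h' : ∀ w ∈ E, (∃ c : K, w = c • w₁) ∨ (∃ c : K, w = c • w₂) :=
    fun w hw => h w hw (fun hf => hf.elim)
  have key : (∃ c : K, w₂ = c • w₁) ∨ (∃ c : K, w₁ = c • w₂) := by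
    rcases h' (w₁ + w₂) (E.add_mem h₁ h₂) with ⟨c, hc⟩ | ⟨c, hc⟩
    · left
      refine ⟨c - 1, ?_⟩
      rw [sub_smul, one_smul, ← hc, add_sub_cancel_left]
    · right
      refine ⟨c - 1, ?_⟩
      rw [sub_smul, one_smul, ← hc, add_sub_cancel_right]
  rcases key with ⟨d, hd⟩ | ⟨d, hd⟩
  · refine finrank_le_one (⟨w₁, h₁⟩ : E) fun w => ?_
    rcases h' w w.2 with ⟨c, hc⟩ | ⟨c, hc⟩
    · exact ⟨c, Subtype.ext hc.symm⟩
    · refine ⟨c * d, Subtype.ext ?_⟩
      rw [hc, hd, smul_smul]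
      rfl
  · refine finrank_le_one (⟨w₂, h₂⟩ : E) fun w => ?_
    rcases h' w w.2 with ⟨c, hc⟩ | ⟨c, hc⟩
    · refine ⟨c * d, Subtype.ext ?_⟩
      rw [hc, hd, smul_smul]
      rfl
    · exact ⟨c, Subtype.ext hc.symm⟩

theorem fine_of_finrank (iso : Prop) {K : Type*} [Field K] {V : Type*} [Fintype V]
    (E : Submodule K (V → K)) (h : Module.finrank K E ≤ 1) : Fine iso E := by
  obtain ⟨v, hv⟩ := finrank_le_one_iff.1 h
  refine ⟨v, v.2, v, v.2, fun w hw _ => ?_⟩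
  obtain ⟨c, hc⟩ := hv ⟨w, hw⟩
  left
  refine ⟨c, ?_⟩
  have h1 := congrArg Subtype.val hc
  exact h1.symm

theorem Hyp_root {K : Type*} [Field K] [IsAlgClosed K] (a b c : K) (ha : a ≠ 0) :
    ∃ x : K, a * x ^ 2 + b * x + c = 0 := by
  have hd : (Polynomial.C a * Polynomial.X ^ 2 + Polynomial.C b * Polynomial.X +
      Polynomial.C c).degree ≠ 0 := by
    rw [Polynomial.degree_quadratic ha]
    decide
  obtain ⟨x, hx⟩ := IsAlgClosed.exists_root _ hd
  refine ⟨x, ?_⟩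
  have h1 := hx
  rw [Polynomial.IsRoot.def] at h1
  simpa using h1

theorem Hyp_form {K : Type*} [Field K] {V : Type*} [Fintype V] (u v : V → K) (x y : K) :
    (x • u + y • v) ⬝ᵥ (x • u + y • v) =
      x ^ 2 * (u ⬝ᵥ u) + 2 * (x * y * (u ⬝ᵥ v)) + y ^ 2 * (v ⬝ᵥ v) := by
  simp only [add_dotProduct, dotProduct_add, smul_dotProduct, dotProduct_smul, smul_eq_mul,
    dotProduct_comm v u]
  ring

theorem Hyp_fine2 (iso : Prop) (hi : iso) {K : Type*} [Field K] [IsAlgClosed K] {V : Type*}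
    [Fintype V] (E : Submodule K (V → K)) (u v : V → K) (hu : u ∈ E) (hv : v ∈ E)
    (hs : ∀ w ∈ E, ∃ x y : K, w = x • u + y • v) (ha : u ⬝ᵥ u ≠ 0) : Fine iso E := by
  obtain ⟨r₁, h₁⟩ := Hyp_root (u ⬝ᵥ u) (2 * (u ⬝ᵥ v)) (v ⬝ᵥ v) ha
  obtain ⟨r₂, h₂⟩ : ∃ r₂ : K, (u ⬝ᵥ u) * (r₁ + r₂) = -(2 * (u ⬝ᵥ v)) :=
    ⟨-(2 * (u ⬝ᵥ v)) / (u ⬝ᵥ u) - r₁, by field_simp; ring⟩
  refine ⟨r₁ • u + v, E.add_mem (E.smul_mem _ hu) hv, r₂ • u + v,
    E.add_mem (E.smul_mem _ hu) hv, fun w hw h => ?_⟩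
  obtain ⟨x, y, rfl⟩ := hs w hw
  have h3 := h hi
  rw [Hyp_form] at h3
  have h4 : (u ⬝ᵥ u) * ((x - r₁ * y) * (x - r₂ * y)) = 0 := by
    linear_combination h3 - x * y * h₂ - y ^ 2 * h₁ + y ^ 2 * r₁ * h₂
  rcases mul_eq_zero.1 ((mul_eq_zero.1 h4).resolve_left ha) with h5 | h5
  · left
    refine ⟨y, ?_⟩
    have h6 : x = r₁ * y := sub_eq_zero.1 h5
    rw [h6, smul_add, smul_smul, mul_comm]
  · right
    refine ⟨y, ?_⟩
    have h6 : x = r₂ * y := sub_eq_zero.1 h5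
    rw [h6, smul_add, smul_smul, mul_comm]

theorem Hyp_fine0 (iso : Prop) (hi : iso) {K : Type*} [Field K] {V : Type*}
    [Fintype V] (E : Submodule K (V → K)) (u v : V → K) (hu : u ∈ E) (hv : v ∈ E)
    (hs : ∀ w ∈ E, ∃ x y : K, w = x • u + y • v) (ha : u ⬝ᵥ u = 0) (hc : v ⬝ᵥ v = 0)
    (hn : ∃ w ∈ E, w ⬝ᵥ w ≠ 0) : Fine iso E := by
  have hb : 2 * (u ⬝ᵥ v) ≠ 0 := by
    intro hb
    obtain ⟨w, hw, hw0⟩ := hn
    obtain ⟨x, y, rfl⟩ := hs w hw
    apply hw0
    rw [Hyp_form, ha, hc]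
    linear_combination x * y * hb
  refine ⟨u, hu, v, hv, fun w hw h => ?_⟩
  obtain ⟨x, y, rfl⟩ := hs w hw
  have h3 := h hi
  rw [Hyp_form, ha, hc] at h3
  have h4 : (2 * (u ⬝ᵥ v)) * (x * y) = 0 := by linear_combination h3
  rcases mul_eq_zero.1 ((mul_eq_zero.1 h4).resolve_left hb) with h5 | h5
  · right
    exact ⟨y, by rw [h5, zero_smul, zero_add]⟩
  · left
    exact ⟨x, by rw [h5, zero_smul, add_zero]⟩

theorem Hyp_ker {K : Type*} [Field K] {V : Type*} [Fintype V] (E : Submodule K (V → K))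
    (f : (V → K) →ₗ[K] K) :
    Module.finrank K E ≤ Module.finrank K (LinearMap.ker (f.domRestrict E)) + 1 := by
  have h1 := LinearMap.finrank_range_add_finrank_ker (f.domRestrict E)
  have h2 : Module.finrank K (LinearMap.range (f.domRestrict E)) ≤ 1 := by
    have h3 := Submodule.finrank_le (LinearMap.range (f.domRestrict E))
    rw [Module.finrank_self] at h3
    exact h3
  omega

theorem Hyp_nz {K : Type*} [Field K] {V : Type*} [Fintype V] (E : Submodule K (V → K))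
    (f : (V → K) →ₗ[K] K) (h : 2 ≤ Module.finrank K E) : ∃ w ∈ E, w ≠ 0 ∧ f w = 0 := by
  have h1 := Hyp_ker E f
  have h2 : 0 < Module.finrank K (LinearMap.ker (f.domRestrict E)) := by omega
  obtain ⟨w, hw⟩ := (Module.finrank_pos_iff_exists_ne_zero (R := K)
    (M := LinearMap.ker (f.domRestrict E))).1 h2
  refine ⟨w.1.1, w.1.2, ?_, w.2⟩
  intro h3
  apply hw
  apply Subtype.ext
  apply Subtype.ext
  exact h3

theorem exists_hyper (iso : Prop) {K : Type*} [Field K] [IsAlgClosed K] {V : Type*} [Fintype V]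
    (E : Submodule K (V → K)) (hE : ¬ Fine iso E) (f : (V → K) →ₗ[K] K) :
    ∃ w ∈ E, w ≠ 0 ∧ (iso → w ⬝ᵥ w = 0) ∧ f w = 0 := by
  have h2 : 2 ≤ Module.finrank K E := by
    by_contra h
    exact hE (fine_of_finrank iso E (by omega))
  by_cases hi : iso
  swap
  · obtain ⟨w, hw, h0, hf⟩ := Hyp_nz E f h2
    exact ⟨w, hw, h0, fun h => absurd h hi, hf⟩
  by_cases h3 : 3 ≤ Module.finrank K E
  · have h4 := Hyp_ker E f
    have h5 : 1 < Module.finrank K (LinearMap.ker (f.domRestrict E)) := by omega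
    obtain ⟨u, hu⟩ := (Module.finrank_pos_iff_exists_ne_zero (R := K)
      (M := LinearMap.ker (f.domRestrict E))).1 (lt_trans Nat.zero_lt_one h5)
    obtain ⟨v, hv⟩ := exists_linearIndependent_pair_of_one_lt_finrank h5 hu
    have hu0 : u.1.1 ≠ 0 := by
      intro h6
      apply hu
      apply Subtype.ext
      apply Subtype.ext
      exact h6
    have hfu : f u.1.1 = 0 := u.2
    have hfv : f v.1.1 = 0 := v.2
    by_cases ha : u.1.1 ⬝ᵥ u.1.1 = 0
    · exact ⟨u.1.1, u.1.2, hu0, fun _ => ha, hfu⟩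
    · obtain ⟨x, hx⟩ := Hyp_root (u.1.1 ⬝ᵥ u.1.1) (2 * (u.1.1 ⬝ᵥ v.1.1)) (v.1.1 ⬝ᵥ v.1.1) ha
      refine ⟨x • u.1.1 + (1 : K) • v.1.1,
        E.add_mem (E.smul_mem _ u.1.2) (E.smul_mem _ v.1.2), ?_, fun _ => ?_, ?_⟩
      · intro h6
        have h7 : x • u + (1 : K) • v = 0 := by
          apply Subtype.ext
          apply Subtype.ext
          exact h6
        have h8 := (LinearIndependent.pair_iff.1 hv x 1 h7).2
        exact one_ne_zero h8
      · rw [Hyp_form]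
        linear_combination hx
      · rw [map_add, map_smul, map_smul, hfu, hfv, smul_zero, smul_zero, add_zero]
  · have h4 : Module.finrank K E = 2 := by omega
    by_cases hn : ∃ w ∈ E, w ⬝ᵥ w ≠ 0
    · exfalso
      apply hE
      let b := Module.finBasisOfFinrankEq K E h4
      have hs : ∀ w ∈ E, ∃ x y : K, w = x • (b 0).1 + y • (b 1).1 := by
        intro w hw
        refine ⟨b.repr ⟨w, hw⟩ 0, b.repr ⟨w, hw⟩ 1, ?_⟩
        have h5 := b.sum_repr ⟨w, hw⟩
        rw [Fin.sum_univ_two] at h5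
        exact (congrArg Subtype.val h5).symm
      have hs' : ∀ w ∈ E, ∃ x y : K, w = x • (b 1).1 + y • (b 0).1 := by
        intro w hw
        obtain ⟨x, y, h5⟩ := hs w hw
        exact ⟨y, x, by rw [h5, add_comm]⟩
      by_cases ha : (b 0).1 ⬝ᵥ (b 0).1 = 0
      · by_cases hc : (b 1).1 ⬝ᵥ (b 1).1 = 0
        · exact Hyp_fine0 iso hi E _ _ (b 0).2 (b 1).2 hs ha hc hn
        · exact Hyp_fine2 iso hi E _ _ (b 1).2 (b 0).2 hs' hc
      · exact Hyp_fine2 iso hi E _ _ (b 0).2 (b 1).2 hs ha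
    · push Not at hn
      obtain ⟨w, hw, h0, hf⟩ := Hyp_nz E f h2
      exact ⟨w, hw, h0, fun _ => hn w hw, hf⟩

end Pool.Agent.H95.DL
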