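import Pool.Agent.H95.DL.Hal2

/-!
# Job DL-11: relations in blocks are tests

`rel_le`: the number of relations with pairs in three disjoint blocks is at most the number of
relations which are tests, plus `c0^3` (the relations in which all three pairs are trivial).

PROOF.  Let `τ` be in the blocks and not all three pairs trivial (`τ11 = τ12`, ...).  Then `tv τ` is
the sum of `e_a - e_b` over the nontrivial pairs, these involve `2, 4` or `6` different vertices (the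
blocks are disjoint), so `IsTest (tv τ)`, and `tv τ` vanishes outside of `C1 ∪ C2 ∪ C3`.
The number of `τ` with three trivial pairs is `|C1| |C2| |C3| = c0^3`.
-/

set_option autoImplicit false

namespace Pool.Agent.H95.DL

open Matrix Classical Pool.Agent.H66.SP Pool.Agent.H95.SQ

/-- the difference of two unit vectors -/
noncomputable def Tst_d {V : Type*} (a b : V) : V → ℤ := Pi.single a 1 - Pi.single b 1

/-- its support -/
noncomputable def Tst_s {V : Type*} (a b : V) : Finset V := if a = b then ∅ else {a, b}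

theorem Tst_d_val {V : Type*} (a b v : V) :
    (Tst_d a b v = 0 ∧ v ∉ Tst_s a b) ∨ ((Tst_d a b v = 1 ∨ Tst_d a b v = -1) ∧ v ∈ Tst_s a b) := by
  unfold Tst_d Tst_s
  rw [Pi.sub_apply, Pi.single_apply, Pi.single_apply]
  by_cases hab : a = b
  · subst hab
    left
    rw [if_pos rfl, sub_self]
    exact ⟨rfl, Finset.notMem_empty _⟩
  · rw [if_neg hab, Finset.mem_insert, Finset.mem_singleton]
    by_cases h1 : v = a
    · subst h1
      right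
      rw [if_pos rfl, if_neg hab]
      exact ⟨Or.inl rfl, Or.inl rfl⟩
    · by_cases h2 : v = b
      · subst h2
        right
        rw [if_pos rfl, if_neg h1]
        exact ⟨Or.inr rfl, Or.inr rfl⟩
      · left
        rw [if_neg h1, if_neg h2]
        refine ⟨rfl, ?_⟩
        tauto

theorem Tst_s_card {V : Type*} (a b : V) :
    (a = b ∧ (Tst_s a b).card = 0) ∨ (a ≠ b ∧ (Tst_s a b).card = 2) := by
  unfold Tst_s
  by_cases hab : a = b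
  · left
    rw [if_pos hab]
    exact ⟨hab, Finset.card_empty⟩
  · right
    rw [if_neg hab]
    exact ⟨hab, Finset.card_pair hab⟩

theorem Tst_s_sub {V : Type*} (a b : V) (C : Finset V) (ha : a ∈ C) (hb : b ∈ C) :
    Tst_s a b ⊆ C := by
  unfold Tst_s
  by_cases hab : a = b
  · rw [if_pos hab]
    exact Finset.empty_subset _
  · rw [if_neg hab]
    intro v hv
    rw [Finset.mem_insert, Finset.mem_singleton] at hv
    rcases hv with rfl | rfl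
    · exact ha
    · exact hb

theorem Tst_tv {V : Type*} (τ : Tr V) (v : V) :
    tv τ v = Tst_d τ.1.1 τ.1.2 v + Tst_d τ.2.1.1 τ.2.1.2 v + Tst_d τ.2.2.1 τ.2.2.2 v := rfl

theorem Tst_mem {V : Type*} [Fintype V] [DecidableEq V] (τ : Tr V) (C1 C2 C3 : Finset V)
    (h : τ ∈ (C1 ×ˢ C1) ×ˢ (C2 ×ˢ C2) ×ˢ (C3 ×ˢ C3)) :
    Tst_s τ.1.1 τ.1.2 ⊆ C1 ∧ Tst_s τ.2.1.1 τ.2.1.2 ⊆ C2 ∧ Tst_s τ.2.2.1 τ.2.2.2 ⊆ C3 := by
  simp only [Finset.mem_product] at h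
  exact ⟨Tst_s_sub _ _ _ h.1.1 h.1.2, Tst_s_sub _ _ _ h.2.1.1 h.2.1.2,
    Tst_s_sub _ _ _ h.2.2.1 h.2.2.2⟩

theorem tv_off {V : Type*} [Fintype V] [DecidableEq V] (τ : Tr V) (C1 C2 C3 : Finset V)
    (h : τ ∈ (C1 ×ˢ C1) ×ˢ (C2 ×ˢ C2) ×ˢ (C3 ×ˢ C3)) (v : V) (h1 : v ∉ C1) (h2 : v ∉ C2)
    (h3 : v ∉ C3) : tv τ v = 0 := by
  obtain ⟨s1, s2, s3⟩ := Tst_mem τ C1 C2 C3 h
  rw [Tst_tv]
  rcases Tst_d_val τ.1.1 τ.1.2 v with ⟨a1, -⟩ | ⟨-, a1⟩
  · rcases Tst_d_val τ.2.1.1 τ.2.1.2 v with ⟨a2, -⟩ | ⟨-, a2⟩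
    · rcases Tst_d_val τ.2.2.1 τ.2.2.2 v with ⟨a3, -⟩ | ⟨-, a3⟩
      · rw [a1, a2, a3]
        rfl
      · exact absurd (s3 a3) h3
    · exact absurd (s2 a2) h2
  · exact absurd (s1 a1) h1

theorem tv_test {V : Type*} [Fintype V] [DecidableEq V] (τ : Tr V) (C1 C2 C3 : Finset V)
    (h12 : Disjoint C1 C2) (h13 : Disjoint C1 C3) (h23 : Disjoint C2 C3)
    (h : τ ∈ (C1 ×ˢ C1) ×ˢ (C2 ×ˢ C2) ×ˢ (C3 ×ˢ C3))
    (hne : ¬ (τ.1.1 = τ.1.2 ∧ τ.2.1.1 = τ.2.1.2 ∧ τ.2.2.1 = τ.2.2.2)) : IsTest (tv τ) := by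
  obtain ⟨s1, s2, s3⟩ := Tst_mem τ C1 C2 C3 h
  have d12 : Disjoint (Tst_s τ.1.1 τ.1.2) (Tst_s τ.2.1.1 τ.2.1.2) := h12.mono s1 s2
  have d13 : Disjoint (Tst_s τ.1.1 τ.1.2) (Tst_s τ.2.2.1 τ.2.2.2) := h13.mono s1 s3
  have d23 : Disjoint (Tst_s τ.2.1.1 τ.2.1.2) (Tst_s τ.2.2.1 τ.2.2.2) := h23.mono s2 s3
  have key : ∀ v, (tv τ v = 0 ∧ v ∉ Tst_s τ.1.1 τ.1.2 ∪ Tst_s τ.2.1.1 τ.2.1.2 ∪
      Tst_s τ.2.2.1 τ.2.2.2) ∨ ((tv τ v = 1 ∨ tv τ v = -1) ∧ v ∈ Tst_s τ.1.1 τ.1.2 ∪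
      Tst_s τ.2.1.1 τ.2.1.2 ∪ Tst_s τ.2.2.1 τ.2.2.2) := by
    intro v
    rw [Tst_tv, Finset.mem_union, Finset.mem_union]
    rcases Tst_d_val τ.1.1 τ.1.2 v with ⟨a1, b1⟩ | ⟨a1, b1⟩
    · rcases Tst_d_val τ.2.1.1 τ.2.1.2 v with ⟨a2, b2⟩ | ⟨a2, b2⟩
      · rcases Tst_d_val τ.2.2.1 τ.2.2.2 v with ⟨a3, b3⟩ | ⟨a3, b3⟩
        · left
          rw [a1, a2, a3]
          refine ⟨rfl, ?_⟩
          tauto
        · right
          rw [a1, a2, zero_add, zero_add]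
          exact ⟨a3, Or.inr b3⟩
      · rcases Tst_d_val τ.2.2.1 τ.2.2.2 v with ⟨a3, b3⟩ | ⟨a3, b3⟩
        · right
          rw [a1, a3, zero_add, add_zero]
          exact ⟨a2, Or.inl (Or.inr b2)⟩
        · exact absurd b3 (Finset.disjoint_left.mp d23 b2)
    · rcases Tst_d_val τ.2.1.1 τ.2.1.2 v with ⟨a2, b2⟩ | ⟨a2, b2⟩
      · rcases Tst_d_val τ.2.2.1 τ.2.2.2 v with ⟨a3, b3⟩ | ⟨a3, b3⟩
        · right
          rw [a2, a3, add_zero, add_zero]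
          exact ⟨a1, Or.inl (Or.inl b1)⟩
        · exact absurd b3 (Finset.disjoint_left.mp d13 b1)
      · exact absurd b2 (Finset.disjoint_left.mp d12 b1)
  refine ⟨fun v => ?_, ?_⟩
  · rcases key v with ⟨a, -⟩ | ⟨a, -⟩
    · exact Or.inl a
    · exact Or.inr a
  · have hnz : nz (tv τ) = (Tst_s τ.1.1 τ.1.2).card + (Tst_s τ.2.1.1 τ.2.1.2).card +
        (Tst_s τ.2.2.1 τ.2.2.2).card := by
      rw [← Finset.card_union_of_disjoint d12, ← Finset.card_union_of_disjoint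
        (Finset.disjoint_union_left.mpr ⟨d13, d23⟩)]
      unfold nz
      congr 1
      ext v
      simp only [Finset.mem_filter, Finset.mem_univ, true_and]
      rcases key v with ⟨a, b⟩ | ⟨a, b⟩
      · constructor
        · intro hh
          exact absurd a hh
        · intro hh
          exact absurd hh b
      · constructor
        · intro _
          exact b
        · intro _
          rcases a with a | a <;> rw [a] <;> norm_num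
    rw [hnz]
    rcases Tst_s_card τ.1.1 τ.1.2 with ⟨e1, c1⟩ | ⟨e1, c1⟩ <;>
    rcases Tst_s_card τ.2.1.1 τ.2.1.2 with ⟨e2, c2⟩ | ⟨e2, c2⟩ <;>
    rcases Tst_s_card τ.2.2.1 τ.2.2.2 with ⟨e3, c3⟩ | ⟨e3, c3⟩ <;>
    rw [c1, c2, c3]
    · exact absurd ⟨e1, e2, e3⟩ hne
    all_goals norm_num

theorem rel_le (K : Type*) [Field K] {V : Type*} [Fintype V] [DecidableEq V] (w : V → K)
    (C1 C2 C3 : Finset V) (h12 : Disjoint C1 C2) (h13 : Disjoint C1 C3) (h23 : Disjoint C2 C3)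
    (c0 : ℕ) (hc1 : C1.card = c0) (hc2 : C2.card = c0) (hc3 : C3.card = c0) :
    rel K w C1 C2 C3 ≤ ((Finset.univ : Finset (Tr V)).filter (fun τ => IsTest (tv τ) ∧
      (∀ v, v ∉ C1 → v ∉ C2 → v ∉ C3 → tv τ v = 0) ∧ cv K (tv τ) ⬝ᵥ w = 0)).card + c0 ^ 3 := by
  unfold rel
  have h1 : (((C1 ×ˢ C1) ×ˢ (C2 ×ˢ C2) ×ˢ (C3 ×ˢ C3)).filter
      (fun τ : Tr V => τ.1.1 = τ.1.2 ∧ τ.2.1.1 = τ.2.1.2 ∧ τ.2.2.1 = τ.2.2.2)).card ≤ c0 ^ 3 := by
    have h2 : (C1 ×ˢ C2 ×ˢ C3).card = c0 ^ 3 := by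
      rw [Finset.card_product, Finset.card_product, hc1, hc2, hc3]
      ring
    rw [← h2]
    apply Finset.card_le_card_of_injOn (fun τ : Tr V => (τ.1.1, τ.2.1.1, τ.2.2.1))
    · intro τ hτ
      rw [Finset.mem_coe, Finset.mem_filter] at hτ
      simp only [Finset.mem_product] at hτ
      rw [Finset.mem_coe, Finset.mem_product, Finset.mem_product]
      exact ⟨hτ.1.1.1, hτ.1.2.1.1, hτ.1.2.2.1⟩
    · rintro ⟨⟨a1, a2⟩, ⟨b1, b2⟩, ⟨c1, c2⟩⟩ hτ ⟨⟨a1', a2'⟩, ⟨b1', b2'⟩, ⟨c1', c2'⟩⟩ hτ' heq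
      rw [Finset.mem_coe, Finset.mem_filter] at hτ hτ'
      obtain ⟨-, e1, e2, e3⟩ := hτ
      obtain ⟨-, e1', e2', e3'⟩ := hτ'
      dsimp only at e1 e2 e3 e1' e2' e3' heq
      rw [Prod.mk.injEq, Prod.mk.injEq] at heq
      obtain ⟨f1, f2, f3⟩ := heq
      rw [← e1, ← e2, ← e3, ← e1', ← e2', ← e3', f1, f2, f3]
  refine le_trans ?_ (Nat.add_le_add_left h1 _)
  refine le_trans (Finset.card_le_card ?_) (Finset.card_union_le _ _)
  intro τ hτ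
  rw [Finset.mem_filter] at hτ
  rw [Finset.mem_union, Finset.mem_filter, Finset.mem_filter]
  by_cases hne : τ.1.1 = τ.1.2 ∧ τ.2.1.1 = τ.2.1.2 ∧ τ.2.2.1 = τ.2.2.2
  · right
    exact ⟨hτ.1, hne⟩
  · left
    exact ⟨Finset.mem_univ _, tv_test τ C1 C2 C3 h12 h13 h23 hτ.1 hne,
      fun v a1 a2 a3 => tv_off τ C1 C2 C3 hτ.1 v a1 a2 a3, hτ.2⟩

end Pool.Agent.H95.DL
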