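import Pool.Agent.H95.DL.LopP
import Pool.Agent.H95.DL.Tst

/-!
# Job DL-12: the bound for one vector of a typical graph

PROOF.  Let `Z = {v ∉ su ts | w v ≠ 0}`, `|Z| ≥ s1`; by `TY` there is `Y`, `|Y| ≤ m6`, such that all
tests off `su ts` and `Y` have at least `s2` flip vertices in `Z ⊆ sup w`.  The set
`F' = {v ∈ F | v ∉ su ts, w v ≠ 0}` minus `Y` has at least `s2 - m6 ≥ 3 c0` elements; choose three
disjoint blocks `C1, C2, C3` of size `c0` in it (`Finset.exists_subset_card_eq`).  By `hLOP` the count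
is at most `2^|V| (δ + exp(-2M) + 64/k rel/c0^6)` and by `rel_le`
`rel ≤ #{τ | IsTest, off the complement of the blocks, relation} + c0^3 ≤ kapS s2 K G ts w + c0^3`
(such a `tv τ` vanishes on `su ts` and on `Y`, so it is counted by `kapS`).
So `64/k rel / c0^6 ≤ 64/(k c0^3) + 64/(k c0^6) kapS`, and
`64/(k c0^6) kapS = (64 n^6/(k c0^6)) kapS / n^6` (`n > 0`).
-/

set_option autoImplicit false

namespace Pool.Agent.H95.DL

open Matrix Classical Pool.Agent.H66.SP Pool.Agent.H95.SQ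

theorem lb_blocks {V : Type*} [DecidableEq V] (F : Finset V) (c0 : ℕ) (h : 3 * c0 ≤ F.card) :
    ∃ C1 C2 C3 : Finset V, C1 ⊆ F ∧ C2 ⊆ F ∧ C3 ⊆ F ∧ C1.card = c0 ∧ C2.card = c0 ∧ C3.card = c0 ∧
      Disjoint C1 C2 ∧ Disjoint C1 C3 ∧ Disjoint C2 C3 := by
  obtain ⟨C1, h1, hc1⟩ := Finset.exists_subset_card_eq (s := F) (n := c0) (by omega)
  have e1 : (F \ C1).card = F.card - c0 := by rw [Finset.card_sdiff_of_subset h1, hc1]
  obtain ⟨C2, h2, hc2⟩ := Finset.exists_subset_card_eq (s := F \ C1) (n := c0) (by omega)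
  have e2 : ((F \ C1) \ C2).card = F.card - c0 - c0 := by
    rw [Finset.card_sdiff_of_subset h2, hc2, e1]
  obtain ⟨C3, h3, hc3⟩ := Finset.exists_subset_card_eq (s := (F \ C1) \ C2) (n := c0) (by omega)
  refine ⟨C1, C2, C3, h1, h2.trans Finset.sdiff_subset,
    (h3.trans Finset.sdiff_subset).trans Finset.sdiff_subset, hc1, hc2, hc3, ?_, ?_, ?_⟩
  · rw [Finset.disjoint_left]
    intro a ha ha2
    exact (Finset.mem_sdiff.mp (h2 ha2)).2 ha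
  · rw [Finset.disjoint_left]
    intro a ha ha3
    exact (Finset.mem_sdiff.mp (Finset.mem_sdiff.mp (h3 ha3)).1).2 ha
  · rw [Finset.disjoint_left]
    intro a ha ha3
    exact (Finset.mem_sdiff.mp (h3 ha3)).2 ha

theorem lb_of_lop (K : Type) [Field K] (δ : ℝ) (hLOP : LOP K δ) (m6 s1 s2 n c0 k : ℕ) (M M0 : ℝ)
    (hn : 1 ≤ n) (hc0 : 1 ≤ c0) (hk : 1 ≤ k) (hc : 3 * c0 + m6 ≤ s2) (hM : 0 ≤ M)
    (hkM : (k : ℝ) ^ 2 * M ≤ M0) (hM0 : 80 * M0 < c0) :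
    LB K m6 s1 s2 n (δ + Real.exp (-2 * M) + 64 / ((k : ℝ) * (c0 : ℝ) ^ 3))
      (64 * (n : ℝ) ^ 6 / ((k : ℝ) * (c0 : ℝ) ^ 6)) := by
  intro V _ _ _ G ts hTY w F g hs1 hs2
  obtain ⟨Y, hY, hTY2⟩ := hTY _ (by
    intro v hv
    exact (Finset.mem_filter.mp hv).2.1) hs1
  have hF' : 3 * c0 ≤ ((F.filter (fun v => v ∉ su ts ∧ w v ≠ 0)) \ Y).card := by
    have := Finset.le_card_sdiff Y (F.filter (fun v => v ∉ su ts ∧ w v ≠ 0))
    omega
  obtain ⟨C1, C2, C3, h1, h2, h3, hc1, hc2, hc3, h12, h13, h23⟩ := lb_blocks _ c0 hF'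
  have hprop : ∀ v, v ∈ ((F.filter (fun v => v ∉ su ts ∧ w v ≠ 0)) \ Y) →
      v ∈ F ∧ v ∉ su ts ∧ w v ≠ 0 ∧ v ∉ Y := by
    intro v hv
    rw [Finset.mem_sdiff, Finset.mem_filter] at hv
    exact ⟨hv.1.1, hv.1.2.1, hv.1.2.2, hv.2⟩
  have hrel := rel_le K w C1 C2 C3 h12 h13 h23 c0 hc1 hc2 hc3
  have hkap : ((Finset.univ : Finset (Tr V)).filter (fun τ => IsTest (tv τ) ∧
      (∀ v, v ∉ C1 → v ∉ C2 → v ∉ C3 → tv τ v = 0) ∧ cv K (tv τ) ⬝ᵥ w = 0)).card ≤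
      kapS s2 K G ts w := by
    unfold kapS
    apply Finset.card_le_card
    intro τ hτ
    rw [Finset.mem_filter] at hτ ⊢
    obtain ⟨_, ht1, ht2, ht3⟩ := hτ
    have hoff1 : Off (tv τ) (su ts) := by
      intro v hv
      exact ht2 v (fun h => (hprop v (h1 h)).2.1 hv) (fun h => (hprop v (h2 h)).2.1 hv)
        (fun h => (hprop v (h3 h)).2.1 hv)
    have hoff2 : Off (tv τ) Y := by
      intro v hv
      exact ht2 v (fun h => (hprop v (h1 h)).2.2.2 hv) (fun h => (hprop v (h2 h)).2.2.2 hv)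
        (fun h => (hprop v (h3 h)).2.2.2 hv)
    refine ⟨Finset.mem_univ _, ht1, hoff1, ht3, ?_⟩
    refine (hTY2 (tv τ) ht1 hoff1 hoff2).trans (Finset.card_le_card ?_)
    intro v hv
    unfold sup
    simp only [Finset.mem_inter, Finset.mem_filter] at hv ⊢
    exact ⟨hv.1, Finset.mem_univ _, hv.2.2.2⟩
  have hLOP2 := hLOP V w F g C1 C2 C3 c0 k M M0 (fun v hv => (hprop v (h1 hv)).1)
    (fun v hv => (hprop v (h2 hv)).1) (fun v hv => (hprop v (h3 hv)).1)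
    (fun v hv => (hprop v (h1 hv)).2.2.1) hc0 hc1 hc2 hc3 hk hM hkM hM0
  refine hLOP2.trans ?_
  have hr : (rel K w C1 C2 C3 : ℝ) ≤ (kapS s2 K G ts w : ℝ) + (c0 : ℝ) ^ 3 := by
    have : rel K w C1 C2 C3 ≤ kapS s2 K G ts w + c0 ^ 3 := by omega
    exact_mod_cast this
  have hk0 : (0 : ℝ) < k := by exact_mod_cast hk
  have hc00 : (0 : ℝ) < c0 := by exact_mod_cast hc0
  have hn0 : (0 : ℝ) < n := by exact_mod_cast hn
  have h2V : (0 : ℝ) < 2 ^ Fintype.card V := by positivity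
  apply mul_le_mul_of_nonneg_left _ h2V.le
  have e : δ + Real.exp (-2 * M) + 64 / ((k : ℝ) * (c0 : ℝ) ^ 3) +
      (64 * (n : ℝ) ^ 6 / ((k : ℝ) * (c0 : ℝ) ^ 6)) * (kapS s2 K G ts w : ℝ) / (n : ℝ) ^ 6 =
      δ + Real.exp (-2 * M) + 64 / k * (((kapS s2 K G ts w : ℝ) + (c0 : ℝ) ^ 3) / (c0 : ℝ) ^ 6) := by
    field_simp
    ring
  rw [e]
  have h64 : (0 : ℝ) ≤ 64 / k := by positivity
  have := mul_le_mul_of_nonneg_left (div_le_div_of_nonneg_right hr (by positivity :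
    (0 : ℝ) ≤ (c0 : ℝ) ^ 6)) h64
  linarith

end Pool.Agent.H95.DL
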