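import Pool.Agent.H95.DL.Hal3
import Pool.Agent.H95.DL.Fun

/-!
# Job DL-8: the Halasz bound over `KK p`

PROOF.  Apply `exists_functional` with `I = C1` (as a subtype; `z v = w v ≠ 0`) and `J =` the set of
the `c0^6` triples `τ` of pairs in the blocks, `y τ = cv K (tv τ) ⬝ᵥ w`.  Put `x v = l (w v)`.
If `∑_{v ∈ F} b_v w_v = g` then `∑_{v ∈ F} b_v x_v = l g` (`l` is `ZMod p`-linear and `bv` has entries
`0, 1`), so the count for `w` is at most the count for `x`, `l g`.  `rel (ZMod p) x ≤ rel K w +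
#{τ | y τ ≠ 0, l (y τ) = 0} ≤ rel K w + 3 c0^6 / p` since `cv (tv τ) ⬝ᵥ x = l (y τ)` (`cv_tv`).
At least `c0 / 2` of the `v ∈ C1 ⊆ F` have `x v ≠ 0` and `20 M0 < c0 / 4 < c0 / 2`.  `hal3` gives
`1/p + exp(-2M) + 64/k (rel K w / c0^6 + 3/p) ≤ 200/p + exp(-2M) + 64/k rel K w / c0^6`.
-/

set_option autoImplicit false

namespace Pool.Agent.H95.DL

open Matrix Classical Pool.Agent.H66.SP Pool.Agent.H95.SQ

/-- the Halasz bound over `K` with error `δ` -/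
def LOP (K : Type) [Field K] (δ : ℝ) : Prop :=
  ∀ (V : Type) [Fintype V] [DecidableEq V] (w : V → K) (F : Finset V) (g : K)
    (C1 C2 C3 : Finset V) (c0 k : ℕ) (M M0 : ℝ),
    C1 ⊆ F → C2 ⊆ F → C3 ⊆ F → (∀ v ∈ C1, w v ≠ 0) → 1 ≤ c0 → C1.card = c0 → C2.card = c0 →
    C3.card = c0 → 1 ≤ k → 0 ≤ M → (k : ℝ) ^ 2 * M ≤ M0 → 80 * M0 < c0 →
    (((Finset.univ : Finset (V → Bool)).filter
      (fun b => ∑ v ∈ F, bv K b v * w v = g)).card : ℝ) ≤
      2 ^ Fintype.card V * (δ + Real.exp (-2 * M) +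
        64 / k * ((rel K w C1 C2 C3 : ℝ) / (c0 : ℝ) ^ 6))

theorem LopP_card {α : Type*} (s : Finset α) (P : α → Prop)
    [DecidablePred fun a : {a // a ∈ s} => P a.1] [DecidablePred P] :
    ((Finset.univ : Finset {a // a ∈ s}).filter (fun a => P a.1)).card = (s.filter P).card := by
  rw [← Finset.card_map (Function.Embedding.subtype _)]
  congr 1
  ext a
  simp [and_comm]

theorem LopP_rel (p : ℕ) [Fact p.Prime] {V : Type*} [Fintype V] [DecidableEq V]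
    (l : KK p →ₗ[ZMod p] ZMod p) (w : V → KK p) (τ : Tr V) :
    cv (ZMod p) (tv τ) ⬝ᵥ (fun v => l (w v)) = l (cv (KK p) (tv τ) ⬝ᵥ w) := by
  rw [cv_tv, cv_tv]
  simp only [map_add, map_sub]

theorem lop_p (p : ℕ) [Fact p.Prime] (hp : 5 ≤ p) : LOP (KK p) (200 / p) := by
  intro V _ _ w F g C1 C2 C3 c0 k M M0 h1 h2 h3 hw hc0 hc1 hc2 hc3 hk hM hkM hM0
  obtain ⟨l, hl1, hl2⟩ := exists_functional p hp (I := {v : V // v ∈ C1})
    (J := {τ : Tr V // τ ∈ (C1 ×ˢ C1) ×ˢ (C2 ×ˢ C2) ×ˢ (C3 ×ˢ C3)})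
    (fun v => w v.1) (fun v => hw v.1 v.2) (fun τ => cv (KK p) (tv τ.1) ⬝ᵥ w)
  rw [LopP_card C1 (fun v => l (w v) = 0), Fintype.card_coe, hc1] at hl1
  rw [LopP_card ((C1 ×ˢ C1) ×ˢ (C2 ×ˢ C2) ×ˢ (C3 ×ˢ C3))
    (fun τ : Tr V => cv (KK p) (tv τ) ⬝ᵥ w ≠ 0 ∧ l (cv (KK p) (tv τ) ⬝ᵥ w) = 0),
    Fintype.card_coe, Finset.card_product, Finset.card_product, Finset.card_product,
    Finset.card_product, Finset.card_product, hc1, hc2, hc3] at hl2
  set x : V → ZMod p := fun v => l (w v) with hx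
  have hp0 : (0 : ℝ) < p := by
    have : 0 < p := by omega
    exact_mod_cast this
  have hk0 : (0 : ℝ) < k := by exact_mod_cast hk
  have hc00 : (0 : ℝ) < c0 := by exact_mod_cast hc0
  have hM0' : 0 ≤ M0 := le_trans (by positivity) hkM
  have hcount : ((Finset.univ : Finset (V → Bool)).filter
      (fun b => ∑ v ∈ F, bv (KK p) b v * w v = g)).card ≤
      ((Finset.univ : Finset (V → Bool)).filter
      (fun b => ∑ v ∈ F, bv (ZMod p) b v * x v = l g)).card := by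
    refine Finset.card_le_card fun b hb => ?_
    rw [Finset.mem_filter] at hb ⊢
    refine ⟨hb.1, ?_⟩
    rw [← hb.2, map_sum]
    refine Finset.sum_congr rfl fun v _ => ?_
    unfold bv
    by_cases hbv : b v = true
    · simp only [hbv, if_true, one_mul, hx]
    · simp only [hbv, if_false, zero_mul, map_zero, Bool.false_eq_true]
  have hrel : rel (ZMod p) x C1 C2 C3 ≤ rel (KK p) w C1 C2 C3 +
      (((C1 ×ˢ C1) ×ˢ (C2 ×ˢ C2) ×ˢ (C3 ×ˢ C3)).filter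
        (fun τ : Tr V => cv (KK p) (tv τ) ⬝ᵥ w ≠ 0 ∧ l (cv (KK p) (tv τ) ⬝ᵥ w) = 0)).card := by
    unfold rel
    refine (Finset.card_le_card ?_).trans (Finset.card_union_le _ _)
    intro τ hτ'
    have hτ := (@Finset.mem_filter _ _ (fun a : Tr V => propDecidable _) _ _).1 hτ'
    rw [Finset.mem_union]
    have h4 : l (cv (KK p) (tv τ) ⬝ᵥ w) = 0 := by
      rw [← LopP_rel]
      exact hτ.2
    by_cases h5 : cv (KK p) (tv τ) ⬝ᵥ w = 0
    · exact Or.inl (Finset.mem_filter.2 ⟨hτ.1, h5⟩)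
    · exact Or.inr (Finset.mem_filter.2 ⟨hτ.1, h5, h4⟩)
  set e := (((C1 ×ˢ C1) ×ˢ (C2 ×ˢ C2) ×ˢ (C3 ×ˢ C3)).filter
        (fun τ : Tr V => cv (KK p) (tv τ) ⬝ᵥ w ≠ 0 ∧ l (cv (KK p) (tv τ) ⬝ᵥ w) = 0)).card with he
  have he1 : (p : ℝ) * e ≤ 3 * (c0 : ℝ) ^ 6 := by
    have h4 : ((p * e : ℕ) : ℝ) ≤ ((3 * (c0 * c0 * (c0 * c0 * (c0 * c0))) : ℕ) : ℝ) := by
      exact_mod_cast hl2
    push_cast at h4
    nlinarith [h4]
  have hrel' : (rel (ZMod p) x C1 C2 C3 : ℝ) ≤ rel (KK p) w C1 C2 C3 + e := by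
    exact_mod_cast hrel
  have hnz : 20 * M0 < ((F.filter (fun v => x v ≠ 0)).card : ℝ) := by
    have h4 : (C1.filter (fun v => l (w v) = 0)).card + (C1.filter (fun v => ¬ l (w v) = 0)).card
        = c0 := by
      rw [Finset.card_filter_add_card_filter_not, hc1]
    have h5 : (C1.filter (fun v => ¬ l (w v) = 0)).card ≤ (F.filter (fun v => x v ≠ 0)).card :=
      Finset.card_le_card (Finset.filter_subset_filter _ h1)
    have h6 : c0 ≤ 2 * (F.filter (fun v => x v ≠ 0)).card := by omega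
    have h7 : (c0 : ℝ) ≤ 2 * ((F.filter (fun v => x v ≠ 0)).card : ℝ) := by exact_mod_cast h6
    linarith
  have hmain := hal3 p F x (l g) C1 C2 C3 h1 h2 h3 c0 k hc0 hc1 hc2 hc3 hk M M0 hM hkM
    (by linarith) hnz
  refine (Nat.cast_le.2 hcount).trans (hmain.trans ?_)
  refine mul_le_mul_of_nonneg_left ?_ (by positivity)
  have h4 : (rel (ZMod p) x C1 C2 C3 : ℝ) / (c0 : ℝ) ^ 6 ≤
      (rel (KK p) w C1 C2 C3 : ℝ) / (c0 : ℝ) ^ 6 + 3 / p := by
    rw [div_add_div _ _ (by positivity) hp0.ne', div_le_div_iff₀ (by positivity) (by positivity)]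
    have h5 : (rel (ZMod p) x C1 C2 C3 : ℝ) * p ≤ rel (KK p) w C1 C2 C3 * p + 3 * (c0 : ℝ) ^ 6 := by
      nlinarith
    nlinarith [mul_le_mul_of_nonneg_left h5 (by positivity : (0 : ℝ) ≤ (c0 : ℝ) ^ 6)]
  have h5 : 64 / (k : ℝ) * ((rel (ZMod p) x C1 C2 C3 : ℝ) / (c0 : ℝ) ^ 6) ≤
      64 / (k : ℝ) * ((rel (KK p) w C1 C2 C3 : ℝ) / (c0 : ℝ) ^ 6) + 192 / p := by
    refine (mul_le_mul_of_nonneg_left h4 (by positivity)).trans ?_
    rw [mul_add]
    have h6 : 64 / (k : ℝ) * (3 / p) ≤ 192 / p := by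
      have h7 : 64 / (k : ℝ) ≤ 64 := by
        rw [div_le_iff₀ hk0]
        have : (1 : ℝ) ≤ k := by exact_mod_cast hk
        linarith
      calc 64 / (k : ℝ) * (3 / p) ≤ 64 * (3 / p) :=
            mul_le_mul_of_nonneg_right h7 (by positivity)
        _ = 192 / p := by ring
    linarith
  have h6 : (1 : ℝ) / p + 192 / p ≤ 200 / p := by
    rw [← add_div]
    exact div_le_div_of_nonneg_right (by norm_num) hp0.le
  linarith

end Pool.Agent.H95.DL
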