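import Pool.Agent.H95.DL.Def2

/-!
# Job DL-1: the square distance to `0` on `ZMod N`

`nn x = (min(x.val, N - x.val) / N)^2`, written with `ZMod.valMinAbs`.

PROOFS.  `d x := (x.valMinAbs.natAbs : ℝ)` satisfies `d (x + y) ≤ d x + d y`
(`ZMod.natAbs_valMinAbs_add_le` and `Int.natAbs_add_le`), so `d (∑ f i) ≤ ∑ d (f i)` and by
Cauchy-Schwarz (`sq_sum_le_card_mul_sum_sq`) `nn (∑ f i) ≤ card * ∑ nn (f i)`.
`d x ≤ N / 2` (`ZMod.natAbs_valMinAbs_le`), so `nn x ≤ 1/4`.  `nn (-x) = nn x`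
(`ZMod.natAbs_valMinAbs_neg`).
-/

set_option autoImplicit false

namespace Pool.Agent.H95.DL

open Matrix Classical Pool.Agent.H66.SP Pool.Agent.H95.SQ

/-- `(min(x.val, N - x.val) / N)^2` -/
noncomputable def nn {N : ℕ} (x : ZMod N) : ℝ := ((x.valMinAbs.natAbs : ℝ) / N) ^ 2

theorem nn_nonneg {N : ℕ} (x : ZMod N) : 0 ≤ nn x := sq_nonneg _

theorem nn_zero {N : ℕ} : nn (0 : ZMod N) = 0 := by simp [nn]

theorem nn_neg {N : ℕ} [NeZero N] (x : ZMod N) : nn (-x) = nn x := by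
  unfold nn
  rw [ZMod.natAbs_valMinAbs_neg]

theorem nn_le_quarter {N : ℕ} [NeZero N] (x : ZMod N) : nn x ≤ 1 / 4 := by
  have h := ZMod.natAbs_valMinAbs_le x
  have hN : (0 : ℝ) < N := by exact_mod_cast Nat.pos_of_ne_zero (NeZero.ne N)
  have h2 : 2 * x.valMinAbs.natAbs ≤ N := by omega
  have h3 : (2 : ℝ) * x.valMinAbs.natAbs ≤ N := by exact_mod_cast h2
  have h4 : (x.valMinAbs.natAbs : ℝ) / N ≤ 1 / 2 := by
    rw [div_le_div_iff₀ hN (by norm_num)]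
    linarith
  have h0 : (0 : ℝ) ≤ (x.valMinAbs.natAbs : ℝ) / N := by positivity
  unfold nn
  nlinarith

theorem nn_sum_le {N : ℕ} [NeZero N] {ι : Type*} (s : Finset ι) (f : ι → ZMod N) :
    nn (∑ i ∈ s, f i) ≤ s.card * ∑ i ∈ s, nn (f i) := by
  have h : (∑ i ∈ s, f i).valMinAbs.natAbs ≤ ∑ i ∈ s, (f i).valMinAbs.natAbs := by
    induction s using Finset.induction_on with
    | empty => simp [ZMod.valMinAbs_zero]
    | insert a s ha ih =>
      rw [Finset.sum_insert ha, Finset.sum_insert ha]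
      exact ((ZMod.natAbs_valMinAbs_add_le _ _).trans (Int.natAbs_add_le _ _)).trans
        (Nat.add_le_add_left ih _)
  have hN : (0 : ℝ) < N := by exact_mod_cast Nat.pos_of_ne_zero (NeZero.ne N)
  unfold nn
  have h2 : ((∑ i ∈ s, f i).valMinAbs.natAbs : ℝ) / N ≤
      ∑ i ∈ s, ((f i).valMinAbs.natAbs : ℝ) / N := by
    rw [← Finset.sum_div]
    gcongr
    exact_mod_cast h
  have h0 : (0 : ℝ) ≤ ((∑ i ∈ s, f i).valMinAbs.natAbs : ℝ) / N := by positivity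
  calc (((∑ i ∈ s, f i).valMinAbs.natAbs : ℝ) / N) ^ 2
      ≤ (∑ i ∈ s, ((f i).valMinAbs.natAbs : ℝ) / N) ^ 2 := by gcongr
    _ ≤ _ := sq_sum_le_card_mul_sum_sq

end Pool.Agent.H95.DL
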