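import Pool.Agent.H95.DL.NN

/-!
# Job DL-2: `nn` and the standard character

PROOFS.  `y := x.valMinAbs / N`, `|y| ≤ 1/2`, `nn x = y^2`; the standard character of `x` is
`exp (2 π i y)` (`ZMod.stdAddChar_apply`, `ZMod.toCircle_apply` and the periodicity: `x.val` and
`x.valMinAbs` differ by `0` or `N`; or `ZMod.stdAddChar_coe` applied to the integer
`x.valMinAbs`, whose cast is `x`).
(F1) `‖1 + e(y)‖ = 2 |cos (π y)|` and `cos t ≤ exp (- t^2 / 2)` for `|t| ≤ π/2`
(Mathlib: `Real.cos_le_exp_neg_sq_div_two`? otherwise: `cos t ≤ 1 - t^2/2 + t^4/24 ≤ exp (-t^2/2)`,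
or with a worse constant: `cos t ≤ 1 - 2 t^2/π^2·...`; it is enough to prove `cos (π y) ≤ exp (-2 y^2)`:
`cos (π y) = 1 - 2 sin^2 (π y / 2)` and `|sin t| ≥ 2 |t| / π` for `|t| ≤ π/2` (`Real.mul_le_sin`), so
`cos (π y) ≤ 1 - 2 y^2 ≤ exp (-2 y^2)`).
(F2) real part `cos (2 π y) = 1 - 2 sin^2 (π y) ≥ 1 - 2 π^2 y^2 ≥ 1 - 20 y^2` (`π^2 < 10`).
(F4) `ψ h := stdAddChar (f h)` is a nontrivial character of `H` so `∑ ψ h = 0`
(`AddChar.sum_eq_zero_of_ne_one`, `AddChar.sum_eq_ite`); take real parts and (F2):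
`0 ≥ card H - 20 ∑ nn (f h)`.  (`ψ ≠ 1` since `stdAddChar` is injective:
`ZMod.injective_stdAddChar`, and `f ≠ 0`.)
-/

set_option autoImplicit false

namespace Pool.Agent.H95.DL

open Matrix Classical Pool.Agent.H66.SP Pool.Agent.H95.SQ

/-- the real number `valMinAbs x / N` -/
noncomputable def nn2_y {N : ℕ} (x : ZMod N) : ℝ := (x.valMinAbs : ℝ) / N

theorem nn2_eq {N : ℕ} (x : ZMod N) : nn x = nn2_y x ^ 2 := by
  unfold nn nn2_y
  rw [div_pow, div_pow, Nat.cast_natAbs, Int.cast_abs, sq_abs]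

theorem nn2_abs {N : ℕ} [NeZero N] (x : ZMod N) : |nn2_y x| ≤ 1 / 2 := by
  have h1 := ZMod.natAbs_valMinAbs_le x
  have hN : (0 : ℝ) < N := by
    have := NeZero.pos N
    exact_mod_cast this
  have h2 : (x.valMinAbs.natAbs : ℝ) ≤ (N : ℝ) / 2 := by
    have h3 : ((x.valMinAbs.natAbs : ℕ) : ℝ) ≤ ((N / 2 : ℕ) : ℝ) := by exact_mod_cast h1
    exact h3.trans Nat.cast_div_le
  unfold nn2_y
  rw [abs_div, abs_of_pos hN, div_le_iff₀ hN]
  rw [Nat.cast_natAbs, Int.cast_abs] at h2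
  linarith

theorem nn2_char {N : ℕ} [NeZero N] (x : ZMod N) :
    (ZMod.stdAddChar x : ℂ) = Complex.exp ((2 * Real.pi * nn2_y x : ℝ) * Complex.I) := by
  have h1 : (ZMod.stdAddChar x : ℂ) = ZMod.stdAddChar ((x.valMinAbs : ℤ) : ZMod N) := by
    rw [ZMod.coe_valMinAbs]
  rw [h1, ZMod.stdAddChar_coe]
  congr 1
  unfold nn2_y
  push_cast
  ring

theorem norm_one_add_char {N : ℕ} [NeZero N] (x : ZMod N) :
    ‖(1 + ZMod.stdAddChar x : ℂ)‖ ≤ 2 * Real.exp (-2 * nn x) := by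
  have hy := nn2_abs x
  rw [nn2_eq, nn2_char]
  set y := nn2_y x with hyd
  have hpi := Real.pi_pos
  have h1 : ‖(1 + Complex.exp ((2 * Real.pi * y : ℝ) * Complex.I) : ℂ)‖ ^ 2 =
      (2 * Real.cos (Real.pi * y)) ^ 2 := by
    rw [← Complex.normSq_eq_norm_sq, Complex.normSq_apply]
    have h2 : (1 + Complex.exp ((2 * Real.pi * y : ℝ) * Complex.I) : ℂ).re =
        1 + Real.cos (2 * Real.pi * y) := by
      rw [Complex.add_re, Complex.one_re, Complex.exp_ofReal_mul_I_re]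
    have h3 : (1 + Complex.exp ((2 * Real.pi * y : ℝ) * Complex.I) : ℂ).im =
        Real.sin (2 * Real.pi * y) := by
      rw [Complex.add_im, Complex.one_im, Complex.exp_ofReal_mul_I_im, zero_add]
    rw [h2, h3]
    have h4 : 2 * Real.pi * y = 2 * (Real.pi * y) := by ring
    rw [h4, Real.cos_two_mul, Real.sin_two_mul]
    have h5 := Real.sin_sq_add_cos_sq (Real.pi * y)
    have h6 : Real.sin (Real.pi * y) ^ 2 = 1 - Real.cos (Real.pi * y) ^ 2 := by linarith
    calc (1 + (2 * Real.cos (Real.pi * y) ^ 2 - 1)) * (1 + (2 * Real.cos (Real.pi * y) ^ 2 - 1)) +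
        2 * Real.sin (Real.pi * y) * Real.cos (Real.pi * y) *
          (2 * Real.sin (Real.pi * y) * Real.cos (Real.pi * y))
        = 4 * Real.cos (Real.pi * y) ^ 4 +
          4 * Real.sin (Real.pi * y) ^ 2 * Real.cos (Real.pi * y) ^ 2 := by ring
      _ = (2 * Real.cos (Real.pi * y)) ^ 2 := by
          rw [h6]
          ring
  have hcos : 0 ≤ Real.cos (Real.pi * y) := by
    apply Real.cos_nonneg_of_mem_Icc
    rw [abs_le] at hy
    constructor <;> nlinarith [hy.1, hy.2]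
  have h2 : ‖(1 + Complex.exp ((2 * Real.pi * y : ℝ) * Complex.I) : ℂ)‖ =
      2 * Real.cos (Real.pi * y) :=
    (sq_eq_sq₀ (norm_nonneg _) (by positivity)).mp h1
  rw [h2]
  have h3 : Real.cos (Real.pi * y) ≤ 1 - 2 * y ^ 2 := by
    have h4 : Real.cos (Real.pi * y) = 1 - 2 * Real.sin (Real.pi * y / 2) ^ 2 := by
      have h5 : Real.pi * y = 2 * (Real.pi * y / 2) := by ring
      have h6 := Real.sin_sq_add_cos_sq (Real.pi * y / 2)
      calc Real.cos (Real.pi * y) = Real.cos (2 * (Real.pi * y / 2)) := by rw [← h5]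
        _ = 2 * Real.cos (Real.pi * y / 2) ^ 2 - 1 := Real.cos_two_mul _
        _ = 1 - 2 * Real.sin (Real.pi * y / 2) ^ 2 := by linarith
    rw [h4]
    have h7 : y ^ 2 ≤ Real.sin (Real.pi * y / 2) ^ 2 := by
      have h8 : |y| ≤ |Real.sin (Real.pi * y / 2)| := by
        have h9 := Real.mul_le_sin (x := |Real.pi * y / 2|) (abs_nonneg _) (by
          rw [abs_div, abs_mul, abs_of_pos hpi, abs_of_pos (by norm_num : (0 : ℝ) < 2)]
          nlinarith)
        have h10 : 2 / Real.pi * |Real.pi * y / 2| = |y| := by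
          rw [abs_div, abs_mul, abs_of_pos hpi, abs_of_pos (by norm_num : (0 : ℝ) < 2)]
          field_simp
        rw [h10] at h9
        refine h9.trans ?_
        rcases abs_cases (Real.pi * y / 2) with h | h
        · rw [h.1]
          exact le_abs_self _
        · rw [h.1, Real.sin_neg]
          exact neg_le_abs _
      exact sq_le_sq.mpr h8
    linarith
  have h4 : 1 - 2 * y ^ 2 ≤ Real.exp (-2 * y ^ 2) := by
    have := Real.add_one_le_exp (-2 * y ^ 2)
    linarith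
  linarith

theorem re_char_ge {N : ℕ} [NeZero N] (x : ZMod N) :
    1 - 20 * nn x ≤ (ZMod.stdAddChar x : ℂ).re := by
  rw [nn2_eq, nn2_char, Complex.exp_ofReal_mul_I_re]
  have h1 := Real.one_sub_sq_div_two_le_cos (x := 2 * Real.pi * nn2_y x)
  have h2 : Real.pi ^ 2 ≤ 10 := by
    have h3 := Real.pi_lt_d2
    have h4 := Real.pi_pos
    nlinarith
  have h5 : (2 * Real.pi * nn2_y x) ^ 2 / 2 ≤ 20 * nn2_y x ^ 2 := by
    have h6 : (2 * Real.pi * nn2_y x) ^ 2 / 2 = 2 * (Real.pi ^ 2 * nn2_y x ^ 2) := by ring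
    rw [h6]
    have h7 : Real.pi ^ 2 * nn2_y x ^ 2 ≤ 10 * nn2_y x ^ 2 :=
      mul_le_mul_of_nonneg_right h2 (sq_nonneg _)
    linarith
  linarith

theorem sum_nn_ge {N : ℕ} [NeZero N] {H : Type*} [AddCommGroup H] [Fintype H] (f : H →+ ZMod N)
    (hf : f ≠ 0) : (Fintype.card H : ℝ) / 20 ≤ ∑ h, nn (f h) := by
  set ψ : AddChar H ℂ := (ZMod.stdAddChar (N := N)).compAddMonoidHom f with hψ
  have hne : ψ ≠ 1 := by
    intro h1
    apply hf
    ext h
    have h2 : ψ h = 1 := by rw [h1]; rfl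
    have h3 : ZMod.stdAddChar (f h) = ZMod.stdAddChar (0 : ZMod N) := by
      rw [AddChar.map_zero_eq_one]
      exact h2
    exact ZMod.injective_stdAddChar h3
  have h1 : ∑ h, ψ h = 0 := AddChar.sum_eq_zero_of_ne_one hne
  have h2 : ∑ h, (ψ h).re = 0 := by
    rw [← Complex.re_sum, h1, Complex.zero_re]
  have h3 : ∑ h : H, (1 - 20 * nn (f h)) ≤ ∑ h, (ψ h).re :=
    Finset.sum_le_sum (fun h _ => re_char_ge (f h))
  rw [h2, Finset.sum_sub_distrib, Finset.sum_const, Finset.card_univ, ← Finset.mul_sum,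
    nsmul_eq_mul, mul_one] at h3
  linarith

end Pool.Agent.H95.DL
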