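import Pool.Agent.H95.SQ.NsC
import Pool.Agent.H95.DL.Def2

/-!
# Job DL-20: kernels of rows of the Seidel matrix

The `± 1` version of `card_ker_graph` (`Pool/Agent/H95/SQ/NsA.lean`, read its proof: transport to
`{v // v ∈ S} ⊕ {v // v ∉ S}`, `card_filter_glue`, `card_kerP_le`).
PROOF.  Fix a vertex `v1 ∉ S ∪ T` (exists as `N₁ + N₂ + 1 + |S| + |T| = |V|`).  For `v ∉ S ∪ T` the
entries `(sei) v u`, `u ∈ S`, are `1 - 2 b v u` with free bits `b v u` (`v ≠ u`).  If `x` is supported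
on `S` and `(sei x) v = 0` for all `v ∉ S ∪ T`, put `y u = (1 - 2 b v1 u) x u` (nonzero, as `p ≠ 2`).
Row `v1`: `∑ y u = 0`; row `v`: `∑ (1 - 2 b v u)(1 - 2 b v1 u) y u = 0`, and
`(1 - 2 b v u)(1 - 2 b v1 u) = 1 - 2 c v u`, `c v u = xor (b v u) (b v1 u)`; so
`∑ c v u * y u = 0` (`p ≠ 2`) for the `N₁ + N₂` rows `v ≠ v1`: `KerP` of the 0/1 matrix `c`.
For a fixed row `v1` the map `(b v)_v ↦ (c v)_v` is a bijection, so the count is at most
`2^|S| *` (count of `KerP` matrices with `N₁ + N₂` rows, `card_kerP_le`) `*` (free bits of the others).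
-/

set_option autoImplicit false

namespace Pool.Agent.H95.DL

open Matrix Classical Pool.Agent.H66.SP Pool.Agent.H95.SQ

/-- the event -/
def NsG_P {V : Type*} [Fintype V] (S T : Finset V) (G : SimpleGraph V) : Prop :=
  ∃ (p : ℕ) (_ : Fact p.Prime) (x : V → ZMod p), p ≠ 2 ∧ x ≠ 0 ∧ (∀ v, v ∉ S → x v = 0) ∧
    ∀ v, v ∉ S → v ∉ T → (sei (ZMod p) G *ᵥ x) v = 0

/-- row of the Seidel matrix -/
theorem NsG_row {V : Type*} [Fintype V] [DecidableEq V] (S : Finset V) (K : Type*) [CommRing K]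
    (x : V → K) (hx0 : ∀ v, v ∉ S → x v = 0) (r : {v // v ∉ S})
    (G : SimpleGraph {v // v ∈ S}) (b : {v // v ∉ S} → {v // v ∈ S} → Bool)
    (H : SimpleGraph {v // v ∉ S}) :
    (sei K ((Equiv.sumCompl (fun v => v ∈ S)).simpleGraph (glue G b H)) *ᵥ x) r.1 =
      ∑ u : {v // v ∈ S}, sv K (b r) u * x u.1 := by
  have h2 : (sei K ((Equiv.sumCompl (fun v => v ∈ S)).simpleGraph (glue G b H)) *ᵥ x) r.1 =
      ∑ w, sei K ((Equiv.sumCompl (fun v => v ∈ S)).simpleGraph (glue G b H)) r.1 w * x w := rfl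
  rw [h2, ← Equiv.sum_comp (Equiv.sumCompl (fun v => v ∈ S)), Fintype.sum_sum_type]
  have h3 : ∑ r' : {v // v ∉ S}, sei K
      ((Equiv.sumCompl (fun v => v ∈ S)).simpleGraph (glue G b H)) r.1
      ((Equiv.sumCompl (fun v => v ∈ S)) (Sum.inr r')) *
        x ((Equiv.sumCompl (fun v => v ∈ S)) (Sum.inr r')) = 0 := by
    refine Finset.sum_eq_zero fun r' _ => ?_
    have : x ((Equiv.sumCompl (fun v => v ∈ S)) (Sum.inr r')) = 0 := hx0 r'.1 r'.2
    rw [this, mul_zero]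
  rw [h3, add_zero]
  refine Finset.sum_congr rfl fun u _ => ?_
  have h4 : sei K ((Equiv.sumCompl (fun v => v ∈ S)).simpleGraph (glue G b H)) r.1
      ((Equiv.sumCompl (fun v => v ∈ S)) (Sum.inl u)) = sv K (b r) u := by
    have h5 : ((Equiv.sumCompl (fun v => v ∈ S)).simpleGraph (glue G b H)).Adj r.1
        ((Equiv.sumCompl (fun v => v ∈ S)) (Sum.inl u)) ↔ b r u = true := by
      have h6 : (Equiv.sumCompl (fun v => v ∈ S)).symm r.1 = Sum.inr r :=
        Equiv.sumCompl_symm_apply_of_neg r.2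
      show (glue G b H).Adj ((Equiv.sumCompl (fun v => v ∈ S)).symm r.1)
        ((Equiv.sumCompl (fun v => v ∈ S)).symm
          ((Equiv.sumCompl (fun v => v ∈ S)) (Sum.inl u))) ↔ _
      rw [h6, Equiv.symm_apply_apply]
      exact Iff.rfl
    have h7 : ¬ (r.1 = (Equiv.sumCompl (fun v => v ∈ S)) (Sum.inl u)) := by
      intro h8
      have h9 : r.1 = u.1 := h8
      exact r.2 (h9 ▸ u.2)
    simp only [sei, sv, Matrix.of_apply]
    rw [if_neg h7]
    by_cases hb : b r u = true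
    · rw [if_pos (h5.2 hb), if_pos hb]
    · rw [if_neg (fun hc => hb (h5.1 hc)), if_neg hb]
  rw [h4]
  rfl

theorem NsG_xor (K : Type*) [CommRing K] (c d : Bool) :
    2 * (if xor c d = true then (1 : K) else 0) * (if d = true then -1 else 1) =
      (if d = true then -1 else 1) - (if c = true then -1 else 1) := by
  cases c <;> cases d <;> simp <;> norm_num

theorem NsG_kerP {V : Type*} [Fintype V] [DecidableEq V] (S T : Finset V) {I : Type*}
    (ψ0 : {v // v ∉ S}) (hψ0 : ψ0.1 ∉ T)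
    (ψ : I → {v // v ∉ S}) (hψ : ∀ i, (ψ i).1 ∉ T)
    (G : SimpleGraph {v // v ∈ S}) (b : {v // v ∉ S} → {v // v ∈ S} → Bool)
    (H : SimpleGraph {v // v ∉ S})
    (h : NsG_P S T ((Equiv.sumCompl (fun v => v ∈ S)).simpleGraph (glue G b H))) :
    KerP (fun i u => xor (b (ψ i) u) (b ψ0 u)) := by
  obtain ⟨p, hp, x, hp2, hx, hx0, hA⟩ := h
  have h2 : (2 : ZMod p) ≠ 0 := by
    intro h0
    have h1 : ((2 : ℕ) : ZMod p) = 0 := by exact_mod_cast h0
    rw [ZMod.natCast_eq_zero_iff] at h1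
    exact hp2 ((Nat.prime_dvd_prime_iff_eq hp.out Nat.prime_two).1 h1)
  have hsq : ∀ (c : {v // v ∈ S} → Bool) u, sv (ZMod p) c u * sv (ZMod p) c u = 1 := by
    intro c u
    unfold sv
    split_ifs <;> norm_num
  refine ⟨p, hp, fun u => sv (ZMod p) (b ψ0) u * x u.1, ?_, ?_⟩
  · intro h0
    apply hx
    funext v
    by_cases hv : v ∈ S
    · have h1 : sv (ZMod p) (b ψ0) ⟨v, hv⟩ * x v = 0 := congrFun h0 ⟨v, hv⟩
      have h3 := congrArg (fun t => sv (ZMod p) (b ψ0) ⟨v, hv⟩ * t) h1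
      simp only [← mul_assoc, hsq, one_mul, mul_zero] at h3
      exact h3
    · exact hx0 v hv
  · intro i
    have r0 := hA ψ0.1 ψ0.2 hψ0
    have ri := hA (ψ i).1 (ψ i).2 (hψ i)
    rw [NsG_row S (ZMod p) x hx0] at r0 ri
    have e : ∀ u : {v // v ∈ S}, 2 * (bv (ZMod p) (fun u => xor (b (ψ i) u) (b ψ0 u)) u *
        (sv (ZMod p) (b ψ0) u * x u.1)) =
        sv (ZMod p) (b ψ0) u * x u.1 - sv (ZMod p) (b (ψ i)) u * x u.1 := by
      intro u
      have e1 : 2 * bv (ZMod p) (fun u => xor (b (ψ i) u) (b ψ0 u)) u * sv (ZMod p) (b ψ0) u =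
          sv (ZMod p) (b ψ0) u - sv (ZMod p) (b (ψ i)) u :=
        NsG_xor (ZMod p) (b (ψ i) u) (b ψ0 u)
      linear_combination x u.1 * e1
    have e2 : 2 * (bv (ZMod p) (fun u => xor (b (ψ i) u) (b ψ0 u)) ⬝ᵥ
        fun u => sv (ZMod p) (b ψ0) u * x u.1) = 0 := by
      have e3 : bv (ZMod p) (fun u => xor (b (ψ i) u) (b ψ0 u)) ⬝ᵥ
        (fun u => sv (ZMod p) (b ψ0) u * x u.1) = ∑ u : {v // v ∈ S},
          bv (ZMod p) (fun u => xor (b (ψ i) u) (b ψ0 u)) u *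
            (sv (ZMod p) (b ψ0) u * x u.1) := rfl
      rw [e3, Finset.mul_sum, Finset.sum_congr rfl (fun u _ => e u), Finset.sum_sub_distrib, r0, ri,
        sub_zero]
    exact (mul_eq_zero.1 e2).resolve_left h2

theorem NsG_count {R R' I S : Type*} [Fintype R] [DecidableEq R] [Fintype R'] [DecidableEq R']
    [Fintype I] [DecidableEq I] [Fintype S] [DecidableEq S] (ψ0 : R)
    (ψ : I → R) (χ : R' → R) (hs : ∀ r, r = ψ0 ∨ (∃ i, ψ i = r) ∨ ∃ j, χ j = r)
    (P : (R → S → Bool) → Prop)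
    (Q : (I → S → Bool) → Prop) (h : ∀ b, P b → Q (fun i u => xor (b (ψ i) u) (b ψ0 u))) :
    ((Finset.univ : Finset (R → S → Bool)).filter P).card ≤
      ((Finset.univ : Finset (I → S → Bool)).filter Q).card *
        Fintype.card ((S → Bool) × (R' → S → Bool)) := by
  rw [← Finset.card_univ, ← Finset.card_product]
  refine Finset.card_le_card_of_injOn
    (fun b => (fun i u => xor (b (ψ i) u) (b ψ0 u), (b ψ0, fun j => b (χ j)))) ?_ ?_
  · intro b hb
    have hb' := (Finset.mem_filter.1 (Finset.mem_coe.1 hb)).2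
    exact Finset.mem_coe.2 (Finset.mem_product.2
      ⟨Finset.mem_filter.2 ⟨Finset.mem_univ _, h b hb'⟩, Finset.mem_univ _⟩)
  · intro b _ b' _ hbb
    obtain ⟨h1, h23⟩ := Prod.ext_iff.1 hbb
    obtain ⟨h2, h3⟩ := Prod.ext_iff.1 h23
    simp only at h1 h2 h3
    funext r
    rcases hs r with rfl | ⟨i, rfl⟩ | ⟨j, rfl⟩
    · exact h2
    · funext u
      have h4 := congrFun (congrFun h1 i) u
      rw [h2] at h4
      revert h4
      cases b (ψ i) u <;> cases b' (ψ i) u <;> cases b' ψ0 u <;> simp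
    · exact congrFun h3 j

theorem card_ker_sei {V : Type*} [Fintype V] [DecidableEq V] (S T : Finset V)
    (hST : Disjoint S T) (N₁ N₂ : ℕ) (hN : N₁ + N₂ + 1 + S.card + T.card = Fintype.card V) :
    (((Finset.univ : Finset (SimpleGraph V)).filter (fun G =>
      ∃ (p : ℕ) (_ : Fact p.Prime) (x : V → ZMod p), p ≠ 2 ∧ x ≠ 0 ∧ (∀ v, v ∉ S → x v = 0) ∧
        ∀ v, v ∉ S → v ∉ T → (sei (ZMod p) G *ᵥ x) v = 0)).card : ℝ) ≤
      (Fintype.card (SimpleGraph V) : ℝ) *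
        ((2 / 3) ^ N₁ * 3 ^ S.card + (S.card : ℝ) ^ 2 * ((2 / 3) ^ N₂ * 3 ^ S.card)) := by
  have e0 : ((Finset.univ : Finset (SimpleGraph V)).filter (fun G =>
      ∃ (p : ℕ) (_ : Fact p.Prime) (x : V → ZMod p), p ≠ 2 ∧ x ≠ 0 ∧ (∀ v, v ∉ S → x v = 0) ∧
        ∀ v, v ∉ S → v ∉ T → (sei (ZMod p) G *ᵥ x) v = 0)).card =
      ((Finset.univ : Finset (SimpleGraph V)).filter (NsG_P S T)).card := rfl
  have hcS : Fintype.card {v // v ∈ S} = S.card := Fintype.card_coe S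
  have hcR : Fintype.card {v // v ∉ S} = N₁ + N₂ + 1 + T.card := by
    have h := Fintype.card_subtype_compl (fun v => v ∈ S)
    rw [hcS] at h
    omega
  have hcT : Fintype.card {v // v ∈ T} = T.card := Fintype.card_coe T
  have hc0 : Fintype.card (Option (Fin N₁ ⊕ Fin N₂)) = Fintype.card {v // v ∉ S ∧ v ∉ T} := by
    have h1 : Fintype.card {v // v ∉ S ∧ v ∉ T} = Fintype.card {v // ¬ v ∈ S ∪ T} := by
      refine Fintype.card_congr (Equiv.subtypeEquivRight fun v => ?_)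
      rw [Finset.mem_union, not_or]
    have h2 := Fintype.card_subtype_compl (fun v => v ∈ S ∪ T)
    have h3 : Fintype.card {v // v ∈ S ∪ T} = S.card + T.card := by
      rw [Fintype.card_coe, Finset.card_union_of_disjoint hST]
    rw [h1, h2, h3, Fintype.card_option, Fintype.card_sum, Fintype.card_fin, Fintype.card_fin]
    omega
  let φ : Option (Fin N₁ ⊕ Fin N₂) ≃ {v // v ∉ S ∧ v ∉ T} := Fintype.equivOfCardEq hc0
  let ψ : Option (Fin N₁ ⊕ Fin N₂) → {v // v ∉ S} := fun i => ⟨(φ i).1, (φ i).2.1⟩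
  let χ : {v // v ∈ T} → {v // v ∉ S} := fun j =>
    ⟨j.1, fun h => Finset.disjoint_left.1 hST h j.2⟩
  have hs : ∀ r : {v // v ∉ S}, r = ψ none ∨ (∃ i, ψ (some i) = r) ∨ ∃ j, χ j = r := by
    rintro ⟨r, hr⟩
    by_cases hT : r ∈ T
    · exact Or.inr (Or.inr ⟨⟨r, hT⟩, rfl⟩)
    · have h1 : ψ (φ.symm ⟨r, hr, hT⟩) = ⟨r, hr⟩ := by
        refine Subtype.ext ?_
        show (φ (φ.symm ⟨r, hr, hT⟩)).1 = r
        rw [Equiv.apply_symm_apply]
      rcases h2 : φ.symm ⟨r, hr, hT⟩ with _ | i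
      · rw [h2] at h1
        exact Or.inl h1.symm
      · rw [h2] at h1
        exact Or.inr (Or.inl ⟨i, h1⟩)
  set δ : ℝ := (2 / 3) ^ N₁ * 3 ^ S.card + (S.card : ℝ) ^ 2 * ((2 / 3) ^ N₂ * 3 ^ S.card) with hδ
  have hδ0 : 0 ≤ δ := by positivity
  have key : ∀ (G : SimpleGraph {v // v ∈ S}) (H : SimpleGraph {v // v ∉ S}),
      (((Finset.univ : Finset ({v // v ∉ S} → {v // v ∈ S} → Bool)).filter (fun b =>
        NsG_P S T ((Equiv.sumCompl (fun v => v ∈ S)).simpleGraph (glue G b H)))).card : ℝ) ≤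
        2 ^ (S.card * (N₁ + N₂ + 1 + T.card)) * δ := by
    intro G H
    have h1 := NsG_count (ψ none) (fun i => ψ (some i)) χ hs (fun b =>
        NsG_P S T ((Equiv.sumCompl (fun v => v ∈ S)).simpleGraph (glue G b H)))
        (fun M => KerP M) (fun b hb => NsG_kerP S T (ψ none) (φ none).2.2 (fun i => ψ (some i))
          (fun i => (φ (some i)).2.2) G b H hb)
    have h2 := card_kerP_le (S := {v // v ∈ S}) N₁ N₂
    rw [hcS] at h2
    have h3 : Fintype.card (({v // v ∈ S} → Bool) × ({v // v ∈ T} → {v // v ∈ S} → Bool)) =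
        2 ^ (S.card * (1 + T.card)) := by
      rw [Fintype.card_prod, Fintype.card_fun, Fintype.card_fun, Fintype.card_fun, hcS,
        Fintype.card_bool, hcT, mul_add, mul_one, pow_add, pow_mul]
    rw [h3] at h1
    have h1' : (((Finset.univ : Finset ({v // v ∉ S} → {v // v ∈ S} → Bool)).filter (fun b =>
        NsG_P S T ((Equiv.sumCompl (fun v => v ∈ S)).simpleGraph (glue G b H)))).card : ℝ) ≤
        (((Finset.univ : Finset (Fin N₁ ⊕ Fin N₂ → {v // v ∈ S} → Bool)).filter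
          (fun M => KerP M)).card : ℝ) * 2 ^ (S.card * (1 + T.card)) := by
      exact_mod_cast h1
    refine h1'.trans ((mul_le_mul_of_nonneg_right h2 (by positivity)).trans (le_of_eq ?_))
    have e3 : S.card * (N₁ + N₂ + 1 + T.card) = S.card * (N₁ + N₂) + S.card * (1 + T.card) := by
      ring
    rw [e3, pow_add]
    ring
  rw [e0, NsA_transport (Equiv.sumCompl (fun v => v ∈ S)) (NsG_P S T), card_filter_glue]
  push_cast
  have h4 : ∑ G : SimpleGraph {v // v ∈ S}, ∑ H : SimpleGraph {v // v ∉ S},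
      (((Finset.univ : Finset ({v // v ∉ S} → {v // v ∈ S} → Bool)).filter (fun b =>
        NsG_P S T ((Equiv.sumCompl (fun v => v ∈ S)).simpleGraph (glue G b H)))).card : ℝ) ≤
      ∑ _G : SimpleGraph {v // v ∈ S}, ∑ _H : SimpleGraph {v // v ∉ S},
        2 ^ (S.card * (N₁ + N₂ + 1 + T.card)) * δ :=
    Finset.sum_le_sum fun G _ => Finset.sum_le_sum fun H _ => key G H
  refine h4.trans (le_of_eq ?_)
  rw [Finset.sum_const, Finset.sum_const, Finset.card_univ, Finset.card_univ, nsmul_eq_mul,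
    nsmul_eq_mul]
  have h5 : Fintype.card (SimpleGraph V) =
      Fintype.card (SimpleGraph ({v // v ∈ S} ⊕ {v // v ∉ S})) :=
    Fintype.card_congr (Equiv.sumCompl (fun v => v ∈ S)).simpleGraph.symm
  rw [h5, card_graph_sum, hcS, hcR]
  push_cast
  ring

end Pool.Agent.H95.DL
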