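import Pool.Agent.H95.DL.Csim
import Pool.Agent.H95.DL.CdF

/-!
# Job DL-39: the recursion for large primes

`PB_p`: as `PB_C` with `cap = 4 n^2`: not good implies not `NSE`, or not `TY`, or not `SIM`
(`cand_le`: `|DSf| ≤ n^2`); proportion at most `(1/2)^(N/10) + (1/2)^(n/10) + n^(-2.2) ≤ n^(-2.15)`.
`XF_p`: `rec_T` with `K0 = 8`, `j = 6`, `n0 = n - 192`, `α = n^(-2.9)`, `a = n^(-0.45)`, `cap = 4 n^2`,
`π = n^(-2.15)`, `s = n / 500`; `k = 0`, `N = n`: the bound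
`4 (800 (8 n^(-0.9) + 4 n^(-0.15))) + (1600 (3 n^(-0.45) + n^(-2.9)))^6 4 n^2 ≤ n^(-0.1)` for large `n`
(`6 * 0.45 = 2.7`).  `6 ≠ 0` in `KK p` as `p > 3`.
-/

set_option autoImplicit false

namespace Pool.Agent.H95.DL

open Matrix Classical Pool.Agent.H66.SP Pool.Agent.H95.SQ

/-- a negative power of `n` is small -/
theorem Pp_small (y : ℝ) (hy : 0 < y) (ε : ℝ) (hε : 0 < ε) : ∃ n₀ : ℕ, ∀ n : ℕ, n₀ ≤ n →
    (n : ℝ) ^ (-y) ≤ ε := by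
  have h := (tendsto_rpow_neg_atTop hy).comp (tendsto_natCast_atTop_atTop (R := ℝ))
  have h2 := h.eventually (ge_mem_nhds hε)
  exact Filter.eventually_atTop.mp h2

theorem Pp_half : ∃ n₀ : ℕ, ∀ n : ℕ, n₀ ≤ n → ∀ N : ℕ, n - 192 ≤ N →
    (1 / 2 : ℝ) ^ (N / 10) ≤ (1 / 8) * (n : ℝ) ^ (-(2.15 : ℝ)) := by
  have h := tendsto_pow_const_mul_const_pow_of_abs_lt_one 3
    (show |(1 / 2 : ℝ)| < 1 by rw [abs_of_pos] <;> norm_num)
  have h2 := h.eventually (ge_mem_nhds (show (0 : ℝ) < 1 / (8 * 211 ^ 3) by norm_num))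
  obtain ⟨m₀, hm₀⟩ := Filter.eventually_atTop.mp h2
  refine ⟨10 * m₀ + 300, fun n hn N hN => ?_⟩
  have hm := hm₀ (N / 10) (by omega)
  have h3 : n ≤ 211 * (N / 10) := by omega
  have h4 : (n : ℝ) ≤ 211 * ((N / 10 : ℕ) : ℝ) := by exact_mod_cast h3
  have hn1 : (1 : ℝ) ≤ n := by exact_mod_cast (show 1 ≤ n by omega)
  have hn0 : (0 : ℝ) < n := by linarith
  have h5 : (n : ℝ) ^ 3 ≤ (211 * ((N / 10 : ℕ) : ℝ)) ^ 3 := pow_le_pow_left₀ hn0.le h4 3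
  have h6 : (n : ℝ) ^ 3 * (1 / 2 : ℝ) ^ (N / 10) ≤ 1 / 8 := by
    calc (n : ℝ) ^ 3 * (1 / 2 : ℝ) ^ (N / 10)
        ≤ (211 * ((N / 10 : ℕ) : ℝ)) ^ 3 * (1 / 2 : ℝ) ^ (N / 10) :=
          mul_le_mul_of_nonneg_right h5 (by positivity)
      _ = 211 ^ 3 * (((N / 10 : ℕ) : ℝ) ^ 3 * (1 / 2 : ℝ) ^ (N / 10)) := by ring
      _ ≤ 211 ^ 3 * (1 / (8 * 211 ^ 3)) := mul_le_mul_of_nonneg_left hm (by norm_num)
      _ = 1 / 8 := by norm_num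
  have h7 : (1 / 2 : ℝ) ^ (N / 10) ≤ (1 / 8) * (n : ℝ) ^ (-(3 : ℝ)) := by
    rw [Real.rpow_neg hn0.le, show (3 : ℝ) = ((3 : ℕ) : ℝ) by norm_num, Real.rpow_natCast,
      ← div_eq_mul_inv, le_div_iff₀ (by positivity), mul_comm]
    exact h6
  refine h7.trans (mul_le_mul_of_nonneg_left ?_ (by norm_num))
  exact Real.rpow_le_rpow_of_exponent_le hn1 (by norm_num)

theorem PB_p : ∃ n₀ : ℕ, ∀ n : ℕ, n₀ ≤ n → ∀ Pi : Finset Nat.Primes,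
    (∀ p ∈ Pi, n ^ 3 < (p : ℕ)) → ∀ k ≤ 8, ∀ N, n - 192 ≤ N → N ≤ n →
    PB (KF Pi) True 600000 (n / 1000) (n / 10000000) (n / 500) (4 * n ^ 2) k N
      ((n : ℝ) ^ (-(2.15 : ℝ))) := by
  obtain ⟨k₀, hk₀⟩ := card_not_nss
  obtain ⟨n₁, hn₁⟩ := card_not_ty
  obtain ⟨n₂, hn₂⟩ := card_not_sim
  obtain ⟨n₃, hn₃⟩ := cand_le
  obtain ⟨n₄, hn₄⟩ := Pp_half
  obtain ⟨n₅, hn₅⟩ := Pp_small 0.05 (by norm_num) (1 / 2) (by norm_num)
  refine ⟨k₀ + n₁ + n₂ + n₃ + n₄ + n₅ + 100000, ?_⟩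
  intro n hn Pi hPi k hk N hN hNn V _ _ hV ts hts hlen
  have hk' : ts.length ≤ 8 := by omega
  -- the three bad sets
  have e1 := hk₀ V (by omega)
  have e2 := hn₁ n (by omega) V (by omega) (su ts)
  have e3 := hn₂ n (by omega) V (by omega) (by omega) ts hts hk'
  have hsub : (Finset.univ : Finset (SimpleGraph V)).filter
      (fun G => ¬ OK (KF Pi) True 600000 (n / 1000) (n / 10000000) (n / 500) (4 * n ^ 2) G ts) ⊆
      ((Finset.univ : Finset (SimpleGraph V)).filter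
        (fun G => ¬ NSS (Fintype.card V / 400) G)) ∪
      (((Finset.univ : Finset (SimpleGraph V)).filter
        (fun G => ¬ TY 600000 (n / 1000) (n / 10000000) G (su ts))) ∪
      ((Finset.univ : Finset (SimpleGraph V)).filter (fun G => ¬ SIM G ts))) := by
    intro G hG
    rw [Finset.mem_filter] at hG
    rw [Finset.mem_union, Finset.mem_union, Finset.mem_filter, Finset.mem_filter,
      Finset.mem_filter]
    by_contra hcon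
    push Not at hcon
    obtain ⟨c1, c2, c3⟩ := hcon
    have d1 := c1 (Finset.mem_univ _)
    have d2 := c2 (Finset.mem_univ _)
    have d3 := c3 (Finset.mem_univ _)
    apply hG.2
    refine ⟨?_, d2, ?_⟩
    · exact NSE_mono (n / 500) (Fintype.card V / 400) (by omega) G ts
        (nse_of_nss (Fintype.card V / 400) G ts hts (by omega) d1)
    · refine (hn₃ n (by omega) V (by omega) G ts hts (by omega) d3 Pi hPi).trans ?_
      nlinarith [sq_nonneg n]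
  have h1 := Finset.card_le_card hsub
  have h2 : (((Finset.univ : Finset (SimpleGraph V)).filter
      (fun G => ¬ OK (KF Pi) True 600000 (n / 1000) (n / 10000000) (n / 500) (4 * n ^ 2) G
        ts)).card : ℝ) ≤
      ((Finset.univ : Finset (SimpleGraph V)).filter
        (fun G => ¬ NSS (Fintype.card V / 400) G)).card +
      (((Finset.univ : Finset (SimpleGraph V)).filter
        (fun G => ¬ TY 600000 (n / 1000) (n / 10000000) G (su ts))).card +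
      ((Finset.univ : Finset (SimpleGraph V)).filter (fun G => ¬ SIM G ts)).card) := by
    have := (h1.trans (Finset.card_union_le _ _)).trans
      (Nat.add_le_add_left (Finset.card_union_le _ _) _)
    exact_mod_cast this
  refine h2.trans ?_
  have f1 := hn₄ n (by omega) (Fintype.card V) (by omega)
  have f2 := hn₄ n (by omega) n (by omega)
  have f3 := hn₅ n (by omega)
  have hn0 : (0 : ℝ) < n := by exact_mod_cast (show 0 < n by omega)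
  have f4 : (n : ℝ) ^ (-(2.2 : ℝ)) = (n : ℝ) ^ (-(2.15 : ℝ)) * (n : ℝ) ^ (-(0.05 : ℝ)) := by
    rw [← Real.rpow_add hn0]
    norm_num
  have f5 : (0 : ℝ) ≤ (n : ℝ) ^ (-(2.15 : ℝ)) := Real.rpow_nonneg hn0.le _
  have f6 : (n : ℝ) ^ (-(2.2 : ℝ)) ≤ (n : ℝ) ^ (-(2.15 : ℝ)) * (1 / 2) := by
    rw [f4]
    exact mul_le_mul_of_nonneg_left f3 f5
  have hC : (0 : ℝ) ≤ (Fintype.card (SimpleGraph V) : ℝ) := Nat.cast_nonneg _
  have g1 := mul_le_mul_of_nonneg_left f1 hC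
  have g2 := mul_le_mul_of_nonneg_left f2 hC
  have g3 := mul_le_mul_of_nonneg_right f6 hC
  have g4 := mul_nonneg f5 hC
  linarith

/-- `6 ≠ 0` for large primes -/
theorem Pp_six (p : ℕ) [Fact p.Prime] (hp : 3 < p) : (6 : KK p) ≠ 0 := by
  have : CharP (KK p) p := charP_of_injective_algebraMap (algebraMap (ZMod p) (KK p)).injective p
  intro h
  have h1 : ((6 : ℕ) : KK p) = 0 := by exact_mod_cast h
  rw [CharP.cast_eq_zero_iff (KK p) p] at h1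
  have h2 : p ∣ 2 * 3 := h1
  rw [Nat.Prime.dvd_mul Fact.out] at h2
  rcases h2 with h2 | h2
  · have := Nat.le_of_dvd (by norm_num) h2
    omega
  · have := Nat.le_of_dvd (by norm_num) h2
    omega

theorem XF_p : ∃ n₀ : ℕ, ∀ n : ℕ, n₀ ≤ n → ∀ Pi : Finset Nat.Primes,
    (∀ p ∈ Pi, n ^ 3 < (p : ℕ)) →
    XB (KF Pi) True 600000 (n / 1000) (n / 10000000) (n / 500) (4 * n ^ 2) n 0 n
      ((n : ℝ) ^ (-(0.1 : ℝ))) ∧
    FB (KF Pi) True 600000 (n / 1000) (n / 10000000) (n / 500) (4 * n ^ 2) 0 n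
      ((n : ℝ) ^ (-(0.1 : ℝ))) := by
  obtain ⟨n₁, hn₁⟩ := PB_p
  obtain ⟨n₂, hn₂⟩ := lb_p
  obtain ⟨n₃, hn₃⟩ := Pp_small 0.05 (by norm_num) (1 / (3200 * 4 * 4)) (by norm_num)
  obtain ⟨n₄, hn₄⟩ := Pp_small 0.45 (by norm_num) (1 / 12800) (by norm_num)
  obtain ⟨n₅, hn₅⟩ := Pp_small 0.6 (by norm_num) (1 / (4 * 4 * 6400 ^ 6)) (by norm_num)
  obtain ⟨n₆, hn₆⟩ := Pp_small 0.8 (by norm_num) (1 / (3200 * 8 * 4)) (by norm_num)
  refine ⟨n₁ + n₂ + n₃ + n₄ + n₅ + n₆ + 200000, ?_⟩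
  intro n hn Pi hPi
  have hn0 : (0 : ℝ) < n := by exact_mod_cast (show 0 < n by omega)
  have hn1 : (1 : ℝ) ≤ n := by exact_mod_cast (show 1 ≤ n by omega)
  have hα : (0 : ℝ) ≤ (n : ℝ) ^ (-(2.9 : ℝ)) := Real.rpow_nonneg hn0.le _
  have ha : (0 : ℝ) ≤ (n : ℝ) ^ (-(0.45 : ℝ)) := Real.rpow_nonneg hn0.le _
  have hπ : (0 : ℝ) ≤ (n : ℝ) ^ (-(2.15 : ℝ)) := Real.rpow_nonneg hn0.le _
  have hαa : (n : ℝ) ^ (-(2.9 : ℝ)) ≤ (n : ℝ) ^ (-(0.45 : ℝ)) :=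
    Real.rpow_le_rpow_of_exponent_le hn1 (by norm_num)
  have g3 := hn₃ n (by omega)
  have g4 := hn₄ n (by omega)
  have g5 := hn₅ n (by omega)
  have g6 := hn₆ n (by omega)
  have h3 : ∀ i : {p : Nat.Primes // p ∈ Pi}, 3 < (i.1 : ℕ) := by
    intro i
    have h := hPi i.1 i.2
    have h' : 3 ≤ n ^ 3 := by
      calc 3 ≤ n := by omega
        _ ≤ n ^ 3 := Nat.le_self_pow (by norm_num) n
    omega
  have hT := rec_T (KF Pi) (fun i => Pp_six (i.1 : ℕ) (h3 i)) True 600000 (n / 1000)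
    (n / 10000000) (n / 500) (4 * n ^ 2) n 8 (n - 192) ((n : ℝ) ^ (-(2.9 : ℝ)))
    ((n : ℝ) ^ (-(0.45 : ℝ))) ((n : ℝ) ^ (-(2.15 : ℝ))) hα ha hπ (by omega)
    (fun i => hn₂ n (by omega) (i.1 : ℕ) (hPi i.1 i.2)) (by omega) (by omega) (by omega)
    (fun k hk N hN hN' => hn₁ n (by omega) Pi hPi k hk N hN hN') (by linarith) 6 0 (by omega) n
    (by omega) le_rfl
  have key : 4 * (800 * (2 * (n : ℝ) ^ (-(2.9 : ℝ)) * ((4 * n ^ 2 : ℕ) : ℝ) +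
      ((4 * n ^ 2 : ℕ) : ℝ) * (n : ℝ) ^ (-(2.15 : ℝ)))) +
      (2 * (800 * (3 * (n : ℝ) ^ (-(0.45 : ℝ)) + (n : ℝ) ^ (-(2.9 : ℝ))))) ^ 6 *
        ((4 * n ^ 2 : ℕ) : ℝ) ≤ (n : ℝ) ^ (-(0.1 : ℝ)) := by
    have hcap : ((4 * n ^ 2 : ℕ) : ℝ) = 4 * (n : ℝ) ^ (2 : ℝ) := by
      push_cast
      rw [show (2 : ℝ) = ((2 : ℕ) : ℝ) by norm_num, Real.rpow_natCast]
    have hP : (0 : ℝ) ≤ (n : ℝ) ^ (-(0.1 : ℝ)) := Real.rpow_nonneg hn0.le _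
    have r1 : (n : ℝ) ^ (-(2.9 : ℝ)) * (n : ℝ) ^ (2 : ℝ) =
        (n : ℝ) ^ (-(0.1 : ℝ)) * (n : ℝ) ^ (-(0.8 : ℝ)) := by
      rw [← Real.rpow_add hn0, ← Real.rpow_add hn0]
      norm_num
    have r2 : (n : ℝ) ^ (2 : ℝ) * (n : ℝ) ^ (-(2.15 : ℝ)) =
        (n : ℝ) ^ (-(0.1 : ℝ)) * (n : ℝ) ^ (-(0.05 : ℝ)) := by
      rw [← Real.rpow_add hn0, ← Real.rpow_add hn0]
      norm_num
    have r3 : ((n : ℝ) ^ (-(0.45 : ℝ))) ^ 6 * (n : ℝ) ^ (2 : ℝ) =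
        (n : ℝ) ^ (-(0.1 : ℝ)) * (n : ℝ) ^ (-(0.6 : ℝ)) := by
      rw [← Real.rpow_natCast ((n : ℝ) ^ (-(0.45 : ℝ))) 6, ← Real.rpow_mul hn0.le,
        ← Real.rpow_add hn0, ← Real.rpow_add hn0]
      norm_num
    have r4 : (2 * (800 * (3 * (n : ℝ) ^ (-(0.45 : ℝ)) + (n : ℝ) ^ (-(2.9 : ℝ))))) ^ 6 ≤
        (6400 * (n : ℝ) ^ (-(0.45 : ℝ))) ^ 6 := by
      apply pow_le_pow_left₀
      · positivity
      · linarith
    have hcap0 : (0 : ℝ) ≤ 4 * (n : ℝ) ^ (2 : ℝ) := by positivity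
    have s1 := mul_le_mul_of_nonneg_right r4 hcap0
    have s2 : (6400 * (n : ℝ) ^ (-(0.45 : ℝ))) ^ 6 * (4 * (n : ℝ) ^ (2 : ℝ)) =
        4 * 6400 ^ 6 * ((n : ℝ) ^ (-(0.1 : ℝ)) * (n : ℝ) ^ (-(0.6 : ℝ))) := by
      rw [← r3]
      ring
    have s3 : 2 * (n : ℝ) ^ (-(2.9 : ℝ)) * (4 * (n : ℝ) ^ (2 : ℝ)) =
        8 * ((n : ℝ) ^ (-(0.1 : ℝ)) * (n : ℝ) ^ (-(0.8 : ℝ))) := by
      rw [← r1]
      ring
    have s4 : 4 * (n : ℝ) ^ (2 : ℝ) * (n : ℝ) ^ (-(2.15 : ℝ)) =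
        4 * ((n : ℝ) ^ (-(0.1 : ℝ)) * (n : ℝ) ^ (-(0.05 : ℝ))) := by
      rw [← r2]
      ring
    rw [s2] at s1
    rw [hcap, s3, s4]
    have t1 := mul_le_mul_of_nonneg_left g3 hP
    have t2 := mul_le_mul_of_nonneg_left g5 hP
    have t3 := mul_le_mul_of_nonneg_left g6 hP
    norm_num at t1 t2 t3 s1 ⊢
    linarith
  exact ⟨XB_mono _ _ _ _ _ _ _ _ _ _ _ _ key hT.1, FB_mono _ _ _ _ _ _ _ _ _ _ _ key hT.2⟩

end Pool.Agent.H95.DL
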