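import Pool.Agent.H95.DL.Ext
import Pool.Agent.H95.DL.Ds

/-!
# Job DL-33: the recursion (a) (one more test)

`XX K iso s2 G ts = ∑_τ #{x ∈ DSg G ts | KP at x for tv τ}` over the `τ` with `IsTest (tv τ)`,
`Off (tv τ) (su ts)` (exchange of sums); there are at most `N^6 ≤ n^6` of them.  Fix such a `τ`,
`q = tv τ`, `ts' = q :: ts` (a family of length `k + 1`, `fam_cons`).  Write `A = OK G ts`,
`A' = OK G ts'`.  For `G ∈ A \ A'` the number of the `x` is at most `cap`; there are at most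
`π card` such graphs.  For `G ∈ A'`: `x ∈ DSg G ts` with `KP .. x.2 q`: the vector `w` of `KP` is in
`EE (K x.1) G ts' x.2` and `q·(S w) = 0` by `ext_mem`; so `x` is in the set
`B(G) = {x ∈ DSf G ts' | ∃ w ∈ EE G ts' x, w ≠ 0, iso, q·(sei G w) = 0, s2 ≤ |FF G (su ts) q ∩ sup w|}`.
So it suffices to bound `∑_{G : OK G ts'} |B(G)|`.  Let `G^σ = flp G (FF G (su ts) q) q σ`.  By
`avg_flp`: `2^N ∑_G 1[OK G ts'] |B(G)| = ∑_G ∑_σ 1[OK G^σ ts'] |B(G^σ)|`, and `OK G^σ ts' ↔ OK G ts'`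
(`OK_flp` and the involution `flp_flp`, `FF_flp`), `DSf G^σ ts' = DSf G ts'`, `EE` the same (`EE_flp`),
`FF G^σ (su ts) q = FF G (su ts) q`.  So for fixed `G` with `OK G ts'` we need
`∑_{x ∈ DSf G ts'} #{σ | ∃ w ∈ EE G ts' x, w ≠ 0, iso, q·(sei G^σ w) = 0, s2 ≤ |F ∩ sup w|}`.
For `x` not fine: at most `2^N`.  For `x` fine with `w₁, w₂`: the vector `w` is `c w₁` or `c w₂`,
`c ≠ 0`; then `w_i` itself is nonzero, isotropic, has the same support and `q·(sei G^σ w_i) = 0`; by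
`flip_bound` (`hs`) at most `2^N (α + a kapS(w_i) / n^6)` for each `i` for which `w_i` is isotropic,
nonzero and `s2 ≤ |F ∩ sup w_i|`, and `kapS s2 (K i) G ts' w_i ≤ kapE iso s2 (K i) G ts' x` for
isotropic nonzero `w_i ∈ EE`.  Sum: `2^N (2 α |DSf| + 2 a XX / n^6 + NF)`.  Sum over `G` with
`OK G ts'`: `|DSf| ≤ cap`, `hx`, `hf`.
-/

set_option autoImplicit false

namespace Pool.Agent.H95.DL

open Matrix Classical Pool.Agent.H66.SP Pool.Agent.H95.SQ

/-- the set `B(G)` -/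
noncomputable def BB {ι : Type} [Fintype ι] (K : ι → Type) [∀ i, Field (K i)] (iso : Prop)
    (s2 : ℕ) {V : Type} [Fintype V] (G : SimpleGraph V) (q : V → ℤ) (ts : List (V → ℤ)) :
    Finset (Σ i, K i) :=
  (DSf K iso G (q :: ts)).filter (fun x => ∃ w ∈ EE (K x.1) G (q :: ts) x.2, w ≠ 0 ∧
    (iso → w ⬝ᵥ w = 0) ∧ cv (K x.1) q ⬝ᵥ (sei (K x.1) G *ᵥ w) = 0 ∧
    s2 ≤ (FF G (su ts) q ∩ sup w).card)

theorem recA_inter {V : Type*} (i₁ i₂ : DecidableEq V) (A B : Finset V) :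
    (@Inter.inter (Finset V) (@Finset.instInter V i₁) A B).card =
      (@Inter.inter (Finset V) (@Finset.instInter V i₂) A B).card := by
  rw [Subsingleton.elim i₁ i₂]

theorem recA_DSf {ι : Type} [Fintype ι] (K : ι → Type) [∀ i, Field (K i)] (iso : Prop)
    {V : Type} [Fintype V] [DecidableEq V] (G : SimpleGraph V)
    (q : V → ℤ) (ts : List (V → ℤ)) (σ : V → Bool) :
    DSf K iso (flp G (FF G (su ts) q) q σ) (q :: ts) = DSf K iso G (q :: ts) := by
  have h : {x : Σ i, K i | x.2 ∈ DD iso (K x.1) (flp G (FF G (su ts) q) q σ) (q :: ts)} =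
      {x : Σ i, K i | x.2 ∈ DD iso (K x.1) G (q :: ts)} := by
    ext x
    change x.2 ∈ DD iso (K x.1) (flp G (FF G (su ts) q) q σ) (q :: ts) ↔
      x.2 ∈ DD iso (K x.1) G (q :: ts)
    unfold DD
    change (∃ w ∈ EE (K x.1) (flp G (FF G (su ts) q) q σ) (q :: ts) x.2, _) ↔ _
    rw [EE_flp (K x.1) G (su ts) q σ (q :: ts) List.mem_cons_self x.2]
    exact Iff.rfl
  unfold DSf
  rw [h]

/-- the condition for `x` and `σ` -/
def recA_R (iso : Prop) (s2 : ℕ) {V : Type} [Fintype V] (G : SimpleGraph V) (q : V → ℤ)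
    (ts : List (V → ℤ)) (K₁ : Type) [Field K₁] (μ : K₁) (σ : V → Bool) : Prop :=
  ∃ w ∈ EE K₁ G (q :: ts) μ, w ≠ 0 ∧ (iso → w ⬝ᵥ w = 0) ∧
    cv K₁ q ⬝ᵥ (sei K₁ (flp G (FF G (su ts) q) q σ) *ᵥ w) = 0 ∧
    s2 ≤ (FF G (su ts) q ∩ sup w).card

theorem recA_BB {ι : Type} [Fintype ι] (K : ι → Type) [∀ i, Field (K i)] (iso : Prop) (s2 : ℕ)
    {V : Type} [Fintype V] [DecidableEq V] (G : SimpleGraph V)
    (q : V → ℤ) (ts : List (V → ℤ)) (σ : V → Bool) :
    BB K iso s2 (flp G (FF G (su ts) q) q σ) q ts =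
      (DSf K iso G (q :: ts)).filter (fun x => recA_R iso s2 G q ts (K x.1) x.2 σ) := by
  ext x
  unfold BB recA_R
  rw [Finset.mem_filter, Finset.mem_filter, recA_DSf,
    EE_flp (K x.1) G (su ts) q σ (q :: ts) List.mem_cons_self x.2, FF_flp]

theorem recA_kap (iso : Prop) (s2 : ℕ) (K₁ : Type) [Field K₁] {V : Type} [Fintype V]
    (G : SimpleGraph V) (ts : List (V → ℤ)) (μ : K₁) (w : V → K₁) (hw : w ∈ EE K₁ G ts μ)
    (hw0 : w ≠ 0) (hiso : iso → w ⬝ᵥ w = 0) :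
    kapS s2 K₁ G ts w ≤ kapE iso s2 K₁ G ts μ := by
  unfold kapS kapE
  refine Finset.card_le_card fun τ hτ => ?_
  rw [Finset.mem_filter] at hτ ⊢
  exact ⟨hτ.1, hτ.2.1, hτ.2.2.1, w, hw, hw0, hiso, hτ.2.2.2.1, hτ.2.2.2.2⟩

theorem recA_w (K₁ : Type) [Field K₁] (h6 : (6 : K₁) ≠ 0) (iso : Prop) (m6 s1 s2 s n k : ℕ)
    (α a : ℝ) (hα : 0 ≤ α) (ha : 0 ≤ a) (hLB : LB K₁ m6 s1 s2 n α a)
    (hs : s1 + 6 * (k + 1) ≤ s) {V : Type} [Fintype V] [DecidableEq V]
    (hV : Fintype.card V ≤ n) (G : SimpleGraph V) (q : V → ℤ) (ts : List (V → ℤ))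
    (hk : ts.length = k) (hts : Fam (q :: ts)) (hnse : NSE s G (q :: ts))
    (hty : TY m6 s1 s2 G (su (q :: ts))) (μ : K₁) (w : V → K₁)
    (hw : w ∈ EE K₁ G (q :: ts) μ) :
    (((Finset.univ : Finset (V → Bool)).filter (fun σ => w ≠ 0 ∧ (iso → w ⬝ᵥ w = 0) ∧
      cv K₁ q ⬝ᵥ (sei K₁ (flp G (FF G (su ts) q) q σ) *ᵥ w) = 0 ∧
      s2 ≤ (FF G (su ts) q ∩ sup w).card)).card : ℝ) ≤
      2 ^ Fintype.card V * (α + a * (kapE iso s2 K₁ G (q :: ts) μ : ℝ) / (n : ℝ) ^ 6) := by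
  by_cases hg : w ≠ 0 ∧ (iso → w ⬝ᵥ w = 0) ∧ s2 ≤ (FF G (su ts) q ∩ sup w).card
  · obtain ⟨hw0, hiso, hs2⟩ := hg
    have h1 := flip_bound K₁ h6 m6 s1 s2 s n α a hLB hV G ts q hts (by rw [hk]; exact hs) hnse hty
      μ w hw hw0 hs2
    have h2 : (((Finset.univ : Finset (V → Bool)).filter (fun σ => w ≠ 0 ∧ (iso → w ⬝ᵥ w = 0) ∧
      cv K₁ q ⬝ᵥ (sei K₁ (flp G (FF G (su ts) q) q σ) *ᵥ w) = 0 ∧
      s2 ≤ (FF G (su ts) q ∩ sup w).card)).card : ℝ) ≤
      (((Finset.univ : Finset (V → Bool)).filter (fun σ =>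
      cv K₁ q ⬝ᵥ (sei K₁ (flp G (FF G (su ts) q) q σ) *ᵥ w) = 0)).card : ℝ) := by
      exact_mod_cast Finset.card_le_card fun σ hσ => by
        rw [Finset.mem_filter] at hσ ⊢
        exact ⟨hσ.1, hσ.2.2.2.1⟩
    refine h2.trans (h1.trans ?_)
    refine mul_le_mul_of_nonneg_left ?_ (by positivity)
    have h3 : (kapS s2 K₁ G (q :: ts) w : ℝ) ≤ (kapE iso s2 K₁ G (q :: ts) μ : ℝ) := by
      exact_mod_cast recA_kap iso s2 K₁ G (q :: ts) μ w hw hw0 hiso
    have h4 : a * (kapS s2 K₁ G (q :: ts) w : ℝ) / (n : ℝ) ^ 6 ≤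
        a * (kapE iso s2 K₁ G (q :: ts) μ : ℝ) / (n : ℝ) ^ 6 :=
      div_le_div_of_nonneg_right (mul_le_mul_of_nonneg_left h3 ha) (by positivity)
    linarith
  · have h2 : ((Finset.univ : Finset (V → Bool)).filter (fun σ => w ≠ 0 ∧ (iso → w ⬝ᵥ w = 0) ∧
      cv K₁ q ⬝ᵥ (sei K₁ (flp G (FF G (su ts) q) q σ) *ᵥ w) = 0 ∧
      s2 ≤ (FF G (su ts) q ∩ sup w).card)) = ∅ := by
      refine Finset.filter_eq_empty_iff.2 fun σ _ h => hg ⟨h.1, h.2.1, h.2.2.2⟩
    rw [h2, Finset.card_empty, Nat.cast_zero]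
    positivity

theorem recA_x (K₁ : Type) [Field K₁] (h6 : (6 : K₁) ≠ 0) (iso : Prop) (m6 s1 s2 s n k : ℕ)
    (α a : ℝ) (hα : 0 ≤ α) (ha : 0 ≤ a) (hLB : LB K₁ m6 s1 s2 n α a)
    (hs : s1 + 6 * (k + 1) ≤ s) {V : Type} [Fintype V] [DecidableEq V]
    (hV : Fintype.card V ≤ n) (G : SimpleGraph V) (q : V → ℤ) (ts : List (V → ℤ))
    (hk : ts.length = k) (hts : Fam (q :: ts)) (hnse : NSE s G (q :: ts))
    (hty : TY m6 s1 s2 G (su (q :: ts))) (μ : K₁) (hF : Fine iso (EE K₁ G (q :: ts) μ)) :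
    (((Finset.univ : Finset (V → Bool)).filter
      (fun σ => recA_R iso s2 G q ts K₁ μ σ)).card : ℝ) ≤
      2 * (2 ^ Fintype.card V *
        (α + a * (kapE iso s2 K₁ G (q :: ts) μ : ℝ) / (n : ℝ) ^ 6)) := by
  obtain ⟨w₁, hw₁, w₂, hw₂, hF⟩ := hF
  have h1 := recA_w K₁ h6 iso m6 s1 s2 s n k α a hα ha hLB hs hV G q ts hk hts hnse hty μ w₁ hw₁
  have h2 := recA_w K₁ h6 iso m6 s1 s2 s n k α a hα ha hLB hs hV G q ts hk hts hnse hty μ w₂ hw₂
  set A : (V → K₁) → Finset (V → Bool) := fun w =>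
    (Finset.univ : Finset (V → Bool)).filter (fun σ => w ≠ 0 ∧ (iso → w ⬝ᵥ w = 0) ∧
      cv K₁ q ⬝ᵥ (sei K₁ (flp G (FF G (su ts) q) q σ) *ᵥ w) = 0 ∧
      s2 ≤ (FF G (su ts) q ∩ sup w).card) with hA
  have key : ∀ (w w' : V → K₁) (c : K₁), w = c • w' → w ≠ 0 → (iso → w ⬝ᵥ w = 0) →
      ∀ σ : V → Bool, cv K₁ q ⬝ᵥ (sei K₁ (flp G (FF G (su ts) q) q σ) *ᵥ w) = 0 →
      s2 ≤ (FF G (su ts) q ∩ sup w).card → σ ∈ A w' := by
    intro w w' c hc hw0 hiso σ hσ hs2
    have hc0 : c ≠ 0 := by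
      rintro rfl
      exact hw0 (by rw [hc, zero_smul])
    have hw'0 : w' ≠ 0 := by
      rintro rfl
      exact hw0 (by rw [hc, smul_zero])
    have hsup : sup w = sup w' := by
      unfold sup
      refine Finset.filter_congr fun v _ => ?_
      rw [hc, Pi.smul_apply, smul_eq_mul, mul_ne_zero_iff]
      exact ⟨fun h => h.2, fun h => ⟨hc0, h⟩⟩
    rw [hA, Finset.mem_filter]
    refine ⟨Finset.mem_univ _, hw'0, fun hi => ?_, ?_, ?_⟩
    · have h := hiso hi
      rw [hc, smul_dotProduct, dotProduct_smul, smul_eq_mul, smul_eq_mul] at h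
      rcases mul_eq_zero.1 h with h | h
      · exact absurd h hc0
      · rcases mul_eq_zero.1 h with h | h
        · exact absurd h hc0
        · exact h
    · rw [hc, Matrix.mulVec_smul, dotProduct_smul, smul_eq_mul] at hσ
      rcases mul_eq_zero.1 hσ with h | h
      · exact absurd h hc0
      · exact h
    · rw [← hsup]
      exact hs2
  have hsub : (Finset.univ : Finset (V → Bool)).filter
      (fun σ => recA_R iso s2 G q ts K₁ μ σ) ⊆ A w₁ ∪ A w₂ := by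
    intro σ hσ
    rw [Finset.mem_filter] at hσ
    obtain ⟨w, hw, hw0, hiso, hσ, hs2⟩ := hσ.2
    rw [Finset.mem_union]
    rcases hF w hw hiso with ⟨c, hc⟩ | ⟨c, hc⟩
    · left
      exact key w w₁ c hc hw0 hiso σ hσ (hs2.trans (le_of_eq (recA_inter _ _ _ _)))
    · right
      exact key w w₂ c hc hw0 hiso σ hσ (hs2.trans (le_of_eq (recA_inter _ _ _ _)))
  have h3 : (((Finset.univ : Finset (V → Bool)).filter
      (fun σ => recA_R iso s2 G q ts K₁ μ σ)).card : ℝ) ≤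
      ((A w₁).card : ℝ) + ((A w₂).card : ℝ) := by
    exact_mod_cast (Finset.card_le_card hsub).trans (Finset.card_union_le _ _)
  linarith

theorem recA_flip {ι : Type} [Fintype ι] (K : ι → Type) [∀ i, Field (K i)]
    (h6 : ∀ i, (6 : K i) ≠ 0) (iso : Prop) (m6 s1 s2 s cap n k : ℕ) (α a : ℝ) (hα : 0 ≤ α)
    (ha : 0 ≤ a) (hn : 1 ≤ n) (hLB : ∀ i, LB (K i) m6 s1 s2 n α a) (hs : s1 + 6 * (k + 1) ≤ s)
    {V : Type} [Fintype V] [DecidableEq V] (hV : Fintype.card V ≤ n) (G : SimpleGraph V)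
    (q : V → ℤ) (ts : List (V → ℤ)) (hk : ts.length = k) (hts : Fam (q :: ts))
    (hG : OK K iso m6 s1 s2 s cap G (q :: ts)) :
    ((∑ σ : V → Bool, (BB K iso s2 (flp G (FF G (su ts) q) q σ) q ts).card : ℕ) : ℝ) ≤
      2 ^ Fintype.card V * (2 * α * (DSf K iso G (q :: ts)).card +
        2 * a * (XX K iso s2 G (q :: ts) : ℝ) / (n : ℝ) ^ 6 + (NF K iso G (q :: ts) : ℝ)) := by
  have h1 : (∑ σ : V → Bool, (BB K iso s2 (flp G (FF G (su ts) q) q σ) q ts).card) =
      ∑ x ∈ DSf K iso G (q :: ts), ((Finset.univ : Finset (V → Bool)).filter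
        (fun σ => recA_R iso s2 G q ts (K x.1) x.2 σ)).card := by
    simp only [recA_BB, Finset.card_filter]
    exact Finset.sum_comm
  rw [h1]
  push_cast
  rw [← Finset.sum_filter_add_sum_filter_not (DSf K iso G (q :: ts))
    (fun x => Fine iso (EE (K x.1) G (q :: ts) x.2))]
  have h2 : ∑ x ∈ (DSf K iso G (q :: ts)).filter
      (fun x => Fine iso (EE (K x.1) G (q :: ts) x.2)),
      (((Finset.univ : Finset (V → Bool)).filter
        (fun σ => recA_R iso s2 G q ts (K x.1) x.2 σ)).card : ℝ) ≤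
      ∑ x ∈ (DSf K iso G (q :: ts)).filter
        (fun x => Fine iso (EE (K x.1) G (q :: ts) x.2)),
        (2 * (2 ^ Fintype.card V *
          (α + a * (kapE iso s2 (K x.1) G (q :: ts) x.2 : ℝ) / (n : ℝ) ^ 6))) := by
    refine Finset.sum_le_sum fun x hx => ?_
    rw [Finset.mem_filter] at hx
    exact recA_x (K x.1) (h6 x.1) iso m6 s1 s2 s n k α a hα ha (hLB x.1) hs hV G q ts hk hts
      hG.nse hG.ty x.2 hx.2
  have h3 : ∑ x ∈ (DSf K iso G (q :: ts)).filter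
      (fun x => ¬ Fine iso (EE (K x.1) G (q :: ts) x.2)),
      (((Finset.univ : Finset (V → Bool)).filter
        (fun σ => recA_R iso s2 G q ts (K x.1) x.2 σ)).card : ℝ) ≤
      ∑ x ∈ (DSf K iso G (q :: ts)).filter
        (fun x => ¬ Fine iso (EE (K x.1) G (q :: ts) x.2)), (2 : ℝ) ^ Fintype.card V := by
    refine Finset.sum_le_sum fun x hx => ?_
    have h4 : ((Finset.univ : Finset (V → Bool)).filter
        (fun σ => recA_R iso s2 G q ts (K x.1) x.2 σ)).card ≤ 2 ^ Fintype.card V := by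
      refine (Finset.card_filter_le _ _).trans (le_of_eq ?_)
      rw [Finset.card_univ, Fintype.card_fun, Fintype.card_bool]
    exact_mod_cast h4
  have h5 : ∑ x ∈ (DSf K iso G (q :: ts)).filter
        (fun x => ¬ Fine iso (EE (K x.1) G (q :: ts) x.2)), (2 : ℝ) ^ Fintype.card V =
      2 ^ Fintype.card V * (NF K iso G (q :: ts) : ℝ) := by
    rw [Finset.sum_const, nsmul_eq_mul, mul_comm]
    rfl
  have h6 : ∑ x ∈ (DSf K iso G (q :: ts)).filter
        (fun x => Fine iso (EE (K x.1) G (q :: ts) x.2)),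
        (2 * (2 ^ Fintype.card V *
          (α + a * (kapE iso s2 (K x.1) G (q :: ts) x.2 : ℝ) / (n : ℝ) ^ 6))) =
      2 ^ Fintype.card V * (2 * α * (((DSf K iso G (q :: ts)).filter
        (fun x => Fine iso (EE (K x.1) G (q :: ts) x.2))).card : ℝ) +
        2 * a * (XX K iso s2 G (q :: ts) : ℝ) / (n : ℝ) ^ 6) := by
    have h7 : (XX K iso s2 G (q :: ts) : ℝ) = ∑ x ∈ (DSf K iso G (q :: ts)).filter
        (fun x => Fine iso (EE (K x.1) G (q :: ts) x.2)),
        (kapE iso s2 (K x.1) G (q :: ts) x.2 : ℝ) := by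
      unfold XX DSg
      push_cast
      rfl
    rw [h7, ← Finset.mul_sum, ← Finset.mul_sum, Finset.sum_add_distrib, Finset.sum_const,
      nsmul_eq_mul, ← Finset.sum_div, ← Finset.mul_sum]
    ring
  have h8 : (((DSf K iso G (q :: ts)).filter
        (fun x => Fine iso (EE (K x.1) G (q :: ts) x.2))).card : ℝ) ≤
      ((DSf K iso G (q :: ts)).card : ℝ) := by
    exact_mod_cast Finset.card_filter_le _ _
  have h9 : (0 : ℝ) < 2 ^ Fintype.card V := by positivity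
  have h10 : (2 : ℝ) ^ Fintype.card V * (2 * α * (((DSf K iso G (q :: ts)).filter
        (fun x => Fine iso (EE (K x.1) G (q :: ts) x.2))).card : ℝ) +
        2 * a * (XX K iso s2 G (q :: ts) : ℝ) / (n : ℝ) ^ 6) ≤
      2 ^ Fintype.card V * (2 * α * ((DSf K iso G (q :: ts)).card : ℝ) +
        2 * a * (XX K iso s2 G (q :: ts) : ℝ) / (n : ℝ) ^ 6) := by
    refine mul_le_mul_of_nonneg_left ?_ h9.le
    have := mul_le_mul_of_nonneg_left h8 (by positivity : 0 ≤ 2 * α)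
    linarith
  calc _ ≤ _ := add_le_add (h2.trans (h6.le.trans h10)) (h3.trans h5.le)
    _ = _ := by ring

theorem recA_one {ι : Type} [Fintype ι] (K : ι → Type) [∀ i, Field (K i)]
    (h6 : ∀ i, (6 : K i) ≠ 0) (iso : Prop) (m6 s1 s2 s cap n k : ℕ) (α a x f : ℝ) (hα : 0 ≤ α)
    (ha : 0 ≤ a) (hn : 1 ≤ n) (hLB : ∀ i, LB (K i) m6 s1 s2 n α a) (hs : s1 + 6 * (k + 1) ≤ s)
    {V : Type} [Fintype V] [DecidableEq V] (hV : Fintype.card V ≤ n)
    (q : V → ℤ) (ts : List (V → ℤ)) (hk : ts.length = k) (hts : Fam (q :: ts))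
    (hx : XB K iso m6 s1 s2 s cap n (k + 1) (Fintype.card V) x)
    (hf : FB K iso m6 s1 s2 s cap (k + 1) (Fintype.card V) f) :
    ((∑ G ∈ (Finset.univ : Finset (SimpleGraph V)).filter
      (fun G => OK K iso m6 s1 s2 s cap G (q :: ts)), (BB K iso s2 G q ts).card : ℕ) : ℝ) ≤
      (Fintype.card (SimpleGraph V) : ℝ) * (2 * α * cap + 2 * a * x + f) := by
  set g : SimpleGraph V → ℕ := fun G => if OK K iso m6 s1 s2 s cap G (q :: ts) then
    (BB K iso s2 G q ts).card else 0 with hg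
  set OKs := (Finset.univ : Finset (SimpleGraph V)).filter
      (fun G => OK K iso m6 s1 s2 s cap G (q :: ts)) with hOKs
  have hn0 : (0 : ℝ) < (n : ℝ) ^ 6 := by
    have : (0 : ℝ) < n := by exact_mod_cast hn
    positivity
  have h1 : ∑ G ∈ OKs, (BB K iso s2 G q ts).card = ∑ G : SimpleGraph V, g G := by
    rw [hOKs, Finset.sum_filter]
  have h2 : 2 ^ Fintype.card V * ∑ G : SimpleGraph V, g G =
      ∑ σ : V → Bool, ∑ G : SimpleGraph V, g (flp G (FF G (su ts) q) q σ) := by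
    have h3 : ∀ σ ∈ (Finset.univ : Finset (V → Bool)),
        ∑ G : SimpleGraph V, g (flp G (FF G (su ts) q) q σ) = ∑ G : SimpleGraph V, g G :=
      fun σ _ => avg_flp (su ts) q σ g
    rw [Finset.sum_congr rfl h3, Finset.sum_const, Finset.card_univ, Fintype.card_fun,
      Fintype.card_bool, smul_eq_mul]
  have h3 : ∑ σ : V → Bool, ∑ G : SimpleGraph V, g (flp G (FF G (su ts) q) q σ) ≤
      ∑ G ∈ OKs, ∑ σ : V → Bool,
        (BB K iso s2 (flp G (FF G (su ts) q) q σ) q ts).card := by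
    rw [Finset.sum_comm, hOKs, Finset.sum_filter]
    refine Finset.sum_le_sum fun G _ => ?_
    by_cases hG : OK K iso m6 s1 s2 s cap G (q :: ts)
    · rw [if_pos hG]
      refine Finset.sum_le_sum fun σ _ => ?_
      rw [hg]
      dsimp only
      split_ifs
      · exact le_rfl
      · exact Nat.zero_le _
    · rw [if_neg hG]
      refine le_of_eq (Finset.sum_eq_zero fun σ _ => ?_)
      rw [hg]
      dsimp only
      rw [if_neg]
      intro h
      apply hG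
      have h4 := OK_flp K iso m6 s1 s2 s cap (flp G (FF G (su ts) q) q σ) (su ts) q σ (q :: ts)
        List.mem_cons_self h
      rw [FF_flp, flp_flp] at h4
      exact h4
  have h4 : ((∑ G ∈ OKs, ∑ σ : V → Bool,
        (BB K iso s2 (flp G (FF G (su ts) q) q σ) q ts).card : ℕ) : ℝ) ≤
      ∑ G ∈ OKs, (2 ^ Fintype.card V * (2 * α * cap +
        2 * a * (XX K iso s2 G (q :: ts) : ℝ) / (n : ℝ) ^ 6 + (NF K iso G (q :: ts) : ℝ))) := by
    rw [Nat.cast_sum]
    refine Finset.sum_le_sum fun G hG => ?_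
    rw [hOKs, Finset.mem_filter] at hG
    refine (recA_flip K h6 iso m6 s1 s2 s cap n k α a hα ha hn hLB hs hV G q ts hk hts
      hG.2).trans ?_
    refine mul_le_mul_of_nonneg_left ?_ (by positivity)
    have h5 : ((DSf K iso G (q :: ts)).card : ℝ) ≤ cap := by exact_mod_cast hG.2.card
    have := mul_le_mul_of_nonneg_left h5 (by positivity : 0 ≤ 2 * α)
    linarith
  have h5 : ∑ G ∈ OKs, ((2 : ℝ) ^ Fintype.card V * (2 * α * cap +
        2 * a * (XX K iso s2 G (q :: ts) : ℝ) / (n : ℝ) ^ 6 + (NF K iso G (q :: ts) : ℝ))) =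
      2 ^ Fintype.card V * (2 * α * cap * (OKs.card : ℝ) +
        2 * a / (n : ℝ) ^ 6 * ((∑ G ∈ OKs, XX K iso s2 G (q :: ts) : ℕ) : ℝ) +
        ((∑ G ∈ OKs, NF K iso G (q :: ts) : ℕ) : ℝ)) := by
    rw [← Finset.mul_sum, Finset.sum_add_distrib, Finset.sum_add_distrib, Finset.sum_const,
      nsmul_eq_mul, ← Finset.sum_div, ← Finset.mul_sum, Nat.cast_sum, Nat.cast_sum]
    ring
  have h6 := hx V rfl (q :: ts) hts (by rw [List.length_cons, hk])
  have h7 := hf V rfl (q :: ts) hts (by rw [List.length_cons, hk])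
  rw [← hOKs] at h6 h7
  have h8 : (OKs.card : ℝ) ≤ (Fintype.card (SimpleGraph V) : ℝ) := by
    exact_mod_cast Finset.card_le_univ _
  set c : ℝ := (Fintype.card (SimpleGraph V) : ℝ) with hc
  have h9 : 2 * α * cap * (OKs.card : ℝ) ≤ 2 * α * cap * c :=
    mul_le_mul_of_nonneg_left h8 (by positivity)
  have h10 : 2 * a / (n : ℝ) ^ 6 * ((∑ G ∈ OKs, XX K iso s2 G (q :: ts) : ℕ) : ℝ) ≤
      2 * a * x * c := by
    calc 2 * a / (n : ℝ) ^ 6 * ((∑ G ∈ OKs, XX K iso s2 G (q :: ts) : ℕ) : ℝ) ≤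
        2 * a / (n : ℝ) ^ 6 * (x * (n : ℝ) ^ 6 * c) :=
          mul_le_mul_of_nonneg_left h6 (by positivity)
      _ = 2 * a * x * c := by
          field_simp
  have h11 : (2 : ℝ) ^ Fintype.card V * ((∑ G ∈ OKs, (BB K iso s2 G q ts).card : ℕ) : ℝ) ≤
      2 ^ Fintype.card V * (c * (2 * α * cap + 2 * a * x + f)) := by
    have h12 : (2 : ℝ) ^ Fintype.card V * ((∑ G ∈ OKs, (BB K iso s2 G q ts).card : ℕ) : ℝ) ≤
        ((∑ G ∈ OKs, ∑ σ : V → Bool,
        (BB K iso s2 (flp G (FF G (su ts) q) q σ) q ts).card : ℕ) : ℝ) := by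
      rw [h1]
      exact_mod_cast h2.le.trans h3
    refine h12.trans (h4.trans ?_)
    rw [h5]
    refine mul_le_mul_of_nonneg_left ?_ (by positivity)
    linarith
  exact le_of_mul_le_mul_left h11 (by positivity)

theorem recA_tau {ι : Type} [Fintype ι] (K : ι → Type) [∀ i, Field (K i)]
    (h6 : ∀ i, (6 : K i) ≠ 0) (iso : Prop) (m6 s1 s2 s cap n k : ℕ) (α a x f π : ℝ)
    (hα : 0 ≤ α) (ha : 0 ≤ a) (hn : 1 ≤ n)
    (hLB : ∀ i, LB (K i) m6 s1 s2 n α a) (hs : s1 + 6 * (k + 1) ≤ s)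
    {V : Type} [Fintype V] [DecidableEq V] (hV : Fintype.card V ≤ n)
    (q : V → ℤ) (ts : List (V → ℤ)) (hk : ts.length = k) (hts : Fam (q :: ts))
    (hx : XB K iso m6 s1 s2 s cap n (k + 1) (Fintype.card V) x)
    (hf : FB K iso m6 s1 s2 s cap (k + 1) (Fintype.card V) f)
    (hπ : PB K iso m6 s1 s2 s cap (k + 1) (Fintype.card V) π) :
    ((∑ G ∈ (Finset.univ : Finset (SimpleGraph V)).filter
      (fun G => OK K iso m6 s1 s2 s cap G ts), ((DSg K iso G ts).filter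
        (fun x => KP iso s2 (K x.1) G ts x.2 q)).card : ℕ) : ℝ) ≤
      (Fintype.card (SimpleGraph V) : ℝ) * (2 * α * cap + 2 * a * x + f + cap * π) := by
  have hq : Off q (su ts) := ((fam_cons q ts).1 hts).2.1
  have hone := recA_one K h6 iso m6 s1 s2 s cap n k α a x f hα ha hn hLB hs hV q ts hk hts hx hf
  have hP := hπ V rfl (q :: ts) hts (by rw [List.length_cons, hk])
  have h1 : (∑ G ∈ (Finset.univ : Finset (SimpleGraph V)).filter
      (fun G => OK K iso m6 s1 s2 s cap G ts), ((DSg K iso G ts).filter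
        (fun x => KP iso s2 (K x.1) G ts x.2 q)).card) ≤
      ∑ G : SimpleGraph V, ((if OK K iso m6 s1 s2 s cap G (q :: ts) then
        (BB K iso s2 G q ts).card else 0) +
        (if ¬ OK K iso m6 s1 s2 s cap G (q :: ts) then cap else 0)) := by
    rw [Finset.sum_filter]
    refine Finset.sum_le_sum fun G _ => ?_
    by_cases hG : OK K iso m6 s1 s2 s cap G ts
    · rw [if_pos hG]
      by_cases hG' : OK K iso m6 s1 s2 s cap G (q :: ts)
      · rw [if_pos hG', if_neg (not_not.2 hG'), add_zero]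
        refine Finset.card_le_card fun y hy => ?_
        rw [Finset.mem_filter] at hy
        obtain ⟨hy1, w, hw, hw0, hiso, h0, hs2⟩ := hy
        obtain ⟨e1, e2⟩ := ext_mem (K y.1) G ts q hq y.2 w hw h0
        unfold BB
        rw [Finset.mem_filter]
        refine ⟨(mem_DSf K h6 iso G (q :: ts) hts y).2 ⟨w, e1, hw0, hiso⟩,
          w, e1, hw0, hiso, e2, hs2⟩
      · rw [if_neg hG', if_pos hG', zero_add]
        refine (Finset.card_filter_le _ _).trans ?_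
        unfold DSg
        exact (Finset.card_filter_le _ _).trans hG.card
    · rw [if_neg hG]
      exact Nat.zero_le _
  have h2 : ∑ G : SimpleGraph V, ((if OK K iso m6 s1 s2 s cap G (q :: ts) then
        (BB K iso s2 G q ts).card else 0) +
        (if ¬ OK K iso m6 s1 s2 s cap G (q :: ts) then cap else 0)) =
      (∑ G ∈ (Finset.univ : Finset (SimpleGraph V)).filter
      (fun G => OK K iso m6 s1 s2 s cap G (q :: ts)), (BB K iso s2 G q ts).card) +
      ((Finset.univ : Finset (SimpleGraph V)).filter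
        (fun G => ¬ OK K iso m6 s1 s2 s cap G (q :: ts))).card * cap := by
    rw [Finset.sum_add_distrib, ← Finset.sum_filter, ← Finset.sum_filter, Finset.sum_const,
      smul_eq_mul]
  rw [h2] at h1
  have h3 : ((∑ G ∈ (Finset.univ : Finset (SimpleGraph V)).filter
      (fun G => OK K iso m6 s1 s2 s cap G ts), ((DSg K iso G ts).filter
        (fun x => KP iso s2 (K x.1) G ts x.2 q)).card : ℕ) : ℝ) ≤
      ((∑ G ∈ (Finset.univ : Finset (SimpleGraph V)).filter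
      (fun G => OK K iso m6 s1 s2 s cap G (q :: ts)), (BB K iso s2 G q ts).card : ℕ) : ℝ) +
      (((Finset.univ : Finset (SimpleGraph V)).filter
        (fun G => ¬ OK K iso m6 s1 s2 s cap G (q :: ts))).card : ℝ) * cap := by
    exact_mod_cast h1
  have h4 : (((Finset.univ : Finset (SimpleGraph V)).filter
        (fun G => ¬ OK K iso m6 s1 s2 s cap G (q :: ts))).card : ℝ) * cap ≤
      π * (Fintype.card (SimpleGraph V) : ℝ) * cap :=
    mul_le_mul_of_nonneg_right hP (Nat.cast_nonneg _)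
  calc _ ≤ _ := h3.trans (add_le_add hone h4)
    _ = _ := by ring

theorem rec_a {ι : Type} [Fintype ι] (K : ι → Type) [∀ i, Field (K i)]
    (h6 : ∀ i, (6 : K i) ≠ 0) (iso : Prop) (m6 s1 s2 s cap n k N : ℕ) (α a x f π : ℝ)
    (hα : 0 ≤ α) (ha : 0 ≤ a) (hx0 : 0 ≤ x) (hf0 : 0 ≤ f) (hπ0 : 0 ≤ π) (hn : 1 ≤ n) (hN : N ≤ n)
    (hLB : ∀ i, LB (K i) m6 s1 s2 n α a) (hs : s1 + 6 * (k + 1) ≤ s)
    (hx : XB K iso m6 s1 s2 s cap n (k + 1) N x) (hf : FB K iso m6 s1 s2 s cap (k + 1) N f)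
    (hπ : PB K iso m6 s1 s2 s cap (k + 1) N π) :
    XB K iso m6 s1 s2 s cap n k N (2 * α * cap + 2 * a * x + f + cap * π) := by
  intro V _ _ hV ts hts hk
  subst hV
  set c : ℝ := (Fintype.card (SimpleGraph V) : ℝ) with hc
  set B : ℝ := 2 * α * cap + 2 * a * x + f + cap * π with hB
  have hB0 : 0 ≤ B := by positivity
  set OKs := (Finset.univ : Finset (SimpleGraph V)).filter
      (fun G => OK K iso m6 s1 s2 s cap G ts) with hOKs
  set T := (Finset.univ : Finset (Tr V)).filter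
      (fun τ => IsTest (tv τ) ∧ Off (tv τ) (su ts)) with hT
  have h1 : ∀ G : SimpleGraph V, XX K iso s2 G ts =
      ∑ τ ∈ T, ((DSg K iso G ts).filter (fun x => KP iso s2 (K x.1) G ts x.2 (tv τ))).card := by
    intro G
    have h2 : ∀ y : Σ i, K i, kapE iso s2 (K y.1) G ts y.2 =
        ∑ τ ∈ T, (if KP iso s2 (K y.1) G ts y.2 (tv τ) then 1 else 0) := by
      intro y
      rw [← Finset.card_filter, hT, Finset.filter_filter]
      unfold kapE
      congr 1
      refine Finset.filter_congr fun τ _ => ?_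
      rw [and_assoc]
    unfold XX
    rw [Finset.sum_congr rfl fun y _ => h2 y, Finset.sum_comm]
    exact Finset.sum_congr rfl fun τ _ => (Finset.card_filter _ _).symm
  have h2 : (∑ G ∈ OKs, XX K iso s2 G ts) = ∑ τ ∈ T, ∑ G ∈ OKs,
      ((DSg K iso G ts).filter (fun x => KP iso s2 (K x.1) G ts x.2 (tv τ))).card := by
    rw [Finset.sum_comm]
    exact Finset.sum_congr rfl fun G _ => h1 G
  rw [h2, Nat.cast_sum]
  have h3 : ∀ τ ∈ T, ((∑ G ∈ OKs,
      ((DSg K iso G ts).filter (fun x => KP iso s2 (K x.1) G ts x.2 (tv τ))).card : ℕ) : ℝ) ≤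
      c * B := by
    intro τ hτ
    rw [hT, Finset.mem_filter] at hτ
    exact recA_tau K h6 iso m6 s1 s2 s cap n k α a x f π hα ha hn hLB hs hN (tv τ) ts hk
      ((fam_cons (tv τ) ts).2 ⟨hτ.2.1, hτ.2.2, hts⟩) hx hf hπ
  refine (Finset.sum_le_sum h3).trans ?_
  rw [Finset.sum_const, nsmul_eq_mul]
  have h4 : (T.card : ℝ) ≤ (n : ℝ) ^ 6 := by
    have h5 : T.card ≤ n ^ 6 := by
      refine (Finset.card_le_univ _).trans ?_
      rw [Fintype.card_prod, Fintype.card_prod, Fintype.card_prod, Fintype.card_prod]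
      calc Fintype.card V * Fintype.card V *
            (Fintype.card V * Fintype.card V * (Fintype.card V * Fintype.card V))
          = Fintype.card V ^ 6 := by ring
        _ ≤ n ^ 6 := Nat.pow_le_pow_left hN 6
    exact_mod_cast h5
  calc (T.card : ℝ) * (c * B) ≤ (n : ℝ) ^ 6 * (c * B) :=
        mul_le_mul_of_nonneg_right h4 (by positivity)
    _ = B * (n : ℝ) ^ 6 * c := by ring

end Pool.Agent.H95.DL
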