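import Pool.Agent.H95.DL.Hyp
import Pool.Agent.H95.DL.Del
import Pool.Agent.H95.DL.DelC
import Pool.Agent.H95.DL.Ds

/-!
# Job DL-34: the recursion (b) (deletion of a vertex)

PROOF of `recB_del` (fixed `G'` on `V' = {v // v ≠ u}`, or any `V'`; `b` uniform): count the pairs
`(x, b)` with `x ∈ DSf G' ts` and `sv b` orthogonal to `EE (K x.1) G' ts x.2`.  For every `x ∈ DSf` there
is a nonzero isotropic `w ∈ EE`; if `x` is fine then still one such `w` is enough; `sv b · w = 0` means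
`∑ b_v w_v = (∑ w_v) / 2` (`sv_eq`, `2 ≠ 0`), so by `hLB` with `F = univ` the number of `b` is at most
`2^N' (α + a kapS(w) / n^6)`, `kapS(w) ≤ kapE(x)` and `kapS(w) ≤ N'^6 ≤ n^6`.  So a fine `x` contributes
at most `2^N' (α + a kapE(x) / n^6)` and the others at most `2^N' (α + a)`.  (`nz w > s` by `nse`,
`card_su_le`, so the two lower bounds of `LB` hold.)
PROOF of `rec_b`.  `card V = N' + 1`.  For `G` with `OK G ts` and `x ∈ DSf G ts` not fine: `EE G ts x`
contains a nonzero `w`, `nz w > s`, so for at least `s - 6 k` vertices `u ∉ su ts` we have `w u ≠ 0`;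
for such a `u`: by `exists_hyper` (`f` = the coordinate `u`) there is a nonzero isotropic
`w' ∈ EE G ts x` with `w' u = 0`, so `rs u w'` is nonzero, isotropic, in `EE (dl u G) (ts.map (rs u)) x`
(`dl_mem`), i.e. `x ∈ DSf (dl u G) (ts.map (rs u))`, and `sv (nb u G)` is orthogonal to
`EE (dl u G) (ts.map (rs u)) x` (`dl_orth`).  So
`(s - 6 k) NF G ts ≤ ∑_{u ∉ su ts} #{x ∈ DSf G ts | x ∈ DSf (dl u G) .., sv (nb u G) ⊥ EE ..}`.
Sum over `G` with `OK G ts`; for fixed `u` the graphs with `¬ OK (dl u G) (ts.map (rs u))` contribute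
at most `cap` each and their proportion is at most `π` (`sum_dl`, `card_dl`, `hπ` for `N'`); the others
contribute at most `∑_{G' OK} ∑_b #{x ∈ DSf G' .. | ..}` (`sum_dl`), bounded by `recB_del`, `hx`, `hf`,
`|DSf| ≤ cap`.  There are at most `N' + 1 ≤ 800 (s - 6 k)` vertices `u`.  (The constants
`2 α cap`, `2 a x` are larger than needed.)
-/

set_option autoImplicit false

namespace Pool.Agent.H95.DL

open Matrix Classical Pool.Agent.H66.SP Pool.Agent.H95.SQ

theorem RecB_supp {K : Type} [Field K] {V : Type} [Fintype V] [DecidableEq V] {s k : ℕ}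
    (ts : List (V → ℤ)) (hk : ts.length = k) (hts : Fam ts) (w : V → K)
    (h : s < nz w) :
    s ≤ ((Finset.univ : Finset V).filter (fun v => v ∉ su ts ∧ w v ≠ 0)).card + 6 * k := by
  have h1 := card_su_le ts hts
  rw [hk] at h1
  have h2 : nz w ≤ ((Finset.univ : Finset V).filter (fun v => v ∉ su ts ∧ w v ≠ 0)).card +
      (su ts).card := by
    unfold nz
    rw [← Finset.card_union_add_card_inter]
    refine le_trans (Finset.card_le_card ?_) (Nat.le_add_right _ _)
    intro v hv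
    rw [Finset.mem_union]
    by_cases hs : v ∈ su ts
    · exact Or.inr hs
    · exact Or.inl (Finset.mem_filter.mpr ⟨Finset.mem_univ _, hs, (Finset.mem_filter.mp hv).2⟩)
  omega

theorem RecB_kapS_le (s2 : ℕ) (K : Type) [Field K] {V : Type} [Fintype V] {n : ℕ}
    (hV : Fintype.card V ≤ n) (G : SimpleGraph V) (ts : List (V → ℤ)) (w : V → K) :
    kapS s2 K G ts w ≤ n ^ 6 := by
  unfold kapS
  refine (Finset.card_filter_le _ _).trans ?_
  rw [Finset.card_univ]
  simp only [Tr, Fintype.card_prod]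
  calc Fintype.card V * Fintype.card V * (Fintype.card V * Fintype.card V *
        (Fintype.card V * Fintype.card V)) = Fintype.card V ^ 6 := by ring
    _ ≤ n ^ 6 := Nat.pow_le_pow_left hV 6

theorem RecB_kapS_kapE (iso : Prop) (s2 : ℕ) (K : Type) [Field K] {V : Type} [Fintype V]
    (G : SimpleGraph V) (ts : List (V → ℤ)) (μ : K) (w : V → K) (hw : w ∈ EE K G ts μ)
    (h0 : w ≠ 0) (hi : iso → w ⬝ᵥ w = 0) : kapS s2 K G ts w ≤ kapE iso s2 K G ts μ := by
  unfold kapS kapE
  refine Finset.card_le_card fun τ hτ => ?_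
  obtain ⟨-, h1, h2, h3, h4⟩ := Finset.mem_filter.mp hτ
  exact Finset.mem_filter.mpr ⟨Finset.mem_univ _, h1, h2, w, hw, h0, hi, h3, h4⟩

/-- one place: the number of `b` -/
theorem RecB_one {K : Type} [Field K] (h6 : (6 : K) ≠ 0) (m6 s1 s2 s n k : ℕ) (α a : ℝ)
    (hLB : LB K m6 s1 s2 n α a) (hs1 : s1 + 6 * k ≤ s) (hs2 : s2 + 6 * k ≤ s) {V : Type}
    [Fintype V] [DecidableEq V] (hV : Fintype.card V ≤ n) (G : SimpleGraph V)
    (ts : List (V → ℤ)) (hk : ts.length = k) (hts : Fam ts) (hty : TY m6 s1 s2 G (su ts))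
    (w : V → K) (h : s < nz w) :
    (((Finset.univ : Finset (V → Bool)).filter (fun b => sv K b ⬝ᵥ w = 0)).card : ℝ) ≤
      2 ^ Fintype.card V * (α + a * (kapS s2 K G ts w : ℝ) / (n : ℝ) ^ 6) := by
  have h2 : (2 : K) ≠ 0 := by
    intro h0
    apply h6
    have : (6 : K) = 2 * 3 := by norm_num
    rw [this, h0, zero_mul]
  have hsup := RecB_supp ts hk hts w h
  have e := hLB V hV G ts hty w Finset.univ ((∑ v, w v) / 2) (by omega) (by omega)
  refine le_trans ?_ e
  refine Nat.cast_le.mpr (Finset.card_le_card fun b hb => ?_)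
  rw [Finset.mem_filter] at hb ⊢
  refine ⟨Finset.mem_univ _, ?_⟩
  have h3 := hb.2
  simp only [dotProduct, sv_eq, sub_mul, one_mul, Finset.sum_sub_distrib] at h3
  rw [eq_div_iff h2, sub_eq_zero.mp h3, Finset.sum_mul]
  exact Finset.sum_congr rfl fun v _ => by ring

theorem RecB_count {A B : Type*} (X : Finset A) (U : Finset B) (P : A → B → Prop)
    [∀ x u, Decidable (P x u)] (m : ℕ) (h : ∀ x ∈ X, m ≤ (U.filter (fun u => P x u)).card) :
    X.card * m ≤ ∑ u ∈ U, (X.filter (fun x => P x u)).card := by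
  calc X.card * m = ∑ _x ∈ X, m := by rw [Finset.sum_const, smul_eq_mul]
    _ ≤ ∑ x ∈ X, (U.filter (fun u => P x u)).card := Finset.sum_le_sum h
    _ = ∑ x ∈ X, ∑ u ∈ U, if P x u then 1 else 0 :=
        Finset.sum_congr rfl fun x _ => Finset.card_filter _ _
    _ = ∑ u ∈ U, ∑ x ∈ X, if P x u then 1 else 0 := Finset.sum_comm
    _ = ∑ u ∈ U, (X.filter (fun x => P x u)).card :=
        Finset.sum_congr rfl fun u _ => (Finset.card_filter _ _).symm

theorem RecB_pt {ι : Type} [Fintype ι] (K : ι → Type) [∀ i, Field (K i)] [∀ i, IsAlgClosed (K i)]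
    (h6 : ∀ i, (6 : K i) ≠ 0) (iso : Prop) (s k : ℕ) {V : Type} [Fintype V] [DecidableEq V]
    (G : SimpleGraph V) (ts : List (V → ℤ)) (hk : ts.length = k) (hts : Fam ts)
    (hnse : NSE s G ts) (x : Σ i, K i) (hx : ¬ Fine iso (EE (K x.1) G ts x.2)) :
    s - 6 * k ≤ (((Finset.univ : Finset V).filter (fun u => u ∉ su ts)).filter (fun u =>
      x ∈ DSf K iso (dl u G) (ts.map (rs u)) ∧
        ∀ y ∈ EE (K x.1) (dl u G) (ts.map (rs u)) x.2, sv (K x.1) (nb u G) ⬝ᵥ y = 0)).card := by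
  have h2 : (2 : K x.1) ≠ 0 := by
    intro h0
    apply h6 x.1
    have : (6 : K x.1) = 2 * 3 := by norm_num
    rw [this, h0, zero_mul]
  obtain ⟨w, hw, hw0, -, -⟩ := exists_hyper iso _ hx 0
  have hnz : s < nz w := hnse (K x.1) h2 x.2 w hw hw0
  have hsup := RecB_supp ts hk hts w hnz
  have hsub : (Finset.univ : Finset V).filter (fun v => v ∉ su ts ∧ w v ≠ 0) ⊆
      (((Finset.univ : Finset V).filter (fun u => u ∉ su ts)).filter (fun u =>
      x ∈ DSf K iso (dl u G) (ts.map (rs u)) ∧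
        ∀ y ∈ EE (K x.1) (dl u G) (ts.map (rs u)) x.2, sv (K x.1) (nb u G) ⬝ᵥ y = 0)) := by
    intro u hu
    obtain ⟨-, hus, hwu⟩ := Finset.mem_filter.mp hu
    refine Finset.mem_filter.mpr ⟨Finset.mem_filter.mpr ⟨Finset.mem_univ _, hus⟩, ?_,
      fun y hy => dl_orth (K x.1) G ts u hus x.2 w hw hwu y hy⟩
    rw [mem_DSf K h6 iso (dl u G) _ (fam_rs ts hts u hus)]
    obtain ⟨w', hw', hw0', hi, hf⟩ := exists_hyper iso _ hx (LinearMap.proj u)
    have hwu' : w' u = 0 := hf
    refine ⟨rs u w', dl_mem (K x.1) G ts u hus x.2 w' hw' hwu', ?_, ?_⟩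
    · intro h0
      apply hw0'
      funext v
      by_cases hv : v = u
      · rw [hv]
        exact hwu'
      · exact congrFun h0 ⟨v, hv⟩
    · intro hiso
      have h3 := hi hiso
      unfold dotProduct at h3 ⊢
      rw [Fintype.sum_eq_add_sum_subtype_ne _ u, hwu', mul_zero, zero_add] at h3
      exact h3
  have := Finset.card_le_card hsub
  omega

theorem recB_del {ι : Type} [Fintype ι] (K : ι → Type) [∀ i, Field (K i)]
    (h6 : ∀ i, (6 : K i) ≠ 0) (iso : Prop) (m6 s1 s2 s cap n k : ℕ) (α a : ℝ) (hα : 0 ≤ α)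
    (ha : 0 ≤ a) (hn : 1 ≤ n) (hLB : ∀ i, LB (K i) m6 s1 s2 n α a) (hs1 : s1 + 6 * k ≤ s)
    (hs2 : s2 + 6 * k ≤ s) {V : Type} [Fintype V] [DecidableEq V] (hV : Fintype.card V ≤ n)
    (G : SimpleGraph V) (ts : List (V → ℤ)) (hk : ts.length = k) (hts : Fam ts)
    (hG : OK K iso m6 s1 s2 s cap G ts) :
    ((∑ b : V → Bool, ((DSf K iso G ts).filter (fun x : (Σ i, K i) =>
      ∀ y ∈ EE (K x.1) G ts x.2, sv (K x.1) b ⬝ᵥ y = 0)).card : ℕ) : ℝ) ≤
      2 ^ Fintype.card V * (α * (DSf K iso G ts).card +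
        a * (XX K iso s2 G ts : ℝ) / (n : ℝ) ^ 6 + (α + a) * (NF K iso G ts : ℝ)) := by
  have h2 : ∀ i, (2 : K i) ≠ 0 := by
    intro i h0
    apply h6 i
    have : (6 : K i) = 2 * 3 := by norm_num
    rw [this, h0, zero_mul]
  have hn6 : (0 : ℝ) < (n : ℝ) ^ 6 := by positivity
  obtain ⟨c, hc⟩ : ∃ c : (Σ i, K i) → ℕ, ∀ x, c x = ((Finset.univ : Finset (V → Bool)).filter
      (fun b => ∀ y ∈ EE (K x.1) G ts x.2, sv (K x.1) b ⬝ᵥ y = 0)).card := ⟨_, fun _ => rfl⟩
  have hswap : (∑ b : V → Bool, ((DSf K iso G ts).filter (fun x : (Σ i, K i) =>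
      ∀ y ∈ EE (K x.1) G ts x.2, sv (K x.1) b ⬝ᵥ y = 0)).card : ℕ) = ∑ x ∈ DSf K iso G ts, c x := by
    simp only [hc, Finset.card_filter]
    exact Finset.sum_comm
  rw [hswap]
  have hgen : ∀ x ∈ DSf K iso G ts, ∃ w ∈ EE (K x.1) G ts x.2, w ≠ 0 ∧ (iso → w ⬝ᵥ w = 0) ∧
      (c x : ℝ) ≤ 2 ^ Fintype.card V * (α + a * (kapS s2 (K x.1) G ts w : ℝ) / (n : ℝ) ^ 6) := by
    intro x hx
    rw [mem_DSf K h6 iso G ts hts] at hx
    obtain ⟨w, hw, hw0, hi⟩ := hx
    refine ⟨w, hw, hw0, hi, ?_⟩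
    have e := RecB_one (h6 x.1) m6 s1 s2 s n k α a (hLB x.1) hs1 hs2 hV G ts hk hts hG.ty w
      (hG.nse (K x.1) (h2 x.1) x.2 w hw hw0)
    refine le_trans ?_ e
    rw [hc]
    refine Nat.cast_le.mpr (Finset.card_le_card fun b hb => ?_)
    exact Finset.mem_filter.mpr ⟨Finset.mem_univ _, (Finset.mem_filter.mp hb).2 w hw⟩
  have hfine : ∀ x ∈ DSg K iso G ts, (c x : ℝ) ≤
      2 ^ Fintype.card V * (α + a * (kapE iso s2 (K x.1) G ts x.2 : ℝ) / (n : ℝ) ^ 6) := by
    intro x hx
    obtain ⟨w, hw, hw0, hi, h3⟩ := hgen x (Finset.mem_filter.mp hx).1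
    refine h3.trans ?_
    have h4 : (kapS s2 (K x.1) G ts w : ℝ) ≤ (kapE iso s2 (K x.1) G ts x.2 : ℝ) := by
      exact_mod_cast RecB_kapS_kapE iso s2 (K x.1) G ts x.2 w hw hw0 hi
    gcongr
  have hnot : ∀ x ∈ (DSf K iso G ts).filter (fun x => ¬ Fine iso (EE (K x.1) G ts x.2)),
      (c x : ℝ) ≤ 2 ^ Fintype.card V * (α + a) := by
    intro x hx
    obtain ⟨w, hw, hw0, hi, h3⟩ := hgen x (Finset.mem_filter.mp hx).1
    refine h3.trans ?_
    have h4 : (kapS s2 (K x.1) G ts w : ℝ) ≤ (n : ℝ) ^ 6 := by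
      exact_mod_cast RecB_kapS_le s2 (K x.1) hV G ts w
    have h5 : a * (kapS s2 (K x.1) G ts w : ℝ) / (n : ℝ) ^ 6 ≤ a := by
      rw [div_le_iff₀ hn6]
      exact mul_le_mul_of_nonneg_left h4 ha
    have h6 : (0 : ℝ) ≤ 2 ^ Fintype.card V := by positivity
    exact mul_le_mul_of_nonneg_left (by linarith) h6
  have hsplit : ∑ x ∈ DSf K iso G ts, (c x : ℝ) = ∑ x ∈ DSg K iso G ts, (c x : ℝ) +
      ∑ x ∈ (DSf K iso G ts).filter (fun x => ¬ Fine iso (EE (K x.1) G ts x.2)), (c x : ℝ) := by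
    unfold DSg
    exact (Finset.sum_filter_add_sum_filter_not _ _ _).symm
  have hDg : ((DSg K iso G ts).card : ℝ) ≤ (DSf K iso G ts).card := by
    exact_mod_cast Finset.card_filter_le _ _
  push_cast
  rw [hsplit]
  have h7 := Finset.sum_le_sum hfine
  have h8 := Finset.sum_le_sum hnot
  rw [Finset.sum_const, nsmul_eq_mul] at h8
  rw [← Finset.mul_sum, Finset.sum_add_distrib, Finset.sum_const, nsmul_eq_mul,
    ← Finset.sum_div, ← Finset.mul_sum] at h7
  have h9 : (((DSf K iso G ts).filter (fun x => ¬ Fine iso (EE (K x.1) G ts x.2))).card : ℝ) =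
      (NF K iso G ts : ℝ) := rfl
  have h10 : ∑ x ∈ DSg K iso G ts, (kapE iso s2 (K x.1) G ts x.2 : ℝ) = (XX K iso s2 G ts : ℝ) := by
    unfold XX
    push_cast
    rfl
  rw [h9] at h8
  rw [h10] at h7
  have h11 : (0 : ℝ) < 2 ^ Fintype.card V := by positivity
  have h12 : ((DSg K iso G ts).card : ℝ) * α ≤ α * (DSf K iso G ts).card := by
    rw [mul_comm]
    exact mul_le_mul_of_nonneg_left hDg hα
  calc _ ≤ 2 ^ Fintype.card V * (((DSg K iso G ts).card : ℝ) * α +
        a * (XX K iso s2 G ts : ℝ) / (n : ℝ) ^ 6) +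
        (NF K iso G ts : ℝ) * (2 ^ Fintype.card V * (α + a)) := add_le_add h7 h8
    _ = 2 ^ Fintype.card V * (((DSg K iso G ts).card : ℝ) * α +
        a * (XX K iso s2 G ts : ℝ) / (n : ℝ) ^ 6 + (α + a) * (NF K iso G ts : ℝ)) := by ring
    _ ≤ _ := mul_le_mul_of_nonneg_left (by linarith) h11.le

theorem rec_b {ι : Type} [Fintype ι] (K : ι → Type) [∀ i, Field (K i)] [∀ i, IsAlgClosed (K i)]
    (h6 : ∀ i, (6 : K i) ≠ 0) (iso : Prop) (m6 s1 s2 s cap n k N : ℕ) (α a x f π : ℝ)
    (hα : 0 ≤ α) (ha : 0 ≤ a) (hx0 : 0 ≤ x) (hf0 : 0 ≤ f) (hπ0 : 0 ≤ π) (hn : 1 ≤ n)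
    (hN : N + 1 ≤ n) (hLB : ∀ i, LB (K i) m6 s1 s2 n α a) (hs1 : s1 + 6 * k ≤ s)
    (hs2 : s2 + 6 * k ≤ s) (h800 : N + 1 ≤ 800 * (s - 6 * k))
    (hx : XB K iso m6 s1 s2 s cap n k N x) (hf : FB K iso m6 s1 s2 s cap k N f)
    (hπ : PB K iso m6 s1 s2 s cap k N π) :
    FB K iso m6 s1 s2 s cap k (N + 1)
      (800 * (2 * α * cap + 2 * a * x + (α + a) * f + cap * π)) := by
  intro V _ _ hcard ts hts hk
  have hs6 : 1 ≤ s - 6 * k := by omega
  obtain ⟨SG, hSG⟩ : ∃ SG : ℝ, SG = (Fintype.card (SimpleGraph V) : ℝ) := ⟨_, rfl⟩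
  rw [← hSG]
  have hSG0 : 0 ≤ SG := by
    rw [hSG]
    exact Nat.cast_nonneg _
  -- the terms
  obtain ⟨T, hT⟩ : ∃ T : V → SimpleGraph V → ℕ, ∀ u G, T u G =
      (((DSf K iso G ts).filter (fun x => ¬ Fine iso (EE (K x.1) G ts x.2))).filter (fun x =>
      x ∈ DSf K iso (dl u G) (ts.map (rs u)) ∧
        ∀ y ∈ EE (K x.1) (dl u G) (ts.map (rs u)) x.2, sv (K x.1) (nb u G) ⬝ᵥ y = 0)).card :=
    ⟨_, fun _ _ => rfl⟩
  have hptG : ∀ G, OK K iso m6 s1 s2 s cap G ts →
      NF K iso G ts * (s - 6 * k) ≤ ∑ u ∈ (Finset.univ : Finset V).filter (fun u => u ∉ su ts),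
        T u G := by
    intro G hG
    simp only [hT]
    unfold NF
    refine RecB_count _ _ (fun x u => x ∈ DSf K iso (dl u G) (ts.map (rs u)) ∧
        ∀ y ∈ EE (K x.1) (dl u G) (ts.map (rs u)) x.2, sv (K x.1) (nb u G) ⬝ᵥ y = 0) _ ?_
    intro x hx
    exact RecB_pt K h6 iso s k G ts hk hts hG.nse x (Finset.mem_filter.mp hx).2
  have hu : ∀ u ∈ (Finset.univ : Finset V).filter (fun u => u ∉ su ts),
      ((∑ G ∈ (Finset.univ : Finset (SimpleGraph V)).filter
        (fun G => OK K iso m6 s1 s2 s cap G ts), T u G : ℕ) : ℝ) ≤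
      (α * cap + a * x + (α + a) * f + cap * π) * SG := by
    intro u hu
    have hus : u ∉ su ts := (Finset.mem_filter.mp hu).2
    have hcard' : Fintype.card {v : V // v ≠ u} = N := by
      have : Fintype.card {v : V // v ≠ u} = Fintype.card V - 1 := by
        simp
      rw [this, hcard]
      rfl
    have hfam := fam_rs ts hts u hus
    have hlen : (ts.map (rs u)).length = k := by rw [List.length_map, hk]
    obtain ⟨SG', hSG'⟩ : ∃ SG' : ℝ, SG' = (Fintype.card (SimpleGraph {v : V // v ≠ u}) : ℝ) :=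
      ⟨_, rfl⟩
    have hSGG : SG = SG' * 2 ^ N := by
      rw [hSG, hSG', card_dl u, hcard']
      push_cast
      rfl
    have hX := hx {v : V // v ≠ u} hcard' (ts.map (rs u)) hfam hlen
    have hF := hf {v : V // v ≠ u} hcard' (ts.map (rs u)) hfam hlen
    have hP := hπ {v : V // v ≠ u} hcard' (ts.map (rs u)) hfam hlen
    rw [← hSG'] at hX hF hP
    obtain ⟨good, hgood⟩ : ∃ good : SimpleGraph {v : V // v ≠ u} → Prop,
        ∀ G', good G' ↔ OK K iso m6 s1 s2 s cap G' (ts.map (rs u)) := ⟨_, fun _ => Iff.rfl⟩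
    obtain ⟨T', hT'⟩ : ∃ T' : SimpleGraph {v : V // v ≠ u} → ({v : V // v ≠ u} → Bool) → ℕ,
        ∀ G' b, T' G' b = ((DSf K iso G' (ts.map (rs u))).filter (fun x : (Σ i, K i) =>
      ∀ y ∈ EE (K x.1) G' (ts.map (rs u)) x.2, sv (K x.1) b ⬝ᵥ y = 0)).card := ⟨_, fun _ _ => rfl⟩
    have hle : (∑ G ∈ (Finset.univ : Finset (SimpleGraph V)).filter
        (fun G => OK K iso m6 s1 s2 s cap G ts), T u G) ≤
        ∑ G : SimpleGraph V, ((if good (dl u G) then 0 else cap) +
          (if good (dl u G) then T' (dl u G) (nb u G) else 0)) := by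
      refine le_trans (Finset.sum_le_sum (g := fun G => ((if good (dl u G) then 0 else cap) +
          (if good (dl u G) then T' (dl u G) (nb u G) else 0))) ?_)
        (Finset.sum_le_sum_of_subset (Finset.filter_subset _ _))
      intro G hG
      have hOK := (Finset.mem_filter.mp hG).2
      by_cases hg : good (dl u G)
      · rw [if_pos hg, if_pos hg, zero_add, hT, hT']
        refine Finset.card_le_card fun x hx => ?_
        have hx2 := (Finset.mem_filter.mp hx).2
        exact Finset.mem_filter.mpr ⟨hx2.1, hx2.2⟩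
      · rw [if_neg hg, if_neg hg, add_zero, hT]
        exact ((Finset.card_filter_le _ _).trans (Finset.card_filter_le _ _)).trans hOK.card
    have hsum : (∑ G : SimpleGraph V, ((if good (dl u G) then 0 else cap) +
          (if good (dl u G) then T' (dl u G) (nb u G) else 0))) =
        ∑ G' : SimpleGraph {v : V // v ≠ u}, ∑ b : {v : V // v ≠ u} → Bool,
          ((if good G' then 0 else cap) + (if good G' then T' G' b else 0)) :=
      sum_dl u (fun G' b => ((if good G' then 0 else cap) + (if good G' then T' G' b else 0)))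
    have hbool : (Fintype.card ({v : V // v ≠ u} → Bool) : ℝ) = 2 ^ N := by
      rw [Fintype.card_fun, Fintype.card_bool, hcard']
      push_cast
      rfl
    have hA : ((∑ G' : SimpleGraph {v : V // v ≠ u}, ∑ _b : {v : V // v ≠ u} → Bool,
        (if good G' then 0 else cap) : ℕ) : ℝ) ≤ cap * π * SG := by
      have e1 : ((∑ G' : SimpleGraph {v : V // v ≠ u}, ∑ _b : {v : V // v ≠ u} → Bool,
          (if good G' then 0 else cap) : ℕ) : ℝ) = (((Finset.univ : Finset (SimpleGraph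
          {v : V // v ≠ u})).filter (fun G' => ¬ good G')).card : ℝ) * (2 ^ N * cap) := by
        rw [← hbool]
        simp only [Finset.sum_const, smul_eq_mul, Finset.card_univ]
        rw [← Finset.mul_sum, Finset.card_filter]
        push_cast
        rw [Finset.sum_mul, Finset.mul_sum]
        refine Finset.sum_congr rfl fun G' _ => ?_
        by_cases hg : good G'
        · simp [hg]
        · simp [hg]
      rw [e1]
      have e2 : (((Finset.univ : Finset (SimpleGraph
          {v : V // v ≠ u})).filter (fun G' => ¬ good G')).card : ℝ) ≤ π * SG' := by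
        simp only [hgood]
        exact hP
      have e3 : (0 : ℝ) ≤ 2 ^ N * cap := by positivity
      refine (mul_le_mul_of_nonneg_right e2 e3).trans (le_of_eq ?_)
      rw [hSGG]
      ring
    have hB : ((∑ G' : SimpleGraph {v : V // v ≠ u}, ∑ b : {v : V // v ≠ u} → Bool,
        (if good G' then T' G' b else 0) : ℕ) : ℝ) ≤ (α * cap + a * x + (α + a) * f) * SG := by
      have e1 : ((∑ G' : SimpleGraph {v : V // v ≠ u}, ∑ b : {v : V // v ≠ u} → Bool,
          (if good G' then T' G' b else 0) : ℕ) : ℝ) =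
          ∑ G' ∈ (Finset.univ : Finset (SimpleGraph {v : V // v ≠ u})).filter
            (fun G' => OK K iso m6 s1 s2 s cap G' (ts.map (rs u))),
            ((∑ b : {v : V // v ≠ u} → Bool, T' G' b : ℕ) : ℝ) := by
        rw [Finset.sum_filter]
        push_cast
        refine Finset.sum_congr rfl fun G' _ => ?_
        by_cases hg : good G'
        · rw [if_pos ((hgood G').1 hg)]
          simp [hg]
        · rw [if_neg (fun h => hg ((hgood G').2 h))]
          simp [hg]
      rw [e1]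
      have e2 : ∀ G' ∈ (Finset.univ : Finset (SimpleGraph {v : V // v ≠ u})).filter
            (fun G' => OK K iso m6 s1 s2 s cap G' (ts.map (rs u))),
            ((∑ b : {v : V // v ≠ u} → Bool, T' G' b : ℕ) : ℝ) ≤
            2 ^ N * (α * cap) + 2 ^ N * (a / (n : ℝ) ^ 6) * (XX K iso s2 G' (ts.map (rs u)) : ℝ) +
            2 ^ N * (α + a) * (NF K iso G' (ts.map (rs u)) : ℝ) := by
        intro G' hG'
        have hOK := (Finset.mem_filter.mp hG').2
        have e3 := recB_del K h6 iso m6 s1 s2 s cap n k α a hα ha hn hLB hs1 hs2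
          (V := {v : V // v ≠ u}) (by rw [hcard']; omega) G' (ts.map (rs u)) hlen hfam hOK
        rw [hcard'] at e3
        simp only [hT']
        refine e3.trans ?_
        have e4 : ((DSf K iso G' (ts.map (rs u))).card : ℝ) ≤ cap := by
          exact_mod_cast hOK.card
        have e5 : α * ((DSf K iso G' (ts.map (rs u))).card : ℝ) ≤ α * cap :=
          mul_le_mul_of_nonneg_left e4 hα
        have e6 : (0 : ℝ) ≤ 2 ^ N := by positivity
        have e7 := mul_le_mul_of_nonneg_left e5 e6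
        calc _ = 2 ^ N * (α * ((DSf K iso G' (ts.map (rs u))).card : ℝ)) +
            2 ^ N * (a / (n : ℝ) ^ 6) * (XX K iso s2 G' (ts.map (rs u)) : ℝ) +
            2 ^ N * (α + a) * (NF K iso G' (ts.map (rs u)) : ℝ) := by ring
          _ ≤ _ := by linarith
      refine (Finset.sum_le_sum e2).trans ?_
      rw [Finset.sum_add_distrib, Finset.sum_add_distrib, Finset.sum_const, nsmul_eq_mul,
        ← Finset.mul_sum, ← Finset.mul_sum]
      have e8 : (((Finset.univ : Finset (SimpleGraph {v : V // v ≠ u})).filter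
            (fun G' => OK K iso m6 s1 s2 s cap G' (ts.map (rs u)))).card : ℝ) ≤ SG' := by
        rw [hSG', ← Finset.card_univ]
        exact_mod_cast Finset.card_filter_le _ _
      have e9 : (0 : ℝ) ≤ 2 ^ N * (α * cap) := by positivity
      have e10 := mul_le_mul_of_nonneg_right e8 e9
      push_cast at hX hF
      have e11 : (0 : ℝ) ≤ 2 ^ N * (a / (n : ℝ) ^ 6) := by positivity
      have e12 := mul_le_mul_of_nonneg_left hX e11
      have e13 : (0 : ℝ) ≤ 2 ^ N * (α + a) := by positivity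
      have e14 := mul_le_mul_of_nonneg_left hF e13
      have e15 : 2 ^ N * (a / (n : ℝ) ^ 6) * (x * (n : ℝ) ^ 6 * SG') = a * x * SG := by
        have hn0 : (n : ℝ) ≠ 0 := by positivity
        rw [hSGG]
        field_simp
      rw [e15] at e12
      have e16 : 2 ^ N * (α + a) * (f * SG') = (α + a) * f * SG := by
        rw [hSGG]
        ring
      rw [e16] at e14
      have e17 : SG' * (2 ^ N * (α * cap)) = α * cap * SG := by
        rw [hSGG]
        ring
      rw [e17] at e10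
      linarith
    have hfin : (((∑ G ∈ (Finset.univ : Finset (SimpleGraph V)).filter
        (fun G => OK K iso m6 s1 s2 s cap G ts), T u G : ℕ)) : ℝ) ≤
        ((∑ G' : SimpleGraph {v : V // v ≠ u}, ∑ _b : {v : V // v ≠ u} → Bool,
        (if good G' then 0 else cap) : ℕ) : ℝ) +
        ((∑ G' : SimpleGraph {v : V // v ≠ u}, ∑ b : {v : V // v ≠ u} → Bool,
        (if good G' then T' G' b else 0) : ℕ) : ℝ) := by
      rw [← Nat.cast_add]
      refine Nat.cast_le.mpr (hle.trans (le_of_eq ?_))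
      rw [hsum]
      simp only [Finset.sum_add_distrib]
    calc _ ≤ _ := hfin
      _ ≤ cap * π * SG + (α * cap + a * x + (α + a) * f) * SG := add_le_add hA hB
      _ = _ := by ring
  -- summation
  have htot : ((∑ G ∈ (Finset.univ : Finset (SimpleGraph V)).filter
        (fun G => OK K iso m6 s1 s2 s cap G ts), NF K iso G ts : ℕ) : ℝ) * ((s - 6 * k : ℕ) : ℝ) ≤
      ((N + 1 : ℕ) : ℝ) * ((α * cap + a * x + (α + a) * f + cap * π) * SG) := by
    have e1 : (∑ G ∈ (Finset.univ : Finset (SimpleGraph V)).filter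
        (fun G => OK K iso m6 s1 s2 s cap G ts), NF K iso G ts) * (s - 6 * k) ≤
        ∑ u ∈ (Finset.univ : Finset V).filter (fun u => u ∉ su ts),
          ∑ G ∈ (Finset.univ : Finset (SimpleGraph V)).filter
            (fun G => OK K iso m6 s1 s2 s cap G ts), T u G := by
      rw [Finset.sum_comm, Finset.sum_mul]
      exact Finset.sum_le_sum fun G hG => hptG G (Finset.mem_filter.mp hG).2
    rw [← Nat.cast_mul]
    refine (Nat.cast_le.mpr e1).trans ?_
    rw [Nat.cast_sum]
    refine (Finset.sum_le_sum hu).trans ?_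
    rw [Finset.sum_const, nsmul_eq_mul]
    refine mul_le_mul_of_nonneg_right ?_ (by positivity)
    rw [← hcard]
    exact_mod_cast Finset.card_filter_le _ _
  have hsR : (0 : ℝ) < ((s - 6 * k : ℕ) : ℝ) := by exact_mod_cast hs6
  have h800R : ((N + 1 : ℕ) : ℝ) ≤ 800 * ((s - 6 * k : ℕ) : ℝ) := by exact_mod_cast h800
  have hY0 : 0 ≤ (α * cap + a * x + (α + a) * f + cap * π) * SG := by positivity
  have h20 : ((∑ G ∈ (Finset.univ : Finset (SimpleGraph V)).filter
        (fun G => OK K iso m6 s1 s2 s cap G ts), NF K iso G ts : ℕ) : ℝ) * ((s - 6 * k : ℕ) : ℝ) ≤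
      (800 * ((α * cap + a * x + (α + a) * f + cap * π) * SG)) * ((s - 6 * k : ℕ) : ℝ) := by
    refine htot.trans ((mul_le_mul_of_nonneg_right h800R hY0).trans (le_of_eq ?_))
    ring
  have h21 := le_of_mul_le_mul_right h20 hsR
  refine h21.trans ?_
  have h22 : (α * cap + a * x + (α + a) * f + cap * π) * SG ≤
      (2 * α * cap + 2 * a * x + (α + a) * f + cap * π) * SG := by
    refine mul_le_mul_of_nonneg_right ?_ hSG0
    have e1 : 0 ≤ α * cap := by positivity
    have e2 : 0 ≤ a * x := by positivity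
    linarith
  linarith

end Pool.Agent.H95.DL
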