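import Pool.Agent.H95.DL.RecA
import Pool.Agent.H95.DL.RecB

/-!
# Job DL-35: solution of the recursion

PROOF.  `XB_triv`, `FB_triv`: `XX G ts ≤ |DSg| * N^6 ≤ cap n^6` and `NF G ts ≤ |DSf| ≤ cap` for good `G`.
`rec_T`: induction on `j`; put `y j = 4 γ + (2 ρ)^j cap`, `γ = 800 (2 α cap + cap π)`,
`ρ = 800 (3 a + α)`.  `j = 0`: `cap ≤ y 0`.  Step: let `k + (j + 1) ≤ K0`, `n0 + j + 1 ≤ N ≤ n`.
`rec_b` at `(k, N - 1)` with `x = f = y j` gives `FB k N (γ + ρ y j)` (`800 (2 a + α + a) = ρ`; the same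
for `k + 1` as `k + 1 + j ≤ K0`).  `rec_a` with `x = y j`, `f = γ + ρ y j` gives
`XB k N (2 α cap + 2 a y j + γ + ρ y j + cap π)`, at most `2 γ + 2 ρ y j`.  Since `2 ρ ≤ 1/2`:
`2 γ + 2 ρ y j ≤ 2 γ + 2 γ + (2 ρ)^(j+1) cap = y (j+1)`.  `XB`, `FB` are monotone in the bound
(`XB_mono`, `FB_mono`, trivial).  Conditions: `s1 + 6 (K0 + 1) ≤ s` etc. imply those for `k ≤ K0`;
`N ≤ n ≤ 800 (s - 6 K0)`.
-/

set_option autoImplicit false

namespace Pool.Agent.H95.DL

open Matrix Classical Pool.Agent.H66.SP Pool.Agent.H95.SQ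

theorem XB_mono {ι : Type} [Fintype ι] (K : ι → Type) [∀ i, Field (K i)] (iso : Prop)
    (m6 s1 s2 s cap n k N : ℕ) (x y : ℝ) (h : x ≤ y) (hx : XB K iso m6 s1 s2 s cap n k N x) :
    XB K iso m6 s1 s2 s cap n k N y := by
  intro V _ _ hV ts hts hk
  refine (hx V hV ts hts hk).trans ?_
  have h1 : (0 : ℝ) ≤ (n : ℝ) ^ 6 := by positivity
  have h2 : (0 : ℝ) ≤ (Fintype.card (SimpleGraph V) : ℝ) := by positivity
  exact mul_le_mul_of_nonneg_right (mul_le_mul_of_nonneg_right h h1) h2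

theorem FB_mono {ι : Type} [Fintype ι] (K : ι → Type) [∀ i, Field (K i)] (iso : Prop)
    (m6 s1 s2 s cap k N : ℕ) (x y : ℝ) (h : x ≤ y) (hx : FB K iso m6 s1 s2 s cap k N x) :
    FB K iso m6 s1 s2 s cap k N y := by
  intro V _ _ hV ts hts hk
  refine (hx V hV ts hts hk).trans ?_
  have h2 : (0 : ℝ) ≤ (Fintype.card (SimpleGraph V) : ℝ) := by positivity
  exact mul_le_mul_of_nonneg_right h h2

theorem RecT_kapE_le (iso : Prop) (s2 : ℕ) (K : Type*) [Field K] {V : Type*} [Fintype V]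
    (G : SimpleGraph V) (ts : List (V → ℤ)) (μ : K) :
    kapE iso s2 K G ts μ ≤ Fintype.card V ^ 6 := by
  unfold kapE
  refine (Finset.card_le_univ _).trans ?_
  simp only [Fintype.card_prod]
  apply le_of_eq
  ring

theorem XB_triv {ι : Type} [Fintype ι] (K : ι → Type) [∀ i, Field (K i)] (iso : Prop)
    (m6 s1 s2 s cap n k N : ℕ) (hN : N ≤ n) : XB K iso m6 s1 s2 s cap n k N cap := by
  intro V _ _ hV ts hts hk
  have h1 : ∀ G ∈ (Finset.univ : Finset (SimpleGraph V)).filter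
      (fun G => OK K iso m6 s1 s2 s cap G ts), XX K iso s2 G ts ≤ cap * n ^ 6 := by
    intro G hG
    have hOK := (Finset.mem_filter.1 hG).2
    unfold XX
    have h3 : ∀ x ∈ DSg K iso G ts, kapE iso s2 (K x.1) G ts x.2 ≤ n ^ 6 := by
      intro x _
      refine (RecT_kapE_le iso s2 (K x.1) G ts x.2).trans ?_
      rw [hV]
      exact Nat.pow_le_pow_left hN 6
    refine (Finset.sum_le_card_nsmul _ _ _ h3).trans ?_
    rw [smul_eq_mul]
    apply Nat.mul_le_mul_right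
    refine le_trans ?_ hOK.card
    unfold DSg
    exact Finset.card_filter_le _ _
  have h2 := Finset.sum_le_card_nsmul _ _ _ h1
  have h4 : (∑ G ∈ (Finset.univ : Finset (SimpleGraph V)).filter
      (fun G => OK K iso m6 s1 s2 s cap G ts), XX K iso s2 G ts : ℕ) ≤
      Fintype.card (SimpleGraph V) * (cap * n ^ 6) := by
    refine h2.trans ?_
    rw [smul_eq_mul]
    exact Nat.mul_le_mul_right _ (Finset.card_le_univ _)
  have h5 : ((∑ G ∈ (Finset.univ : Finset (SimpleGraph V)).filter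
      (fun G => OK K iso m6 s1 s2 s cap G ts), XX K iso s2 G ts : ℕ) : ℝ) ≤
      ((Fintype.card (SimpleGraph V) * (cap * n ^ 6) : ℕ) : ℝ) := by exact_mod_cast h4
  refine h5.trans (le_of_eq ?_)
  push_cast
  ring

theorem FB_triv {ι : Type} [Fintype ι] (K : ι → Type) [∀ i, Field (K i)] (iso : Prop)
    (m6 s1 s2 s cap k N : ℕ) : FB K iso m6 s1 s2 s cap k N cap := by
  intro V _ _ hV ts hts hk
  have h1 : ∀ G ∈ (Finset.univ : Finset (SimpleGraph V)).filter
      (fun G => OK K iso m6 s1 s2 s cap G ts), NF K iso G ts ≤ cap := by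
    intro G hG
    have hOK := (Finset.mem_filter.1 hG).2
    refine le_trans ?_ hOK.card
    unfold NF
    exact Finset.card_filter_le _ _
  have h2 := Finset.sum_le_card_nsmul _ _ _ h1
  have h4 : (∑ G ∈ (Finset.univ : Finset (SimpleGraph V)).filter
      (fun G => OK K iso m6 s1 s2 s cap G ts), NF K iso G ts : ℕ) ≤
      Fintype.card (SimpleGraph V) * cap := by
    refine h2.trans ?_
    rw [smul_eq_mul]
    exact Nat.mul_le_mul_right _ (Finset.card_le_univ _)
  have h5 : ((∑ G ∈ (Finset.univ : Finset (SimpleGraph V)).filter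
      (fun G => OK K iso m6 s1 s2 s cap G ts), NF K iso G ts : ℕ) : ℝ) ≤
      ((Fintype.card (SimpleGraph V) * cap : ℕ) : ℝ) := by exact_mod_cast h4
  refine h5.trans (le_of_eq ?_)
  push_cast
  ring

theorem rec_T {ι : Type} [Fintype ι] (K : ι → Type) [∀ i, Field (K i)] [∀ i, IsAlgClosed (K i)]
    (h6 : ∀ i, (6 : K i) ≠ 0) (iso : Prop) (m6 s1 s2 s cap n K0 n0 : ℕ) (α a π : ℝ)
    (hα : 0 ≤ α) (ha : 0 ≤ a) (hπ0 : 0 ≤ π) (hn : 1 ≤ n)
    (hLB : ∀ i, LB (K i) m6 s1 s2 n α a) (hs1 : s1 + 6 * (K0 + 1) ≤ s)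
    (hs2 : s2 + 6 * K0 ≤ s) (h800 : n ≤ 800 * (s - 6 * K0))
    (hPB : ∀ k ≤ K0, ∀ N, n0 ≤ N → N ≤ n → PB K iso m6 s1 s2 s cap k N π)
    (hρ : 2 * (800 * (3 * a + α)) ≤ 1 / 2) (j : ℕ) :
    ∀ k, k + j ≤ K0 → ∀ N, n0 + j ≤ N → N ≤ n →
      XB K iso m6 s1 s2 s cap n k N
        (4 * (800 * (2 * α * cap + cap * π)) + (2 * (800 * (3 * a + α))) ^ j * cap) ∧
      FB K iso m6 s1 s2 s cap k N
        (4 * (800 * (2 * α * cap + cap * π)) + (2 * (800 * (3 * a + α))) ^ j * cap) := by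
  have hcap : (0 : ℝ) ≤ (cap : ℝ) := by positivity
  have hac : 0 ≤ α * cap := mul_nonneg hα hcap
  have hcp : 0 ≤ (cap : ℝ) * π := mul_nonneg hcap hπ0
  have hγ : 0 ≤ 800 * (2 * α * cap + cap * π) := by nlinarith
  have hρ0 : 0 ≤ 800 * (3 * a + α) := by linarith
  have hpow : ∀ j : ℕ, 0 ≤ (2 * (800 * (3 * a + α))) ^ j * (cap : ℝ) := by
    intro j
    exact mul_nonneg (pow_nonneg (by linarith) j) hcap
  induction j with
  | zero =>
    intro k _ N _ hN
    refine ⟨XB_mono K iso m6 s1 s2 s cap n k N cap _ ?_ (XB_triv K iso m6 s1 s2 s cap n k N hN),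
      FB_mono K iso m6 s1 s2 s cap k N cap _ ?_ (FB_triv K iso m6 s1 s2 s cap k N)⟩
    · rw [pow_zero, one_mul]; linarith
    · rw [pow_zero, one_mul]; linarith
  | succ j ih =>
    intro k hk N hN0 hN
    obtain ⟨N', rfl⟩ : ∃ N', N = N' + 1 := ⟨N - 1, by omega⟩
    set y : ℝ := 4 * (800 * (2 * α * cap + cap * π)) + (2 * (800 * (3 * a + α))) ^ j * cap with hy
    have hy0 : 0 ≤ y := by
      have := hpow j
      rw [hy]
      linarith
    have hb : ∀ k', k' + j ≤ K0 → FB K iso m6 s1 s2 s cap k' (N' + 1)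
        (800 * (2 * α * cap + 2 * a * y + (α + a) * y + cap * π)) := by
      intro k' hk'
      obtain ⟨i1, i2⟩ := ih k' hk' N' (by omega) (by omega)
      exact rec_b K h6 iso m6 s1 s2 s cap n k' N' α a y y π hα ha hy0 hy0 hπ0 hn hN hLB
        (by omega) (by omega) (by omega) i1 i2 (hPB k' (by omega) N' (by omega) (by omega))
    have e1 : 800 * (2 * α * cap + 2 * a * y + (α + a) * y + cap * π) =
        800 * (2 * α * cap + cap * π) + 800 * (3 * a + α) * y := by ring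
    have hkey : 2 * (800 * (2 * α * cap + cap * π)) + 2 * (800 * (3 * a + α) * y) ≤
        4 * (800 * (2 * α * cap + cap * π)) + (2 * (800 * (3 * a + α))) ^ (j + 1) * cap := by
      have e2 : 2 * (800 * (3 * a + α) * y) =
          2 * (800 * (3 * a + α)) * (4 * (800 * (2 * α * cap + cap * π))) +
            (2 * (800 * (3 * a + α))) ^ (j + 1) * cap := by
        rw [hy, pow_succ]
        ring
      rw [e2]
      have := mul_le_mul_of_nonneg_right hρ hγ
      nlinarith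
    have hρy : 0 ≤ 800 * (3 * a + α) * y := mul_nonneg hρ0 hy0
    constructor
    · obtain ⟨i1, _⟩ := ih (k + 1) (by omega) (N' + 1) (by omega) hN
      have hf := hb (k + 1) (by omega)
      rw [e1] at hf
      have hf0 : 0 ≤ 800 * (2 * α * cap + cap * π) + 800 * (3 * a + α) * y := by linarith
      have hx := rec_a K h6 iso m6 s1 s2 s cap n k (N' + 1) α a y _ π hα ha hy0 hf0 hπ0 hn hN hLB
        (by omega) i1 hf (hPB (k + 1) (by omega) (N' + 1) (by omega) hN)
      refine XB_mono K iso m6 s1 s2 s cap n k (N' + 1) _ _ (le_trans ?_ hkey) hx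
      have h1 : 2 * a * y ≤ 800 * (3 * a + α) * y := by
        apply mul_le_mul_of_nonneg_right _ hy0
        linarith
      linarith
    · have hf := hb k (by omega)
      rw [e1] at hf
      refine FB_mono K iso m6 s1 s2 s cap k (N' + 1) _ _ (le_trans ?_ hkey) hf
      linarith

end Pool.Agent.H95.DL
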