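import Pool.Agent.H95.DL.DelC

/-!
# Job DL-24: independence of the flip sets

`row_half`: for a fixed vertex `v ∉ U` with `q v = 0` and a function `f` of the graph which does not
depend on the pairs `{v, u}`, `q u ≠ 0`, the mean of `f * (if v ∈ FF G U q then 1/2 else 1)` is
`(1 - 2^(-nz q))` times the mean of `f`, so at most `63/64` times it for `f ≥ 0`.

PROOF.  For `T ⊆ sup q` let `τ_T G` be the graph with the pairs `{v, u}`, `u ∈ T`, complemented: an
involution of the graphs on `V`.  `∑_G h(G) = 2^(-nz q) ∑_T ∑_G h(τ_T G)` for every `h`.  For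
`h = f * (if v ∈ FF G U q ..)`: `f (τ_T G) = f G`, and for every `G` exactly two `T` satisfy
`v ∈ FF (τ_T G) U q` (those for which the pattern becomes `q` or `-q`; they are different as
`nz q ≥ 2`).  So the mean is `mean of f * (1 - (1/2) 2 / 2^(nz q))`.
`ty_prod`: induction on `qs` and on `Z` (product over all pairs `(v, q)`, `v ∈ Z`, `q ∈ qs`):
the exponent is the number of pairs with `v ∈ FF G U q`; remove the pairs one at a time; the factors
of the other pairs `(v', q')` depend only on the adjacencies `{v', u'}`, `q' u' ≠ 0`, none of which is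
a `{v, u}` with `q u ≠ 0` (`v' ∈ Z` is off all the supports; if `v' = v` then `q' ≠ q` have disjoint
supports).
(Alternatively use `card_filter_glue` with `R = {v // v ∈ su qs}`.)
-/

set_option autoImplicit false

namespace Pool.Agent.H95.DL

open Matrix Classical Pool.Agent.H66.SP Pool.Agent.H95.SQ

theorem TyP_sei_congr {V : Type*} (G G' : SimpleGraph V) (x y : V)
    (h : G.Adj x y ↔ G'.Adj x y) : sei ℤ G x y = sei ℤ G' x y := by
  simp only [sei, Matrix.of_apply, h]

theorem TyP_FF_iff {V : Type*} [Fintype V] (U : Finset V) (q : V → ℤ) (v : V)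
    (G G' : SimpleGraph V) (h : ∀ u, q u ≠ 0 → (G.Adj v u ↔ G'.Adj v u)) :
    v ∈ FF G U q ↔ v ∈ FF G' U q := by
  have e : ∀ u, q u ≠ 0 → sei ℤ G v u = sei ℤ G' v u := fun u hu =>
    TyP_sei_congr G G' v u (h u hu)
  unfold FF
  simp only [Finset.mem_filter, Finset.mem_univ, true_and]
  have e1 : (∀ u, q u ≠ 0 → sei ℤ G v u = q u) ↔ (∀ u, q u ≠ 0 → sei ℤ G' v u = q u) :=
    ⟨fun h1 u hu => (e u hu) ▸ h1 u hu, fun h1 u hu => (e u hu).symm ▸ h1 u hu⟩
  have e2 : (∀ u, q u ≠ 0 → sei ℤ G v u = - q u) ↔ (∀ u, q u ≠ 0 → sei ℤ G' v u = - q u) :=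
    ⟨fun h1 u hu => (e u hu) ▸ h1 u hu, fun h1 u hu => (e u hu).symm ▸ h1 u hu⟩
  rw [e1, e2]

/-- the graph joining `v` to the vertices of `T` -/
def TyP_st {V : Type*} (v : V) (T : Finset V) : SimpleGraph V :=
  SimpleGraph.fromRel (fun x y => x = v ∧ y ∈ T)

theorem TyP_st_adj {V : Type*} (v : V) (T : Finset V) (x y : V) :
    (TyP_st v T).Adj x y ↔ x ≠ y ∧ ((x = v ∧ y ∈ T) ∨ (y = v ∧ x ∈ T)) := by
  simp [TyP_st]

theorem TyP_sd_adj {V : Type*} (G H : SimpleGraph V) (x y : V) :
    (symmDiff G H).Adj x y ↔ (G.Adj x y ∧ ¬ H.Adj x y) ∨ (H.Adj x y ∧ ¬ G.Adj x y) := by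
  simp [symmDiff_def]

theorem TyP_sum_sd {V : Type*} [Fintype V] [DecidableEq V] (H : SimpleGraph V)
    (h : SimpleGraph V → ℝ) : ∑ G : SimpleGraph V, h (symmDiff G H) = ∑ G : SimpleGraph V, h G :=
  Equiv.sum_comp (Function.Involutive.toPerm (fun G : SimpleGraph V => symmDiff G H)
    (fun G => symmDiff_symmDiff_cancel_right H G)) h

theorem row_half {V : Type*} [Fintype V] [DecidableEq V] (U : Finset V) (q : V → ℤ)
    (hq : IsTest q) (v : V) (hv : v ∉ U) (hqv : q v = 0) (f : SimpleGraph V → ℝ)
    (hf0 : ∀ G, 0 ≤ f G)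
    (hf : ∀ G G' : SimpleGraph V, (∀ x y, ¬ (x = v ∧ q y ≠ 0) → ¬ (y = v ∧ q x ≠ 0) →
      (G.Adj x y ↔ G'.Adj x y)) → f G = f G') :
    ∑ G : SimpleGraph V, f G * (if v ∈ FF G U q then 1 / 2 else 1) ≤
      63 / 64 * ∑ G : SimpleGraph V, f G := by
  obtain ⟨hq1, hq2⟩ := hq
  -- the support
  set S : Finset V := (Finset.univ : Finset V).filter (fun u => q u ≠ 0) with hS
  have hmS : ∀ u, u ∈ S ↔ q u ≠ 0 := fun u => by simp [hS]
  have hcS : S.card = nz q := by
    unfold nz
    apply congrArg
    ext u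
    simp [hS]
  have hSne : S.Nonempty := by
    rw [← Finset.card_pos, hcS]
    omega
  have hvS : v ∉ S := fun h => (hmS v).1 h hqv
  -- the indicator
  let g : SimpleGraph V → ℝ := fun G => if v ∈ FF G U q then 1 else 0
  have hg : ∀ G, f G * (if v ∈ FF G U q then 1 / 2 else 1) = f G - 1 / 2 * (f G * g G) := by
    intro G
    by_cases h : v ∈ FF G U q
    · simp only [g, h, if_true]
      ring
    · simp only [g, h, if_false]
      ring
  have hg0 : ∀ G, 0 ≤ g G := fun G => by
    simp only [g]
    split_ifs <;> norm_num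
  have hgm : ∀ G, v ∈ FF G U q → g G = 1 := fun G h => by simp only [g, h, if_true]
  -- invariance
  have hfT : ∀ T ⊆ S, ∀ G, f (symmDiff G (TyP_st v T)) = f G := by
    intro T hT G
    apply hf
    intro x y h1 h2
    rw [TyP_sd_adj, TyP_st_adj]
    have h3 : ¬ (x ≠ y ∧ ((x = v ∧ y ∈ T) ∨ (y = v ∧ x ∈ T))) := by
      rintro ⟨_, ⟨hx, hy⟩ | ⟨hy, hx⟩⟩
      · exact h1 ⟨hx, (hmS y).1 (hT hy)⟩
      · exact h2 ⟨hy, (hmS x).1 (hT hx)⟩
    tauto
  -- two patterns
  have key : ∀ G, (2 : ℝ) ≤ ∑ T ∈ S.powerset, g (symmDiff G (TyP_st v T)) := by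
    intro G
    let T1 : Finset V := S.filter (fun u => sei ℤ G v u ≠ q u)
    let T2 : Finset V := S.filter (fun u => sei ℤ G v u ≠ - q u)
    have hne : ∀ u, q u ≠ 0 → v ≠ u := by
      rintro u hu rfl
      exact hu hqv
    have hsei : ∀ (G' : SimpleGraph V) (u : V), q u ≠ 0 →
        sei ℤ G' v u = if G'.Adj v u then -1 else 1 := by
      intro G' u hu
      simp only [sei, Matrix.of_apply, hne u hu, if_false]
    have hst : ∀ (T : Finset V) (u : V), q u ≠ 0 → ((TyP_st v T).Adj v u ↔ u ∈ T) := by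
      intro T u hu
      rw [TyP_st_adj]
      constructor
      · rintro ⟨_, ⟨_, h⟩ | ⟨h, _⟩⟩
        · exact h
        · exact absurd h.symm (hne u hu)
      · intro h
        exact ⟨hne u hu, Or.inl ⟨rfl, h⟩⟩
    have hflip : ∀ (T : Finset V) (u : V), q u ≠ 0 →
        sei ℤ (symmDiff G (TyP_st v T)) v u = if u ∈ T then - sei ℤ G v u else sei ℤ G v u := by
      intro T u hu
      rw [hsei _ u hu, hsei _ u hu, TyP_sd_adj, hst T u hu]
      by_cases h1 : G.Adj v u <;> by_cases h2 : u ∈ T <;> simp [h1, h2]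
    have hpm : ∀ u, q u ≠ 0 → (sei ℤ G v u = q u ∨ sei ℤ G v u = - q u) := by
      intro u hu
      rw [hsei _ u hu]
      rcases hq1 u with h | h | h
      · exact absurd h hu
      · rw [h]
        by_cases h1 : G.Adj v u <;> simp [h1]
      · rw [h]
        by_cases h1 : G.Adj v u <;> simp [h1]
    have hT1 : v ∈ FF (symmDiff G (TyP_st v T1)) U q := by
      unfold FF
      simp only [Finset.mem_filter, Finset.mem_univ, true_and]
      refine ⟨hv, hqv, Or.inl ?_⟩
      intro u hu
      rw [hflip _ u hu]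
      by_cases h : sei ℤ G v u = q u
      · have : u ∉ T1 := by simp [T1, h]
        rw [if_neg this, h]
      · have : u ∈ T1 := by simp [T1, h, (hmS u).2 hu]
        rw [if_pos this]
        rcases hpm u hu with h1 | h1
        · exact absurd h1 h
        · rw [h1, neg_neg]
    have hT2 : v ∈ FF (symmDiff G (TyP_st v T2)) U q := by
      unfold FF
      simp only [Finset.mem_filter, Finset.mem_univ, true_and]
      refine ⟨hv, hqv, Or.inr ?_⟩
      intro u hu
      rw [hflip _ u hu]
      by_cases h : sei ℤ G v u = - q u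
      · have : u ∉ T2 := by simp [T2, h]
        rw [if_neg this, h]
      · have : u ∈ T2 := by simp [T2, h, (hmS u).2 hu]
        rw [if_pos this]
        rcases hpm u hu with h1 | h1
        · rw [h1]
        · exact absurd h1 h
    have h12 : T1 ≠ T2 := by
      intro h
      obtain ⟨u, hu⟩ := hSne
      have hu' := (hmS u).1 hu
      rcases hpm u hu' with h1 | h1
      · have a : u ∉ T1 := by simp [T1, h1]
        have b : u ∈ T2 := by
          simp only [T2, Finset.mem_filter]
          refine ⟨hu, ?_⟩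
          rw [h1]
          intro h2
          apply hu'
          omega
        rw [h] at a
        exact a b
      · have a : u ∉ T2 := by simp [T2, h1]
        have b : u ∈ T1 := by
          simp only [T1, Finset.mem_filter]
          refine ⟨hu, ?_⟩
          rw [h1]
          intro h2
          apply hu'
          omega
        rw [h] at b
        exact a b
    have hsub : ({T1, T2} : Finset (Finset V)) ⊆ S.powerset := by
      intro T hT
      rw [Finset.mem_insert, Finset.mem_singleton] at hT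
      rw [Finset.mem_powerset]
      rcases hT with rfl | rfl
      · exact Finset.filter_subset _ _
      · exact Finset.filter_subset _ _
    calc (2 : ℝ) = ∑ T ∈ ({T1, T2} : Finset (Finset V)), g (symmDiff G (TyP_st v T)) := by
          rw [Finset.sum_pair h12, hgm _ hT1, hgm _ hT2]
          norm_num
      _ ≤ _ := Finset.sum_le_sum_of_subset_of_nonneg hsub (fun _ _ _ => hg0 _)
  -- the average
  have hA : (2 : ℝ) ^ (nz q) * ∑ G : SimpleGraph V, f G * g G =
      ∑ G : SimpleGraph V, f G * ∑ T ∈ S.powerset, g (symmDiff G (TyP_st v T)) := by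
    calc (2 : ℝ) ^ (nz q) * ∑ G : SimpleGraph V, f G * g G
        = ∑ T ∈ S.powerset, ∑ G : SimpleGraph V, f G * g G := by
          rw [Finset.sum_const, Finset.card_powerset, hcS, nsmul_eq_mul]
          push_cast
          ring
      _ = ∑ T ∈ S.powerset, ∑ G : SimpleGraph V, f G * g (symmDiff G (TyP_st v T)) := by
          apply Finset.sum_congr rfl
          intro T hT
          rw [← TyP_sum_sd (TyP_st v T) (fun G => f G * g G)]
          apply Finset.sum_congr rfl
          intro G _
          rw [hfT T (Finset.mem_powerset.1 hT) G]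
      _ = _ := by
          rw [Finset.sum_comm]
          apply Finset.sum_congr rfl
          intro G _
          rw [Finset.mul_sum]
  have hB : (2 : ℝ) * ∑ G : SimpleGraph V, f G ≤
      ∑ G : SimpleGraph V, f G * ∑ T ∈ S.powerset, g (symmDiff G (TyP_st v T)) := by
    rw [Finset.mul_sum]
    apply Finset.sum_le_sum
    intro G _
    have := mul_le_mul_of_nonneg_left (key G) (hf0 G)
    linarith
  have hC : 0 ≤ ∑ G : SimpleGraph V, f G * g G :=
    Finset.sum_nonneg (fun G _ => mul_nonneg (hf0 G) (hg0 G))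
  have hD : (2 : ℝ) ^ (nz q) ≤ 64 := by
    rcases hq2 with h | h | h <;> rw [h] <;> norm_num
  have hE : (2 : ℝ) * ∑ G : SimpleGraph V, f G ≤ 64 * ∑ G : SimpleGraph V, f G * g G := by
    calc _ ≤ _ := hB
      _ = _ := hA.symm
      _ ≤ _ := mul_le_mul_of_nonneg_right hD hC
  calc ∑ G : SimpleGraph V, f G * (if v ∈ FF G U q then 1 / 2 else 1)
      = ∑ G : SimpleGraph V, f G - 1 / 2 * ∑ G : SimpleGraph V, f G * g G := by
        rw [Finset.mul_sum, ← Finset.sum_sub_distrib]
        exact Finset.sum_congr rfl (fun G _ => hg G)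
    _ ≤ _ := by linarith

/-- one test, several vertices -/
theorem TyP_inner {V : Type*} [Fintype V] [DecidableEq V] (U : Finset V) (q : V → ℤ)
    (hq : IsTest q) (Z : Finset V) : ∀ (_ : ∀ v ∈ Z, v ∉ U) (_ : ∀ v ∈ Z, q v = 0)
    (f : SimpleGraph V → ℝ) (_ : ∀ G, 0 ≤ f G)
    (_ : ∀ G G' : SimpleGraph V, (∀ x y, ¬ (x ∈ Z ∧ q y ≠ 0) → ¬ (y ∈ Z ∧ q x ≠ 0) →
      (G.Adj x y ↔ G'.Adj x y)) → f G = f G'),
    ∑ G : SimpleGraph V, f G * ((1 : ℝ) / 2) ^ ((FF G U q ∩ Z).card) ≤
      (63 / 64) ^ Z.card * ∑ G : SimpleGraph V, f G := by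
  induction Z using Finset.induction_on with
  | empty =>
    intro _ _ f _ _
    simp
  | insert v Z hvZ ih =>
    intro hZU hZq f hf0 hf
    have hE : ∀ G : SimpleGraph V, f G * ((1 : ℝ) / 2) ^ ((FF G U q ∩ insert v Z).card) =
        (f G * ((1 : ℝ) / 2) ^ ((FF G U q ∩ Z).card)) * (if v ∈ FF G U q then 1 / 2 else 1) := by
      intro G
      by_cases h : v ∈ FF G U q
      · rw [Finset.inter_insert_of_mem h, Finset.card_insert_of_notMem, pow_succ, if_pos h]
        · ring
        · intro h1
          exact hvZ (Finset.mem_inter.1 h1).2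
      · rw [Finset.inter_insert_of_notMem h, if_neg h, mul_one]
    have h1 := row_half U q hq v (hZU v (Finset.mem_insert_self _ _))
      (hZq v (Finset.mem_insert_self _ _))
      (fun G => f G * ((1 : ℝ) / 2) ^ ((FF G U q ∩ Z).card))
      (fun G => mul_nonneg (hf0 G) (by positivity)) (by
        intro G G' hGG
        have e1 : f G = f G' := by
          apply hf
          intro x y hx hy
          apply hGG
          · rintro ⟨rfl, h⟩
            exact hx ⟨Finset.mem_insert_self _ _, h⟩
          · rintro ⟨rfl, h⟩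
            exact hy ⟨Finset.mem_insert_self _ _, h⟩
        have e2 : FF G U q ∩ Z = FF G' U q ∩ Z := by
          ext w
          rw [Finset.mem_inter, Finset.mem_inter]
          refine and_congr_left ?_
          intro hw
          apply TyP_FF_iff
          intro u hu
          apply hGG
          · rintro ⟨rfl, _⟩
            exact hvZ hw
          · rintro ⟨_, h⟩
            exact h (hZq w (Finset.mem_insert_of_mem hw))
        show f G * ((1 : ℝ) / 2) ^ ((FF G U q ∩ Z).card) =
          f G' * ((1 : ℝ) / 2) ^ ((FF G' U q ∩ Z).card)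
        rw [e1, e2])
    have h2 := ih (fun w hw => hZU w (Finset.mem_insert_of_mem hw))
      (fun w hw => hZq w (Finset.mem_insert_of_mem hw)) f hf0 (by
        intro G G' hGG
        apply hf
        intro x y hx hy
        apply hGG
        · rintro ⟨h, h'⟩
          exact hx ⟨Finset.mem_insert_of_mem h, h'⟩
        · rintro ⟨h, h'⟩
          exact hy ⟨Finset.mem_insert_of_mem h, h'⟩)
    calc ∑ G : SimpleGraph V, f G * ((1 : ℝ) / 2) ^ ((FF G U q ∩ insert v Z).card)
        = ∑ G : SimpleGraph V, (f G * ((1 : ℝ) / 2) ^ ((FF G U q ∩ Z).card)) *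
            (if v ∈ FF G U q then 1 / 2 else 1) := Finset.sum_congr rfl (fun G _ => hE G)
      _ ≤ 63 / 64 * ∑ G : SimpleGraph V, f G * ((1 : ℝ) / 2) ^ ((FF G U q ∩ Z).card) := h1
      _ ≤ 63 / 64 * ((63 / 64) ^ Z.card * ∑ G : SimpleGraph V, f G) :=
          mul_le_mul_of_nonneg_left h2 (by norm_num)
      _ = _ := by
          rw [Finset.card_insert_of_notMem hvZ, pow_succ]
          ring

theorem ty_prod {V : Type*} [Fintype V] [DecidableEq V] (U Z : Finset V)
    (qs : List (V → ℤ)) (hqs : Fam qs) (hZU : ∀ v ∈ Z, v ∉ U) (hZq : ∀ v ∈ Z, v ∉ su qs) :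
    ∑ G : SimpleGraph V, ((1 : ℝ) / 2) ^ ((qs.map (fun q => (FF G U q ∩ Z).card)).sum) ≤
      (Fintype.card (SimpleGraph V) : ℝ) * (63 / 64) ^ (qs.length * Z.card) := by
  have hsu : ∀ (rs : List (V → ℤ)) (v : V), v ∉ su rs → ∀ r ∈ rs, r v = 0 := by
    intro rs v hv r hr
    by_contra h
    apply hv
    unfold su
    rw [Finset.mem_filter]
    exact ⟨Finset.mem_univ _, r, hr, h⟩
  induction qs with
  | nil => simp
  | cons q qs ih =>
    obtain ⟨ht, hp⟩ := hqs
    rw [List.pairwise_cons] at hp
    have hF : Fam qs := ⟨fun r hr => ht r (List.mem_cons_of_mem _ hr), hp.2⟩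
    have hZ0 : ∀ v ∈ Z, ∀ r ∈ q :: qs, r v = 0 := fun v hv => hsu _ v (hZq v hv)
    have hZq' : ∀ v ∈ Z, v ∉ su qs := by
      intro v hv h
      unfold su at h
      rw [Finset.mem_filter] at h
      obtain ⟨_, r, hr, hr0⟩ := h
      exact hr0 (hZ0 v hv r (List.mem_cons_of_mem _ hr))
    have h2 := ih hF hZq'
    have h1 := TyP_inner U q (ht q (List.mem_cons_self)) Z hZU
      (fun v hv => hZ0 v hv q (List.mem_cons_self))
      (fun G => ((1 : ℝ) / 2) ^ ((qs.map (fun q => (FF G U q ∩ Z).card)).sum))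
      (fun G => by positivity) (by
        intro G G' hGG
        have e : qs.map (fun q => (FF G U q ∩ Z).card) =
            qs.map (fun q => (FF G' U q ∩ Z).card) := by
          apply List.map_congr_left
          intro r hr
          congr 1
          ext w
          rw [Finset.mem_inter, Finset.mem_inter]
          refine and_congr_left ?_
          intro hw
          apply TyP_FF_iff
          intro u hu
          apply hGG
          · rintro ⟨_, h⟩
            rcases hp.1 r hr u with h0 | h0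
            · exact h h0
            · exact hu h0
          · rintro ⟨h, _⟩
            exact hu (hZ0 u h r (List.mem_cons_of_mem _ hr))
        show ((1 : ℝ) / 2) ^ ((qs.map (fun q => (FF G U q ∩ Z).card)).sum) =
          ((1 : ℝ) / 2) ^ ((qs.map (fun q => (FF G' U q ∩ Z).card)).sum)
        rw [e])
    calc ∑ G : SimpleGraph V, ((1 : ℝ) / 2) ^
          (((q :: qs).map (fun q => (FF G U q ∩ Z).card)).sum)
        = ∑ G : SimpleGraph V, ((1 : ℝ) / 2) ^ ((qs.map (fun q => (FF G U q ∩ Z).card)).sum) *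
            ((1 : ℝ) / 2) ^ ((FF G U q ∩ Z).card) := by
          apply Finset.sum_congr rfl
          intro G _
          rw [List.map_cons, List.sum_cons, pow_add]
          ring
      _ ≤ (63 / 64) ^ Z.card * ∑ G : SimpleGraph V,
            ((1 : ℝ) / 2) ^ ((qs.map (fun q => (FF G U q ∩ Z).card)).sum) := h1
      _ ≤ (63 / 64) ^ Z.card * ((Fintype.card (SimpleGraph V) : ℝ) *
            (63 / 64) ^ (qs.length * Z.card)) :=
          mul_le_mul_of_nonneg_left h2 (by positivity)
      _ = _ := by
          rw [List.length_cons, Nat.succ_mul, pow_add]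
          ring

end Pool.Agent.H95.DL
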