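import Pool.Agent.H95.DL.TyG
import Pool.Agent.H95.DL.TyP

/-!
# Job DL-25: graphs which are not typical, count

PROOF of `ty_fixed`.  Let `Z' = Z \ su qs`, `|Z'| ≥ |Z| - 6 m` (`card_su_le`).  In the set the exponent
`E(G) = ∑_{q ∈ qs} |FF G U q ∩ Z'|` is at most `m s2`, so its indicator is at most
`2^(m s2) (1/2)^(E(G))`; sum over `G` and use `ty_prod` for `Z'`; `(63/64)^(m |Z'|)` is at most
`(63/64)^(m (|Z| - 6 m))`.
PROOF of `card_not_ty_le`.  `ty_greedy` and a union bound over `Z` (`2^N` sets) and over the lists of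
`m` tests: a test is determined by a map `Fin 6 → Option (V × Bool)` (its nonzero entries and their
signs), so there are at most `(2 N + 1)^6` tests and `((2 N + 1)^6)^m` lists of length `m`
(`List.Vector` or functions `Fin m → tests`; use `List.ofFn`).
-/

set_option autoImplicit false

namespace Pool.Agent.H95.DL

open Matrix Classical Pool.Agent.H66.SP Pool.Agent.H95.SQ

private theorem TyC_inter {V : Type*} (i₁ i₂ : DecidableEq V) (A B : Finset V) :
    @Inter.inter (Finset V) (@Finset.instInter V i₁) A B =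
      @Inter.inter (Finset V) (@Finset.instInter V i₂) A B := by
  rw [Subsingleton.elim i₁ i₂]

private theorem TyC_sum_le {V : Type*} [Fintype V] [DecidableEq V] (G : SimpleGraph V) (U Z Z' : Finset V)
    (s2 : ℕ) (hZ : Z' ⊆ Z) : ∀ qs : List (V → ℤ), (∀ q ∈ qs, (FF G U q ∩ Z).card < s2) →
    (qs.map (fun q => (FF G U q ∩ Z').card)).sum ≤ qs.length * s2 := by
  intro qs
  induction qs with
  | nil => intro _; simp
  | cons q qs ih =>
    intro h
    rw [List.map_cons, List.sum_cons, List.length_cons, add_mul, one_mul, add_comm]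
    refine add_le_add (ih fun r hr => h r (List.mem_cons_of_mem _ hr)) ?_
    exact (Finset.card_le_card (Finset.inter_subset_inter_left hZ)).trans
      (h q List.mem_cons_self).le

theorem ty_fixed {V : Type*} [Fintype V] [DecidableEq V] (U Z : Finset V) (s2 m : ℕ)
    (qs : List (V → ℤ)) (hqs : Fam qs) (hm : qs.length = m) (hZU : ∀ v ∈ Z, v ∉ U) :
    (((Finset.univ : Finset (SimpleGraph V)).filter
      (fun G => ∀ q ∈ qs, (FF G U q ∩ Z).card < s2)).card : ℝ) ≤
      (Fintype.card (SimpleGraph V) : ℝ) * (2 ^ (m * s2) * (63 / 64) ^ (m * (Z.card - 6 * m))) := by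
  set Z' : Finset V := Z.filter (fun v => v ∉ su qs) with hZ'
  have hsub : Z' ⊆ Z := Finset.filter_subset _ _
  have hcard : Z.card - 6 * m ≤ Z'.card := by
    have h1 : Z.card ≤ Z'.card + (su qs).card := by
      have h2 : Z ⊆ Z' ∪ su qs := by
        intro v hv
        by_cases h : v ∈ su qs
        · exact Finset.mem_union_right _ h
        · exact Finset.mem_union_left _ (Finset.mem_filter.2 ⟨hv, h⟩)
      exact (Finset.card_le_card h2).trans (Finset.card_union_le _ _)
    have h3 := card_su_le qs hqs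
    rw [hm] at h3
    omega
  have hprod := ty_prod U Z' qs hqs (fun v hv => hZU v (hsub hv))
    (fun v hv => (Finset.mem_filter.1 hv).2)
  rw [hm] at hprod
  have hone : ∀ G ∈ (Finset.univ : Finset (SimpleGraph V)).filter
      (fun G => ∀ q ∈ qs, (FF G U q ∩ Z).card < s2), (1 : ℝ) ≤ 2 ^ (m * s2) *
        ((1 : ℝ) / 2) ^ ((qs.map (fun q => (FF G U q ∩ Z').card)).sum) := by
    intro G hG
    have h1 := TyC_sum_le G U Z Z' s2 hsub qs (Finset.mem_filter.1 hG).2
    rw [hm] at h1
    obtain ⟨k, hk⟩ := Nat.exists_eq_add_of_le h1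
    rw [hk, pow_add, mul_right_comm, ← mul_pow, mul_one_div_cancel (two_ne_zero), one_pow,
      one_mul]
    exact one_le_pow₀ (by norm_num)
  calc (((Finset.univ : Finset (SimpleGraph V)).filter
        (fun G => ∀ q ∈ qs, (FF G U q ∩ Z).card < s2)).card : ℝ)
      = ∑ G ∈ (Finset.univ : Finset (SimpleGraph V)).filter
        (fun G => ∀ q ∈ qs, (FF G U q ∩ Z).card < s2), (1 : ℝ) := by
        rw [Finset.sum_const, nsmul_eq_mul, mul_one]
    _ ≤ ∑ G ∈ (Finset.univ : Finset (SimpleGraph V)).filter
        (fun G => ∀ q ∈ qs, (FF G U q ∩ Z).card < s2), 2 ^ (m * s2) *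
        ((1 : ℝ) / 2) ^ ((qs.map (fun q => (FF G U q ∩ Z').card)).sum) := Finset.sum_le_sum hone
    _ ≤ ∑ G : SimpleGraph V, 2 ^ (m * s2) *
        ((1 : ℝ) / 2) ^ ((qs.map (fun q => (FF G U q ∩ Z').card)).sum) :=
        Finset.sum_le_sum_of_subset_of_nonneg (Finset.filter_subset _ _)
          (fun G _ _ => by positivity)
    _ = 2 ^ (m * s2) * ∑ G : SimpleGraph V,
        ((1 : ℝ) / 2) ^ ((qs.map (fun q => (FF G U q ∩ Z').card)).sum) := by
        rw [Finset.mul_sum]
    _ ≤ 2 ^ (m * s2) * ((Fintype.card (SimpleGraph V) : ℝ) * (63 / 64) ^ (m * Z'.card)) :=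
        mul_le_mul_of_nonneg_left hprod (by positivity)
    _ ≤ 2 ^ (m * s2) * ((Fintype.card (SimpleGraph V) : ℝ) *
        (63 / 64) ^ (m * (Z.card - 6 * m))) := by
        refine mul_le_mul_of_nonneg_left (mul_le_mul_of_nonneg_left ?_ (by positivity))
          (by positivity)
        exact pow_le_pow_of_le_one (by norm_num) (by norm_num) (Nat.mul_le_mul_left _ hcard)
    _ = (Fintype.card (SimpleGraph V) : ℝ) *
        (2 ^ (m * s2) * (63 / 64) ^ (m * (Z.card - 6 * m))) := by ring

private theorem TyC_mf {α : Type*} (s : Finset α) (p : α → Prop) (i : DecidablePred p) (a : α) :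
    a ∈ @Finset.filter α p i s ↔ a ∈ s ∧ p a := Finset.mem_filter

/-- decoding of one entry of a test -/
private def TyC_dec {V : Type*} [DecidableEq V] : Option (V × Bool) → (V → ℤ)
  | none => 0
  | some (v, b) => Pi.single v (if b = true then 1 else -1)

private theorem TyC_enc {V : Type*} [Fintype V] [DecidableEq V] : ∀ (k : ℕ) (q : V → ℤ),
    (∀ v, q v = 0 ∨ q v = 1 ∨ q v = -1) → nz q ≤ k →
    ∃ f : Fin k → Option (V × Bool), q = ∑ i, TyC_dec (f i) := by
  intro k
  induction k with
  | zero =>
    intro q hq hk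
    refine ⟨fun _ => none, ?_⟩
    rw [Finset.univ_eq_empty, Finset.sum_empty]
    funext v
    by_contra h
    have h1 : 0 < nz q := by
      unfold nz
      refine Finset.card_pos.2 ⟨v, ?_⟩
      rw [TyC_mf]
      exact ⟨Finset.mem_univ _, h⟩
    omega
  | succ k ih =>
    intro q hq hk
    by_cases h0 : q = 0
    · refine ⟨fun _ => none, ?_⟩
      rw [h0]
      exact (Finset.sum_eq_zero fun _ _ => rfl).symm
    · obtain ⟨v, hv⟩ : ∃ v, q v ≠ 0 := by
        by_contra h
        push Not at h
        exact h0 (funext h)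
      have h1 : ∀ u, Function.update q v 0 u = 0 ∨ Function.update q v 0 u = 1 ∨
          Function.update q v 0 u = -1 := by
        intro u
        by_cases hu : u = v
        · rw [hu, Function.update_self]
          exact Or.inl rfl
        · rw [Function.update_of_ne hu]
          exact hq u
      have h2 : nz (Function.update q v 0) < nz q := by
        unfold nz
        refine Finset.card_lt_card ?_
        rw [Finset.ssubset_iff_of_subset]
        swap
        · intro u hu
          rw [TyC_mf] at hu ⊢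
          refine ⟨Finset.mem_univ _, ?_⟩
          by_cases huv : u = v
          · rw [huv]
            exact hv
          · rw [Function.update_of_ne huv] at hu
            exact hu.2
        refine ⟨v, ?_, ?_⟩
        · rw [TyC_mf]
          exact ⟨Finset.mem_univ _, hv⟩
        · rw [TyC_mf, Function.update_self]
          exact fun h3 => h3.2 rfl
      obtain ⟨f, hf⟩ := ih _ h1 (by omega)
      refine ⟨Fin.cons (some (v, decide (q v = 1))) f, ?_⟩
      rw [Fin.sum_univ_succ, Fin.cons_zero]
      simp only [Fin.cons_succ]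
      rw [← hf]
      funext u
      rw [Pi.add_apply]
      by_cases hu : u = v
      · subst hu
        rw [Function.update_self, add_zero]
        show q u = (Pi.single u (if decide (q u = 1) = true then (1 : ℤ) else -1) : V → ℤ) u
        rw [Pi.single_eq_same]
        rcases hq u with h | h | h
        · exact absurd h hv
        · simp [h]
        · simp [h]
      · rw [Function.update_of_ne hu]
        show q u = (Pi.single v (if decide (q v = 1) = true then (1 : ℤ) else -1) : V → ℤ) u + q u
        rw [Pi.single_eq_of_ne hu, zero_add]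

/-- decoding of a list of tests -/
private def TyC_list {V : Type*} [DecidableEq V] {m : ℕ} (F : Fin m → Fin 6 → Option (V × Bool)) :
    List (V → ℤ) := List.ofFn (fun i => ∑ j, TyC_dec (F i j))

private theorem TyC_enc_list {V : Type*} [Fintype V] [DecidableEq V] {m : ℕ}
    (qs : List (V → ℤ)) (hqs : Fam qs) (hm : qs.length = m) :
    ∃ F : Fin m → Fin 6 → Option (V × Bool), qs = TyC_list F := by
  subst hm
  have h1 : ∀ i : Fin qs.length, ∃ f : Fin 6 → Option (V × Bool),
      qs.get i = ∑ j, TyC_dec (f j) := by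
    intro i
    obtain ⟨h2, h3⟩ := hqs.1 _ (List.get_mem qs i)
    exact TyC_enc 6 _ h2 (by omega)
  choose F hF using h1
  refine ⟨F, ?_⟩
  unfold TyC_list
  conv_lhs => rw [← List.ofFn_get qs]
  congr 1
  funext i
  exact hF i

theorem card_not_ty_le {V : Type*} [Fintype V] [DecidableEq V] (U : Finset V)
    (m m6 s1 s2 : ℕ) (hm : 6 * m ≤ m6) :
    (((Finset.univ : Finset (SimpleGraph V)).filter
      (fun G => ¬ TY m6 s1 s2 G U)).card : ℝ) ≤
      (Fintype.card (SimpleGraph V) : ℝ) * (2 ^ Fintype.card V *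
        ((2 * (Fintype.card V : ℝ) + 1) ^ 6) ^ m *
        (2 ^ (m * s2) * (63 / 64) ^ (m * (s1 - 6 * m)))) := by
  let A : Finset V × (Fin m → Fin 6 → Option (V × Bool)) → Finset (SimpleGraph V) := fun x =>
    if Fam (TyC_list x.2) ∧ (∀ v ∈ x.1, v ∉ U) ∧ s1 ≤ x.1.card then
      (Finset.univ : Finset (SimpleGraph V)).filter
        (fun G => ∀ q ∈ TyC_list x.2, (FF G U q ∩ x.1).card < s2) else ∅
  have hsub : (Finset.univ : Finset (SimpleGraph V)).filter (fun G => ¬ TY m6 s1 s2 G U) ⊆
      Finset.univ.biUnion A := by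
    intro G hG
    obtain ⟨Z, hZU, hZ, qs, hqs, hlen, h⟩ := ty_greedy m m6 s1 s2 hm G U (Finset.mem_filter.1 hG).2
    obtain ⟨F, hF⟩ := TyC_enc_list qs hqs hlen
    rw [Finset.mem_biUnion]
    refine ⟨(Z, F), Finset.mem_univ _, ?_⟩
    show G ∈ if Fam (TyC_list F) ∧ (∀ v ∈ Z, v ∉ U) ∧ s1 ≤ Z.card then
      (Finset.univ : Finset (SimpleGraph V)).filter
        (fun G => ∀ q ∈ TyC_list F, (FF G U q ∩ Z).card < s2) else ∅
    rw [if_pos ⟨by rw [← hF]; exact hqs, hZU, hZ⟩, Finset.mem_filter, ← hF]
    refine ⟨Finset.mem_univ _, fun q hq => ?_⟩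
    have h1 := (h q hq).2
    rw [TyC_inter _ (inferInstance : DecidableEq V)] at h1
    exact h1
  have hA : ∀ x, ((A x).card : ℝ) ≤ (Fintype.card (SimpleGraph V) : ℝ) *
      (2 ^ (m * s2) * (63 / 64) ^ (m * (s1 - 6 * m))) := by
    intro x
    show (((if Fam (TyC_list x.2) ∧ (∀ v ∈ x.1, v ∉ U) ∧ s1 ≤ x.1.card then
      (Finset.univ : Finset (SimpleGraph V)).filter
        (fun G => ∀ q ∈ TyC_list x.2, (FF G U q ∩ x.1).card < s2) else ∅ :
        Finset (SimpleGraph V)).card : ℕ) : ℝ) ≤ _
    split_ifs with h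
    · have hlen : (TyC_list x.2).length = m := by
        unfold TyC_list
        rw [List.length_ofFn]
      refine (ty_fixed U x.1 s2 m (TyC_list x.2) h.1 hlen h.2.1).trans ?_
      refine mul_le_mul_of_nonneg_left (mul_le_mul_of_nonneg_left ?_ (by positivity))
        (by positivity)
      refine pow_le_pow_of_le_one (by norm_num) (by norm_num) (Nat.mul_le_mul_left _ ?_)
      have := h.2.2
      omega
    · rw [Finset.card_empty, Nat.cast_zero]
      positivity
  have hcount : (Fintype.card (Finset V × (Fin m → Fin 6 → Option (V × Bool))) : ℝ) =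
      2 ^ Fintype.card V * ((2 * (Fintype.card V : ℝ) + 1) ^ 6) ^ m := by
    rw [Fintype.card_prod, Fintype.card_finset, Fintype.card_fun, Fintype.card_fun,
      Fintype.card_option, Fintype.card_prod, Fintype.card_bool, Fintype.card_fin,
      Fintype.card_fin]
    push_cast
    rw [mul_comm (Fintype.card V : ℝ) 2]
  calc (((Finset.univ : Finset (SimpleGraph V)).filter (fun G => ¬ TY m6 s1 s2 G U)).card : ℝ)
      ≤ ((Finset.univ.biUnion A).card : ℝ) := by
        exact_mod_cast Finset.card_le_card hsub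
    _ ≤ ∑ x, ((A x).card : ℝ) := by
        exact_mod_cast Finset.card_biUnion_le
    _ ≤ ∑ _x : Finset V × (Fin m → Fin 6 → Option (V × Bool)),
        (Fintype.card (SimpleGraph V) : ℝ) *
          (2 ^ (m * s2) * (63 / 64) ^ (m * (s1 - 6 * m))) := Finset.sum_le_sum fun x _ => hA x
    _ = (Fintype.card (SimpleGraph V) : ℝ) * (2 ^ Fintype.card V *
        ((2 * (Fintype.card V : ℝ) + 1) ^ 6) ^ m *
        (2 ^ (m * s2) * (63 / 64) ^ (m * (s1 - 6 * m)))) := by
        rw [Finset.sum_const, Finset.card_univ, nsmul_eq_mul, hcount]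
        ring

end Pool.Agent.H95.DL
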