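import Pool.Agent.H95.DL.DelC

/-!
# Job DL-23: graphs which are not typical, greedy choice

PROOF.  From `¬ TY` get `Z` (off `U`, `s1 ≤ |Z|`) such that for every `Y` with `|Y| ≤ m6` there is a
test `q` off `U` and off `Y` with `|FF G U q ∩ Z| < s2`.  By induction on `j ≤ m` there is a list `qs`
of length `j` as wanted: given `qs` of length `j < m` take `Y = su qs`, `|Y| ≤ 6 j ≤ m6`
(`card_su_le`), and the test `q` for this `Y`; `q :: qs` is a family by `fam_cons`.
-/

set_option autoImplicit false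

namespace Pool.Agent.H95.DL

open Matrix Classical Pool.Agent.H66.SP Pool.Agent.H95.SQ

theorem ty_greedy (m m6 s1 s2 : ℕ) (hm : 6 * m ≤ m6) {V : Type*} [Fintype V] (G : SimpleGraph V)
    (U : Finset V) (h : ¬ TY m6 s1 s2 G U) :
    ∃ Z : Finset V, (∀ v ∈ Z, v ∉ U) ∧ s1 ≤ Z.card ∧ ∃ qs : List (V → ℤ), Fam qs ∧
      qs.length = m ∧ ∀ q ∈ qs, Off q U ∧ (FF G U q ∩ Z).card < s2 := by
  unfold TY at h
  push Not at h
  obtain ⟨Z, hZU, hZ, hY⟩ := h
  refine ⟨Z, hZU, hZ, ?_⟩
  have key : ∀ j ≤ m, ∃ qs : List (V → ℤ), Fam qs ∧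
      qs.length = j ∧ ∀ q ∈ qs, Off q U ∧ (FF G U q ∩ Z).card < s2 := by
    intro j
    induction j with
    | zero =>
      intro _
      refine ⟨[], ⟨?_, List.Pairwise.nil⟩, rfl, ?_⟩
      · intro q hq
        exact absurd hq List.not_mem_nil
      · intro q hq
        exact absurd hq List.not_mem_nil
    | succ j ih =>
      intro hj
      obtain ⟨qs, hqs, hlen, hq⟩ := ih (by omega)
      have hcard := card_su_le qs hqs
      rw [hlen] at hcard
      obtain ⟨q, hq1, hq2, hq3, hq4⟩ := hY (su qs) (by omega)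
      refine ⟨q :: qs, (fam_cons q qs).2 ⟨hq1, hq3, hqs⟩, ?_, ?_⟩
      · rw [List.length_cons, hlen]
      · intro r hr
        rcases List.mem_cons.1 hr with rfl | hr
        · exact ⟨hq2, hq4⟩
        · exact hq r hr
  exact key m le_rfl

end Pool.Agent.H95.DL
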